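import Pool.Agent.H26.LT.Gr

/-!
Module Cross.  `gr` with `Z = ∅`: `f K P = 1` if some `A ∈ 𝒜` has `K ⊆ A ⊆ K ∪ P` and some `B ∈ ℬ` has
`K ⊆ B ⊆ K ∪ ((V \ K) \ P)`, otherwise `0` (families of subsets of `∅` have at most one pair, and none if one of
them is empty).
-/

open Finset

namespace Pool.Agent.H26.LT

open Classical in
theorem cross {V : Finset ℕ} {t : ℕ} {𝒜 ℬ : Finset (Finset ℕ)} (hA : ∀ A ∈ 𝒜, A ⊆ V)
    (hB : ∀ B ∈ ℬ, B ⊆ V) (h : ∀ A ∈ 𝒜, ∀ B ∈ ℬ, (A ∩ B).card ≠ t) :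
    dp 𝒜 ℬ ≤ ∑ K ∈ V.powerset.filter (fun K => K.card < t),
      ((V \ K).powerset.filter (fun P => (∃ A ∈ 𝒜, K ⊆ A ∧ A ⊆ K ∪ P) ∧
        ∃ B ∈ ℬ, K ⊆ B ∧ B ⊆ K ∪ ((V \ K) \ P))).card := by
  have h1 := gr ∅ V t (fun K P => if (∃ A ∈ 𝒜, K ⊆ A ∧ A ⊆ K ∪ P) ∧
        ∃ B ∈ ℬ, K ⊆ B ∧ B ⊆ K ∪ ((V \ K) \ P) then 1 else 0) 𝒜 ℬ (disjoint_empty_right _)
        (by simpa using hA) (by simpa using hB) h ?_
  · refine h1.trans (le_of_eq (sum_congr rfl fun K _ => ?_))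
    rw [card_filter]
  · intro K _ _ P _ X Y hX hY _
    have eX : ∀ a ∈ X, a = ∅ := by
      intro a ha
      obtain ⟨A, -, -, -, e⟩ := hX a ha
      rw [← e, inter_empty]
    have eY : ∀ b ∈ Y, b = ∅ := by
      intro b hb
      obtain ⟨B, -, -, -, e⟩ := hY b hb
      rw [← e, inter_empty]
    have cX : X.card ≤ 1 := card_le_one.2 fun a ha b hb => (eX a ha).trans (eX b hb).symm
    have cY : Y.card ≤ 1 := card_le_one.2 fun a ha b hb => (eY a ha).trans (eY b hb).symm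
    have hm := dp_le_mul X Y
    split_ifs with hc
    · calc dp X Y ≤ X.card * Y.card := hm
        _ ≤ 1 * 1 := Nat.mul_le_mul cX cY
        _ = 1 := rfl
    · rcases X.eq_empty_or_nonempty with e | ⟨a, ha⟩
      · rw [e, card_empty, zero_mul] at hm
        rwa [e]
      rcases Y.eq_empty_or_nonempty with e | ⟨b, hb⟩
      · rw [e, card_empty, mul_zero] at hm
        rwa [e]
      exfalso
      obtain ⟨A, hA1, hA2, hA3, -⟩ := hX a ha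
      obtain ⟨B, hB1, hB2, hB3, -⟩ := hY b hb
      rw [union_empty] at hA3 hB3
      exact hc ⟨⟨A, hA1, hA2, hA3⟩, ⟨B, hB1, hB2, hB3⟩⟩

end Pool.Agent.H26.LT
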