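import Pool.Agent.H26.LT.Defs

/-!
Module Slots.  The number of slots and its size.

`slots_card`: a slot `(P, Q)` is given by its kernel `K ⊆ V`, `|K| = j < t`, and `P ⊆ V \ K`:
`∑_j C(n,j) 2^(n-j)`.  (Compare `sc_fiber`, `sc_slots` in H37/AV/SmallCase and `bl_fiber_ge` in
H37/AV/BaseLower.)
`gs_le_un`: `C(n,j) 2^(n-j) ≤ n^j 2^n ≤ n^(t-1) 2^n` for `1 ≤ n`, `j ≤ t - 1`.
`gs_ge_un`: `gs n t ≥ C(n,t-1) 2^(n-t+1)`, and `(t-1)! C(n,t-1) ≥ (n-t+2)^(t-1) ≥ (n/2)^(t-1)` for `n ≥ 2t`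
(`Nat.pow_sub_le_descFactorial`).
`gs_le_top`: the terms `j ≤ t - 2` are at most `n^(t-2) 2^n = un t n / n` each, there are at most `t` of them.
`poly_small`: `(n+1)^k / 2^n → 0` and `n^(t-1) ≥ 1`.
`low_small`: `C n^(t-2) 2^n = (C/n) un t n`.
-/

open Finset Pool.Agent.H37 Pool.Agent.H37.AV

namespace Pool.Agent.H26.LT

private theorem sl_fiber_le (V K : Finset ℕ) (t : ℕ) (hK : K ⊆ V) :
    ((slots V t).filter (fun s => ker V s = K)).card ≤ 2 ^ (V.card - K.card) := by
  have h1 : ((slots V t).filter (fun s => ker V s = K)).card ≤ ((V \ K).powerset).card := by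
    refine Finset.card_le_card_of_injOn (fun s => s.1) ?_ ?_
    · intro s hs
      rw [mem_coe, mem_filter] at hs
      obtain ⟨hs1, hs2⟩ := hs
      obtain ⟨ha, hb, hc, hd⟩ := mem_slots.1 hs1
      rw [mem_coe, mem_powerset]
      intro x hx
      rw [mem_sdiff]
      refine ⟨ha hx, fun hxK => ?_⟩
      rw [← hs2, ker, mem_sdiff] at hxK
      exact hxK.2 (mem_union_left _ hx)
    · intro s hs s' hs' he
      rw [mem_coe, mem_filter] at hs hs'
      have key : ∀ u : Slot, u ∈ slots V t → ker V u = K → u.2 = (V \ K) \ u.1 := by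
        intro u hu1 hu2
        obtain ⟨ha, hb, hc, hd⟩ := mem_slots.1 hu1
        ext x
        constructor
        · intro hx
          rw [mem_sdiff, mem_sdiff]
          refine ⟨⟨hb hx, fun hxK => ?_⟩, fun hx1 => ?_⟩
          · rw [← hu2, ker, mem_sdiff] at hxK
            exact hxK.2 (mem_union_right _ hx)
          · exact Finset.disjoint_left.1 hc hx1 hx
        · intro hx
          rw [mem_sdiff, mem_sdiff] at hx
          by_contra hx2
          apply hx.1.2
          rw [← hu2, ker, mem_sdiff]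
          refine ⟨hx.1.1, fun hx3 => ?_⟩
          rcases mem_union.1 hx3 with hx4 | hx4
          · exact hx.2 hx4
          · exact hx2 hx4
      have e1 : s.1 = s'.1 := he
      refine Prod.ext e1 ?_
      rw [key s hs.1 hs.2, key s' hs'.1 hs'.2, e1]
  rw [card_powerset, card_sdiff_of_subset hK] at h1
  exact h1

private theorem sl_fiber_ge (V K : Finset ℕ) (t : ℕ) (hK : K ⊆ V) (hKt : K.card < t) :
    2 ^ (V.card - K.card) ≤ ((slots V t).filter (fun s => ker V s = K)).card := by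
  classical
  rw [← card_sdiff_of_subset hK, ← Finset.card_powerset]
  refine Finset.card_le_card_of_injOn (fun P => (P, (V \ K) \ P)) ?_ ?_
  · intro P hP
    rw [Finset.mem_coe, Finset.mem_powerset] at hP
    rw [Finset.mem_coe, Finset.mem_filter]
    have hk : ker V (P, (V \ K) \ P) = K := by
      unfold ker
      ext x
      simp only [Finset.mem_sdiff, Finset.mem_union]
      constructor
      · rintro ⟨h1, h2⟩
        by_contra h3
        exact h2 (by
          by_cases h4 : x ∈ P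
          · exact Or.inl h4
          · exact Or.inr ⟨⟨h1, h3⟩, h4⟩)
      · intro h
        refine ⟨hK h, ?_⟩
        rintro (h1 | h1)
        · exact (Finset.mem_sdiff.1 (hP h1)).2 h
        · exact h1.1.2 h
    refine ⟨mem_slots.2 ⟨hP.trans Finset.sdiff_subset,
      Finset.sdiff_subset.trans Finset.sdiff_subset, Finset.disjoint_sdiff, ?_⟩, hk⟩
    rw [hk]
    exact hKt
  · intro P _ P' _ he
    exact congrArg Prod.fst he

theorem slots_card (V : Finset ℕ) (t : ℕ) : (slots V t).card = gs V.card t := by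
  have h1 : (slots V t).card =
      ∑ k ∈ range t, ((slots V t).filter (fun s => (ker V s).card = k)).card := by
    refine Finset.card_eq_sum_card_fiberwise ?_
    intro s hs
    obtain ⟨_, _, _, hd⟩ := mem_slots.1 (mem_coe.1 hs)
    rw [mem_coe, mem_range]
    exact hd
  rw [h1]
  unfold gs
  refine Finset.sum_congr rfl fun k hk => ?_
  have h2 : ((slots V t).filter (fun s => (ker V s).card = k)).card =
      ∑ K ∈ powersetCard k V, (((slots V t).filter (fun s => (ker V s).card = k)).filter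
        (fun s => ker V s = K)).card := by
    refine Finset.card_eq_sum_card_fiberwise ?_
    intro s hs
    rw [mem_coe, mem_filter] at hs
    rw [mem_coe, mem_powersetCard]
    exact ⟨sdiff_subset, hs.2⟩
  rw [h2]
  have h3 : ∀ K ∈ powersetCard k V, (((slots V t).filter (fun s => (ker V s).card = k)).filter
        (fun s => ker V s = K)).card = 2 ^ (V.card - k) := by
    intro K hK
    rw [mem_powersetCard] at hK
    have h4 : ((slots V t).filter (fun s => (ker V s).card = k)).filter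
        (fun s => ker V s = K) = (slots V t).filter (fun s => ker V s = K) := by
      ext s
      rw [mem_filter, mem_filter, mem_filter]
      constructor
      · rintro ⟨⟨a, b⟩, c⟩
        exact ⟨a, c⟩
      · rintro ⟨a, c⟩
        exact ⟨⟨a, by rw [c]; exact hK.2⟩, c⟩
    rw [h4, ← hK.2]
    exact le_antisymm (sl_fiber_le V K t hK.1)
      (sl_fiber_ge V K t hK.1 (by rw [hK.2]; exact mem_range.1 hk))
  rw [sum_congr rfl h3, sum_const, card_powersetCard, smul_eq_mul]

private lemma sl_term {n j s : ℕ} (hn : 1 ≤ n) (hj : j ≤ s) :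
    ((n.choose j * 2 ^ (n - j) : ℕ) : ℝ) ≤ (n : ℝ) ^ s * 2 ^ n := by
  have h1 : n.choose j ≤ n ^ s := (Nat.choose_le_pow n j).trans (Nat.pow_le_pow_right hn hj)
  have h2 : 2 ^ (n - j) ≤ 2 ^ n := Nat.pow_le_pow_right (by norm_num) (Nat.sub_le _ _)
  exact_mod_cast Nat.mul_le_mul h1 h2

theorem gs_le_un {t n : ℕ} (ht : 1 ≤ t) (hn : 1 ≤ n) : (gs n t : ℝ) ≤ t * un t n := by
  unfold gs un
  push_cast
  have h : ∀ j ∈ range t, ((n.choose j : ℝ) * 2 ^ (n - j)) ≤ (n : ℝ) ^ (t - 1) * 2 ^ n := by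
    intro j hj
    have := sl_term (n := n) (j := j) (s := t - 1) hn (by have := mem_range.1 hj; omega)
    push_cast at this
    exact this
  refine (Finset.sum_le_sum h).trans ?_
  rw [sum_const, card_range, nsmul_eq_mul]

theorem gs_ge_un (t : ℕ) (ht : 1 ≤ t) : ∃ κ : ℝ, 0 < κ ∧ ∀ n ≥ 2 * t, κ * un t n ≤ gs n t := by
  have hf : (0 : ℝ) < 4 ^ (t - 1) * ((t - 1).factorial : ℝ) := by
    have := Nat.factorial_pos (t - 1)
    positivity
  refine ⟨(4 ^ (t - 1) * ((t - 1).factorial : ℝ))⁻¹, inv_pos.2 hf, fun n hn => ?_⟩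
  rw [inv_mul_le_iff₀ hf]
  have h1 : (n + 1 - (t - 1)) ^ (t - 1) ≤ n.descFactorial (t - 1) := Nat.pow_sub_le_descFactorial n (t - 1)
  have h2 : n ^ (t - 1) ≤ 2 ^ (t - 1) * n.descFactorial (t - 1) := by
    refine le_trans ?_ (Nat.mul_le_mul_left _ h1)
    rw [← Nat.mul_pow]
    exact Nat.pow_le_pow_left (by omega) _
  have h3 : n.descFactorial (t - 1) = (t - 1).factorial * n.choose (t - 1) :=
    Nat.descFactorial_eq_factorial_mul_choose n (t - 1)
  have h4 : 2 ^ n = 2 ^ (t - 1) * 2 ^ (n - (t - 1)) := by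
    rw [← pow_add]; congr 1; omega
  have h5 : n.choose (t - 1) * 2 ^ (n - (t - 1)) ≤ gs n t := by
    unfold gs
    exact Finset.single_le_sum (f := fun j => n.choose j * 2 ^ (n - j)) (fun _ _ => Nat.zero_le _)
      (mem_range.2 (by omega))
  have h6 : n ^ (t - 1) * 2 ^ n ≤ 4 ^ (t - 1) * (t - 1).factorial * gs n t := by
    calc n ^ (t - 1) * 2 ^ n ≤ (2 ^ (t - 1) * n.descFactorial (t - 1)) * 2 ^ n :=
          Nat.mul_le_mul_right _ h2
      _ = (2 ^ (t - 1) * 2 ^ (t - 1)) * (t - 1).factorial * (n.choose (t - 1) * 2 ^ (n - (t - 1))) := by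
          rw [h3, h4]; ring
      _ = 4 ^ (t - 1) * (t - 1).factorial * (n.choose (t - 1) * 2 ^ (n - (t - 1))) := by
          rw [← Nat.mul_pow]
      _ ≤ _ := Nat.mul_le_mul_left _ h5
  unfold un
  exact_mod_cast h6

theorem gs_le_top (t : ℕ) (ht : 1 ≤ t) {η : ℝ} (hη : 0 < η) : ∃ n₀ : ℕ, ∀ n ≥ n₀,
    (gs n t : ℝ) ≤ n.choose (t - 1) * 2 ^ (n - (t - 1)) + η * un t n := by
  obtain ⟨s, rfl⟩ : ∃ s, t = s + 1 := ⟨t - 1, by omega⟩
  obtain ⟨n₀, hn₀⟩ := exists_nat_ge ((s : ℝ) / η)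
  refine ⟨n₀ + 1, fun n hn => ?_⟩
  have hn1 : 1 ≤ n := by omega
  have hns : (s : ℝ) ≤ η * n := by
    have : (n₀ : ℝ) ≤ n := by exact_mod_cast (by omega : n₀ ≤ n)
    have h := hn₀.trans this
    rw [div_le_iff₀ hη] at h
    linarith
  rw [Nat.add_sub_cancel]
  have e : (gs n (s + 1) : ℝ) = ∑ j ∈ range s, ((n.choose j * 2 ^ (n - j) : ℕ) : ℝ) +
      n.choose s * 2 ^ (n - s) := by
    unfold gs
    rw [sum_range_succ]
    push_cast
    rfl
  rw [e, add_comm]
  refine add_le_add_right ?_ _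
  unfold un
  rw [Nat.add_sub_cancel]
  rcases Nat.eq_zero_or_pos s with hs | hs
  · subst hs
    simp only [range_zero, sum_empty]
    positivity
  · have h : ∀ j ∈ range s, ((n.choose j * 2 ^ (n - j) : ℕ) : ℝ) ≤ (n : ℝ) ^ (s - 1) * 2 ^ n := by
      intro j hj
      exact sl_term hn1 (by have := mem_range.1 hj; omega)
    refine (Finset.sum_le_sum h).trans ?_
    rw [sum_const, card_range, nsmul_eq_mul]
    have e2 : (n : ℝ) ^ s = n * (n : ℝ) ^ (s - 1) := by
      rw [← pow_succ']; congr 1; omega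
    rw [e2]
    have hp : 0 ≤ (n : ℝ) ^ (s - 1) * 2 ^ n := by positivity
    nlinarith [mul_le_mul_of_nonneg_right hns hp]

theorem poly_small (t k : ℕ) {η : ℝ} (hη : 0 < η) : ∃ n₀ : ℕ, ∀ n ≥ n₀,
    ((n : ℝ) + 1) ^ k ≤ η * un t n := by
  have h1 := tendsto_pow_const_div_const_pow_of_one_lt k (r := (2 : ℝ)) (by norm_num)
  have h2 := (h1.comp (Filter.tendsto_add_atTop_nat 1)).eventually
    (gt_mem_nhds (show (0 : ℝ) < η / 2 by positivity))
  obtain ⟨n₀, hn₀⟩ := Filter.eventually_atTop.1 h2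
  refine ⟨n₀ + 1, fun n hn => ?_⟩
  have h3 := hn₀ n (by omega)
  simp only [Function.comp] at h3
  rw [div_lt_iff₀ (by positivity)] at h3
  push_cast at h3
  have hn1 : (1 : ℝ) ≤ n := by exact_mod_cast (by omega : 1 ≤ n)
  have h4 : (1 : ℝ) ≤ (n : ℝ) ^ (t - 1) := one_le_pow₀ hn1
  unfold un
  calc ((n : ℝ) + 1) ^ k ≤ η / 2 * 2 ^ (n + 1) := h3.le
    _ = η * (1 * 2 ^ n) := by rw [pow_succ]; ring
    _ ≤ η * ((n : ℝ) ^ (t - 1) * 2 ^ n) := by
        refine mul_le_mul_of_nonneg_left ?_ hη.le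
        exact mul_le_mul_of_nonneg_right h4 (by positivity)

theorem low_small (t : ℕ) (ht : 2 ≤ t) (C : ℝ) {η : ℝ} (hη : 0 < η) : ∃ n₀ : ℕ, ∀ n ≥ n₀,
    C * (n : ℝ) ^ (t - 2) * 2 ^ n ≤ η * un t n := by
  obtain ⟨s, rfl⟩ : ∃ s, t = s + 2 := ⟨t - 2, by omega⟩
  obtain ⟨n₀, hn₀⟩ := exists_nat_ge (C / η)
  refine ⟨n₀, fun n hn => ?_⟩
  have hns : C ≤ η * n := by
    have : (n₀ : ℝ) ≤ n := by exact_mod_cast hn
    have h := hn₀.trans this
    rw [div_le_iff₀ hη] at h
    linarith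
  unfold un
  have e1 : s + 2 - 2 = s := by omega
  have e2 : s + 2 - 1 = s + 1 := by omega
  rw [e1, e2, pow_succ]
  have hp : 0 ≤ (n : ℝ) ^ s * 2 ^ n := by positivity
  nlinarith [mul_le_mul_of_nonneg_right hns hp]

end Pool.Agent.H26.LT
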