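import Pool.Agent.H26.LT.Gr
import Pool.Agent.H26.LT.Slots
import Pool.Agent.H26.LT.Cross

/-!
Module RowsTwo.  The number of rows if two centres `x ≠ y` are given.

`X`, `Y` sets of `(t-1)`-subsets `K` of `V \ {x, y}` such that no member of `R` contains `K + x` (`K ∈ X`), `K + y`
(`K ∈ Y`).  `ℱ = R ∪ {subsets of V of size < t}`; `(rows V t R).card ≤ dp ℱ ℱ` (a row is a disjoint pair of members
of `ℱ`), and `|A ∩ B| ≠ t` for `A, B ∈ ℱ`.  `gr` with `Z = {x, y}`, `U = V \ {x, y}`,
 * `f K P = gs 2 (t - |K|)` in general (the general bound for two points; it is `4` for `|K| = t - 1`, `8` for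
   `|K| = t - 2`, `9` for smaller `K`.  Proof: for families `X', Y'` of subsets of `Z`, `|a ∩ b| ≠ s`, `s ≥ 1`,
   `dp X' Y' ≤ gs 2 s`: `gr` itself with `Z = ∅`, or: there are `9` disjoint pairs of subsets of `Z`; if `s = 2` not
   both families contain `{x,y}`, ..., or enumeration),
 * `f K P = 2` for `K` in exactly one of `X`, `Y`: say `K ∈ X`; `x` is in no `a ∈ X'`, `b ∈ Y'` [`K + x ⊆ A ∈ ℱ` gives
   `|A| ≥ t`, `A ∈ R`], so `X', Y' ⊆ {∅, {y}}`, and not both contain `{y}` as `|{y}| + |K| = t`,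
 * `f K P = 1` for `K ∈ X ∩ Y`: `X', Y' ⊆ {∅}`.
`∑_K ∑_P gs 2 (t - |K|) = ∑_{k<t} C(n-2,k) 2^(n-2-k) gs 2 (t-k) = gs n t` (count the slots of `V` by their traces on
`U` and `Z`, or Vandermonde: `gs n t = ∑_{j<t} C(n,j) 2^(n-j)`, `C(n,j) = C(n-2,j) + 2 C(n-2,j-1) + C(n-2,j-2)`).
For each `K ∈ X ∪ Y` there are `2^(n-t-1)` sets `P` and the loss is `4 - 2` or `4 - 1`:
`rows ≤ gs n t - 2^(n-t-1) (2 |X ∪ Y| + |X ∩ Y|)`.
-/

open Finset Pool.Agent.H37 Pool.Agent.H37.AV

namespace Pool.Agent.H26.LT

/-- the values of `gs 2` -/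
private lemma rt_gs_one : gs 2 1 = 4 := by decide

private lemma rt_gs_two : gs 2 2 = 8 := by decide

private lemma rt_gs_three (s : ℕ) : gs 2 (s + 3) = 9 := by
  unfold gs
  rw [show s + 3 = 3 + s by omega, sum_range_add]
  have h : ∑ x ∈ range s, Nat.choose 2 (3 + x) * 2 ^ (2 - (3 + x)) = 0 := by
    apply sum_eq_zero
    intro x _
    rw [Nat.choose_eq_zero_of_lt (by omega), zero_mul]
  rw [h]
  decide

/-- one step of the recursion for the number of slots -/
private lemma rt_gs_succ (n t : ℕ) : gs (n + 1) (t + 1) = 2 * gs n (t + 1) + gs n t := by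
  unfold gs
  rw [sum_range_succ' _ t, sum_range_succ' (fun j => n.choose j * 2 ^ (n - j)) t]
  have h : ∀ j ∈ range t, (n + 1).choose (j + 1) * 2 ^ (n + 1 - (j + 1)) =
      2 * (n.choose (j + 1) * 2 ^ (n - (j + 1))) + n.choose j * 2 ^ (n - j) := by
    intro j _
    rw [Nat.choose_succ_succ, Nat.succ_eq_add_one, show n + 1 - (j + 1) = n - j by omega]
    rcases Nat.lt_or_ge j n with hj | hj
    · have e : 2 ^ (n - j) = 2 * 2 ^ (n - (j + 1)) := by
        rw [← pow_succ']
        congr 1
        omega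
      rw [e]
      ring
    · rw [Nat.choose_eq_zero_of_lt (show n < j + 1 by omega)]
      ring
  rw [sum_congr rfl h, sum_add_distrib, ← mul_sum]
  simp only [Nat.choose_zero_right, Nat.sub_zero, one_mul, pow_succ]
  ring

private lemma rt_gs_zero (n : ℕ) : gs n 0 = 0 := by
  unfold gs
  simp

private lemma rt_gs_one' (n : ℕ) : gs n 1 = 2 ^ n := by
  unfold gs
  simp

/-- the convolution -/
private lemma rt_conv (m t : ℕ) :
    ∑ j ∈ range t, m.choose j * 2 ^ (m - j) * gs 2 (t - j) = gs (m + 2) t := by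
  rcases t with _ | _ | _ | t
  · rw [rt_gs_zero]
    simp
  · simp only [zero_add, range_one, sum_singleton, Nat.sub_zero, rt_gs_one',
      Nat.choose_zero_right, one_mul]
    ring
  · rw [show m + 2 = (m + 1) + 1 by ring, show (0 + 1 + 1 : ℕ) = 1 + 1 by ring, rt_gs_succ,
      rt_gs_succ m 1, rt_gs_one', rt_gs_one', sum_range_succ, sum_range_one]
    simp only [Nat.sub_zero, show 1 + 1 - 1 = 1 by rfl, show (1 + 1 : ℕ) = 2 by rfl, rt_gs_two,
      rt_gs_one]
    have e : gs m 2 = m.choose 0 * 2 ^ (m - 0) + m.choose 1 * 2 ^ (m - 1) := by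
      unfold gs
      rw [sum_range_succ, sum_range_one]
    rw [e]
    simp only [Nat.sub_zero, Nat.choose_zero_right, one_mul, pow_succ]
    ring
  · have e3 : gs m (t + 3) = gs m (t + 1) + m.choose (t + 1) * 2 ^ (m - (t + 1)) +
        m.choose (t + 2) * 2 ^ (m - (t + 2)) := by
      unfold gs
      rw [sum_range_succ, sum_range_succ]
    have e2 : gs m (t + 2) = gs m (t + 1) + m.choose (t + 1) * 2 ^ (m - (t + 1)) := by
      unfold gs
      rw [sum_range_succ]
    have h9 : ∑ j ∈ range (t + 1), m.choose j * 2 ^ (m - j) * gs 2 (t + 3 - j) =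
        9 * gs m (t + 1) := by
      unfold gs
      rw [mul_sum]
      apply sum_congr rfl
      intro j hj
      have hj' := mem_range.1 hj
      have h1 : t + 3 - j = (t - j) + 3 := by omega
      have h2 := rt_gs_three (t - j)
      unfold gs at h2
      rw [h1, h2]
      ring
    show ∑ j ∈ range (t + 3), m.choose j * 2 ^ (m - j) * gs 2 (t + 3 - j) = gs (m + 2) (t + 3)
    rw [sum_range_succ, sum_range_succ, h9, show t + 3 - (t + 1) = 2 by omega,
      show t + 3 - (t + 2) = 1 by omega, rt_gs_two, rt_gs_one,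
      show m + 2 = (m + 1) + 1 by ring, show t + 3 = (t + 2) + 1 by ring, rt_gs_succ,
      rt_gs_succ m (t + 2), show t + 2 = (t + 1) + 1 by ring, rt_gs_succ m (t + 1)]
    rw [show t + 1 + 1 + 1 = t + 3 by ring, show t + 1 + 1 = t + 2 by ring, e3, e2]
    ring

/-- sums over the `K ⊆ U` with fewer than `t` elements of a function of `|K|` -/
private lemma rt_sum (U : Finset ℕ) (t : ℕ) (g : ℕ → ℕ) :
    ∑ K ∈ U.powerset.filter (fun K => K.card < t), g K.card =
      ∑ j ∈ range t, U.card.choose j * g j := by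
  classical
  rw [← sum_fiberwise_of_maps_to (s := U.powerset.filter (fun K => K.card < t)) (t := range t)
    (g := fun K => K.card) (fun K hK => mem_range.2 (mem_filter.1 hK).2)]
  apply sum_congr rfl
  intro j hj
  have e : (U.powerset.filter (fun K => K.card < t)).filter (fun K => K.card = j) =
      U.powersetCard j := by
    ext K
    rw [mem_filter, mem_filter, mem_powerset, mem_powersetCard]
    constructor
    · rintro ⟨⟨h1, -⟩, h3⟩
      exact ⟨h1, h3⟩
    · rintro ⟨h1, h3⟩
      exact ⟨⟨h1, by rw [h3]; exact mem_range.1 hj⟩, h3⟩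
  rw [e]
  have h2 : ∀ K ∈ U.powersetCard j, g K.card = g j := by
    intro K hK
    rw [(mem_powersetCard.1 hK).2]
  rw [sum_congr rfl h2, sum_const, card_powersetCard, smul_eq_mul]

/-- two families of subsets of a two-element set -/
private lemma rt_two {x y : ℕ} (hxy : x ≠ y) {s : ℕ} {X Y : Finset (Finset ℕ)}
    (hX : ∀ a ∈ X, a ⊆ {x, y}) (hY : ∀ b ∈ Y, b ⊆ {x, y})
    (h : ∀ a ∈ X, ∀ b ∈ Y, (a ∩ b).card ≠ s) : dp X Y ≤ gs 2 s := by
  classical
  refine (cross hX hY h).trans ?_
  have hc : ({x, y} : Finset ℕ).card = 2 := card_pair hxy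
  have h1 : ∀ K ∈ ({x, y} : Finset ℕ).powerset.filter (fun K => K.card < s),
      (((({x, y} : Finset ℕ) \ K).powerset.filter (fun P => (∃ A ∈ X, K ⊆ A ∧ A ⊆ K ∪ P) ∧
        ∃ B ∈ Y, K ⊆ B ∧ B ⊆ K ∪ ((({x, y} : Finset ℕ) \ K) \ P))).card) ≤ 2 ^ (2 - K.card) := by
    intro K hK
    refine (card_filter_le _ _).trans ?_
    rw [card_powerset, card_sdiff_of_subset (mem_powerset.1 (mem_filter.1 hK).1), hc]
  refine (sum_le_sum h1).trans ?_
  rw [rt_sum _ _ (fun j => 2 ^ (2 - j)), hc]
  exact le_rfl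

/-- families contained in `{∅}` -/
private lemma rt_one {X Y : Finset (Finset ℕ)} (hX : X ⊆ {∅}) (hY : Y ⊆ {∅}) : dp X Y ≤ 1 := by
  refine (dp_le_mul X Y).trans ?_
  have h1 := card_le_card hX
  have h2 := card_le_card hY
  rw [card_singleton] at h1 h2
  calc X.card * Y.card ≤ 1 * 1 := Nat.mul_le_mul h1 h2
    _ = 1 := rfl

private lemma rt_le_two {y : ℕ} {X Y : Finset (Finset ℕ)} (hX : X ⊆ {∅, {y}}) (hY : Y ⊆ {∅, {y}})
    (h : {y} ∈ X → {y} ∈ Y → False) : dp X Y ≤ 2 := by
  classical
  refine (dp_le_mul X Y).trans ?_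
  have h1 := (card_le_card hX).trans card_le_two
  have h2 := (card_le_card hY).trans card_le_two
  by_cases hx : {y} ∈ X
  · have h3 : Y ⊆ {∅} := by
      intro b hb
      rcases mem_insert.1 (hY hb) with h4 | h4
      · exact mem_singleton.2 h4
      · rw [mem_singleton] at h4
        exact (h hx (h4 ▸ hb)).elim
    have h4 := card_le_card h3
    rw [card_singleton] at h4
    calc X.card * Y.card ≤ 2 * 1 := Nat.mul_le_mul h1 h4
      _ = 2 := rfl
  · have h3 : X ⊆ {∅} := by
      intro b hb
      rcases mem_insert.1 (hX hb) with h4 | h4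
      · exact mem_singleton.2 h4
      · rw [mem_singleton] at h4
        exact (hx (h4 ▸ hb)).elim
    have h4 := card_le_card h3
    rw [card_singleton] at h4
    calc X.card * Y.card ≤ 1 * 2 := Nat.mul_le_mul h4 h2
      _ = 2 := rfl

theorem rows_two {V : Finset ℕ} {t : ℕ} {R : Finset (Finset ℕ)} (ht : 1 ≤ t) (h : Av V t R)
    {x y : ℕ} (hx : x ∈ V) (hy : y ∈ V) (hxy : x ≠ y) {X Y : Finset (Finset ℕ)}
    (hX : ∀ K ∈ X, K ⊆ V \ {x, y} ∧ K.card + 1 = t) (hY : ∀ K ∈ Y, K ⊆ V \ {x, y} ∧ K.card + 1 = t)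
    (hXR : ∀ K ∈ X, ∀ A ∈ R, ¬ insert x K ⊆ A) (hYR : ∀ K ∈ Y, ∀ A ∈ R, ¬ insert y K ⊆ A) :
    (rows V t R).card + 2 ^ (V.card - t - 1) * (2 * (X ∪ Y).card + (X ∩ Y).card) ≤
      gs V.card t := by
  classical
  have hZV : ({x, y} : Finset ℕ) ⊆ V := by
    intro z hz
    rcases mem_insert.1 hz with h1 | h1
    · exact h1 ▸ hx
    · exact (mem_singleton.1 h1) ▸ hy
  have hZc : ({x, y} : Finset ℕ).card = 2 := card_pair hxy
  have hV2 : 2 ≤ V.card := by
    rw [← hZc]
    exact card_le_card hZV
  set U : Finset ℕ := V \ {x, y} with hU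
  have hUc : U.card = V.card - 2 := by rw [hU, card_sdiff_of_subset hZV, hZc]
  have hUZ : U ∪ {x, y} = V := by rw [hU]; exact sdiff_union_of_subset hZV
  have hxU : ∀ K ⊆ U, x ∉ K := by
    intro K hK hxK
    have := hK hxK
    rw [hU, mem_sdiff] at this
    exact this.2 (mem_insert_self _ _)
  have hyU : ∀ K ⊆ U, y ∉ K := by
    intro K hK hxK
    have := hK hxK
    rw [hU, mem_sdiff] at this
    exact this.2 (mem_insert_of_mem (mem_singleton_self _))
  set F : Finset (Finset ℕ) := R ∪ V.powerset.filter (fun A => A.card < t) with hF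
  have hFm : ∀ A ∈ F, A ∈ R ∨ A.card < t := by
    intro A hA
    rcases mem_union.1 hA with h1 | h1
    · exact Or.inl h1
    · exact Or.inr (mem_filter.1 h1).2
  have hFV : ∀ A ∈ F, A ⊆ V := by
    intro A hA
    rcases mem_union.1 hA with h1 | h1
    · exact h.sub A h1
    · exact mem_powerset.1 (mem_filter.1 h1).1
  have hrows : (rows V t R).card ≤ dp F F := by
    unfold dp
    apply card_le_card
    intro r hr
    obtain ⟨h1, h2, h3, h4, h5, -⟩ := mem_rows.1 hr
    rw [mem_filter, mem_product]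
    have key : ∀ A : Finset ℕ, A ⊆ V → (A ∈ R ∨ A.card < t) → A ∈ F := by
      intro A hAV hA
      rcases hA with hA | hA
      · exact mem_union_left _ hA
      · exact mem_union_right _ (mem_filter.2 ⟨mem_powerset.2 hAV, hA⟩)
    exact ⟨⟨key _ h1 h4, key _ h2 h5⟩, h3⟩
  have hav : ∀ A ∈ F, ∀ B ∈ F, (A ∩ B).card ≠ t := by
    intro A hA B hB
    rcases hFm A hA with h1 | h1
    · rcases hFm B hB with h2 | h2
      · exact h.av A h1 B h2
      · have := card_le_card (inter_subset_right : A ∩ B ⊆ B)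
        omega
    · have := card_le_card (inter_subset_left : A ∩ B ⊆ A)
      omega
  -- the function
  set f : Finset ℕ → Finset ℕ → ℕ := fun K _ =>
    if K ∈ X ∧ K ∈ Y then 1 else if K ∈ X ∨ K ∈ Y then 2 else gs 2 (t - K.card) with hf
  have hgr := gr {x, y} U t f F F sdiff_disjoint (by rw [hUZ]; exact hFV) (by rw [hUZ]; exact hFV)
    hav (by
      intro K hKU hKt P hP X' Y' hX' hY' hXY
      -- traces through `x` or `y`
      have hnx : K ∈ X → ∀ A ∈ F, K ⊆ A → x ∉ A := by
        intro hK A hA hKA hxA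
        have h1 : insert x K ⊆ A := insert_subset hxA hKA
        rcases hFm A hA with h2 | h2
        · exact hXR K hK A h2 h1
        · have h3 := card_le_card h1
          rw [card_insert_of_notMem (hxU K hKU), (hX K hK).2] at h3
          omega
      have hny : K ∈ Y → ∀ A ∈ F, K ⊆ A → y ∉ A := by
        intro hK A hA hKA hyA
        have h1 : insert y K ⊆ A := insert_subset hyA hKA
        rcases hFm A hA with h2 | h2
        · exact hYR K hK A h2 h1
        · have h3 := card_le_card h1
          rw [card_insert_of_notMem (hyU K hKU), (hY K hK).2] at h3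
          omega
      have hX'' : ∀ a ∈ X', ∃ A ∈ F, K ⊆ A ∧ A ∩ {x, y} = a := by
        intro a ha
        obtain ⟨A, hA, h1, -, h3⟩ := hX' a ha
        exact ⟨A, hA, h1, h3⟩
      have hY'' : ∀ a ∈ Y', ∃ A ∈ F, K ⊆ A ∧ A ∩ {x, y} = a := by
        intro a ha
        obtain ⟨A, hA, h1, -, h3⟩ := hY' a ha
        exact ⟨A, hA, h1, h3⟩
      have hsub : ∀ W : Finset (Finset ℕ), (∀ a ∈ W, ∃ A ∈ F, K ⊆ A ∧ A ∩ {x, y} = a) →
          ∀ a ∈ W, a ⊆ {x, y} := by
        intro W hW a ha
        obtain ⟨A, -, -, h3⟩ := hW a ha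
        rw [← h3]
        exact inter_subset_right
      have hWx : K ∈ X → ∀ W : Finset (Finset ℕ), (∀ a ∈ W, ∃ A ∈ F, K ⊆ A ∧ A ∩ {x, y} = a) →
          ∀ a ∈ W, x ∉ a := by
        intro hK W hW a ha hxa
        obtain ⟨A, hA, h1, h3⟩ := hW a ha
        rw [← h3] at hxa
        exact hnx hK A hA h1 (mem_inter.1 hxa).1
      have hWy : K ∈ Y → ∀ W : Finset (Finset ℕ), (∀ a ∈ W, ∃ A ∈ F, K ⊆ A ∧ A ∩ {x, y} = a) →
          ∀ a ∈ W, y ∉ a := by
        intro hK W hW a ha hxa
        obtain ⟨A, hA, h1, h3⟩ := hW a ha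
        rw [← h3] at hxa
        exact hny hK A hA h1 (mem_inter.1 hxa).1
      have hsy : ∀ a : Finset ℕ, a ⊆ {x, y} → x ∉ a → a = ∅ ∨ a = {y} := by
        intro a ha hxa
        have h1 : a ⊆ {y} := by
          intro z hz
          rcases mem_insert.1 (ha hz) with h2 | h2
          · exact absurd (h2 ▸ hz) hxa
          · exact h2
        exact subset_singleton_iff.1 h1
      have hsx : ∀ a : Finset ℕ, a ⊆ {x, y} → y ∉ a → a = ∅ ∨ a = {x} := by
        intro a ha hya
        have h1 : a ⊆ {x} := by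
          intro z hz
          rcases mem_insert.1 (ha hz) with h2 | h2
          · exact mem_singleton.2 h2
          · exact absurd ((mem_singleton.1 h2) ▸ hz) hya
        exact subset_singleton_iff.1 h1
      simp only [hf]
      by_cases hKX : K ∈ X
      · by_cases hKY : K ∈ Y
        · rw [if_pos ⟨hKX, hKY⟩]
          have key : ∀ W : Finset (Finset ℕ), (∀ a ∈ W, ∃ A ∈ F, K ⊆ A ∧ A ∩ {x, y} = a) →
              W ⊆ {∅} := by
            intro W hW a ha
            rw [mem_singleton]
            rcases hsy a (hsub W hW a ha) (hWx hKX W hW a ha) with h1 | h1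
            · exact h1
            · exact absurd (h1 ▸ mem_singleton_self y) (hWy hKY W hW a ha)
          exact rt_one (key X' hX'') (key Y' hY'')
        · rw [if_neg (fun hh => hKY hh.2), if_pos (Or.inl hKX)]
          have key : ∀ W : Finset (Finset ℕ), (∀ a ∈ W, ∃ A ∈ F, K ⊆ A ∧ A ∩ {x, y} = a) →
              W ⊆ {∅, {y}} := by
            intro W hW a ha
            rw [mem_insert, mem_singleton]
            exact hsy a (hsub W hW a ha) (hWx hKX W hW a ha)
          refine rt_le_two (key X' hX'') (key Y' hY'') (fun h1 h2 => ?_)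
          have h3 := hXY _ h1 _ h2
          rw [inter_self, card_singleton] at h3
          have := (hX K hKX).2
          omega
      · by_cases hKY : K ∈ Y
        · rw [if_neg (fun hh => hKX hh.1), if_pos (Or.inr hKY)]
          have key : ∀ W : Finset (Finset ℕ), (∀ a ∈ W, ∃ A ∈ F, K ⊆ A ∧ A ∩ {x, y} = a) →
              W ⊆ {∅, {x}} := by
            intro W hW a ha
            rw [mem_insert, mem_singleton]
            exact hsx a (hsub W hW a ha) (hWy hKY W hW a ha)
          refine rt_le_two (key X' hX'') (key Y' hY'') (fun h1 h2 => ?_)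
          have h3 := hXY _ h1 _ h2
          rw [inter_self, card_singleton] at h3
          have := (hY K hKY).2
          omega
        · rw [if_neg (fun hh => hKX hh.1), if_neg (by rintro (hh | hh); exacts [hKX hh, hKY hh])]
          refine rt_two hxy (hsub X' hX'') (hsub Y' hY'') (fun a ha b hb hab => ?_)
          have := hXY a ha b hb
          omega)
  -- the losses
  have hin : X ∪ Y ⊆ U.powerset.filter (fun K => K.card < t) := by
    intro K hK
    rw [mem_filter, mem_powerset]
    rcases mem_union.1 hK with h1 | h1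
    · have := hX K h1
      exact ⟨this.1, by omega⟩
    · have := hY K h1
      exact ⟨this.1, by omega⟩
  have hone : ∀ K ∈ X ∪ Y, K.card + 1 = t := by
    intro K hK
    rcases mem_union.1 hK with h1 | h1
    · exact (hX K h1).2
    · exact (hY K h1).2
  have hterm : ∀ K ∈ U.powerset.filter (fun K => K.card < t),
      (∑ P ∈ (U \ K).powerset, f K P) + (if K ∈ X ∪ Y then
        2 ^ (V.card - t - 1) * (2 + if K ∈ X ∩ Y then 1 else 0) else 0) =
      2 ^ (U.card - K.card) * gs 2 (t - K.card) := by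
    intro K hK
    rw [mem_filter, mem_powerset] at hK
    have hs : ∀ c : ℕ, ∑ _P ∈ (U \ K).powerset, c = 2 ^ (U.card - K.card) * c := by
      intro c
      rw [sum_const, card_powerset, card_sdiff_of_subset hK.1, smul_eq_mul]
    by_cases hXY : K ∈ X ∪ Y
    · have h1 := hone K hXY
      have h2 : U.card - K.card = V.card - t - 1 := by omega
      have h3 : t - K.card = 1 := by omega
      rw [if_pos hXY]
      by_cases hb : K ∈ X ∩ Y
      · have hb' := mem_inter.1 hb
        have e : ∀ P ∈ (U \ K).powerset, f K P = 1 := by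
          intro P _
          simp only [hf]
          rw [if_pos hb']
        rw [sum_congr rfl e, hs, if_pos hb, h2, h3, rt_gs_one]
        ring
      · have e : ∀ P ∈ (U \ K).powerset, f K P = 2 := by
          intro P _
          simp only [hf]
          rw [if_neg (fun hh => hb (mem_inter.2 hh)), if_pos (mem_union.1 hXY)]
        rw [sum_congr rfl e, hs, if_neg hb, h2, h3, rt_gs_one]
        ring
    · have e : ∀ P ∈ (U \ K).powerset, f K P = gs 2 (t - K.card) := by
        intro P _
        simp only [hf]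
        rw [if_neg (fun hh => hXY (mem_union_left _ hh.1)), if_neg (fun hh => hXY (mem_union.2 hh))]
      rw [sum_congr rfl e, hs, if_neg hXY, add_zero]
  have hsum := sum_congr rfl hterm
  rw [sum_add_distrib, rt_sum U t (fun j => 2 ^ (U.card - j) * gs 2 (t - j))] at hsum
  have hl : ∑ K ∈ U.powerset.filter (fun K => K.card < t), (if K ∈ X ∪ Y then
      2 ^ (V.card - t - 1) * (2 + if K ∈ X ∩ Y then 1 else 0) else 0) =
      2 ^ (V.card - t - 1) * (2 * (X ∪ Y).card + (X ∩ Y).card) := by
    rw [← sum_filter]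
    have e1 : (U.powerset.filter (fun K => K.card < t)).filter (fun K => K ∈ X ∪ Y) = X ∪ Y := by
      ext K
      rw [mem_filter]
      exact ⟨fun hh => hh.2, fun hh => ⟨hin hh, hh⟩⟩
    rw [e1, ← mul_sum, sum_add_distrib, sum_const, smul_eq_mul, ← sum_filter]
    have e2 : (X ∪ Y).filter (fun K => K ∈ X ∩ Y) = X ∩ Y := by
      ext K
      rw [mem_filter]
      exact ⟨fun hh => hh.2, fun hh => ⟨mem_union_left _ (mem_inter.1 hh).1, hh⟩⟩
    rw [e2, sum_const, smul_eq_mul]
    ring
  have hr : ∑ j ∈ range t, U.card.choose j * (2 ^ (U.card - j) * gs 2 (t - j)) = gs V.card t := by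
    have h1 := rt_conv U.card t
    rw [show U.card + 2 = V.card by omega] at h1
    rw [← h1]
    exact sum_congr rfl fun j _ => by ring
  rw [hl, hr] at hsum
  omega

end Pool.Agent.H26.LT
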