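import Pool.Agent.H26.LT.Match

/-!
Module Sparse.  `H` with all degrees at most `Δ` (real): `dp H R ≤ t 2^t Δ 2^n`.

If `H` is empty: `0`.  Otherwise some degree is at least `1`, so `Δ ≥ 1`; let `Δ' = ⌊Δ⌋ ≥ 1`.  `match_exp` with `k = t`:
`|R| ≤ 2^n exp (-m/2^t)`, `|H| ≤ t m Δ'`, so `dp H R ≤ |H| |R| ≤ t Δ' 2^t (m/2^t) exp (-m/2^t) 2^n ≤ t 2^t Δ 2^n`
(`u exp (-u) ≤ 1`).
-/

open Finset Pool.Agent.H37 Pool.Agent.H37.AV

namespace Pool.Agent.H26.LT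

theorem sparse {V : Finset ℕ} {t : ℕ} (ht : 1 ≤ t) {R H : Finset (Finset ℕ)}
    (hR : ∀ A ∈ R, A ⊆ V) (hH : Hv V t R H) {Δ : ℝ} (h0 : 0 ≤ Δ) (hΔ : ∀ x ∈ V, (dg H x : ℝ) ≤ Δ) :
    (dp H R : ℝ) ≤ t * 2 ^ t * Δ * 2 ^ V.card := by
  classical
  obtain ⟨m, hm1, hm2⟩ := match_exp (V := V) (k := t) ht (ℋ := H) hH.sub hH.crd (Δ := ⌊Δ⌋₊)
    (fun x hx => by
      have h1 := hΔ x hx
      have h2 : dg H x ≤ ⌊Δ⌋₊ := Nat.le_floor h1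
      refine le_trans (le_of_eq ?_) h2
      unfold dg
      congr!)
  have hRc : (R.card : ℝ) ≤ 2 ^ V.card * Real.exp (-(m : ℝ) / 2 ^ t) := by
    refine le_trans ?_ hm2
    have hsub : R ⊆ V.powerset.filter (fun A => ∀ M ∈ H, ¬ M ⊆ A) := by
      intro A hA
      rw [mem_filter, mem_powerset]
      exact ⟨hR A hA, fun M hM => hH.out M hM A hA⟩
    exact_mod_cast le_trans (card_le_card hsub) (le_of_eq (by congr!))
  have hHc : (H.card : ℝ) ≤ t * m * Δ := by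
    have h1 : (H.card : ℝ) ≤ (t : ℝ) * m * (⌊Δ⌋₊ : ℝ) := by exact_mod_cast hm1
    have h2 : (⌊Δ⌋₊ : ℝ) ≤ Δ := Nat.floor_le h0
    have h3 : (0 : ℝ) ≤ (t : ℝ) * m := by positivity
    exact h1.trans (mul_le_mul_of_nonneg_left h2 h3)
  have hdp : (dp H R : ℝ) ≤ H.card * R.card := by exact_mod_cast dp_le_mul H R
  have h4 : (H.card : ℝ) * R.card ≤
      (t * m * Δ) * (2 ^ V.card * Real.exp (-(m : ℝ) / 2 ^ t)) :=
    mul_le_mul hHc hRc (Nat.cast_nonneg _) (by positivity)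
  have hu : ((m : ℝ) / 2 ^ t) * Real.exp (-(m : ℝ) / 2 ^ t) ≤ 1 := by
    have h5 : (m : ℝ) / 2 ^ t ≤ Real.exp ((m : ℝ) / 2 ^ t) := by
      have := Real.add_one_le_exp ((m : ℝ) / 2 ^ t)
      linarith
    have h6 : Real.exp (-(m : ℝ) / 2 ^ t) = (Real.exp ((m : ℝ) / 2 ^ t))⁻¹ := by
      rw [neg_div, Real.exp_neg]
    rw [h6, ← div_eq_mul_inv, div_le_one (Real.exp_pos _)]
    exact h5
  have h7 : ((t : ℝ) * m * Δ) * (2 ^ V.card * Real.exp (-(m : ℝ) / 2 ^ t)) =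
      (t * 2 ^ t * Δ * 2 ^ V.card) * (((m : ℝ) / 2 ^ t) * Real.exp (-(m : ℝ) / 2 ^ t)) := by
    have h8 : (2 : ℝ) ^ t ≠ 0 := by positivity
    field_simp
  calc (dp H R : ℝ) ≤ H.card * R.card := hdp
    _ ≤ _ := h4
    _ = _ := h7
    _ ≤ (t * 2 ^ t * Δ * 2 ^ V.card) * 1 :=
        mul_le_mul_of_nonneg_left hu (by positivity)
    _ = _ := mul_one _

end Pool.Agent.H26.LT
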