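import Pool.Agent.H26.LT.Sm
import Pool.Agent.H26.LT.RowsTwo
import Pool.Agent.H26.LT.Sparse

/-!
Module Alpha.  One dense centre `x`, the members without `x` are less than `(1/2 - ε₂) 2^(n-1)`: a gap.

`d = dg H x ≥ ρ n^(t-1)`, `𝒩 = {M \ x : x ∈ M ∈ H}`, `|𝒩| = d`.  Choose any `y ∈ V`, `y ≠ x`; `X = {K ∈ 𝒩 : y ∉ K}`,
`|X| ≥ d - n^(t-2)`, `Y = ∅` in `rows_two`: `rows ≤ gs - 2^(n-t) (d - n^(t-2))`.
`dp H R = dp H_x R + dp H' R`, `H' = {M ∈ H : x ∉ M}`; `dp H_x R = dp 𝒩 R'` (`R' = {A ∈ R : x ∉ A}`), `sm` with `k = t - 1`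
on `V \ x`: `dp 𝒩 R' ≤ |R'| d / 2^(t-1) + η un ≤ (1/2 - ε₂) 2^(n-t) d + η un`.  `sparse` for `H'`:
`dp H' R ≤ t 2^t τ n^(t-1) 2^n`.  Together
`rows + 2 dp H R ≤ gs - 2 ε₂ 2^(n-t) d + n^(t-2) 2^n + 2 η un + 2 t 2^t τ un ≤ gs - (2^(1-t) ε₂ ρ - 3 η - 2 t 2^t τ) un`.
Take `τ = ε₂ ρ 2^(-2t) / (4 t)` and `γ`, `η` accordingly.
-/

open Finset Pool.Agent.H37 Pool.Agent.H37.AV

namespace Pool.Agent.H26.LT

private lemma alpha_erase_inj (𝒜 : Finset (Finset ℕ)) (x : ℕ) (h : ∀ M ∈ 𝒜, x ∈ M) :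
    Set.InjOn (fun M : Finset ℕ => M.erase x) (𝒜 : Set (Finset ℕ)) := by
  intro M hM M' hM' he
  have h1 := h M (mem_coe.1 hM)
  have h2 := h M' (mem_coe.1 hM')
  have he' : M.erase x = M'.erase x := he
  rw [← insert_erase h1, ← insert_erase h2, he']

private lemma alpha_pair {V : Finset ℕ} {t : ℕ} {R H : Finset (Finset ℕ)} (hH : Hv V t R H)
    {x y : ℕ} (hxy : x ≠ y) :
    (H.filter (fun M => x ∈ M ∧ y ∈ M)).card ≤ V.card ^ (t - 2) := by
  have h1 : (H.filter (fun M => x ∈ M ∧ y ∈ M)).card ≤ (V.powersetCard (t - 2)).card := by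
    refine card_le_card_of_injOn (fun M => (M.erase x).erase y) ?_ ?_
    · intro M hM
      obtain ⟨hM1, hMx, hMy⟩ := mem_filter.1 (mem_coe.1 hM)
      refine mem_coe.2 (mem_powersetCard.2 ⟨?_, ?_⟩)
      · exact ((erase_subset _ _).trans (erase_subset _ _)).trans (hH.sub M hM1)
      · show ((M.erase x).erase y).card = t - 2
        rw [card_erase_of_mem (mem_erase.2 ⟨hxy.symm, hMy⟩), card_erase_of_mem hMx, hH.crd M hM1]
        omega
    · intro M hM M' hM' he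
      obtain ⟨-, hMx, hMy⟩ := mem_filter.1 (mem_coe.1 hM)
      obtain ⟨-, hMx', hMy'⟩ := mem_filter.1 (mem_coe.1 hM')
      have he' : (M.erase x).erase y = (M'.erase x).erase y := he
      have a1 : y ∈ M.erase x := mem_erase.2 ⟨hxy.symm, hMy⟩
      have a2 : y ∈ M'.erase x := mem_erase.2 ⟨hxy.symm, hMy'⟩
      rw [← insert_erase hMx, ← insert_erase hMx', ← insert_erase a1, ← insert_erase a2, he']
  refine h1.trans ?_
  rw [card_powersetCard]
  exact Nat.choose_le_pow _ _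

private lemma alpha_rows {V : Finset ℕ} {t : ℕ} {R H : Finset (Finset ℕ)} (ht : 2 ≤ t)
    (hn : t + 1 ≤ V.card) (h : Av V t R) (hH : Hv V t R H) {x : ℕ} (hx : x ∈ V) :
    (rows V t R).card + 2 ^ (V.card - t) * dg H x ≤
      gs V.card t + 2 ^ (V.card - t) * V.card ^ (t - 2) := by
  obtain ⟨y, hy, hyx⟩ := exists_mem_ne (by omega : 1 < V.card) x
  set Hx := H.filter (fun M => x ∈ M ∧ y ∉ M) with hHx
  set X := Hx.image (fun M => M.erase x) with hX
  have hXc : X.card = Hx.card := by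
    refine card_image_of_injOn (alpha_erase_inj Hx x ?_)
    intro M hM
    exact (mem_filter.1 hM).2.1
  have hd : dg H x ≤ Hx.card + V.card ^ (t - 2) := by
    have h1 : H.filter (fun M => x ∈ M) ⊆ Hx ∪ H.filter (fun M => x ∈ M ∧ y ∈ M) := by
      intro M hM
      obtain ⟨h1, h2⟩ := mem_filter.1 hM
      by_cases h3 : y ∈ M
      · exact mem_union_right _ (mem_filter.2 ⟨h1, h2, h3⟩)
      · exact mem_union_left _ (mem_filter.2 ⟨h1, h2, h3⟩)
    have h2 := (card_le_card h1).trans (card_union_le _ _)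
    have h3 := alpha_pair hH hyx.symm
    unfold dg
    omega
  have hr := rows_two (by omega : 1 ≤ t) h hx hy hyx.symm (X := X) (Y := ∅) ?_ ?_ ?_ ?_
  · rw [union_empty, inter_empty, card_empty, add_zero, hXc] at hr
    have hp : 2 ^ (V.card - t) = 2 ^ (V.card - t - 1) * 2 := by
      rw [← pow_succ]
      congr 1
      omega
    have e1 : 2 ^ (V.card - t - 1) * (2 * Hx.card) = 2 ^ (V.card - t) * Hx.card := by
      rw [hp]; ring
    rw [e1] at hr
    calc (rows V t R).card + 2 ^ (V.card - t) * dg H x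
        ≤ (rows V t R).card + 2 ^ (V.card - t) * (Hx.card + V.card ^ (t - 2)) :=
          Nat.add_le_add_left (Nat.mul_le_mul_left _ hd) _
      _ = ((rows V t R).card + 2 ^ (V.card - t) * Hx.card)
            + 2 ^ (V.card - t) * V.card ^ (t - 2) := by ring
      _ ≤ gs V.card t + 2 ^ (V.card - t) * V.card ^ (t - 2) := Nat.add_le_add_right hr _
  · intro K hK
    obtain ⟨M, hM, rfl⟩ := mem_image.1 hK
    obtain ⟨hM1, hMx, hMy⟩ := mem_filter.1 hM
    refine ⟨?_, ?_⟩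
    · intro z hz
      obtain ⟨hzx, hzM⟩ := mem_erase.1 hz
      refine mem_sdiff.2 ⟨hH.sub M hM1 hzM, ?_⟩
      intro hz2
      rcases mem_insert.1 hz2 with h1 | h1
      · exact hzx h1
      · rw [mem_singleton.1 h1] at hzM
        exact hMy hzM
    · rw [card_erase_of_mem hMx, hH.crd M hM1]
      omega
  · intro K hK
    exact absurd hK (notMem_empty K)
  · intro K hK A hA hKA
    obtain ⟨M, hM, rfl⟩ := mem_image.1 hK
    obtain ⟨hM1, hMx, hMy⟩ := mem_filter.1 hM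
    have hKA' : insert x (M.erase x) ⊆ A := hKA
    rw [insert_erase hMx] at hKA'
    exact hH.out M hM1 A hA hKA'
  · intro K hK
    exact absurd hK (notMem_empty K)

private lemma alpha_link {H R : Finset (Finset ℕ)} {x : ℕ} :
    dp (H.filter (fun M => x ∈ M)) R ≤
      dp ((H.filter (fun M => x ∈ M)).image (fun M => M.erase x)) (R.filter (fun A => x ∉ A)) := by
  rw [dp_eq_sum, dp_eq_sum, sum_image (alpha_erase_inj _ x (fun M hM => (mem_filter.1 hM).2))]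
  refine sum_le_sum fun M hM => card_le_card ?_
  intro B hB
  obtain ⟨hB1, hB2⟩ := mem_filter.1 hB
  have hxM := (mem_filter.1 hM).2
  refine mem_filter.2 ⟨mem_filter.2 ⟨hB1, ?_⟩, ?_⟩
  · exact disjoint_left.1 hB2 hxM
  · exact hB2.mono_left (erase_subset _ _)

theorem alpha (t : ℕ) (ht : 2 ≤ t) {ε₂ ρ : ℝ} (hε : 0 < ε₂) (hρ : 0 < ρ) : ∃ τ γ : ℝ, 0 < τ ∧
    0 < γ ∧ ∃ n₀ : ℕ, ∀ V : Finset ℕ, n₀ ≤ V.card → ∀ R H : Finset (Finset ℕ), Av V t R →
    Hv V t R H → ∀ x ∈ V, ρ * (V.card : ℝ) ^ (t - 1) ≤ dg H x →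
    ((R.filter (fun A => x ∉ A)).card : ℝ) ≤ (1 / 2 - ε₂) * 2 ^ (V.card - 1) →
    (∀ z ∈ V, (dg (H.filter (fun M => x ∉ M)) z : ℝ) ≤ τ * (V.card : ℝ) ^ (t - 1)) →
    ((rows V t R).card : ℝ) + 2 * dp H R ≤ gs V.card t - γ * un t V.card := by
  have htpos : (0 : ℝ) < t := by
    have : 0 < t := by omega
    exact_mod_cast this
  set c : ℝ := 2 * ε₂ * ρ / 2 ^ t with hc
  have hcpos : 0 < c := by positivity
  obtain ⟨n₁, hn₁⟩ := sm (t - 1) (η := c / 12) (by positivity)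
  obtain ⟨n₂, hn₂⟩ := low_small t ht 1 (η := c / 12) (by positivity)
  refine ⟨ε₂ * ρ / (4 * t * 4 ^ t), c / 2, by positivity, by positivity,
    n₁ + n₂ + t + 2, ?_⟩
  intro V hV R H hA hH x hx hd hR hz
  set n := V.card with hn
  have hun := un_nonneg t n
  -- rows
  have h1 := alpha_rows ht (by omega : t + 1 ≤ V.card) hA hH hx
  have h1' : ((rows V t R).card : ℝ) + 2 ^ (n - t) * dg H x ≤
      gs n t + 2 ^ (n - t) * (n : ℝ) ^ (t - 2) := by
    exact_mod_cast h1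
  have hpow : (2 : ℝ) ^ (n - t) = 2 ^ n / 2 ^ t := by
    rw [pow_sub₀ _ (by norm_num) (by omega : t ≤ n)]
    rfl
  rw [hpow] at h1'
  -- low order
  have h2 := hn₂ n (by omega)
  have h2' : (2 : ℝ) ^ n / 2 ^ t * (n : ℝ) ^ (t - 2) ≤ c / 12 * un t n := by
    refine le_trans ?_ h2
    have e1 : (2 : ℝ) ^ n / 2 ^ t ≤ 2 ^ n := div_le_self (by positivity) (one_le_pow₀ (by norm_num))
    calc (2 : ℝ) ^ n / 2 ^ t * (n : ℝ) ^ (t - 2) ≤ 2 ^ n * (n : ℝ) ^ (t - 2) :=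
          mul_le_mul_of_nonneg_right e1 (by positivity)
      _ = 1 * (n : ℝ) ^ (t - 2) * 2 ^ n := by ring
  -- split
  have h3 : dp H R = dp (H.filter (fun M => x ∈ M)) R + dp (H.filter (fun M => x ∉ M)) R := by
    rw [← dp_union_left _ _ _ (disjoint_filter_filter_not H H (fun M => x ∈ M)),
      filter_union_filter_not_eq]
  -- sparse part
  have hH' : Hv V t R (H.filter (fun M => x ∉ M)) :=
    ⟨fun M hM => hH.sub M (mem_filter.1 hM).1, fun M hM => hH.crd M (mem_filter.1 hM).1,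
      fun M hM => hH.out M (mem_filter.1 hM).1⟩
  have h4 := sparse (by omega : 1 ≤ t) hA.sub hH'
    (Δ := ε₂ * ρ / (4 * t * 4 ^ t) * (n : ℝ) ^ (t - 1)) (by positivity) hz
  have h4' : (t : ℝ) * 2 ^ t * (ε₂ * ρ / (4 * t * 4 ^ t) * (n : ℝ) ^ (t - 1)) * 2 ^ n =
      c / 8 * un t n := by
    unfold un
    rw [hc]
    have e4 : (4 : ℝ) ^ t = 2 ^ t * 2 ^ t := by
      rw [← mul_pow]; norm_num
    rw [e4]
    field_simp
    ring
  rw [h4'] at h4
  -- link part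
  have h5 := alpha_link (H := H) (R := R) (x := x)
  have h6 := hn₁ (V.erase x) (by rw [card_erase_of_mem hx]; omega)
    (R.filter (fun A => x ∉ A)) ((H.filter (fun M => x ∈ M)).image (fun M => M.erase x)) ?_ ?_
  rotate_left
  · intro A hA'
    obtain ⟨hA1, hA2⟩ := mem_filter.1 hA'
    exact fun z hz => mem_erase.2 ⟨fun h => hA2 (h ▸ hz), hA.sub A hA1 hz⟩
  · intro K hK
    obtain ⟨M, hM, rfl⟩ := mem_image.1 hK
    obtain ⟨hM1, hM2⟩ := mem_filter.1 hM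
    refine ⟨erase_subset_erase _ (hH.sub M hM1), ?_⟩
    rw [card_erase_of_mem hM2, hH.crd M hM1]
  have h7 : ((H.filter (fun M => x ∈ M)).image (fun M => M.erase x)).card = dg H x :=
    card_image_of_injOn (alpha_erase_inj _ x (fun M hM => (mem_filter.1 hM).2))
  rw [h7, card_erase_of_mem hx, ← hn] at h6
  have h8 := (abs_le.1 h6).2
  have h9 : c / 12 * ((n - 1 : ℕ) : ℝ) ^ (t - 1) * 2 ^ (n - 1) ≤ c / 12 * un t n := by
    unfold un
    have e1 : ((n - 1 : ℕ) : ℝ) ^ (t - 1) ≤ (n : ℝ) ^ (t - 1) := by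
      refine pow_le_pow_left₀ (Nat.cast_nonneg _) ?_ _
      exact_mod_cast Nat.sub_le n 1
    have e2 : (2 : ℝ) ^ (n - 1) ≤ 2 ^ n := pow_le_pow_right₀ (by norm_num) (Nat.sub_le n 1)
    have e3 : ((n - 1 : ℕ) : ℝ) ^ (t - 1) * 2 ^ (n - 1) ≤ (n : ℝ) ^ (t - 1) * 2 ^ n :=
      mul_le_mul e1 e2 (by positivity) (by positivity)
    calc c / 12 * ((n - 1 : ℕ) : ℝ) ^ (t - 1) * 2 ^ (n - 1)
        = c / 12 * (((n - 1 : ℕ) : ℝ) ^ (t - 1) * 2 ^ (n - 1)) := by ring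
      _ ≤ c / 12 * ((n : ℝ) ^ (t - 1) * 2 ^ n) := mul_le_mul_of_nonneg_left e3 (by positivity)
  -- size of the product
  have hp1 : (2 : ℝ) ^ n = 2 ^ (n - 1) * 2 := by
    rw [← pow_succ]
    congr 1
    omega
  have hp2 : (2 : ℝ) ^ t = 2 ^ (t - 1) * 2 := by
    rw [← pow_succ]
    congr 1
    omega
  have hdn : (0 : ℝ) ≤ (dg H x : ℝ) := Nat.cast_nonneg _
  have h10 : 2 * (((R.filter (fun A => x ∉ A)).card : ℝ) * dg H x / 2 ^ (t - 1)) ≤
      (1 - 2 * ε₂) * (2 ^ n / 2 ^ t * dg H x) := by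
    have e1 : ((R.filter (fun A => x ∉ A)).card : ℝ) * dg H x ≤
        (1 / 2 - ε₂) * 2 ^ (n - 1) * dg H x := mul_le_mul_of_nonneg_right hR hdn
    have e2 : ((R.filter (fun A => x ∉ A)).card : ℝ) * dg H x / 2 ^ (t - 1) ≤
        (1 / 2 - ε₂) * 2 ^ (n - 1) * dg H x / 2 ^ (t - 1) :=
      div_le_div_of_nonneg_right e1 (by positivity)
    have e3 : (1 - 2 * ε₂) * (2 ^ n / 2 ^ t * dg H x) =
        2 * ((1 / 2 - ε₂) * 2 ^ (n - 1) * dg H x / 2 ^ (t - 1)) := by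
      rw [hp1, hp2]
      field_simp
    rw [e3]
    linarith
  have h11 : c * un t n ≤ 2 * ε₂ * (2 ^ n / 2 ^ t * dg H x) := by
    have e1 : 2 * ε₂ * (2 ^ n / 2 ^ t * (ρ * (n : ℝ) ^ (t - 1))) ≤
        2 * ε₂ * (2 ^ n / 2 ^ t * dg H x) := by
      refine mul_le_mul_of_nonneg_left ?_ (by positivity)
      exact mul_le_mul_of_nonneg_left hd (by positivity)
    refine le_trans (le_of_eq ?_) e1
    unfold un
    rw [hc]
    field_simp
  have h5' : (dp (H.filter (fun M => x ∈ M)) R : ℝ) ≤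
      dp ((H.filter (fun M => x ∈ M)).image (fun M => M.erase x)) (R.filter (fun A => x ∉ A)) := by
    exact_mod_cast h5
  have h3' : (dp H R : ℝ) = dp (H.filter (fun M => x ∈ M)) R + dp (H.filter (fun M => x ∉ M)) R := by
    exact_mod_cast h3
  rw [h3']
  have h4b : (dp (H.filter (fun M => x ∉ M)) R : ℝ) ≤ c / 8 * un t n := h4
  nlinarith [h1', h2', h4b, h8, h9, h10, h11, h5']

end Pool.Agent.H26.LT
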