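import Pool.Agent.H26.LT.Dense
import Pool.Agent.H26.LT.Sparse
import Pool.Agent.H26.LT.Slots

/-!
Module Avoid.  Let `D` be the set of all centres of degree at least `τ n^(t-1)` (`τ > 0` fixed).  Almost all members of
`R` avoid `D`, and `dp H R` is at most `t 2^t τ un + η un` plus the pairs `(M, A)` with `M ∩ D ≠ ∅`, `A ∩ D = ∅`.

`H' = {M ∈ H : M ∩ D = ∅}` has degrees `≤ τ n^(t-1)` (at `z ∈ D` the degree is `0`): `sparse`.  For `z ∈ D` the sets
`K = M \ z`, `z ∈ M ∈ H`, show by `dense` (with `k = t + 3`) that at most `2^n / n^(t+3)` members contain `z`; together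
`#{A ∈ R : A ∩ D ≠ ∅} ≤ 2^n / n^(t+2)`, and `|H| ≤ n^t`, so the pairs with `A ∩ D ≠ ∅` are at most `2^n/n^2 ≤ η un`.
-/

open Finset Pool.Agent.H37 Pool.Agent.H37.AV

namespace Pool.Agent.H26.LT

open Classical in
/-- The dense centres. -/
noncomputable def Dc (V : Finset ℕ) (t : ℕ) (τ : ℝ) (H : Finset (Finset ℕ)) : Finset ℕ :=
  V.filter (fun z => τ * (V.card : ℝ) ^ (t - 1) ≤ dg H z)

theorem avoid (t : ℕ) (ht : 2 ≤ t) {τ η : ℝ} (hτ : 0 < τ) (hη : 0 < η) : ∃ n₀ : ℕ,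
    ∀ V : Finset ℕ, n₀ ≤ V.card → ∀ R H : Finset (Finset ℕ), Av V t R → Hv V t R H →
    (dp H R : ℝ) ≤ dp (H.filter (fun M => ¬ Disjoint M (Dc V t τ H)))
      (R.filter (fun A => Disjoint A (Dc V t τ H))) + (t * 2 ^ t * τ + η) * un t V.card := by
  obtain ⟨n1, hn1⟩ := dense t ht hτ (t + 3)
  refine ⟨max n1 (⌈1 / η⌉₊ + 1), fun V hV R H hR hH => ?_⟩
  have hVn1 : n1 ≤ V.card := (le_max_left _ _).trans hV
  have hVη : ⌈1 / η⌉₊ + 1 ≤ V.card := (le_max_right _ _).trans hV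
  obtain ⟨n, hn⟩ : ∃ n : ℕ, n = V.card := ⟨_, rfl⟩
  rw [← hn] at hVn1 hVη
  have hn1r : (1 : ℝ) ≤ n := by
    have : 1 ≤ n := by omega
    exact_mod_cast this
  have hnη : 1 / η ≤ n := by
    have h1 : 1 / η ≤ (⌈1 / η⌉₊ : ℝ) := Nat.le_ceil _
    have h2 : ((⌈1 / η⌉₊ + 1 : ℕ) : ℝ) ≤ n := by exact_mod_cast hVη
    push_cast at h2
    linarith
  obtain ⟨D, hD⟩ : ∃ D : Finset ℕ, D = Dc V t τ H := ⟨_, rfl⟩
  rw [← hD]
  have hDV : D ⊆ V := by
    rw [hD]
    unfold Dc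
    exact filter_subset _ _
  have hDmem : ∀ z ∈ V, z ∈ D ↔ τ * (n : ℝ) ^ (t - 1) ≤ dg H z := by
    intro z hz
    rw [hD, hn]
    unfold Dc
    rw [mem_filter]
    simp [hz]
  obtain ⟨R1, hR1⟩ : ∃ R1, R1 = R.filter (fun A => Disjoint A D) := ⟨_, rfl⟩
  obtain ⟨R2, hR2⟩ : ∃ R2, R2 = R.filter (fun A => ¬ Disjoint A D) := ⟨_, rfl⟩
  obtain ⟨H1, hH1⟩ : ∃ H1, H1 = H.filter (fun M => ¬ Disjoint M D) := ⟨_, rfl⟩
  obtain ⟨H0, hH0⟩ : ∃ H0, H0 = H.filter (fun M => Disjoint M D) := ⟨_, rfl⟩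
  have hRu : R = R1 ∪ R2 := by
    rw [hR1, hR2]
    exact (filter_union_filter_not_eq _ _).symm
  have hHu : H = H0 ∪ H1 := by
    rw [hH0, hH1]
    exact (filter_union_filter_not_eq _ _).symm
  have hRd : Disjoint R1 R2 := by
    rw [hR1, hR2]
    exact disjoint_filter_filter_not _ _ _
  have hHd : Disjoint H0 H1 := by
    rw [hH0, hH1]
    exact disjoint_filter_filter_not _ _ _
  rw [← hR1, ← hH1]
  have e1 : dp H R = dp H R1 + dp H R2 := by
    conv_lhs => rw [hRu]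
    exact dp_union_right _ _ _ hRd
  have e2 : dp H R1 = dp H0 R1 + dp H1 R1 := by
    conv_lhs => rw [hHu]
    exact dp_union_left _ _ _ hHd
  have hR1R : R1 ⊆ R := by rw [hR1]; exact filter_subset _ _
  have hR2R : R2 ⊆ R := by rw [hR2]; exact filter_subset _ _
  have hH0H : H0 ⊆ H := by rw [hH0]; exact filter_subset _ _
  -- the sparse part
  have hHv0 : Hv V t R H0 := ⟨fun M hM => hH.sub M (hH0H hM), fun M hM => hH.crd M (hH0H hM),
    fun M hM => hH.out M (hH0H hM)⟩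
  have s1 : (dp H0 R : ℝ) ≤ t * 2 ^ t * (τ * (n : ℝ) ^ (t - 1)) * 2 ^ n := by
    have h := sparse (by omega : 1 ≤ t) hR.sub hHv0
      (by positivity : (0 : ℝ) ≤ τ * (n : ℝ) ^ (t - 1)) ?_
    · rw [← hn] at h
      exact h
    · intro x hx
      by_cases hxD : x ∈ D
      · have h0 : dg H0 x = 0 := by
          unfold dg
          rw [card_eq_zero, filter_eq_empty_iff]
          intro M hM hxM
          rw [hH0, mem_filter] at hM
          exact disjoint_left.1 hM.2 hxM hxD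
        rw [h0]
        push_cast
        positivity
      · have h1 : (dg H x : ℝ) < τ * (n : ℝ) ^ (t - 1) := by
          rw [← not_le, ← hDmem x hx]
          exact hxD
        have h2 : dg H0 x ≤ dg H x := by
          unfold dg
          exact card_le_card (filter_subset_filter _ hH0H)
        have h3 : (dg H0 x : ℝ) ≤ dg H x := by exact_mod_cast h2
        linarith
  have s2 : (dp H0 R1 : ℝ) ≤ dp H0 R := by
    exact_mod_cast dp_mono (Subset.refl _) hR1R
  -- the members that meet the dense centres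
  have d1 : ∀ z ∈ D, ((R.filter (fun A => z ∈ A)).card : ℝ) * (n : ℝ) ^ (t + 3) ≤ 2 ^ n := by
    intro z hz
    have hzV := hDV hz
    have h := hn1 V (by rw [← hn]; exact hVn1) R hR.sub z hzV
      ((H.filter (fun M => z ∈ M)).image (fun M => M.erase z)) ?_ ?_ ?_
    · rw [← hn] at h
      exact h
    · intro K hK
      rw [mem_image] at hK
      obtain ⟨M, hM, rfl⟩ := hK
      rw [mem_filter] at hM
      refine ⟨erase_subset_erase _ (hH.sub M hM.1), ?_⟩
      rw [card_erase_add_one hM.2]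
      exact hH.crd M hM.1
    · intro K hK A hA
      rw [mem_image] at hK
      obtain ⟨M, hM, rfl⟩ := hK
      rw [mem_filter] at hM
      rw [insert_erase hM.2]
      exact hH.out M hM.1 A hA
    · have hinj : ((H.filter (fun M => z ∈ M)).image (fun M => M.erase z)).card = dg H z := by
        unfold dg
        apply card_image_of_injOn
        intro M hM M' hM' hMM
        rw [mem_coe, mem_filter] at hM hM'
        have h5 : insert z (M.erase z) = insert z (M'.erase z) := by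
          simp only at hMM
          rw [hMM]
        rwa [insert_erase hM.2, insert_erase hM'.2] at h5
      rw [hinj, ← hn]
      exact (hDmem z hzV).1 hz
  have d2 : (R2.card : ℝ) ≤ ∑ z ∈ D, ((R.filter (fun A => z ∈ A)).card : ℝ) := by
    have h : R2 ⊆ D.biUnion (fun z => R.filter (fun A => z ∈ A)) := by
      intro A hA
      rw [hR2, mem_filter, not_disjoint_iff] at hA
      obtain ⟨hAR, z, hzA, hzD⟩ := hA
      rw [mem_biUnion]
      exact ⟨z, hzD, mem_filter.2 ⟨hAR, hzA⟩⟩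
    have h2 := (card_le_card h).trans card_biUnion_le
    exact_mod_cast h2
  have d3 : (R2.card : ℝ) * (n : ℝ) ^ (t + 3) ≤ n * 2 ^ n := by
    calc (R2.card : ℝ) * (n : ℝ) ^ (t + 3)
        ≤ (∑ z ∈ D, ((R.filter (fun A => z ∈ A)).card : ℝ)) * (n : ℝ) ^ (t + 3) := by gcongr
      _ = ∑ z ∈ D, ((R.filter (fun A => z ∈ A)).card : ℝ) * (n : ℝ) ^ (t + 3) := by
          rw [sum_mul]
      _ ≤ ∑ z ∈ D, (2 : ℝ) ^ n := sum_le_sum d1
      _ = D.card * 2 ^ n := by rw [sum_const, nsmul_eq_mul]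
      _ ≤ n * 2 ^ n := by
          have h1 : D.card ≤ n := by rw [hn]; exact card_le_card hDV
          have h2 : (D.card : ℝ) ≤ n := by exact_mod_cast h1
          gcongr
  have hn0 : (0 : ℝ) < n := by linarith
  have d4 : (R2.card : ℝ) * (n : ℝ) ^ (t + 2) ≤ 2 ^ n := by
    have h1 : (n : ℝ) ^ (t + 3) = (n : ℝ) ^ (t + 2) * n := pow_succ _ _
    rw [h1] at d3
    have h2 : (R2.card : ℝ) * (n : ℝ) ^ (t + 2) * n ≤ 2 ^ n * n := by
      linarith
    exact le_of_mul_le_mul_right h2 hn0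
  have hHc : (H.card : ℝ) ≤ (n : ℝ) ^ t := by
    have h1 : H ⊆ V.powersetCard t := fun M hM => mem_powersetCard.2 ⟨hH.sub M hM, hH.crd M hM⟩
    have h2 := card_le_card h1
    rw [card_powersetCard, ← hn] at h2
    have h3 := h2.trans (Nat.choose_le_pow n t)
    exact_mod_cast h3
  have d5 : (dp H R2 : ℝ) * (n : ℝ) ^ 2 ≤ 2 ^ n := by
    have h1 : (dp H R2 : ℝ) ≤ H.card * R2.card := by exact_mod_cast dp_le_mul H R2
    calc (dp H R2 : ℝ) * (n : ℝ) ^ 2 ≤ (H.card * R2.card) * (n : ℝ) ^ 2 :=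
          mul_le_mul_of_nonneg_right h1 (sq_nonneg _)
      _ ≤ ((n : ℝ) ^ t * R2.card) * (n : ℝ) ^ 2 :=
          mul_le_mul_of_nonneg_right (mul_le_mul_of_nonneg_right hHc (Nat.cast_nonneg _))
            (sq_nonneg _)
      _ = (R2.card : ℝ) * (n : ℝ) ^ (t + 2) := by rw [pow_add (n : ℝ) t 2]; ring
      _ ≤ 2 ^ n := d4
  have d6 : (dp H R2 : ℝ) ≤ η * un t n := by
    have h1 : 1 ≤ η * (n : ℝ) ^ 2 := by
      rw [div_le_iff₀ hη] at hnη
      have h2 : (n : ℝ) ≤ (n : ℝ) ^ 2 := by nlinarith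
      have h3 : η * n ≤ η * (n : ℝ) ^ 2 := by gcongr
      linarith
    have h2 : (1 : ℝ) ≤ (n : ℝ) ^ (t - 1) := one_le_pow₀ hn1r
    have h3 : (0 : ℝ) ≤ dp H R2 := Nat.cast_nonneg _
    unfold un
    have h4 : (0 : ℝ) < 2 ^ n := by positivity
    calc (dp H R2 : ℝ) = dp H R2 * 1 := (mul_one _).symm
      _ ≤ dp H R2 * (η * (n : ℝ) ^ 2) := by gcongr
      _ = η * (dp H R2 * (n : ℝ) ^ 2) := by ring
      _ ≤ η * 2 ^ n := by gcongr
      _ = η * (1 * 2 ^ n) := by ring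
      _ ≤ η * ((n : ℝ) ^ (t - 1) * 2 ^ n) := by gcongr
  have e3 : (dp H R : ℝ) = dp H0 R1 + dp H1 R1 + dp H R2 := by
    rw [e1, e2]
    push_cast
    ring
  rw [e3, ← hn]
  have e4 : (t * 2 ^ t * τ + η) * un t n =
      t * 2 ^ t * (τ * (n : ℝ) ^ (t - 1)) * 2 ^ n + η * un t n := by
    unfold un
    ring
  rw [e4]
  linarith

end Pool.Agent.H26.LT
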