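import Pool.Agent.H26.LT.Match

/-!
Module Dense.  If many `(t-1)`-sets `K` are such that no member of `R` contains `K + x` then few members of `R`
contain `x`.

`A ↦ A \ x` maps `{A ∈ R : x ∈ A}` injectively to the subsets of `V \ x` which contain no `K ∈ N`.  `match_exp` with
`k = t - 1 ≥ 1`, `Δ = n^(t-2)` (a point lies in at most `C(n, t-2) ≤ n^(t-2)` sets of size `t-1`): `ρ n^(t-1) ≤ |N| ≤
(t-1) m n^(t-2)`, so `m ≥ ρ n / (t-1)` and the number is at most `2^n exp (-ρ n / ((t-1) 2^(t-1)))`, which is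
`≤ 2^n / n^k` for large `n`.
-/

open Finset Pool.Agent.H37 Pool.Agent.H37.AV

namespace Pool.Agent.H26.LT

/-- Polynomial times a decaying exponential is eventually at most one. -/
private lemma dense_decay {c : ℝ} (hc : 0 < c) (k : ℕ) :
    ∃ n₀ : ℕ, ∀ n : ℕ, n₀ ≤ n → (n : ℝ) ^ k * Real.exp (-(c * n)) ≤ 1 := by
  have h1 := (Real.tendsto_pow_mul_exp_neg_atTop_nhds_zero k).comp
    ((tendsto_natCast_atTop_atTop (R := ℝ)).const_mul_atTop hc)
  have h2 : ∀ᶠ n : ℕ in Filter.atTop, (c * (n : ℝ)) ^ k * Real.exp (-(c * n)) ≤ c ^ k := by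
    have h3 := h1.eventually (eventually_le_nhds (show (0 : ℝ) < c ^ k by positivity))
    exact h3
  obtain ⟨n₀, hn₀⟩ := Filter.eventually_atTop.1 h2
  refine ⟨n₀, fun n hn => ?_⟩
  have h4 := hn₀ n hn
  rw [mul_pow, mul_assoc] at h4
  have h5 : (0 : ℝ) < c ^ k := by positivity
  nlinarith

/-- The degree of a point in a family of `(s+1)`-element subsets of `W` is at most `|V|^s`. -/
private lemma dense_degree {V : Finset ℕ} {s : ℕ} {N : Finset (Finset ℕ)}
    (hN : ∀ K ∈ N, K ⊆ V ∧ K.card = s + 1) (y : ℕ) :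
    (N.filter (fun M => y ∈ M)).card ≤ V.card ^ s := by
  calc (N.filter (fun M => y ∈ M)).card ≤ (V.powersetCard s).card := by
        refine card_le_card_of_injOn (fun K => K.erase y) ?_ ?_
        · intro K hK
          rw [mem_coe, mem_filter] at hK
          rw [mem_coe, mem_powersetCard]
          refine ⟨(erase_subset _ _).trans (hN K hK.1).1, ?_⟩
          rw [card_erase_of_mem hK.2, (hN K hK.1).2]
          rfl
        · intro K hK L hL h
          rw [mem_coe, mem_filter] at hK hL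
          have h1 : insert y (K.erase y) = insert y (L.erase y) := congrArg _ h
          rwa [insert_erase hK.2, insert_erase hL.2] at h1
    _ = V.card.choose s := card_powersetCard _ _
    _ ≤ V.card ^ s := Nat.choose_le_pow _ _

theorem dense (t : ℕ) (ht : 2 ≤ t) {ρ : ℝ} (hρ : 0 < ρ) (k : ℕ) : ∃ n₀ : ℕ, ∀ V : Finset ℕ,
    n₀ ≤ V.card → ∀ R : Finset (Finset ℕ), (∀ A ∈ R, A ⊆ V) → ∀ x ∈ V, ∀ N : Finset (Finset ℕ),
    (∀ K ∈ N, K ⊆ V.erase x ∧ K.card + 1 = t) → (∀ K ∈ N, ∀ A ∈ R, ¬ insert x K ⊆ A) →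
    ρ * (V.card : ℝ) ^ (t - 1) ≤ N.card →
    ((R.filter (fun A => x ∈ A)).card : ℝ) * (V.card : ℝ) ^ k ≤ 2 ^ V.card := by
  classical
  obtain ⟨s, rfl⟩ : ∃ s, t = s + 2 := ⟨t - 2, by omega⟩
  have hc : 0 < ρ / ((s + 1 : ℕ) * 2 ^ (s + 1)) := by positivity
  obtain ⟨n₀, hn₀⟩ := dense_decay hc k
  refine ⟨max n₀ 1, fun V hV R hR x hx N hN hNR hcard => ?_⟩
  have hV1 : 0 < V.card := by have := le_max_right n₀ 1; omega
  have hV0 : n₀ ≤ V.card := (le_max_left _ _).trans hV
  have hVpos : (0 : ℝ) < V.card := by exact_mod_cast hV1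
  obtain ⟨m, hm1, hm2⟩ := match_exp (V := V.erase x) (k := s + 1) (by omega) (ℋ := N)
    (fun M hM => (hN M hM).1) (fun M hM => by have := (hN M hM).2; omega) (Δ := V.card ^ s)
    (fun y _ => dense_degree (V := V) (fun K hK => ⟨(hN K hK).1.trans (erase_subset _ _), by
      have := (hN K hK).2; omega⟩) y)
  -- lower bound for `m`
  have hm : ρ * V.card ≤ (s + 1 : ℕ) * (m : ℝ) := by
    have h1 : (N.card : ℝ) ≤ ((s + 1 : ℕ) : ℝ) * m * (V.card : ℝ) ^ s := by exact_mod_cast hm1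
    have h2 : s + 2 - 1 = s + 1 := by omega
    rw [h2, pow_succ] at hcard
    have h3 : (0 : ℝ) < (V.card : ℝ) ^ s := by positivity
    have h4 : (ρ * V.card) * (V.card : ℝ) ^ s ≤ ((s + 1 : ℕ) * (m : ℝ)) * (V.card : ℝ) ^ s := by
      calc (ρ * V.card) * (V.card : ℝ) ^ s = ρ * ((V.card : ℝ) ^ s * V.card) := by ring
        _ ≤ N.card := hcard
        _ ≤ _ := h1
    exact le_of_mul_le_mul_right h4 h3
  -- the injection
  have hinj : (R.filter (fun A => x ∈ A)).card ≤
      ((V.erase x).powerset.filter (fun A => ∀ M ∈ N, ¬ M ⊆ A)).card := by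
    refine card_le_card_of_injOn (fun A => A.erase x) ?_ ?_
    · intro A hA
      rw [mem_coe, mem_filter] at hA
      rw [mem_coe, mem_filter, mem_powerset]
      refine ⟨erase_subset_erase _ (hR A hA.1), fun M hM hMA => hNR M hM A hA.1 ?_⟩
      intro z hz
      rcases mem_insert.1 hz with rfl | hz
      · exact hA.2
      · exact mem_of_mem_erase (hMA hz)
    · intro A hA B hB h
      rw [mem_coe, mem_filter] at hA hB
      have h1 : insert x (A.erase x) = insert x (B.erase x) := congrArg _ h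
      rwa [insert_erase hA.2, insert_erase hB.2] at h1
  have hinj' : ((R.filter (fun A => x ∈ A)).card : ℝ) ≤
      2 ^ (V.erase x).card * Real.exp (-(m : ℝ) / 2 ^ (s + 1)) := by
    refine le_trans ?_ hm2
    exact_mod_cast hinj
  have hpow : (2 : ℝ) ^ (V.erase x).card ≤ 2 ^ V.card :=
    pow_le_pow_right₀ (by norm_num) (card_le_card (erase_subset _ _))
  have hexp : Real.exp (-(m : ℝ) / 2 ^ (s + 1)) ≤
      Real.exp (-(ρ / ((s + 1 : ℕ) * 2 ^ (s + 1)) * V.card)) := by
    apply Real.exp_le_exp.2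
    have h1 : (0 : ℝ) < ((s + 1 : ℕ) : ℝ) := by positivity
    have h2 : (0 : ℝ) < (2 : ℝ) ^ (s + 1) := by positivity
    rw [neg_div, neg_le_neg_iff, div_mul_eq_mul_div, div_le_div_iff₀ (by positivity) h2]
    nlinarith
  calc ((R.filter (fun A => x ∈ A)).card : ℝ) * (V.card : ℝ) ^ k
      ≤ (2 ^ V.card * Real.exp (-(ρ / ((s + 1 : ℕ) * 2 ^ (s + 1)) * V.card))) *
          (V.card : ℝ) ^ k := by
        apply mul_le_mul_of_nonneg_right _ (by positivity)
        exact hinj'.trans (mul_le_mul hpow hexp (Real.exp_pos _).le (by positivity))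
    _ = 2 ^ V.card * ((V.card : ℝ) ^ k *
          Real.exp (-(ρ / ((s + 1 : ℕ) * 2 ^ (s + 1)) * V.card))) := by ring
    _ ≤ 2 ^ V.card * 1 := by
        apply mul_le_mul_of_nonneg_left (hn₀ _ hV0) (by positivity)
    _ = 2 ^ V.card := mul_one _

end Pool.Agent.H26.LT
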