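import Pool.Agent.H26.LT.RowsGe

/-!
Module Fibre.  If `|R| ≥ (1/2 - ε₂) 2^n`, `R` is `Av V t`, then for every `K ⊆ V` with `t - 1` elements all fibres
`R_E = {B \ K : B ∈ R, B ∩ K = E}`, `E ⊆ K`, have at least `(1/2 - ε') 2^(n-t+1)` elements; here for `E = K` and `E = ∅`.

`|B \ K ∩ B' \ K| ≠ t - |E|` for two members of the fibre, `t - |E| ≥ 1`: `mass` with `s = t - |E| ∈ [1, t]` on `V \ K`:
`|R_E| ≤ (1/2 + η) 2^(n-t+1)`.  Sum over the `2^(t-1)` sets `E`: `|R_E| ≥ (1/2 - ε₂) 2^n - (2^(t-1) - 1)(1/2 + η) 2^(n-t+1)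
≥ (1/2 - 2^(t-1) ε₂ - 2^(t-1) η) 2^(n-t+1)`.  Take `ε₂ = η = ε' / 2^t`.
-/

open Finset Pool.Agent.H37 Pool.Agent.H37.AV

namespace Pool.Agent.H26.LT

private lemma fibre_le {V K : Finset ℕ} {t : ℕ} (hK : K ⊆ V) (hKt : K.card + 1 = t)
    {R : Finset (Finset ℕ)} (hR : Av V t R) {η : ℝ} {n₁ : ℕ}
    (hm : ∀ s, 1 ≤ s → s ≤ t → ∀ V : Finset ℕ, n₁ ≤ V.card → ∀ R : Finset (Finset ℕ),
      (∀ A ∈ R, A ⊆ V) → (∀ A ∈ R, ∀ B ∈ R, (A ∩ B).card ≠ s) →
      (R.card : ℝ) ≤ (1 / 2 + η) * 2 ^ V.card)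
    (hn : n₁ ≤ V.card - (t - 1)) {E : Finset ℕ} (hE : E ⊆ K) :
    ((R.filter (fun B => B ∩ K = E)).card : ℝ) ≤ (1 / 2 + η) * 2 ^ (V.card - (t - 1)) := by
  have hc : (V \ K).card = V.card - (t - 1) := by
    rw [card_sdiff_of_subset hK]; omega
  have hEc : E.card ≤ K.card := card_le_card hE
  have hinj : Set.InjOn (fun B : Finset ℕ => B \ K) (R.filter (fun B => B ∩ K = E)) := by
    intro B hB B' hB' h
    have h1 : B ∩ K = E := (mem_filter.1 hB).2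
    have h2 : B' ∩ K = E := (mem_filter.1 hB').2
    have h : B \ K = B' \ K := h
    rw [← sdiff_union_inter B K, ← sdiff_union_inter B' K, h, h1, h2]
  rw [← card_image_of_injOn hinj, ← hc]
  refine hm (t - E.card) (by omega) (Nat.sub_le _ _) (V \ K) (by omega) _ ?_ ?_
  · intro A hA
    obtain ⟨B, hB, rfl⟩ := mem_image.1 hA
    exact sdiff_subset_sdiff (hR.sub B (mem_filter.1 hB).1) (Subset.refl _)
  · intro A hA A' hA' h
    obtain ⟨B, hB, rfl⟩ := mem_image.1 hA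
    obtain ⟨B', hB', rfl⟩ := mem_image.1 hA'
    obtain ⟨hB1, hB2⟩ := mem_filter.1 hB
    obtain ⟨hB'1, hB'2⟩ := mem_filter.1 hB'
    refine hR.av B hB1 B' hB'1 ?_
    have e : B ∩ B' = (B \ K) ∩ (B' \ K) ∪ E := by
      ext x
      have h1 : x ∈ B ∧ x ∈ K ↔ x ∈ E := by rw [← hB2, mem_inter]
      have h2 : x ∈ B' ∧ x ∈ K ↔ x ∈ E := by rw [← hB'2, mem_inter]
      simp only [mem_inter, mem_union, mem_sdiff]
      tauto
    have hd : Disjoint ((B \ K) ∩ (B' \ K)) E := by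
      rw [disjoint_left]
      intro x hx hx'
      exact (mem_sdiff.1 (mem_inter.1 hx).1).2 (hE hx')
    have h : ((B \ K) ∩ (B' \ K)).card = t - E.card := h
    rw [e, card_union_of_disjoint hd, h]
    omega

theorem fibre (t : ℕ) (ht : 2 ≤ t) {ε' : ℝ} (hε : 0 < ε') : ∃ ε₂ : ℝ, 0 < ε₂ ∧ ∃ n₀ : ℕ,
    ∀ V : Finset ℕ, n₀ ≤ V.card → ∀ R : Finset (Finset ℕ), Av V t R →
    (1 / 2 - ε₂) * 2 ^ V.card ≤ (R.card : ℝ) → ∀ K ⊆ V, K.card + 1 = t →
    (1 / 2 - ε') * 2 ^ (V.card - (t - 1)) ≤ ((R.filter (fun B => K ⊆ B)).card : ℝ) ∧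
    (1 / 2 - ε') * 2 ^ (V.card - (t - 1)) ≤ ((R.filter (fun B => Disjoint K B)).card : ℝ) := by
  have hη : 0 < ε' / 2 ^ t := by positivity
  have h0 : ∀ s : ℕ, ∃ n₁ : ℕ, 1 ≤ s → ∀ V : Finset ℕ, n₁ ≤ V.card → ∀ R : Finset (Finset ℕ),
      (∀ A ∈ R, A ⊆ V) → (∀ A ∈ R, ∀ B ∈ R, (A ∩ B).card ≠ s) →
      (R.card : ℝ) ≤ (1 / 2 + ε' / 2 ^ t) * 2 ^ V.card := by
    intro s
    by_cases hs : 1 ≤ s
    · obtain ⟨n₁, h⟩ := mass s hs hη
      exact ⟨n₁, fun _ => h⟩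
    · exact ⟨0, fun h => absurd h hs⟩
  choose N hN using h0
  refine ⟨ε' / 2 ^ t, hη, (∑ s ∈ range (t + 1), N s) + t, fun V hV R hR hRc K hK hKt => ?_⟩
  have hm : ∀ s, 1 ≤ s → s ≤ t → ∀ V' : Finset ℕ, (∑ s ∈ range (t + 1), N s) ≤ V'.card →
      ∀ R : Finset (Finset ℕ), (∀ A ∈ R, A ⊆ V') → (∀ A ∈ R, ∀ B ∈ R, (A ∩ B).card ≠ s) →
      (R.card : ℝ) ≤ (1 / 2 + ε' / 2 ^ t) * 2 ^ V'.card := by
    intro s hs1 hst V' hV'
    exact hN s hs1 V' ((single_le_sum (fun _ _ => Nat.zero_le _)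
      (mem_range.2 (Nat.lt_succ_of_le hst))).trans hV')
  have hn : (∑ s ∈ range (t + 1), N s) ≤ V.card - (t - 1) := by omega
  have key : ∀ E ⊆ K, (1 / 2 - ε') * 2 ^ (V.card - (t - 1)) ≤
      ((R.filter (fun B => B ∩ K = E)).card : ℝ) := by
    intro E₀ hE₀
    have hsum : (R.card : ℝ) = ∑ E ∈ K.powerset, ((R.filter (fun B => B ∩ K = E)).card : ℝ) := by
      have h := card_eq_sum_card_fiberwise (s := R) (t := K.powerset) (f := fun B => B ∩ K)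
        (fun B _ => mem_coe.2 (mem_powerset.2 inter_subset_right))
      rw [h]
      push_cast
      rfl
    have hmem : E₀ ∈ K.powerset := mem_powerset.2 hE₀
    rw [← add_sum_erase _ _ hmem] at hsum
    have hle : ∑ E ∈ K.powerset.erase E₀, ((R.filter (fun B => B ∩ K = E)).card : ℝ) ≤
        ∑ _E ∈ K.powerset.erase E₀, (1 / 2 + ε' / 2 ^ t) * 2 ^ (V.card - (t - 1)) := by
      refine sum_le_sum fun E hE => ?_
      exact fibre_le hK hKt hR hm hn (mem_powerset.1 (mem_of_mem_erase hE))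
    rw [sum_const, card_erase_of_mem hmem, card_powerset, nsmul_eq_mul] at hle
    have hk : K.card = t - 1 := by omega
    rw [hk] at hle
    have hcast : (((2 ^ (t - 1) - 1 : ℕ)) : ℝ) = 2 ^ (t - 1) - 1 := by
      rw [Nat.cast_sub Nat.one_le_two_pow]
      push_cast
      ring
    rw [hcast] at hle
    obtain ⟨m, hm'⟩ : ∃ m, V.card = m + (t - 1) := ⟨V.card - (t - 1), by omega⟩
    have hVm : V.card - (t - 1) = m := by omega
    rw [hVm] at hle ⊢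
    have h2V : (2 : ℝ) ^ V.card = 2 ^ m * 2 ^ (t - 1) := by rw [hm', pow_add]
    have h2t : (2 : ℝ) ^ t = 2 * 2 ^ (t - 1) := by
      rw [← pow_succ']
      congr 1
      omega
    rw [h2V] at hRc
    set a : ℝ := 2 ^ (t - 1) with ha
    have ha0 : 0 < a := by positivity
    have hm0 : (0 : ℝ) < 2 ^ m := by positivity
    rw [h2t] at hRc hle
    have e1 : ε' / (2 * a) * a = ε' / 2 := by field_simp
    have h3 : ((R.filter (fun B => B ∩ K = E₀)).card : ℝ) ≥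
        (1 / 2 - ε' / (2 * a)) * (2 ^ m * a) - (a - 1) * ((1 / 2 + ε' / (2 * a)) * 2 ^ m) := by
      linarith
    have h4 : (1 / 2 - ε' / (2 * a)) * (2 ^ m * a) - (a - 1) * ((1 / 2 + ε' / (2 * a)) * 2 ^ m) =
        (1 / 2 - 2 * (ε' / (2 * a) * a) + ε' / (2 * a)) * 2 ^ m := by ring
    rw [h4, e1] at h3
    have h5 : 0 < ε' / (2 * a) * 2 ^ m := by positivity
    have h6 : (1 / 2 - 2 * (ε' / 2) + ε' / (2 * a)) * 2 ^ m =
        (1 / 2 - ε') * 2 ^ m + ε' / (2 * a) * 2 ^ m := by ring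
    linarith
  constructor
  · have e : R.filter (fun B => K ⊆ B) = R.filter (fun B => B ∩ K = K) := by
      refine filter_congr fun B _ => ?_
      rw [inter_eq_right]
    rw [e]
    exact key K (Subset.refl _)
  · have e : R.filter (fun B => Disjoint K B) = R.filter (fun B => B ∩ K = ∅) := by
      refine filter_congr fun B _ => ?_
      rw [disjoint_comm, disjoint_iff_inter_eq_empty]
    rw [e]
    exact key ∅ (empty_subset _)

end Pool.Agent.H26.LT
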