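import Pool.Agent.H26.LT.HalfV

/-!
Module Ident.  The identity for a star.

`x ∈ V`, `V' = V \ x`, `R' = {A ∈ R : x ∉ A}`, `𝒜 = {A \ x : x ∈ A ∈ R}`, `H` a set of `t`-sets all of which contain `x`,
`𝒩 = {M \ x : M ∈ H}`, `N = V'.powersetCard (t-1)`.  Then
`rows(R) + 2 dp H R + 2 dp (N \ 𝒩) R' = 4 W'(R') + 2 W'(𝒜) + dp R' R' + 2 dp 𝒜 R'`, `W' = WK.W (n-1) t`, `n = |V|`.

`rows_card_v`: `rows = 2 W(R) + dp R R`.  `dp R R = dp R' R' + 2 dp 𝒜 R'` (two sets with `x` are not disjoint;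
`A ∩ B = (A \ x) ∩ B` for `x ∉ B`).  `W(R) = ∑_{B ∈ R'} sb t (n-|B|) + W'(𝒜)` (`n - |A| = (n-1) - |A \ x|`).
`dp H R = dp 𝒩 R'`, `dp 𝒩 R' + dp (N \ 𝒩) R' = dp N R' = ∑_{B ∈ R'} C(n-1-|B|, t-1)`, and
`sb t (m+1) + C(m,t-1) = sb t m + sb (t-1) m + C(m,t-1) = 2 sb t m` with `m = n-1-|B|`.
Stated as an inequality, which is all that is needed.
-/

open Finset Pool.Agent.H37 Pool.Agent.H37.AV

namespace Pool.Agent.H26.LT

private lemma injOn_erase {S : Finset (Finset ℕ)} {x : ℕ} (hS : ∀ A ∈ S, x ∈ A) :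
    Set.InjOn (fun A : Finset ℕ => A.erase x) (S : Set (Finset ℕ)) := by
  intro A hA B hB hAB
  have hAB' : A.erase x = B.erase x := hAB
  rw [← insert_erase (hS A hA), ← insert_erase (hS B hB), hAB']

private lemma dp_erase {S T : Finset (Finset ℕ)} {x : ℕ} (hS : ∀ A ∈ S, x ∈ A)
    (hT : ∀ B ∈ T, x ∉ B) : dp (S.image (fun A => A.erase x)) T = dp S T := by
  rw [dp_eq_sum', dp_eq_sum']
  refine sum_congr rfl fun B hB => ?_
  rw [filter_image, card_image_of_injOn]
  · congr 1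
    refine filter_congr fun A hA => ?_
    constructor
    · intro h
      rw [← insert_erase (hS A hA), disjoint_insert_left]
      exact ⟨hT B hB, h⟩
    · intro h
      exact h.mono_left (erase_subset _ _)
  · exact (injOn_erase hS).mono (by
      intro A hA
      exact (mem_filter.1 hA).1)

private lemma dp_zero {S T : Finset (Finset ℕ)} {x : ℕ} (hS : ∀ A ∈ S, x ∈ A)
    (hT : ∀ B ∈ T, x ∈ B) : dp S T = 0 := by
  unfold dp
  rw [card_eq_zero, filter_eq_empty_iff]
  rintro ⟨A, B⟩ hp hd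
  rw [mem_product] at hp
  exact (disjoint_left.1 hd (hS A hp.1)) (hT B hp.2)

private lemma sb_step {t : ℕ} (ht : 1 ≤ t) (m : ℕ) :
    WK.sb t (m + 1) + m.choose (t - 1) = 2 * WK.sb t m := by
  obtain ⟨s, rfl⟩ : ∃ s, t = s + 1 := ⟨t - 1, by omega⟩
  rw [Nat.add_sub_cancel]
  unfold WK.sb
  have h1 : ∑ j ∈ range (s + 1), (m + 1).choose j =
      ∑ j ∈ range s, m.choose j + ∑ j ∈ range (s + 1), m.choose j := by
    rw [sum_range_succ', sum_range_succ' (fun j => m.choose j)]
    have h2 : ∀ j ∈ range s, (m + 1).choose (j + 1) = m.choose j + m.choose (j + 1) :=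
      fun j _ => Nat.choose_succ_succ' m j
    rw [sum_congr rfl h2, sum_add_distrib]
    simp only [Nat.choose_zero_right]
    ring
  have h3 : ∑ j ∈ range (s + 1), m.choose j = ∑ j ∈ range s, m.choose j + m.choose s :=
    sum_range_succ _ _
  rw [h1]
  omega

theorem ident {V : Finset ℕ} {t : ℕ} {R H : Finset (Finset ℕ)} (ht : 2 ≤ t) (h : Av V t R)
    (hH : Hv V t R H) {x : ℕ} (hx : x ∈ V) (hst : ∀ M ∈ H, x ∈ M) :
    (rows V t R).card + 2 * dp H R +
      2 * dp ((V.erase x).powersetCard (t - 1) \ H.image (fun M => M.erase x))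
        (R.filter (fun A => x ∉ A)) ≤
      4 * WK.W (V.card - 1) t (R.filter (fun A => x ∉ A)) +
      2 * WK.W (V.card - 1) t ((R.filter (fun A => x ∈ A)).image (fun A => A.erase x)) +
      dp (R.filter (fun A => x ∉ A)) (R.filter (fun A => x ∉ A)) +
      2 * dp ((R.filter (fun A => x ∈ A)).image (fun A => A.erase x))
        (R.filter (fun A => x ∉ A)) := by
  obtain ⟨P, hP⟩ : ∃ P, P = R.filter (fun A => x ∈ A) := ⟨_, rfl⟩
  obtain ⟨Q, hQ⟩ : ∃ Q, Q = R.filter (fun A => x ∉ A) := ⟨_, rfl⟩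
  have hR : R = P ∪ Q := by rw [hP, hQ]; exact (filter_union_filter_not_eq _ R).symm
  have hPQ : Disjoint P Q := by rw [hP, hQ]; exact disjoint_filter_filter_not R R _
  have hPx : ∀ A ∈ P, x ∈ A := fun A hA => by
    rw [hP, mem_filter] at hA; exact hA.2
  have hQx : ∀ A ∈ Q, x ∉ A := fun A hA => by
    rw [hQ, mem_filter] at hA; exact hA.2
  have hQR : ∀ A ∈ Q, A ∈ R := fun A hA => by
    rw [hQ, mem_filter] at hA; exact hA.1
  rw [← hP, ← hQ]
  have hV1 : 1 ≤ V.card := card_pos.2 ⟨x, hx⟩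
  -- the rows
  have e1 := rows_card_v (by omega : 1 ≤ t) h
  -- the pairs
  have e2 : dp R R = dp Q Q + 2 * dp (P.image (fun A => A.erase x)) Q := by
    rw [dp_erase hPx hQx, hR, dp_union_left _ _ _ hPQ, dp_union_right _ _ _ hPQ,
      dp_union_right _ _ _ hPQ, dp_zero hPx hPx, dp_comm Q P]
    ring
  -- the weights
  have e3 : WK.W V.card t R = WK.W (V.card - 1) t (P.image (fun A => A.erase x)) +
      ∑ B ∈ Q, WK.sb t (V.card - B.card) := by
    unfold WK.W
    rw [hR, sum_union hPQ, sum_image (injOn_erase hPx)]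
    congr 1
    refine sum_congr rfl fun A hA => ?_
    have h1 : 0 < A.card := card_pos.2 ⟨x, hPx A hA⟩
    rw [card_erase_of_mem (hPx A hA)]
    congr 1
    omega
  -- the star
  have e4 : dp H R = dp (H.image (fun M => M.erase x)) Q := by
    rw [dp_erase hst hQx, hR, dp_union_right _ _ _ hPQ, dp_zero hst hPx, zero_add]
  have hsub : H.image (fun M => M.erase x) ⊆ (V.erase x).powersetCard (t - 1) := by
    intro K hK
    rw [mem_image] at hK
    obtain ⟨M, hM, rfl⟩ := hK
    rw [mem_powersetCard]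
    exact ⟨erase_subset_erase x (hH.sub M hM), by
      rw [card_erase_of_mem (hst M hM), hH.crd M hM]⟩
  have e5 : dp (H.image (fun M => M.erase x)) Q +
      dp ((V.erase x).powersetCard (t - 1) \ H.image (fun M => M.erase x)) Q =
      dp ((V.erase x).powersetCard (t - 1)) Q := by
    rw [← dp_union_left _ _ _ disjoint_sdiff, union_sdiff_of_subset hsub]
  have e6 : dp ((V.erase x).powersetCard (t - 1)) Q =
      ∑ B ∈ Q, (V.card - 1 - B.card).choose (t - 1) := by
    rw [dp_eq_sum']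
    refine sum_congr rfl fun B hB => ?_
    have hBV : B ⊆ V.erase x := by
      intro y hy
      rw [mem_erase]
      exact ⟨fun hyx => hQx B hB (hyx ▸ hy), h.sub B (hQR B hB) hy⟩
    have h1 : ((V.erase x).powersetCard (t - 1)).filter (fun A => Disjoint A B) =
        ((V.erase x) \ B).powersetCard (t - 1) := by
      ext K
      simp only [mem_filter, mem_powersetCard]
      constructor
      · rintro ⟨⟨h2, h3⟩, h4⟩
        refine ⟨fun y hy => ?_, h3⟩
        rw [mem_sdiff]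
        exact ⟨h2 hy, fun hyB => (disjoint_left.1 h4 hy) hyB⟩
      · rintro ⟨h2, h3⟩
        refine ⟨⟨fun y hy => (mem_sdiff.1 (h2 hy)).1, h3⟩, ?_⟩
        rw [disjoint_left]
        exact fun y hy => (mem_sdiff.1 (h2 hy)).2
    rw [h1, card_powersetCard, card_sdiff_of_subset hBV, card_erase_of_mem hx]
  have e7 : ∑ B ∈ Q, WK.sb t (V.card - B.card) +
      ∑ B ∈ Q, (V.card - 1 - B.card).choose (t - 1) = 2 * WK.W (V.card - 1) t Q := by
    unfold WK.W
    rw [← sum_add_distrib, mul_sum]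
    refine sum_congr rfl fun B hB => ?_
    have hBV : B ⊆ V.erase x := by
      intro y hy
      rw [mem_erase]
      exact ⟨fun hyx => hQx B hB (hyx ▸ hy), h.sub B (hQR B hB) hy⟩
    have h1 : B.card ≤ V.card - 1 := by
      rw [← card_erase_of_mem hx]
      exact card_le_card hBV
    have h2 : V.card - B.card = V.card - 1 - B.card + 1 := by omega
    rw [h2]
    exact sb_step (by omega) _
  omega

end Pool.Agent.H26.LT
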