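import Pool.Agent.H26.LT.NrM
import Pool.Agent.H26.LT.Slots

/-!
Module LemL.  A set `A₀`, `t ≤ |A₀| ≤ s₀`, which meets no member in exactly `t` elements: then the number of rows is
smaller than the number of slots by a constant factor.

If `|A₀| = t` no member contains `A₀`: `small_countM`.  If `|A₀| > t` then `R' = R ∪ {A₀}` is `Av V t`
(`|A₀ ∩ A₀| = |A₀| ≠ t`), `rows V t R ⊆ rows V t R'`, and `small_count` for `R'` and `A₀ ∈ R'`.  In both cases
`C(n-|A₀|, t-1) 2^(n-t+1) ≤ 8^s₀ #NR`, and `C(n-s₀,t-1) 2^(n-t+1) ≥ c₁ un t n ≥ (c₁/t) gs n t`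
(`(t-1)! C(n-s₀,t-1) ≥ (n/2)^(t-1)` for `n ≥ 2 s₀ + 2 t`), `acc_all` (H37/AV/Acc): `rows + #NR / Bd t ≤ slots`.
-/

open Finset Pool.Agent.H37 Pool.Agent.H37.AV

namespace Pool.Agent.H26.LT

private theorem choose_low (t s₀ : ℕ) : ∀ n ≥ 2 * (s₀ + t),
    1 / (4 ^ (t - 1) * ((t - 1).factorial : ℝ)) * un t n ≤
      (((n - s₀).choose (t - 1) * 2 ^ (n - (t - 1)) : ℕ) : ℝ) := by
  intro n hn
  obtain ⟨k, hk⟩ : ∃ k, k = t - 1 := ⟨_, rfl⟩
  have hfp : (0 : ℝ) < (k.factorial : ℝ) := by exact_mod_cast k.factorial_pos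
  unfold un
  rw [← hk]
  have h1 : ((n - s₀) + 1 - k) ^ k ≤ k.factorial * (n - s₀).choose k := by
    rw [← Nat.descFactorial_eq_factorial_mul_choose]
    exact Nat.pow_sub_le_descFactorial _ _
  have h2 : (n : ℝ) / 2 ≤ (((n - s₀) + 1 - k : ℕ) : ℝ) := by
    have h3 : n ≤ 2 * ((n - s₀) + 1 - k) := by omega
    have h4 : (n : ℝ) ≤ 2 * (((n - s₀) + 1 - k : ℕ) : ℝ) := by exact_mod_cast h3
    linarith
  have h5 : ((n : ℝ) / 2) ^ k ≤ (k.factorial : ℝ) * ((n - s₀).choose k : ℝ) := by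
    refine (pow_le_pow_left₀ (by positivity) h2 k).trans ?_
    exact_mod_cast h1
  have h6 : (2 : ℝ) ^ n = 2 ^ (n - k) * 2 ^ k := by
    rw [← pow_add]
    congr 1
    omega
  push_cast
  have h7 : 1 / (4 ^ k * (k.factorial : ℝ)) * ((n : ℝ) ^ k * 2 ^ n) =
      (((n : ℝ) / 2) ^ k / (k.factorial : ℝ)) * 2 ^ (n - k) := by
    rw [h6, div_pow]
    have h8 : (4 : ℝ) ^ k = 2 ^ k * 2 ^ k := by
      rw [← mul_pow]; norm_num
    rw [h8]
    have h9 : (2 : ℝ) ^ k ≠ 0 := by positivity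
    field_simp
  rw [h7]
  refine mul_le_mul_of_nonneg_right ?_ (by positivity)
  rw [div_le_iff₀ hfp]
  linarith

private theorem lemL_of {V : Finset ℕ} {t s₀ : ℕ} {R R' : Finset (Finset ℕ)} (ht : 2 ≤ t) (h' : Av V t R')
    (hsub : rows V t R ⊆ rows V t R') {c s : ℕ} (hs : s = V.card) (hc : c ≤ s₀) (hn : 2 * (s₀ + t) ≤ s)
    (hcount : (s - c).choose (t - 1) * 2 ^ (s - (t - 1)) ≤
      8 ^ c * ((slots V t).filter (NR V t R')).card) :
    ((rows V t R).card : ℝ) ≤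
      (1 - 1 / (4 ^ (t - 1) * ((t - 1).factorial : ℝ)) / (8 ^ s₀ * t * Bd t)) * gs s t := by
  have hBd : 0 < Bd t := lt_of_lt_of_le one_pos (Bd_pos t)
  have htp : (0 : ℝ) < t := by
    have : 0 < t := by omega
    exact_mod_cast this
  have h1 := acc_all h'
  rw [slots_card, ← hs] at h1
  have h2 : ((rows V t R).card : ℝ) ≤ ((rows V t R').card : ℝ) := by
    exact_mod_cast card_le_card hsub
  have h3 := choose_low t s₀ s hn
  have h4 : (s - s₀).choose (t - 1) * 2 ^ (s - (t - 1)) ≤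
      8 ^ s₀ * ((slots V t).filter (NR V t R')).card := by
    calc (s - s₀).choose (t - 1) * 2 ^ (s - (t - 1)) ≤ (s - c).choose (t - 1) * 2 ^ (s - (t - 1)) :=
          Nat.mul_le_mul_right _ (Nat.choose_le_choose _ (by omega))
      _ ≤ 8 ^ c * ((slots V t).filter (NR V t R')).card := hcount
      _ ≤ 8 ^ s₀ * ((slots V t).filter (NR V t R')).card :=
          Nat.mul_le_mul_right _ (Nat.pow_le_pow_right (by norm_num) hc)
  have h5 : (((s - s₀).choose (t - 1) * 2 ^ (s - (t - 1)) : ℕ) : ℝ) ≤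
      8 ^ s₀ * (((slots V t).filter (NR V t R')).card : ℝ) := by exact_mod_cast h4
  have h6 := gs_le_un (t := t) (n := s) (by omega) (by omega)
  set N : ℝ := (((slots V t).filter (NR V t R')).card : ℝ) with hN
  set c₁ : ℝ := 1 / (4 ^ (t - 1) * ((t - 1).factorial : ℝ)) with hc₁
  have hc₁0 : 0 ≤ c₁ := by positivity
  have h7 : c₁ / (8 ^ s₀ * t) * gs s t ≤ N := by
    have h8 : c₁ * (gs s t : ℝ) ≤ c₁ * (t * un t s) := mul_le_mul_of_nonneg_left h6 hc₁0
    have h9 : c₁ * (t * un t s) ≤ t * (8 ^ s₀ * N) := by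
      have := mul_le_mul_of_nonneg_left (h3.trans h5) htp.le
      linarith
    rw [div_mul_eq_mul_div, div_le_iff₀ (by positivity)]
    linarith
  have h10 : c₁ / (8 ^ s₀ * t * Bd t) * gs s t ≤ N / Bd t := by
    rw [le_div_iff₀ hBd]
    have h11 : c₁ / (8 ^ s₀ * t * Bd t) * (gs s t : ℝ) * Bd t = c₁ / (8 ^ s₀ * t) * gs s t := by
      field_simp
    rw [h11]
    exact h7
  have h12 : (1 - c₁ / (8 ^ s₀ * t * Bd t)) * (gs s t : ℝ) = gs s t - c₁ / (8 ^ s₀ * t * Bd t) * gs s t := by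
    ring
  rw [h12]
  linarith

theorem lemL (t s₀ : ℕ) (ht : 2 ≤ t) : ∃ c : ℝ, 0 < c ∧ ∃ n₀ : ℕ, ∀ V : Finset ℕ, n₀ ≤ V.card →
    ∀ R : Finset (Finset ℕ), Av V t R → ∀ A₀ ⊆ V, t ≤ A₀.card → A₀.card ≤ s₀ →
    (∀ B ∈ R, (B ∩ A₀).card ≠ t) → ((rows V t R).card : ℝ) ≤ (1 - c) * gs V.card t := by
  classical
  have hBd : 0 < Bd t := lt_of_lt_of_le one_pos (Bd_pos t)
  have htp : (0 : ℝ) < t := by
    have : 0 < t := by omega
    exact_mod_cast this
  have hfp : (0 : ℝ) < ((t - 1).factorial : ℝ) := by exact_mod_cast (t - 1).factorial_pos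
  refine ⟨1 / (4 ^ (t - 1) * ((t - 1).factorial : ℝ)) / (8 ^ s₀ * t * Bd t), by positivity,
    2 * (s₀ + t), fun V hV R h A₀ hA₀ h1 h2 h3 => ?_⟩
  rcases Nat.eq_or_lt_of_le h1 with he | hlt
  · have hno : ∀ A ∈ R, ¬ A₀ ⊆ A := by
      intro A hA hAA
      apply h3 A hA
      rw [inter_eq_right.2 hAA]
      exact he.symm
    exact lemL_of ht h (Subset.refl _) rfl h2 hV (small_countM ht h hA₀ he.symm hno)
  · have h' : Av V t (insert A₀ R) := by
      refine ⟨?_, ?_, ?_⟩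
      · intro A hA
        rcases mem_insert.1 hA with rfl | hA
        · exact hA₀
        · exact h.sub A hA
      · intro A hA
        rcases mem_insert.1 hA with rfl | hA
        · exact hlt
        · exact h.big A hA
      · intro A hA B hB
        rcases mem_insert.1 hA with hA | hA
        · rcases mem_insert.1 hB with hB | hB
          · rw [hA, hB, inter_self]
            omega
          · rw [hA, inter_comm]
            exact h3 B hB
        · rcases mem_insert.1 hB with hB | hB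
          · rw [hB]
            exact h3 A hA
          · exact h.av A hA B hB
    have hsub : rows V t R ⊆ rows V t (insert A₀ R) := by
      intro r hr
      rw [mem_rows] at hr ⊢
      obtain ⟨a1, a2, a3, a4, a5, a6⟩ := hr
      exact ⟨a1, a2, a3, a4.imp_left (mem_insert_of_mem), a5.imp_left (mem_insert_of_mem),
        a6.imp (mem_insert_of_mem) (mem_insert_of_mem)⟩
    exact lemL_of ht h' hsub rfl h2 hV (small_count ht h' (mem_insert_self _ _))

end Pool.Agent.H26.LT
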