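import Pool.Agent.H26.LT.CrossSmall
import Pool.Agent.H26.LT.Fibre
import Pool.Agent.H26.LT.Ident
import Pool.Agent.H26.LT.LemL
import Pool.Agent.H26.LT.Dense

/-!
Module Beta.  One dense centre `x`, and the members without `x` are almost half of all sets: reduction to `n - 1` points.

`V' = V \ x`, `n' = n - 1`, `R' = {A ∈ R : x ∉ A}` (`Av V' t`), `𝒜 = {A \ x : x ∈ A ∈ R}`.
Constants: `cross_small` with `ε = 1/8` gives `s₀`, `ε'`; `fibre` with `min ε' (1/16)` gives `ε₂'`; `lemL` with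
`max s₀ t` gives `c`; `ε₂ = min ε₂' (c/4)`.
(i) all `M ∈ H` contain `x`: otherwise `lemL` for `V'`, `R'`, `A₀ = M` (`|B ∩ M| ≠ t` as `M` is in no member):
    `rows(R') ≤ (1-c) gs`, and `rows_ge`: `rows(R') ≥ (1 - 2 ε₂) gs - η un ≥ (1 - c/2) gs - η un`, `η un ≤ (c/4) gs`.
(ii) all `A ∈ 𝒜` have at least `s₀` elements: `t ≤ |A|` (`|A + x| > t`); if `|A| < s₀` then `lemL` with `A₀ = A`
    (`|B ∩ A| = |B ∩ (A + x)| ≠ t` for `B ∈ R'`): the same contradiction.
(iii) `fibre` for `V'`, `R'`; `cross_small` for `V'`, `R'`, `𝒜`: `dp 𝒜 R' ≤ (1/8) |sh V' (t-1) 𝒜| 2^(n'-t+1)`.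
(iv) `miss = dp (N \ 𝒩) R' ≥ ∑_{K ∈ sh} #{B ∈ R' : K ∩ B = ∅} ≥ |sh| (1/2 - 1/16) 2^(n'-t+1)`: a `K ∈ sh` is contained in
    some `A ∈ 𝒜`, so `K + x ⊆ A + x ∈ R` is not in `H`, `K ∉ 𝒩`.
(v) `W'(𝒜) ≤ |𝒜| (n+1)^t`-ish and `|𝒜| n^(2t+2) ≤ 2^n` by `dense`; so if `𝒜 ≠ ∅` then (`sh ≠ ∅`)
    `W'(𝒜) ≤ (1/8) 2^(n'-t+1) ≤ (1/8) |sh| 2^(n'-t+1)`.
(vi) `ident`: `rows + 2 dp H R ≤ 4 W'(R') + dp R' R' ≤ 2 (2 W'(R') + dp R' R') = 2 rows(R') ≤ 4 W'(base)` by `rows_card_v`,
    `half_v`.
-/

open Finset Pool.Agent.H37 Pool.Agent.H37.AV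

namespace Pool.Agent.H26.LT

private lemma beta_sb {t b : ℕ} : WK.sb t b ≤ t * (b + 1) ^ t := by
  unfold WK.sb
  calc ∑ j ∈ range t, b.choose j ≤ ∑ j ∈ range t, (b + 1) ^ t := by
        apply sum_le_sum
        intro j hj
        rw [mem_range] at hj
        exact ((Nat.choose_le_pow b j).trans (Nat.pow_le_pow_left (Nat.le_succ b) j)).trans
          (Nat.pow_le_pow_right (Nat.succ_pos b) hj.le)
    _ = t * (b + 1) ^ t := by
        rw [sum_const, card_range, smul_eq_mul]

private lemma beta_W {t n : ℕ} (hn : 1 ≤ n) (U : Finset (Finset ℕ)) :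
    WK.W (n - 1) t U ≤ U.card * (t * n ^ t) := by
  unfold WK.W
  calc ∑ A ∈ U, WK.sb t (n - 1 - A.card) ≤ ∑ A ∈ U, t * n ^ t := by
        apply sum_le_sum
        intro A _
        refine beta_sb.trans ?_
        apply Nat.mul_le_mul_left
        apply Nat.pow_le_pow_left
        omega
    _ = U.card * (t * n ^ t) := by
        rw [sum_const, smul_eq_mul]

/-- the size estimate of (v) -/
private lemma beta_size {t n a : ℕ} (ht : 2 ≤ t) (hn : t + 3 ≤ n)
    (h : (a : ℝ) * (n : ℝ) ^ (3 * t + 3) ≤ 2 ^ n) :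
    ((a * (t * n ^ t) : ℕ) : ℝ) ≤ 1 / 8 * 2 ^ (n - 1 - (t - 1)) := by
  have h' : a * n ^ (3 * t + 3) ≤ 2 ^ n := by exact_mod_cast h
  have hn2 : 2 ≤ n := by omega
  have e1 : t ≤ n ^ t := (Nat.lt_two_pow_self).le.trans (Nat.pow_le_pow_left hn2 t)
  have e2 : 2 ^ (t + 3) ≤ n ^ (t + 3) := Nat.pow_le_pow_left hn2 (t + 3)
  have e3 : t * n ^ t * 2 ^ (t + 3) ≤ n ^ (3 * t + 3) := by
    calc t * n ^ t * 2 ^ (t + 3) ≤ n ^ t * n ^ t * n ^ (t + 3) :=
          Nat.mul_le_mul (Nat.mul_le_mul_right _ e1) e2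
      _ = n ^ (3 * t + 3) := by
          rw [← pow_add, ← pow_add]
          apply congrArg
          omega
  have e4 : a * (t * n ^ t) * 2 ^ (t + 3) ≤ 2 ^ n := by
    calc a * (t * n ^ t) * 2 ^ (t + 3) = a * (t * n ^ t * 2 ^ (t + 3)) := by ring
      _ ≤ a * n ^ (3 * t + 3) := Nat.mul_le_mul_left _ e3
      _ ≤ 2 ^ n := h'
  have e5 : (2 : ℕ) ^ n = 2 ^ (n - 1 - (t - 1)) * 2 ^ t := by
    rw [← pow_add]
    apply congrArg
    omega
  have e6 : a * (t * n ^ t) * 8 ≤ 2 ^ (n - 1 - (t - 1)) := by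
    have e7 : a * (t * n ^ t) * 8 * 2 ^ t ≤ 2 ^ (n - 1 - (t - 1)) * 2 ^ t := by
      rw [← e5]
      calc a * (t * n ^ t) * 8 * 2 ^ t = a * (t * n ^ t) * 2 ^ (t + 3) := by ring
        _ ≤ 2 ^ n := e4
    exact Nat.le_of_mul_le_mul_right e7 (by positivity)
  have e8 : ((a * (t * n ^ t) : ℕ) : ℝ) * 8 ≤ 2 ^ (n - 1 - (t - 1)) := by exact_mod_cast e6
  linarith

theorem beta (t : ℕ) (ht : 2 ≤ t) : ∃ ε₂ : ℝ, 0 < ε₂ ∧ ∀ ρ : ℝ, 0 < ρ → ∃ n₀ : ℕ,
    ∀ V : Finset ℕ, n₀ ≤ V.card → ∀ R H : Finset (Finset ℕ), Av V t R → Hv V t R H → ∀ x ∈ V,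
    ρ * (V.card : ℝ) ^ (t - 1) ≤ dg H x →
    (1 / 2 - ε₂) * 2 ^ (V.card - 1) ≤ ((R.filter (fun A => x ∉ A)).card : ℝ) →
    (rows V t R).card + 2 * dp H R ≤ 4 * WK.W (V.card - 1) t (WK.base (V.card - 1) t) := by
  obtain ⟨s₀, ε', hε', hcs⟩ := cross_small t ht (ε := 1 / 8) (by norm_num)
  obtain ⟨ε₂', hε₂', nf, hf⟩ := fibre t ht (ε' := min ε' (1 / 16)) (lt_min hε' (by norm_num))
  obtain ⟨c, hc, nL, hL⟩ := lemL t (max s₀ t) ht
  obtain ⟨κ, hκ, hgs⟩ := gs_ge_un t (by omega)
  obtain ⟨nR, hR⟩ := rows_ge t (by omega) (η := c * κ / 4) (by positivity)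
  obtain ⟨nh, hh⟩ := half_v t ht
  refine ⟨min ε₂' (c / 4), lt_min hε₂' (by positivity), fun ρ hρ => ?_⟩
  obtain ⟨nd, hd⟩ := dense t ht hρ (3 * t + 3)
  refine ⟨nf + nL + nR + nh + nd + 2 * t + 4, ?_⟩
  intro V hV R H hAv hHv x hx hdg hbig
  have hV'c : (V.erase x).card = V.card - 1 := card_erase_of_mem hx
  have hAv' : Av (V.erase x) t (R.filter (fun A => x ∉ A)) := by
    constructor
    · intro A hA
      rw [mem_filter] at hA
      intro y hy
      rw [mem_erase]
      exact ⟨fun h => hA.2 (h ▸ hy), hAv.sub A hA.1 hy⟩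
    · intro A hA
      exact hAv.big A (mem_filter.mp hA).1
    · intro A hA B hB
      exact hAv.av A (mem_filter.mp hA).1 B (mem_filter.mp hB).1
  have hbig1 : (1 / 2 - ε₂') * 2 ^ (V.erase x).card ≤ ((R.filter (fun A => x ∉ A)).card : ℝ) := by
    rw [hV'c]
    refine le_trans ?_ hbig
    apply mul_le_mul_of_nonneg_right _ (by positivity)
    have := min_le_left ε₂' (c / 4)
    linarith
  have hbig2 : (1 / 2 - c / 4) * 2 ^ (V.erase x).card ≤ ((R.filter (fun A => x ∉ A)).card : ℝ) := by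
    rw [hV'c]
    refine le_trans ?_ hbig
    apply mul_le_mul_of_nonneg_right _ (by positivity)
    have := min_le_right ε₂' (c / 4)
    linarith
  -- the contradiction from `lemL`
  have hkey : ∀ A₀ ⊆ V.erase x, t ≤ A₀.card → A₀.card ≤ max s₀ t →
      (∀ B ∈ R.filter (fun A => x ∉ A), (B ∩ A₀).card ≠ t) → False := by
    intro A₀ hA₀ h1 h2 h3
    have k1 := hL (V.erase x) (by rw [hV'c]; omega) _ hAv' A₀ hA₀ h1 h2 h3
    have k2 := hR (V.erase x) (by rw [hV'c]; omega) _ hAv'
    have k3 := hgs (V.erase x).card (by rw [hV'c]; omega)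
    have hn1 : (0 : ℝ) < ((V.erase x).card : ℝ) := by
      rw [hV'c]
      have : 0 < V.card - 1 := by omega
      exact_mod_cast this
    have hun : 0 < un t (V.erase x).card := by
      unfold un
      positivity
    have hgs0 : 0 < (gs (V.erase x).card t : ℝ) := lt_of_lt_of_le (by positivity) k3
    have hdiv : 1 / 2 - c / 4 ≤ ((R.filter (fun A => x ∉ A)).card : ℝ) / 2 ^ (V.erase x).card := by
      rw [le_div_iff₀ (by positivity)]
      exact hbig2
    have k4 : 2 * (1 / 2 - c / 4) * (gs (V.erase x).card t : ℝ) ≤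
        2 * (((R.filter (fun A => x ∉ A)).card : ℝ) / 2 ^ (V.erase x).card) * gs (V.erase x).card t := by
      apply mul_le_mul_of_nonneg_right _ hgs0.le
      linarith
    have k5 : c * κ / 4 * un t (V.erase x).card ≤ c / 4 * gs (V.erase x).card t := by
      have := mul_le_mul_of_nonneg_left k3 (by positivity : (0 : ℝ) ≤ c / 4)
      linarith
    have k6 : (0 : ℝ) < c / 4 * gs (V.erase x).card t := by positivity
    have k7 : (1 - c / 2) * (gs (V.erase x).card t : ℝ) ≤ (1 - c) * gs (V.erase x).card t +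
        c / 4 * gs (V.erase x).card t := by
      calc (1 - c / 2) * (gs (V.erase x).card t : ℝ)
          = 2 * (1 / 2 - c / 4) * (gs (V.erase x).card t : ℝ) := by ring
        _ ≤ _ := k4.trans (k2.trans (add_le_add k1 k5))
    linarith
  -- (i)
  have hst : ∀ M ∈ H, x ∈ M := by
    intro M hM
    by_contra hxM
    refine hkey M ?_ (hHv.crd M hM).ge (by rw [hHv.crd M hM]; exact le_max_right _ _) ?_
    · intro y hy
      rw [mem_erase]
      exact ⟨fun h => hxM (h ▸ hy), hHv.sub M hM hy⟩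
    · intro B hB hcard
      rw [mem_filter] at hB
      have hMB : B ∩ M = M := by
        apply eq_of_subset_of_card_le inter_subset_right
        rw [hcard, hHv.crd M hM]
      apply hHv.out M hM B hB.1
      rw [← hMB]
      exact inter_subset_left
  -- (ii)
  have hAsub : ∀ A ∈ (R.filter (fun A => x ∈ A)).image (fun A => A.erase x), A ⊆ V.erase x := by
    intro A hA
    obtain ⟨A', hA', rfl⟩ := mem_image.mp hA
    exact erase_subset_erase x (hAv.sub A' (mem_filter.mp hA').1)
  have hAint : ∀ A ∈ (R.filter (fun A => x ∈ A)).image (fun A => A.erase x),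
      ∀ B ∈ R.filter (fun A => x ∉ A), (A ∩ B).card ≠ t := by
    intro A hA B hB
    obtain ⟨A', hA', rfl⟩ := mem_image.mp hA
    rw [mem_filter] at hA' hB
    have : A'.erase x ∩ B = A' ∩ B := by
      ext y
      rw [mem_inter, mem_inter, mem_erase]
      constructor
      · rintro ⟨⟨_, h1⟩, h2⟩
        exact ⟨h1, h2⟩
      · rintro ⟨h1, h2⟩
        exact ⟨⟨fun h => hB.2 (h ▸ h2), h1⟩, h2⟩
    rw [this]
    exact hAv.av A' hA'.1 B hB.1
  have hAt : ∀ A ∈ (R.filter (fun A => x ∈ A)).image (fun A => A.erase x), t ≤ A.card := by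
    intro A hA
    obtain ⟨A', hA', rfl⟩ := mem_image.mp hA
    rw [mem_filter] at hA'
    have h1 := hAv.big A' hA'.1
    rw [card_erase_of_mem hA'.2]
    omega
  have hAs : ∀ A ∈ (R.filter (fun A => x ∈ A)).image (fun A => A.erase x), s₀ ≤ A.card := by
    intro A hA
    by_contra hlt
    push Not at hlt
    refine hkey A (hAsub A hA) (hAt A hA) (hlt.le.trans (le_max_left _ _)) ?_
    intro B hB
    rw [inter_comm]
    exact hAint A hA B hB
  -- (iii)
  have hfib := hf (V.erase x) (by rw [hV'c]; omega) _ hAv' hbig1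
  have hcross := hcs (V.erase x) (by rw [hV'c]; omega) _ _ hAv' hAsub hAs hAint (by
    intro K hK hKt
    refine le_trans ?_ (hfib K hK hKt).1
    apply mul_le_mul_of_nonneg_right _ (by positivity)
    have := min_le_left ε' (1 / 16)
    linarith)
  -- (iv)
  have hmiss : (7 / 16 : ℝ) * (sh (V.erase x) (t - 1) ((R.filter (fun A => x ∈ A)).image (fun A => A.erase x))).card
      * 2 ^ ((V.erase x).card - (t - 1)) ≤
      (dp ((V.erase x).powersetCard (t - 1) \ H.image (fun M => M.erase x)) (R.filter (fun A => x ∉ A)) : ℝ) := by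
    have hsub : sh (V.erase x) (t - 1) ((R.filter (fun A => x ∈ A)).image (fun A => A.erase x)) ⊆
        (V.erase x).powersetCard (t - 1) \ H.image (fun M => M.erase x) := by
      intro K hK
      rw [mem_sh] at hK
      rw [mem_sdiff, mem_powersetCard]
      refine ⟨hK.1, ?_⟩
      intro hKH
      obtain ⟨M, hM, hMK⟩ := mem_image.mp hKH
      obtain ⟨A, hA, hKA⟩ := hK.2
      obtain ⟨A', hA', rfl⟩ := mem_image.mp hA
      rw [mem_filter] at hA'
      apply hHv.out M hM A' hA'.1
      intro y hy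
      by_cases hyx : y = x
      · rw [hyx]
        exact hA'.2
      · have hyK : y ∈ K := by
          rw [← hMK]
          exact mem_erase.mpr ⟨hyx, hy⟩
        exact (mem_erase.mp (hKA hyK)).2
    have hle : (dp (sh (V.erase x) (t - 1) ((R.filter (fun A => x ∈ A)).image (fun A => A.erase x)))
        (R.filter (fun A => x ∉ A)) : ℝ) ≤
        (dp ((V.erase x).powersetCard (t - 1) \ H.image (fun M => M.erase x)) (R.filter (fun A => x ∉ A)) : ℝ) := by
      exact_mod_cast dp_mono hsub (Subset.refl _)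
    refine le_trans ?_ hle
    rw [dp_eq_sum, Nat.cast_sum]
    have hterm : ∀ K ∈ sh (V.erase x) (t - 1) ((R.filter (fun A => x ∈ A)).image (fun A => A.erase x)),
        (7 / 16 : ℝ) * 2 ^ ((V.erase x).card - (t - 1)) ≤
        ((((R.filter (fun A => x ∉ A)).filter (fun B => Disjoint K B)).card : ℕ) : ℝ) := by
      intro K hK
      rw [mem_sh] at hK
      refine le_trans ?_ (hfib K hK.1.1 (by rw [hK.1.2]; omega)).2
      apply mul_le_mul_of_nonneg_right _ (by positivity)
      have := min_le_right ε' (1 / 16)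
      linarith
    have hsum := card_nsmul_le_sum _ _ _ hterm
    rw [nsmul_eq_mul] at hsum
    refine le_trans (le_of_eq ?_) hsum
    ring
  -- (v)
  have hshpos : ((R.filter (fun A => x ∈ A)).image (fun A => A.erase x)).Nonempty →
      (1 : ℝ) ≤ (sh (V.erase x) (t - 1) ((R.filter (fun A => x ∈ A)).image (fun A => A.erase x))).card := by
    rintro ⟨A, hA⟩
    obtain ⟨K, hKA, hKc⟩ := exists_subset_card_eq (s := A) (n := t - 1) ((Nat.sub_le t 1).trans (hAt A hA))
    have hK : K ∈ sh (V.erase x) (t - 1) ((R.filter (fun A => x ∈ A)).image (fun A => A.erase x)) := by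
      rw [mem_sh]
      exact ⟨⟨hKA.trans (hAsub A hA), hKc⟩, A, hA, hKA⟩
    have : 1 ≤ (sh (V.erase x) (t - 1) ((R.filter (fun A => x ∈ A)).image (fun A => A.erase x))).card :=
      card_pos.mpr ⟨K, hK⟩
    exact_mod_cast this
  have hdens := hd V (by omega) R hAv.sub x hx (H.image (fun M => M.erase x))
    (by
      intro K hK
      obtain ⟨M, hM, rfl⟩ := mem_image.mp hK
      refine ⟨erase_subset_erase x (hHv.sub M hM), ?_⟩
      rw [card_erase_of_mem (hst M hM), hHv.crd M hM]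
      omega)
    (by
      intro K hK A hA hsub
      obtain ⟨M, hM, rfl⟩ := mem_image.mp hK
      apply hHv.out M hM A hA
      rw [insert_erase (hst M hM)] at hsub
      exact hsub)
    (by
      refine le_trans hdg ?_
      have hcard : dg H x ≤ (H.image (fun M => M.erase x)).card := by
        have h1 : (H.image (fun M => M.erase x)).card = H.card := by
          apply card_image_of_injOn
          intro M hM M' hM' h
          have h' : M.erase x = M'.erase x := h
          rw [← insert_erase (hst M hM), h', insert_erase (hst M' hM')]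
        rw [h1]
        exact card_filter_le _ _
      exact_mod_cast hcard)
  have hW : (WK.W (V.card - 1) t ((R.filter (fun A => x ∈ A)).image (fun A => A.erase x)) : ℝ) ≤
      1 / 8 * (sh (V.erase x) (t - 1) ((R.filter (fun A => x ∈ A)).image (fun A => A.erase x))).card
        * 2 ^ ((V.erase x).card - (t - 1)) := by
    rcases ((R.filter (fun A => x ∈ A)).image (fun A => A.erase x)).eq_empty_or_nonempty with hem | hne
    · rw [hem]
      have h0 : WK.W (V.card - 1) t ∅ = 0 := by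
        unfold WK.W
        exact sum_empty
      rw [h0, Nat.cast_zero]
      positivity
    · have h1 := beta_W (t := t) (n := V.card) (by omega) ((R.filter (fun A => x ∈ A)).image (fun A => A.erase x))
      have h2 : ((R.filter (fun A => x ∈ A)).image (fun A => A.erase x)).card ≤ (R.filter (fun A => x ∈ A)).card :=
        card_image_le
      have h3 := beta_size (t := t) (n := V.card) ht (by omega) hdens
      have h4 : (WK.W (V.card - 1) t ((R.filter (fun A => x ∈ A)).image (fun A => A.erase x)) : ℝ) ≤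
          (((R.filter (fun A => x ∈ A)).card * (t * V.card ^ t) : ℕ) : ℝ) := by
        exact_mod_cast h1.trans (Nat.mul_le_mul_right _ h2)
      have h5 : (1 / 8 : ℝ) * 2 ^ (V.card - 1 - (t - 1)) ≤
          1 / 8 * (sh (V.erase x) (t - 1) ((R.filter (fun A => x ∈ A)).image (fun A => A.erase x))).card
            * 2 ^ ((V.erase x).card - (t - 1)) := by
        rw [hV'c]
        apply mul_le_mul_of_nonneg_right _ (by positivity)
        have := hshpos hne
        linarith
      exact h4.trans (h3.trans h5)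
  -- (vi)
  have hid := ident ht hAv hHv hx hst
  have hrc := rows_card_v (by omega) hAv'
  have hhv := hh (V.erase x) (by rw [hV'c]; omega) _ hAv'
  rw [hV'c] at hrc hhv
  have hcmp : 2 * WK.W (V.card - 1) t ((R.filter (fun A => x ∈ A)).image (fun A => A.erase x)) +
      2 * dp ((R.filter (fun A => x ∈ A)).image (fun A => A.erase x)) (R.filter (fun A => x ∉ A)) ≤
      2 * dp ((V.erase x).powersetCard (t - 1) \ H.image (fun M => M.erase x)) (R.filter (fun A => x ∉ A)) := by
    have hreal : (2 * WK.W (V.card - 1) t ((R.filter (fun A => x ∈ A)).image (fun A => A.erase x)) +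
      2 * dp ((R.filter (fun A => x ∈ A)).image (fun A => A.erase x)) (R.filter (fun A => x ∉ A)) : ℝ) ≤
      2 * dp ((V.erase x).powersetCard (t - 1) \ H.image (fun M => M.erase x)) (R.filter (fun A => x ∉ A)) := by
      have hpos : (0 : ℝ) ≤ (sh (V.erase x) (t - 1) ((R.filter (fun A => x ∈ A)).image (fun A => A.erase x))).card
          * 2 ^ ((V.erase x).card - (t - 1)) := by positivity
      nlinarith [hW, hcross, hmiss, hpos]
    exact_mod_cast hreal
  omega

end Pool.Agent.H26.LT
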