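import Mathlib

/-!
Families avoiding one intersection size and disjoint pairs (MP_28c1b3_co, Q1).

For every odd `n` the family
`{∅, {1}} ∪ {A ⊆ {2,…,n} : |A| ≥ (n+1)/2}` is `1`-avoiding and has exactly one more disjoint pair
than the family `F*(n,1)`.  Hence the statement asked about in Q1 is false.
-/

open Finset

namespace Pool.Agent.H26.LT.COdd

/-- `IsAvoiding t F`: no two distinct members of `F` meet in exactly `t` elements. -/
def IsAvoiding (t : ℕ) (F : Finset (Finset ℕ)) : Prop :=
  ∀ A ∈ F, ∀ B ∈ F, A ≠ B → (A ∩ B).card ≠ t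

/-- The number `d(F)` of unordered pairs `{A, B}` of distinct members of `F` with `A ∩ B = ∅`:
the number of two-element subfamilies of `F` whose two members are disjoint. -/
def disjPairs (F : Finset (Finset ℕ)) : ℕ :=
  ((F.powersetCard 2).filter (fun P => ∀ A ∈ P, ∀ B ∈ P, A ≠ B → A ∩ B = ∅)).card

/-- The family `F(n,t)` of subsets of `[n] = {1,…,n}`. -/
def baseFamily (n t : ℕ) : Finset (Finset ℕ) :=
  if Odd (n + t) then (Icc 1 n).powerset.filter (fun A => n + t + 1 ≤ 2 * A.card)
  else (Icc 1 n).powerset.filter (fun A => n + t ≤ 2 * (A ∩ (Icc 1 n \ {1})).card)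

/-- The family `F*(n,t) = F(n,t) ∪ [n]^(≤ t-1)`. -/
def starFamily (n t : ℕ) : Finset (Finset ℕ) :=
  baseFamily n t ∪ (Icc 1 n).powerset.filter (fun A => A.card + 1 ≤ t)

/-- Adding one new member `A` adds as many disjoint pairs as there are members disjoint from `A`. -/
lemma disjPairs_insert {H : Finset (Finset ℕ)} {A : Finset ℕ} (hA : A ∉ H) :
    disjPairs (insert A H) = disjPairs H + (H.filter (fun B => A ∩ B = ∅)).card := by
  classical
  unfold disjPairs
  rw [Finset.powersetCard_succ_insert hA, Finset.filter_union, Finset.card_union_of_disjoint]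
  · congr 1
    apply Finset.card_bij' (fun P _ => (P.erase A).biUnion id) (fun B _ => ({A, B} : Finset (Finset ℕ)))
    · intro P hP
      rw [Finset.mem_filter, Finset.mem_image] at hP
      obtain ⟨⟨Q, hQ, rfl⟩, hP⟩ := hP
      rw [Finset.mem_powersetCard] at hQ
      obtain ⟨B, rfl⟩ := Finset.card_eq_one.mp hQ.2
      have hBH : B ∈ H := hQ.1 (Finset.mem_singleton_self B)
      have hAB : A ≠ B := fun h => hA (h ▸ hBH)
      have h1 : (insert A ({B} : Finset (Finset ℕ))).erase A = {B} := by
        rw [Finset.erase_insert]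
        simpa using hAB
      simp only [h1, Finset.singleton_biUnion, id, Finset.mem_filter]
      exact ⟨hBH, hP A (by simp) B (by simp) hAB⟩
    · intro B hB
      rw [Finset.mem_filter] at hB
      obtain ⟨hBH, hB⟩ := hB
      have hAB : A ≠ B := fun h => hA (h ▸ hBH)
      rw [Finset.mem_filter, Finset.mem_image]
      refine ⟨⟨{B}, ?_, rfl⟩, ?_⟩
      · rw [Finset.mem_powersetCard]
        exact ⟨by simpa using hBH, by simp⟩
      · intro X hX Y hY hXY
        simp only [Finset.mem_insert, Finset.mem_singleton] at hX hY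
        rcases hX with rfl | rfl <;> rcases hY with rfl | rfl
        · exact absurd rfl hXY
        · exact hB
        · rw [Finset.inter_comm]; exact hB
        · exact absurd rfl hXY
    · intro P hP
      rw [Finset.mem_filter, Finset.mem_image] at hP
      obtain ⟨⟨Q, hQ, rfl⟩, hP⟩ := hP
      rw [Finset.mem_powersetCard] at hQ
      obtain ⟨B, rfl⟩ := Finset.card_eq_one.mp hQ.2
      have hBH : B ∈ H := hQ.1 (Finset.mem_singleton_self B)
      have hAB : A ≠ B := fun h => hA (h ▸ hBH)
      have h1 : (insert A ({B} : Finset (Finset ℕ))).erase A = {B} := by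
        rw [Finset.erase_insert]
        simpa using hAB
      simp only [h1, Finset.singleton_biUnion, id]
    · intro B hB
      rw [Finset.mem_filter] at hB
      obtain ⟨hBH, hB⟩ := hB
      have hAB : A ≠ B := fun h => hA (h ▸ hBH)
      have h1 : (insert A ({B} : Finset (Finset ℕ))).erase A = {B} := by
        rw [Finset.erase_insert]
        simpa using hAB
      simp only [h1, Finset.singleton_biUnion, id]
  · rw [Finset.disjoint_left]
    intro P hP hP'
    rw [Finset.mem_filter, Finset.mem_powersetCard] at hP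
    rw [Finset.mem_filter, Finset.mem_image] at hP'
    obtain ⟨⟨Q, hQ, rfl⟩, _⟩ := hP'
    exact hA (hP.1.1 (Finset.mem_insert_self A Q))

/-- A family whose members pairwise intersect has no disjoint pairs. -/
lemma disjPairs_eq_zero {H : Finset (Finset ℕ)}
    (h : ∀ A ∈ H, ∀ B ∈ H, A ≠ B → A ∩ B ≠ ∅) : disjPairs H = 0 := by
  unfold disjPairs
  rw [Finset.card_eq_zero, Finset.filter_eq_empty_iff]
  intro P hP hP'
  rw [Finset.mem_powersetCard] at hP
  obtain ⟨A, B, hAB, rfl⟩ := Finset.card_eq_two.mp hP.2
  exact h A (hP.1 (by simp)) B (hP.1 (by simp)) hAB (hP' A (by simp) B (by simp) hAB)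

/-- The upper half of the cube on `{2,…,n}`. -/
def L (n : ℕ) : Finset (Finset ℕ) :=
  (Icc 2 n).powerset.filter (fun A => n + 1 ≤ 2 * A.card)

lemma L_inter {n : ℕ} (hn : 1 ≤ n) {A B : Finset ℕ} (hA : A ∈ L n) (hB : B ∈ L n) :
    2 ≤ (A ∩ B).card := by
  unfold L at hA hB
  rw [Finset.mem_filter, Finset.mem_powerset] at hA hB
  have h1 : (A ∪ B).card ≤ n - 1 := by
    have : (A ∪ B).card ≤ (Icc 2 n).card := Finset.card_le_card (Finset.union_subset hA.1 hB.1)
    rw [Nat.card_Icc] at this
    omega
  have h2 := Finset.card_union_add_card_inter A B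
  omega

lemma one_notMem_of_mem_L {n : ℕ} {A : Finset ℕ} (hA : A ∈ L n) : 1 ∉ A := by
  unfold L at hA
  rw [Finset.mem_filter, Finset.mem_powerset] at hA
  intro h
  have := hA.1 h
  rw [Finset.mem_Icc] at this
  omega

lemma empty_notMem_L {n : ℕ} : ∅ ∉ L n := by
  unfold L
  rw [Finset.mem_filter]
  rintro ⟨-, h⟩
  simp at h

lemma base_eq {n : ℕ} (hn : Odd n) : baseFamily n 1 = L n ∪ (L n).image (insert 1) := by
  have hodd : ¬ Odd (n + 1) := by
    rw [Nat.not_odd_iff_even]
    exact hn.add_one
  have hn1 : 1 ≤ n := hn.pos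
  unfold baseFamily
  rw [if_neg hodd]
  have hI : Icc 1 n \ {1} = Icc 2 n := by
    ext x
    simp only [Finset.mem_sdiff, Finset.mem_Icc, Finset.mem_singleton]
    omega
  rw [hI]
  ext A
  simp only [Finset.mem_filter, Finset.mem_union, Finset.mem_image, Finset.mem_powerset]
  constructor
  · rintro ⟨hA, hc⟩
    by_cases h1 : 1 ∈ A
    · right
      refine ⟨A.erase 1, ?_, Finset.insert_erase h1⟩
      unfold L
      rw [Finset.mem_filter, Finset.mem_powerset]
      have hE : A ∩ Icc 2 n = A.erase 1 := by
        ext x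
        simp only [Finset.mem_inter, Finset.mem_Icc, Finset.mem_erase]
        constructor
        · rintro ⟨h, h'⟩
          exact ⟨by omega, h⟩
        · rintro ⟨h, h'⟩
          have := hA h'
          rw [Finset.mem_Icc] at this
          exact ⟨h', by omega⟩
      rw [hE] at hc
      refine ⟨?_, hc⟩
      rw [← hE]
      exact Finset.inter_subset_right
    · left
      unfold L
      rw [Finset.mem_filter, Finset.mem_powerset]
      have hE : A ∩ Icc 2 n = A := by
        rw [Finset.inter_eq_left]
        intro x hx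
        have := hA hx
        rw [Finset.mem_Icc] at this ⊢
        have hx1 : x ≠ 1 := fun h => h1 (h ▸ hx)
        omega
      rw [hE] at hc
      refine ⟨?_, hc⟩
      rw [← hE]
      exact Finset.inter_subset_right
  · rintro (hA | ⟨B, hB, rfl⟩)
    · have h1 := one_notMem_of_mem_L hA
      unfold L at hA
      rw [Finset.mem_filter, Finset.mem_powerset] at hA
      refine ⟨hA.1.trans (Finset.Icc_subset_Icc (by omega) le_rfl), ?_⟩
      rw [Finset.inter_eq_left.mpr hA.1]
      exact hA.2
    · have h1 := one_notMem_of_mem_L hB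
      unfold L at hB
      rw [Finset.mem_filter, Finset.mem_powerset] at hB
      refine ⟨?_, ?_⟩
      · apply Finset.insert_subset
        · rw [Finset.mem_Icc]; omega
        · exact hB.1.trans (Finset.Icc_subset_Icc (by omega) le_rfl)
      · have hE : insert 1 B ∩ Icc 2 n = B := by
          ext x
          simp only [Finset.mem_inter, Finset.mem_insert, Finset.mem_Icc]
          constructor
          · rintro ⟨h | h, h'⟩
            · omega
            · exact h
          · intro h
            have := hB.1 h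
            rw [Finset.mem_Icc] at this
            exact ⟨Or.inr h, this⟩
        rw [hE]
        exact hB.2

lemma base_card {n : ℕ} (hn : Odd n) : (baseFamily n 1).card = 2 * (L n).card := by
  rw [base_eq hn, Finset.card_union_of_disjoint]
  · rw [Finset.card_image_of_injOn]
    · ring
    · intro A hA B hB hAB
      have hA1 := one_notMem_of_mem_L (Finset.mem_coe.mp hA)
      have hB1 := one_notMem_of_mem_L (Finset.mem_coe.mp hB)
      have : (insert 1 A).erase 1 = (insert 1 B).erase 1 := by
        rw [hAB]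
      rwa [Finset.erase_insert hA1, Finset.erase_insert hB1] at this
  · rw [Finset.disjoint_left]
    intro A hA hA'
    rw [Finset.mem_image] at hA'
    obtain ⟨B, hB, rfl⟩ := hA'
    exact one_notMem_of_mem_L hA (Finset.mem_insert_self 1 B)

lemma base_inter {n : ℕ} (hn : Odd n) {A B : Finset ℕ} (hA : A ∈ baseFamily n 1)
    (hB : B ∈ baseFamily n 1) : A ∩ B ≠ ∅ := by
  have key : ∀ A ∈ baseFamily n 1, ∃ A' ∈ L n, A' ⊆ A := by
    intro A hA
    rw [base_eq hn, Finset.mem_union, Finset.mem_image] at hA
    rcases hA with hA | ⟨A', hA', rfl⟩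
    · exact ⟨A, hA, subset_rfl⟩
    · exact ⟨A', hA', Finset.subset_insert 1 A'⟩
  obtain ⟨A', hA', hAA⟩ := key A hA
  obtain ⟨B', hB', hBB⟩ := key B hB
  have h2 := L_inter hn.pos hA' hB'
  intro h
  have h3 : (A' ∩ B').card ≤ (A ∩ B).card :=
    Finset.card_le_card (Finset.inter_subset_inter hAA hBB)
  rw [h, Finset.card_empty] at h3
  omega

lemma disjPairs_star {n : ℕ} (hn : Odd n) :
    disjPairs (starFamily n 1) = 2 * (L n).card := by
  have h0 : starFamily n 1 = insert ∅ (baseFamily n 1) := by
    unfold starFamily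
    ext A
    simp only [Finset.mem_union, Finset.mem_filter, Finset.mem_insert, Finset.mem_powerset]
    constructor
    · rintro (h | ⟨_, h⟩)
      · exact Or.inr h
      · left
        have : A.card = 0 := by omega
        exact Finset.card_eq_zero.mp this
    · rintro (rfl | h)
      · right
        simp
      · exact Or.inl h
  have hE : ∅ ∉ baseFamily n 1 := by
    intro h
    exact base_inter hn h h (by simp)
  rw [h0, disjPairs_insert hE, disjPairs_eq_zero (fun A hA B hB _ => base_inter hn hA hB)]
  rw [Finset.filter_true_of_mem (by intro B _; simp), base_card hn]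
  ring

/-- The competing family `{∅, {1}} ∪ {A ⊆ {2,…,n} : |A| ≥ (n+1)/2}`. -/
def G (n : ℕ) : Finset (Finset ℕ) := insert ∅ (insert {1} (L n))

lemma disjPairs_G {n : ℕ} (hn : Odd n) : disjPairs (G n) = 2 * (L n).card + 1 := by
  have hs : ({1} : Finset ℕ) ∉ L n := fun h => one_notMem_of_mem_L h (by simp)
  have he : (∅ : Finset ℕ) ∉ insert ({1} : Finset ℕ) (L n) := by
    rw [Finset.mem_insert]
    rintro (h | h)
    · have : (1 : ℕ) ∈ (∅ : Finset ℕ) := by rw [h]; simp
      simp at this
    · exact empty_notMem_L h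
  have h0 : disjPairs (L n) = 0 := disjPairs_eq_zero (fun A hA B hB _ h => by
    have := L_inter hn.pos hA hB
    rw [h, Finset.card_empty] at this
    omega)
  have h1 : ((L n).filter (fun B => ({1} : Finset ℕ) ∩ B = ∅)) = L n :=
    Finset.filter_true_of_mem (fun B hB => by
      rw [Finset.singleton_inter_of_notMem (one_notMem_of_mem_L hB)])
  have h2 : ((insert ({1} : Finset ℕ) (L n)).filter (fun B => (∅ : Finset ℕ) ∩ B = ∅)) =
      insert ({1} : Finset ℕ) (L n) :=
    Finset.filter_true_of_mem (fun B _ => by rw [Finset.empty_inter])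
  unfold G
  rw [disjPairs_insert he, disjPairs_insert hs, h0, h1, h2, Finset.card_insert_of_notMem hs]
  ring

lemma G_avoiding {n : ℕ} (hn : Odd n) : IsAvoiding 1 (G n) := by
  intro A hA B hB hAB
  unfold G at hA hB
  simp only [Finset.mem_insert] at hA hB
  rcases hA with rfl | rfl | hA
  · simp
  · rcases hB with rfl | rfl | hB
    · simp
    · exact absurd rfl hAB
    · rw [Finset.singleton_inter_of_notMem (one_notMem_of_mem_L hB)]
      simp
  · rcases hB with rfl | rfl | hB
    · simp
    · rw [Finset.inter_singleton_of_notMem (one_notMem_of_mem_L hA)]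
      simp
    · have := L_inter hn.pos hA hB
      omega

lemma G_subset {n : ℕ} (hn : Odd n) : G n ⊆ (Icc 1 n).powerset := by
  intro A hA
  unfold G at hA
  simp only [Finset.mem_insert] at hA
  rw [Finset.mem_powerset]
  rcases hA with rfl | rfl | hA
  · simp
  · rw [Finset.singleton_subset_iff, Finset.mem_Icc]
    exact ⟨le_rfl, hn.pos⟩
  · unfold L at hA
    rw [Finset.mem_filter, Finset.mem_powerset] at hA
    exact hA.1.trans (Finset.Icc_subset_Icc (by omega) le_rfl)

/-- For every odd `n` some `1`-avoiding family of subsets of `[n]` has exactly one more disjoint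
pair than `F*(n,1)`; consequently the statement of Q1 is false. -/
theorem odd_one :
    (∀ n : ℕ, Odd n → ∃ F : Finset (Finset ℕ), F ⊆ (Icc 1 n).powerset ∧ IsAvoiding 1 F ∧
      disjPairs F = disjPairs (starFamily n 1) + 1) ∧
    ¬ (∀ t : ℕ, 1 ≤ t → ∃ n₀ : ℕ, ∀ n : ℕ, n₀ ≤ n → ∀ F : Finset (Finset ℕ),
      F ⊆ (Icc 1 n).powerset → IsAvoiding t F → disjPairs F ≤ disjPairs (starFamily n t)) := by
  have h1 : ∀ n : ℕ, Odd n → ∃ F : Finset (Finset ℕ), F ⊆ (Icc 1 n).powerset ∧ IsAvoiding 1 F ∧
      disjPairs F = disjPairs (starFamily n 1) + 1 := by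
    intro n hn
    exact ⟨G n, G_subset hn, G_avoiding hn, by rw [disjPairs_G hn, disjPairs_star hn]⟩
  refine ⟨h1, ?_⟩
  intro h
  obtain ⟨n₀, hn₀⟩ := h 1 le_rfl
  obtain ⟨F, hF, hFa, hFd⟩ := h1 (2 * n₀ + 1) ⟨n₀, rfl⟩
  have := hn₀ (2 * n₀ + 1) (by omega) F hF hFa
  omega

end Pool.Agent.H26.LT.COdd
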