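import Pool.Agent.H45.TA.Transfer

/-!
Families avoiding one intersection size and disjoint pairs (MP_28c1b3_co, Q1): the case `t = 1`.

If no two members of `F`, equal or not, meet in exactly one element, then
`d(F) ≤ d(F*(n,1))`, for every `n`.  If only distinct members are required not to meet in exactly
one element, then for `n ≥ 6` the same bound holds for even `n`, and it holds up to one pair for
odd `n`.
-/

open Finset

namespace Pool.Agent.H26.LT.COne

open Pool.Agent.H45.TA

/-- `IsAvoiding t F`: no two distinct members of `F` meet in exactly `t` elements. -/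
def IsAvoiding (t : ℕ) (F : Finset (Finset ℕ)) : Prop :=
  ∀ A ∈ F, ∀ B ∈ F, A ≠ B → (A ∩ B).card ≠ t

/-- `IsStronglyAvoiding t F`: no two members of `F`, distinct or equal, meet in exactly `t`
elements (so `F` has no member of size `t` either). -/
def IsStronglyAvoiding (t : ℕ) (F : Finset (Finset ℕ)) : Prop :=
  ∀ A ∈ F, ∀ B ∈ F, (A ∩ B).card ≠ t

/-- The number `d(F)` of unordered pairs `{A, B}` of distinct members of `F` with `A ∩ B = ∅`:
the number of two-element subfamilies of `F` whose two members are disjoint. -/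
def disjPairs (F : Finset (Finset ℕ)) : ℕ :=
  ((F.powersetCard 2).filter (fun P => ∀ A ∈ P, ∀ B ∈ P, A ≠ B → A ∩ B = ∅)).card

/-- The family `F(n,t)` of subsets of `[n] = {1,…,n}`. -/
def baseFamily (n t : ℕ) : Finset (Finset ℕ) :=
  if Odd (n + t) then (Icc 1 n).powerset.filter (fun A => n + t + 1 ≤ 2 * A.card)
  else (Icc 1 n).powerset.filter (fun A => n + t ≤ 2 * (A ∩ (Icc 1 n \ {1})).card)

/-- The family `F*(n,t) = F(n,t) ∪ [n]^(≤ t-1)`. -/
def starFamily (n t : ℕ) : Finset (Finset ℕ) :=
  baseFamily n t ∪ (Icc 1 n).powerset.filter (fun A => A.card + 1 ≤ t)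

/-- The ordered disjoint pairs of members. -/
def opairs (F : Finset (Finset ℕ)) : Finset (Finset ℕ × Finset ℕ) :=
  (F ×ˢ F).filter (fun p => Disjoint p.1 p.2)

lemma two_mul_disjPairs (F : Finset (Finset ℕ)) :
    2 * disjPairs F + (if ∅ ∈ F then 1 else 0) = (opairs F).card := by
  classical
  have h1 : (opairs F).card = ((opairs F).filter (fun p => p.1 ≠ p.2)).card
      + ((opairs F).filter (fun p => ¬ p.1 ≠ p.2)).card :=
    (Finset.card_filter_add_card_filter_not _).symm
  have h2 : ((opairs F).filter (fun p => ¬ p.1 ≠ p.2)).card = if ∅ ∈ F then 1 else 0 := by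
    split_ifs with h
    · rw [Finset.card_eq_one]
      refine ⟨(∅, ∅), ?_⟩
      ext p
      unfold opairs
      rw [Finset.mem_filter, Finset.mem_filter, Finset.mem_product, Finset.mem_singleton,
        Classical.not_not]
      constructor
      · rintro ⟨⟨-, hd⟩, he⟩
        rw [← he, disjoint_self] at hd
        exact Prod.ext hd (he ▸ hd)
      · rintro rfl
        exact ⟨⟨⟨h, h⟩, Finset.disjoint_empty_left _⟩, rfl⟩
    · rw [Finset.card_eq_zero, Finset.eq_empty_iff_forall_notMem]
      intro p hp
      unfold opairs at hp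
      rw [Finset.mem_filter, Finset.mem_filter, Finset.mem_product, Classical.not_not] at hp
      obtain ⟨⟨⟨h3, -⟩, hd⟩, he⟩ := hp
      rw [← he, disjoint_self] at hd
      rw [hd] at h3
      exact h h3
  have h3 : ((opairs F).filter (fun p => p.1 ≠ p.2)).card = 2 * disjPairs F := by
    unfold disjPairs
    rw [Finset.card_eq_sum_card_fiberwise (f := fun p => ({p.1, p.2} : Finset (Finset ℕ)))
      (t := (F.powersetCard 2).filter (fun P => ∀ A ∈ P, ∀ B ∈ P, A ≠ B → A ∩ B = ∅))]
    · rw [Finset.sum_const_nat (m := 2), Nat.mul_comm]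
      intro P hP
      rw [Finset.mem_filter, Finset.mem_powersetCard] at hP
      obtain ⟨⟨hPF, hP2⟩, hPd⟩ := hP
      obtain ⟨A, B, hAB, rfl⟩ := Finset.card_eq_two.mp hP2
      have hA : A ∈ F := hPF (by simp)
      have hB : B ∈ F := hPF (by simp)
      have hd : Disjoint A B := by
        rw [Finset.disjoint_iff_inter_eq_empty]
        exact hPd A (by simp) B (by simp) hAB
      rw [Finset.card_eq_two]
      refine ⟨(A, B), (B, A), ?_, ?_⟩
      · intro h
        exact hAB (Prod.ext_iff.mp h).1
      · ext p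
        unfold opairs
        simp only [Finset.mem_filter, Finset.mem_product, Finset.mem_insert,
          Finset.mem_singleton]
        constructor
        · rintro ⟨⟨⟨-, hd'⟩, hne⟩, heq⟩
          have e1 : p.1 = A ∨ p.1 = B := by
            have : p.1 ∈ ({p.1, p.2} : Finset (Finset ℕ)) := by simp
            rw [heq] at this
            simpa using this
          have e2 : p.2 = A ∨ p.2 = B := by
            have : p.2 ∈ ({p.1, p.2} : Finset (Finset ℕ)) := by simp
            rw [heq] at this
            simpa using this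
          rcases e1 with e1 | e1 <;> rcases e2 with e2 | e2
          · exact absurd (e1.trans e2.symm) hne
          · left
            exact Prod.ext e1 e2
          · right
            exact Prod.ext e1 e2
          · exact absurd (e1.trans e2.symm) hne
        · rintro (rfl | rfl)
          · exact ⟨⟨⟨⟨hA, hB⟩, hd⟩, hAB⟩, rfl⟩
          · exact ⟨⟨⟨⟨hB, hA⟩, hd.symm⟩, hAB.symm⟩, Finset.pair_comm _ _⟩
    · intro p hp
      rw [Finset.mem_coe, Finset.mem_filter] at hp
      obtain ⟨hp, hne⟩ := hp
      unfold opairs at hp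
      rw [Finset.mem_filter, Finset.mem_product] at hp
      rw [Finset.mem_coe, Finset.mem_filter, Finset.mem_powersetCard]
      refine ⟨⟨?_, Finset.card_pair hne⟩, ?_⟩
      · intro A hA
        rw [Finset.mem_insert, Finset.mem_singleton] at hA
        rcases hA with rfl | rfl
        · exact hp.1.1
        · exact hp.1.2
      · intro A hA B hB hAB
        rw [Finset.mem_insert, Finset.mem_singleton] at hA hB
        rw [← Finset.disjoint_iff_inter_eq_empty]
        rcases hA with rfl | rfl <;> rcases hB with rfl | rfl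
        · exact absurd rfl hAB
        · exact hp.2
        · exact hp.2.symm
        · exact absurd rfl hAB
  rw [h1, h2, h3]

/-- The bound for strongly avoiding families on a set `V`. -/
lemma strong_bound (V : Finset ℕ) (F : Finset (Finset ℕ)) (hV : ∀ A ∈ F, A ⊆ V)
    (hF : IsStronglyAvoiding 1 F) : (opairs F).card ≤ 2 * kk V.card + 1 :=
  pairs_le V F hV hF

lemma strong_disjPairs (V : Finset ℕ) (F : Finset (Finset ℕ)) (hV : ∀ A ∈ F, A ⊆ V)
    (hF : IsStronglyAvoiding 1 F) : disjPairs F ≤ kk V.card := by
  have h1 := strong_bound V F hV hF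
  have h2 := two_mul_disjPairs F
  omega

/-- The size of a strongly avoiding family. -/
lemma strong_card (V : Finset ℕ) (F : Finset (Finset ℕ)) (hV : ∀ A ∈ F, A ⊆ V)
    (hF : IsStronglyAvoiding 1 F) : F.card ≤ kk V.card + 1 := by
  classical
  have hF' : IsStronglyAvoiding 1 (insert ∅ F) := by
    intro A hA B hB
    rw [Finset.mem_insert] at hA hB
    rcases hA with rfl | hA
    · simp
    · rcases hB with rfl | hB
      · simp
      · exact hF A hA B hB
  have hV' : ∀ A ∈ insert ∅ F, A ⊆ V := by
    intro A hA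
    rw [Finset.mem_insert] at hA
    rcases hA with rfl | hA
    · exact Finset.empty_subset _
    · exact hV A hA
  have h1 := strong_bound V (insert ∅ F) hV' hF'
  -- the pairs with the empty set
  have h2 : (F.erase ∅).image (fun A => ((∅ : Finset ℕ), A)) ∪ (F.erase ∅).image (fun A => (A, (∅ : Finset ℕ)))
      ∪ {((∅ : Finset ℕ), (∅ : Finset ℕ))} ⊆ opairs (insert ∅ F) := by
    intro p hp
    unfold opairs
    rw [Finset.mem_filter, Finset.mem_product]
    rw [Finset.mem_union, Finset.mem_union, Finset.mem_image, Finset.mem_image,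
      Finset.mem_singleton] at hp
    rcases hp with (⟨A, hA, rfl⟩ | ⟨A, hA, rfl⟩) | rfl
    · exact ⟨⟨Finset.mem_insert_self _ _, Finset.mem_insert_of_mem (Finset.mem_of_mem_erase hA)⟩,
        Finset.disjoint_empty_left _⟩
    · exact ⟨⟨Finset.mem_insert_of_mem (Finset.mem_of_mem_erase hA), Finset.mem_insert_self _ _⟩,
        Finset.disjoint_empty_right _⟩
    · exact ⟨⟨Finset.mem_insert_self _ _, Finset.mem_insert_self _ _⟩,
        Finset.disjoint_empty_left _⟩
  have h3 := Finset.card_le_card h2
  have h4 : ((F.erase ∅).image (fun A => ((∅ : Finset ℕ), A))).card = (F.erase ∅).card :=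
    Finset.card_image_of_injective _ (fun A B h => (Prod.ext_iff.mp h).2)
  have h5 : ((F.erase ∅).image (fun A => (A, (∅ : Finset ℕ)))).card = (F.erase ∅).card :=
    Finset.card_image_of_injective _ (fun A B h => (Prod.ext_iff.mp h).1)
  have hd1 : Disjoint ((F.erase ∅).image (fun A => ((∅ : Finset ℕ), A)))
      ((F.erase ∅).image (fun A => (A, (∅ : Finset ℕ)))) := by
    rw [Finset.disjoint_left]
    intro p hp hp'
    rw [Finset.mem_image] at hp hp'
    obtain ⟨A, hA, rfl⟩ := hp
    obtain ⟨B, hB, hBA⟩ := hp'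
    rw [Prod.ext_iff] at hBA
    exact (Finset.mem_erase.mp hB).1 hBA.1
  have hd2 : Disjoint ((F.erase ∅).image (fun A => ((∅ : Finset ℕ), A)) ∪ (F.erase ∅).image (fun A => (A, (∅ : Finset ℕ))))
      {((∅ : Finset ℕ), (∅ : Finset ℕ))} := by
    rw [Finset.disjoint_singleton_right, Finset.mem_union, Finset.mem_image, Finset.mem_image]
    rintro (⟨A, hA, h⟩ | ⟨A, hA, h⟩)
    · exact (Finset.mem_erase.mp hA).1 (Prod.ext_iff.mp h).2
    · exact (Finset.mem_erase.mp hA).1 (Prod.ext_iff.mp h).1
  rw [Finset.card_union_of_disjoint hd2, Finset.card_union_of_disjoint hd1, h4, h5,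
    Finset.card_singleton] at h3
  have h6 : F.card - 1 ≤ (F.erase ∅).card := Finset.pred_card_le_card_erase
  omega

/-- The base family has at least `kk n` members. -/
lemma kk_le_base (n : ℕ) : kk n ≤ (baseFamily n 1).card := by
  classical
  rcases Nat.even_or_odd n with he | ho
  · obtain ⟨m, rfl⟩ := he.two_dvd
    have h1 := upper_card (Icc 1 (2 * m)) m (by simp)
    unfold kk baseFamily
    rw [if_pos (by simp), if_pos (by simp), Nat.mul_div_cancel_left m (by norm_num), ← h1]
    apply Finset.card_le_card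
    intro A hA
    rw [Finset.mem_filter] at hA ⊢
    refine ⟨hA.1, ?_⟩
    omega
  · obtain ⟨m, rfl⟩ := ho
    have h1 := upper_card (Icc 2 (2 * m + 1)) m (by simp)
    unfold kk baseFamily
    rw [if_neg (by simp), if_neg (by rw [Nat.not_odd_iff_even]; exact ⟨m + 1, by ring⟩),
      Nat.add_sub_cancel, Nat.mul_div_cancel_left m (by norm_num), ← h1]
    set 𝒲 := (Icc 2 (2 * m + 1)).powerset.filter (fun A => m + 1 ≤ A.card) with h𝒲
    have hmem : ∀ A ∈ 𝒲, A ⊆ Icc 2 (2 * m + 1) ∧ m + 1 ≤ A.card := by
      intro A hA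
      rw [h𝒲, Finset.mem_filter, Finset.mem_powerset] at hA
      exact hA
    have h1A : ∀ A ∈ 𝒲, (1 : ℕ) ∉ A := by
      intro A hA h
      have := (hmem A hA).1 h
      rw [Finset.mem_Icc] at this
      omega
    have hinter : ∀ A ∈ 𝒲, ∀ B : Finset ℕ, A ⊆ B →
        m + 1 ≤ (B ∩ (Icc 1 (2 * m + 1) \ {1})).card := by
      intro A hA B hAB
      apply (hmem A hA).2.trans
      apply Finset.card_le_card
      intro x hx
      rw [Finset.mem_inter, Finset.mem_sdiff, Finset.mem_singleton, Finset.mem_Icc]
      have h2 := (hmem A hA).1 hx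
      rw [Finset.mem_Icc] at h2
      exact ⟨hAB hx, by omega, by omega⟩
    have hinj : Set.InjOn (fun A : Finset ℕ => insert 1 A) (𝒲 : Set (Finset ℕ)) := by
      intro A hA B hB h
      have h2 := congrArg (fun Z : Finset ℕ => Z.erase 1) h
      simp only [Finset.erase_insert (h1A A hA), Finset.erase_insert (h1A B hB)] at h2
      exact h2
    have hdis : Disjoint 𝒲 (𝒲.image (fun A => insert 1 A)) := by
      rw [Finset.disjoint_left]
      intro A hA hA'
      rw [Finset.mem_image] at hA'
      obtain ⟨B, -, rfl⟩ := hA'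
      exact h1A _ hA (Finset.mem_insert_self 1 B)
    have h3 : 2 * 𝒲.card = (𝒲 ∪ 𝒲.image (fun A => insert 1 A)).card := by
      rw [Finset.card_union_of_disjoint hdis, Finset.card_image_of_injOn hinj]
      ring
    rw [h3]
    apply Finset.card_le_card
    intro A hA
    rw [Finset.mem_union, Finset.mem_image] at hA
    rw [Finset.mem_filter, Finset.mem_powerset]
    rcases hA with hA | ⟨B, hB, rfl⟩
    · refine ⟨?_, ?_⟩
      · intro x hx
        have := (hmem A hA).1 hx
        rw [Finset.mem_Icc] at this ⊢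
        omega
      · have := hinter A hA A (Finset.Subset.refl A)
        omega
    · refine ⟨?_, ?_⟩
      · intro x hx
        rw [Finset.mem_insert] at hx
        rcases hx with rfl | hx
        · rw [Finset.mem_Icc]
          omega
        · have := (hmem B hB).1 hx
          rw [Finset.mem_Icc] at this ⊢
          omega
      · have := hinter B hB (insert 1 B) (Finset.subset_insert 1 B)
        omega

lemma empty_notMem_base (n : ℕ) : ∅ ∉ baseFamily n 1 := by
  unfold baseFamily
  split_ifs with h
  · rw [Finset.mem_filter]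
    simp
  · rw [Finset.mem_filter]
    simp

/-- The family `F*(n,1)` has at least `kk n` disjoint pairs. -/
lemma kk_le_star (n : ℕ) : kk n ≤ disjPairs (starFamily n 1) := by
  classical
  apply (kk_le_base n).trans
  unfold disjPairs
  have hinj : Set.InjOn (fun A : Finset ℕ => ({∅, A} : Finset (Finset ℕ)))
      (baseFamily n 1 : Set (Finset ℕ)) := by
    intro A hA B hB h
    have hAe : A ≠ ∅ := fun h' => empty_notMem_base n (h' ▸ hA)
    have h1 : A ∈ ({∅, B} : Finset (Finset ℕ)) := by
      have : ({∅, A} : Finset (Finset ℕ)) = {∅, B} := h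
      rw [← this]
      simp
    rw [Finset.mem_insert, Finset.mem_singleton] at h1
    rcases h1 with h1 | h1
    · exact absurd h1 hAe
    · exact h1
  rw [← Finset.card_image_of_injOn hinj]
  apply Finset.card_le_card
  intro P hP
  rw [Finset.mem_image] at hP
  obtain ⟨A, hA, rfl⟩ := hP
  have hAe : ∅ ≠ A := fun h' => empty_notMem_base n (h' ▸ hA)
  rw [Finset.mem_filter, Finset.mem_powersetCard]
  refine ⟨⟨?_, Finset.card_pair hAe⟩, ?_⟩
  · intro B hB
    rw [Finset.mem_insert, Finset.mem_singleton] at hB
    unfold starFamily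
    rw [Finset.mem_union]
    rcases hB with rfl | rfl
    · right
      rw [Finset.mem_filter]
      simp
    · left
      exact hA
  · intro B hB C hC hBC
    rw [Finset.mem_insert, Finset.mem_singleton] at hB hC
    rcases hB with rfl | rfl <;> rcases hC with rfl | rfl
    · exact absurd rfl hBC
    · simp
    · simp
    · exact absurd rfl hBC

/-! ### The numerical inequality -/

lemma kk_mono {a b : ℕ} (h : a ≤ b) : kk a ≤ kk b := by
  obtain ⟨s, rfl⟩ := Nat.exists_eq_add_of_le h
  have h1 := kk_pow a s
  have h2 : 1 ≤ 2 ^ s := Nat.one_le_two_pow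
  nlinarith

lemma kk_quad {n : ℕ} (hn : 6 ≤ n) : n * (n + 1) ≤ 2 * kk n := by
  induction n, hn using Nat.le_induction with
  | base => rw [kk_six]; norm_num
  | succ n hn ih =>
    have := kk_double n
    nlinarith

lemma two_pow_quad {s : ℕ} (hs : 5 ≤ s) : (s + 1) * (s + 2) ≤ 2 * 2 ^ s := by
  induction s, hs using Nat.le_induction with
  | base => norm_num
  | succ s hs ih =>
    rw [pow_succ]
    nlinarith

lemma numeric {n s : ℕ} (hn : 6 ≤ n) (hs : s ≤ n) :
    2 * (s + 1) * kk (n - s) + s * (s + 1) ≤ 2 * (kk n + (if Odd n then 1 else 0)) := by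
  rcases Nat.eq_zero_or_pos s with rfl | hs0
  · simp
  rcases Nat.lt_or_ge s 2 with h2 | h2
  · have hs1 : s = 1 := by omega
    subst hs1
    rcases Nat.even_or_odd n with he | ho
    · obtain ⟨m, rfl⟩ : ∃ m, n = 2 * m + 2 := by
        obtain ⟨m, rfl⟩ := he.two_dvd
        exact ⟨m - 1, by omega⟩
      have h3 := kk_even m
      have h4 : 2 * m + 2 - 1 = 2 * m + 1 := by omega
      rw [h4]
      split_ifs <;> omega
    · rw [if_pos ho]
      obtain ⟨m, rfl⟩ := ho
      have h3 := kk_odd m
      rw [Nat.add_sub_cancel]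
      omega
  · have hpow := kk_pow (n - s) s
    rw [Nat.sub_add_cancel hs] at hpow
    rcases Nat.lt_or_ge (n - s) 2 with h5 | h5
    · have hz : kk (n - s) = 0 := by
        have : n - s = 0 ∨ n - s = 1 := by omega
        rcases this with h | h <;> rw [h] <;> decide
      rw [hz]
      have h6 := kk_quad hn
      have h7 : s * (s + 1) ≤ n * (n + 1) := Nat.mul_le_mul hs (by omega)
      split_ifs <;> omega
    · have hpos : 1 ≤ kk (n - s) := by
        have := kk_mono h5
        rw [kk_two] at this
        exact this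
      have hs' : s = 2 ∨ s = 3 ∨ s = 4 ∨ 5 ≤ s := by omega
      rcases hs' with rfl | rfl | rfl | h6
      · have h7 : kk 4 ≤ kk (n - 2) := kk_mono (by omega)
        rw [kk_four] at h7
        norm_num at hpow ⊢
        omega
      · have h7 : kk 3 ≤ kk (n - 3) := kk_mono (by omega)
        rw [kk_three] at h7
        norm_num at hpow ⊢
        omega
      · norm_num at hpow ⊢
        omega
      · have h8 := two_pow_quad h6
        have h9 : (s + 1) * (s + 2) * kk (n - s) ≤ 2 * 2 ^ s * kk (n - s) :=
          Nat.mul_le_mul_right _ h8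
        have h10 : s * (s + 1) * 1 ≤ s * (s + 1) * kk (n - s) := Nat.mul_le_mul_left _ hpos
        have h11 : 2 * (s + 1) * kk (n - s) + s * (s + 1) * kk (n - s)
            = (s + 1) * (s + 2) * kk (n - s) := by ring
        have h12 : 2 * 2 ^ s * kk (n - s) = 2 * (2 ^ s * kk (n - s)) := by ring
        omega

/-- The bound in the reading with distinct members. -/
lemma weak_bound {n : ℕ} (hn : 6 ≤ n) (F : Finset (Finset ℕ)) (hV : ∀ A ∈ F, A ⊆ Icc 1 n)
    (hF : IsAvoiding 1 F) : disjPairs F ≤ kk n + (if Odd n then 1 else 0) := by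
  classical
  set X : Finset ℕ := (Icc 1 n).filter (fun x => {x} ∈ F) with hX
  set F₁ := F.filter (fun A => A.card ≠ 1) with hF₁
  set S := F.filter (fun A => ¬ A.card ≠ 1) with hS
  have hXs : X.card ≤ n := by
    have := Finset.card_le_card (Finset.filter_subset (fun x => {x} ∈ F) (Icc 1 n))
    rw [Nat.card_Icc, Nat.add_sub_cancel] at this
    exact this
  have hSc : S.card = X.card := by
    have : S = X.image (fun x => {x}) := by
      ext A
      rw [hS, Finset.mem_filter, Finset.mem_image, Classical.not_not]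
      constructor
      · rintro ⟨hA, hc⟩
        obtain ⟨x, rfl⟩ := Finset.card_eq_one.mp hc
        refine ⟨x, ?_, rfl⟩
        rw [hX, Finset.mem_filter]
        exact ⟨hV _ hA (Finset.mem_singleton_self x), hA⟩
      · rintro ⟨x, hx, rfl⟩
        rw [hX, Finset.mem_filter] at hx
        exact ⟨hx.2, Finset.card_singleton x⟩
    rw [this, Finset.card_image_of_injective _ Finset.singleton_injective]
  have hV₁ : ∀ A ∈ F₁, A ⊆ Icc 1 n \ X := by
    intro A hA x hx
    rw [hF₁, Finset.mem_filter] at hA
    rw [Finset.mem_sdiff]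
    refine ⟨hV A hA.1 hx, ?_⟩
    intro hxX
    rw [hX, Finset.mem_filter] at hxX
    apply hF A hA.1 {x} hxX.2
    · intro h
      apply hA.2
      rw [h]
      exact Finset.card_singleton x
    · rw [Finset.inter_singleton_of_mem hx]
      exact Finset.card_singleton x
  have hVc : (Icc 1 n \ X).card = n - X.card := by
    rw [Finset.card_sdiff_of_subset (Finset.filter_subset _ _), Nat.card_Icc, Nat.add_sub_cancel]
  have hs₁ : IsStronglyAvoiding 1 F₁ := by
    intro A hA B hB
    by_cases hAB : A = B
    · subst hAB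
      rw [Finset.inter_self]
      rw [hF₁, Finset.mem_filter] at hA
      exact hA.2
    · exact hF A (Finset.mem_filter.mp hA).1 B (Finset.mem_filter.mp hB).1 hAB
  have hb1 := strong_bound _ F₁ hV₁ hs₁
  have hb2 := strong_card _ F₁ hV₁ hs₁
  rw [hVc] at hb1 hb2
  -- the ordered pairs
  have hcov : opairs F ⊆ opairs F₁ ∪ (S ×ˢ F₁ ∪ F₁ ×ˢ S) ∪ S.offDiag := by
    intro p hp
    unfold opairs at hp ⊢
    rw [Finset.mem_filter, Finset.mem_product] at hp
    simp only [Finset.mem_union, Finset.mem_filter, Finset.mem_product, Finset.mem_offDiag]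
    by_cases h1 : p.1.card ≠ 1
    · have h1' : p.1 ∈ F₁ := Finset.mem_filter.mpr ⟨hp.1.1, h1⟩
      by_cases h2 : p.2.card ≠ 1
      · left; left
        exact ⟨⟨h1', Finset.mem_filter.mpr ⟨hp.1.2, h2⟩⟩, hp.2⟩
      · left; right; right
        exact ⟨h1', Finset.mem_filter.mpr ⟨hp.1.2, h2⟩⟩
    · have h1' : p.1 ∈ S := Finset.mem_filter.mpr ⟨hp.1.1, h1⟩
      by_cases h2 : p.2.card ≠ 1
      · left; right; left
        exact ⟨h1', Finset.mem_filter.mpr ⟨hp.1.2, h2⟩⟩
      · right
        refine ⟨h1', Finset.mem_filter.mpr ⟨hp.1.2, h2⟩, ?_⟩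
        intro he
        have h3 := hp.2
        rw [← he, disjoint_self] at h3
        apply h1
        rw [h3]
        simp
  have hcard := Finset.card_le_card hcov
  have hu1 := Finset.card_union_le (opairs F₁ ∪ (S ×ˢ F₁ ∪ F₁ ×ˢ S)) S.offDiag
  have hu2 := Finset.card_union_le (opairs F₁) (S ×ˢ F₁ ∪ F₁ ×ˢ S)
  have hu3 := Finset.card_union_le (S ×ˢ F₁) (F₁ ×ˢ S)
  rw [Finset.card_product, Finset.card_product] at hu3
  rw [Finset.offDiag_card] at hu1
  have h2d := two_mul_disjPairs F
  have hnum := numeric hn hXs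
  rw [hSc] at hu1 hu3
  set s := X.card
  set k := kk (n - s)
  have hsF : s * F₁.card ≤ s * (k + 1) := Nat.mul_le_mul_left s hb2
  have hss : s * s - s + s = s * s := Nat.sub_add_cancel (Nat.le_mul_self s)
  have hcomm : F₁.card * s = s * F₁.card := Nat.mul_comm _ _
  have hpar : Even (s * (s + 1)) := Nat.even_mul_succ_self s
  obtain ⟨r, hr⟩ := hpar
  have e1 : s * (k + 1) = s * k + s := by ring
  have e2 : s * (s + 1) = s * s + s := by ring
  have e3 : 2 * (s + 1) * k = 2 * (s * k) + 2 * k := by ring
  rw [e3] at hnum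
  have hfin : 2 * disjPairs F ≤ 2 * (kk n + (if Odd n then 1 else 0)) + 1 := by
    omega
  omega

/-- **The case `t = 1`.**

1. For every `n`, every family `F` of subsets of `[n]` such that no two members of `F` (distinct or
equal) meet in exactly one element satisfies `d(F) ≤ d(F*(n,1))`.
2. For every `n ≥ 6`, every family `F` of subsets of `[n]` such that no two distinct members of `F`
meet in exactly one element satisfies `d(F) ≤ d(F*(n,1))` if `n` is even and
`d(F) ≤ d(F*(n,1)) + 1` if `n` is odd. -/
theorem case_one :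
    (∀ n : ℕ, ∀ F : Finset (Finset ℕ), (∀ A ∈ F, A ⊆ Icc 1 n) → IsStronglyAvoiding 1 F →
      disjPairs F ≤ disjPairs (starFamily n 1)) ∧
    (∀ n : ℕ, 6 ≤ n → ∀ F : Finset (Finset ℕ), (∀ A ∈ F, A ⊆ Icc 1 n) → IsAvoiding 1 F →
      disjPairs F ≤ disjPairs (starFamily n 1) + (if Odd n then 1 else 0)) := by
  constructor
  · intro n F hV hF
    have h1 := strong_disjPairs (Icc 1 n) F hV hF
    rw [Nat.card_Icc, Nat.add_sub_cancel] at h1
    exact h1.trans (kk_le_star n)
  · intro n hn F hV hF
    have h1 := weak_bound hn F hV hF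
    have h2 := kk_le_star n
    omega

end Pool.Agent.H26.LT.COne
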