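import Mathlib

/-!
Module OneAv.  Families on `W` with `|B ∩ B'| ≠ 1` for all `B, B' ∈ ρ` (equal or not) and `|A ∩ B| ≠ 1` for
`A ∈ α`, `B ∈ ρ`; all sets nonempty.  `N = |W|`.  Then
`#{P ⊆ W : P contains a member of α, W \ P contains a member of ρ} ≤ 2 (2^N - 2 |ρ|)`.

Let `ρ⁺` be the family of unions of nonempty subfamilies of `ρ`: it contains `ρ`, consists of nonempty sets, is
closed under unions, and still has the two properties (if `U ∩ U' = {z}` with `U = ⋃ B_i`, `U' = ⋃ B'_j`, then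
`z ∈ B_i ∩ B'_j ⊆ {z}` for some `i, j`).  `up` = subsets of `W` containing a member of `ρ` (or of `ρ⁺`).
(a) For `a ∈ ρ⁺` let `P_a` be a maximal set with `a ⊆ P ⊆ W` such that every member of `ρ⁺` contained in `P` is
    contained in `a`.  Then `W \ P_a` contains no member of `ρ⁺`: let `b ∈ ρ⁺`, `b ⊆ W \ P_a`, `z ∈ b`; by maximality
    there is `c ∈ ρ⁺`, `c ⊆ P_a + z`, `c ⊄ a`; `z ∈ c`, `b ∩ c = {z}`.  Contradiction.  `a ↦ P_a` is injective (`a` is the
    largest member of `ρ⁺` in `P_a`).  So with `u₁ = #{P ∈ up : W \ P ∉ up}`: `u₁ ≥ |ρ⁺|`.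
(b) `u₂ = #{P ∈ up : W \ P ∈ up}`.  `2 u₁ + u₂ ≤ 2^N`, so `|up \ ρ⁺| = u₁ + u₂ - |ρ⁺| ≤ (u₁ + u₂ - |ρ⁺|) + (u₁ - |ρ⁺|)
    ≤ 2^N - 2 |ρ⁺|`.
(c) `P` as in the claim, `Q = W \ P ∈ up`.  Those with `Q ∉ ρ⁺`: at most `|up \ ρ⁺|`.  If `Q ∈ ρ⁺`: let `a ∈ α`, `a ⊆ P`,
    `z ∈ a`.  `Q + z ∈ up`, and `Q + z ∉ ρ⁺` as `a ∩ (Q + z) = {z}`.  `Q ↦ Q + z` is injective: if `Q + z = Q' + z'` with
    `Q ≠ Q'` in `ρ⁺` then `Q ∪ Q' = Q + z` is in `ρ⁺`.  So there are at most `|up \ ρ⁺|` of these.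
Together `≤ 2 |up \ ρ⁺| ≤ 2 (2^N - 2 |ρ⁺|) ≤ 2 (2^N - 2 |ρ|)`.
-/

open Finset

namespace Pool.Agent.H26.LT

/-- the nonempty unions of members of `ρ` -/
private def OneAvCl (W : Finset ℕ) (ρ : Finset (Finset ℕ)) (U : Finset ℕ) : Prop :=
  U ⊆ W ∧ U.Nonempty ∧ ∀ x ∈ U, ∃ B ∈ ρ, x ∈ B ∧ B ⊆ U

private lemma oneav_cl_cl {W : Finset ℕ} {ρ : Finset (Finset ℕ)} (h1 : ∀ B ∈ ρ, ∀ B' ∈ ρ, (B ∩ B').card ≠ 1)
    {U U' : Finset ℕ} (hU : OneAvCl W ρ U) (hU' : OneAvCl W ρ U') : (U ∩ U').card ≠ 1 := by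
  intro h
  obtain ⟨z, hz⟩ := card_eq_one.mp h
  have hzm : z ∈ U ∩ U' := by rw [hz]; exact mem_singleton_self z
  obtain ⟨B, hB, hzB, hBU⟩ := hU.2.2 z (mem_inter.mp hzm).1
  obtain ⟨B', hB', hzB', hBU'⟩ := hU'.2.2 z (mem_inter.mp hzm).2
  apply h1 B hB B' hB'
  rw [card_eq_one]
  refine ⟨z, ?_⟩
  apply Subset.antisymm
  · intro y hy
    rw [← hz]
    exact mem_inter.mpr ⟨hBU (mem_inter.mp hy).1, hBU' (mem_inter.mp hy).2⟩
  · intro y hy
    rw [mem_singleton] at hy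
    subst hy
    exact mem_inter.mpr ⟨hzB, hzB'⟩

private lemma oneav_al_cl {W : Finset ℕ} {α ρ : Finset (Finset ℕ)} (h2 : ∀ A ∈ α, ∀ B ∈ ρ, (A ∩ B).card ≠ 1)
    {A U : Finset ℕ} (hA : A ∈ α) (hU : OneAvCl W ρ U) : (A ∩ U).card ≠ 1 := by
  intro h
  obtain ⟨z, hz⟩ := card_eq_one.mp h
  have hzm : z ∈ A ∩ U := by rw [hz]; exact mem_singleton_self z
  obtain ⟨B, hB, hzB, hBU⟩ := hU.2.2 z (mem_inter.mp hzm).2
  apply h2 A hA B hB
  rw [card_eq_one]
  refine ⟨z, ?_⟩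
  apply Subset.antisymm
  · intro y hy
    rw [← hz]
    exact mem_inter.mpr ⟨(mem_inter.mp hy).1, hBU (mem_inter.mp hy).2⟩
  · intro y hy
    rw [mem_singleton] at hy
    subst hy
    exact mem_inter.mpr ⟨(mem_inter.mp hzm).1, hzB⟩

private lemma oneav_union {W : Finset ℕ} {ρ : Finset (Finset ℕ)} {U U' : Finset ℕ} (hU : OneAvCl W ρ U)
    (hU' : OneAvCl W ρ U') : OneAvCl W ρ (U ∪ U') := by
  refine ⟨union_subset hU.1 hU'.1, hU.2.1.mono subset_union_left, ?_⟩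
  intro x hx
  rcases mem_union.mp hx with h | h
  · obtain ⟨B, hB, hxB, hBU⟩ := hU.2.2 x h
    exact ⟨B, hB, hxB, hBU.trans subset_union_left⟩
  · obtain ⟨B, hB, hxB, hBU⟩ := hU'.2.2 x h
    exact ⟨B, hB, hxB, hBU.trans subset_union_right⟩

/-- step (a): the maximal set of `a` -/
private lemma oneav_max {W : Finset ℕ} {ρ : Finset (Finset ℕ)} (h1 : ∀ B ∈ ρ, ∀ B' ∈ ρ, (B ∩ B').card ≠ 1)
    {a : Finset ℕ} (ha : OneAvCl W ρ a) :
    ∃ P : Finset ℕ, a ⊆ P ∧ P ⊆ W ∧ (∀ c, OneAvCl W ρ c → c ⊆ P → c ⊆ a) ∧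
      ∀ b, OneAvCl W ρ b → ¬ b ⊆ W \ P := by
  classical
  have hne : (W.powerset.filter (fun P => a ⊆ P ∧ ∀ c, OneAvCl W ρ c → c ⊆ P → c ⊆ a)).Nonempty := by
    refine ⟨a, ?_⟩
    rw [mem_filter, mem_powerset]
    exact ⟨ha.1, Subset.refl a, fun c _ hc => hc⟩
  obtain ⟨P, hP, hmax⟩ := exists_max_image _ (fun P : Finset ℕ => P.card) hne
  rw [mem_filter, mem_powerset] at hP
  refine ⟨P, hP.2.1, hP.1, hP.2.2, ?_⟩
  intro b hb hbP
  obtain ⟨z, hz⟩ := hb.2.1
  have hzW : z ∈ W := (mem_sdiff.mp (hbP hz)).1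
  have hzP : z ∉ P := (mem_sdiff.mp (hbP hz)).2
  have hnot : ¬ ∀ c, OneAvCl W ρ c → c ⊆ insert z P → c ⊆ a := by
    intro hall
    have hmem : insert z P ∈ W.powerset.filter (fun P => a ⊆ P ∧ ∀ c, OneAvCl W ρ c → c ⊆ P → c ⊆ a) := by
      rw [mem_filter, mem_powerset]
      exact ⟨insert_subset hzW hP.1, hP.2.1.trans (subset_insert z P), hall⟩
    have hle := hmax _ hmem
    rw [card_insert_of_notMem hzP] at hle
    omega
  push Not at hnot
  obtain ⟨c, hc, hcP, hca⟩ := hnot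
  have hzc : z ∈ c := by
    by_contra hzc
    apply hca
    apply hP.2.2 c hc
    intro y hy
    rcases mem_insert.mp (hcP hy) with h | h
    · subst h
      exact absurd hy hzc
    · exact h
  apply oneav_cl_cl h1 hb hc
  rw [card_eq_one]
  refine ⟨z, ?_⟩
  apply Subset.antisymm
  · intro y hy
    rw [mem_inter] at hy
    rw [mem_singleton]
    rcases mem_insert.mp (hcP hy.2) with h | h
    · exact h
    · exact absurd h (mem_sdiff.mp (hbP hy.1)).2
  · intro y hy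
    rw [mem_singleton] at hy
    subst hy
    exact mem_inter.mpr ⟨hz, hzc⟩

open Classical in
/-- step (b) -/
private lemma oneav_b {W : Finset ℕ} {ρ : Finset (Finset ℕ)}
    (hρ : ∀ B ∈ ρ, B ⊆ W ∧ B.Nonempty) (h1 : ∀ B ∈ ρ, ∀ B' ∈ ρ, (B ∩ B').card ≠ 1) :
    ((W.powerset.filter (fun P => ∃ B ∈ ρ, B ⊆ P)) \ (W.powerset.filter (fun P => OneAvCl W ρ P))).card +
      2 * (W.powerset.filter (fun P => OneAvCl W ρ P)).card ≤ 2 ^ W.card := by
  set up := W.powerset.filter (fun P => ∃ B ∈ ρ, B ⊆ P) with hup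
  set cl := W.powerset.filter (fun P => OneAvCl W ρ P) with hcl
  set U1 := W.powerset.filter (fun P => (∃ B ∈ ρ, B ⊆ P) ∧ ¬ ∃ B ∈ ρ, B ⊆ W \ P) with hU1
  set U2 := W.powerset.filter (fun P => (∃ B ∈ ρ, B ⊆ P) ∧ ∃ B ∈ ρ, B ⊆ W \ P) with hU2
  set U3 := W.powerset.filter (fun P => (¬ ∃ B ∈ ρ, B ⊆ P) ∧ ∃ B ∈ ρ, B ⊆ W \ P) with hU3
  have hmem_cl : ∀ P, P ∈ cl ↔ OneAvCl W ρ P := by
    intro P
    rw [hcl, mem_filter, mem_powerset]
    exact ⟨fun h => h.2, fun h => ⟨h.1, h⟩⟩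
  -- cl ⊆ up
  have hclup : cl ⊆ up := by
    intro P hP
    rw [hmem_cl] at hP
    rw [hup, mem_filter, mem_powerset]
    obtain ⟨x, hx⟩ := hP.2.1
    obtain ⟨B, hB, _, hBP⟩ := hP.2.2 x hx
    exact ⟨hP.1, B, hB, hBP⟩
  -- |cl| ≤ |U1|
  have hclU1 : cl.card ≤ U1.card := by
    have hex : ∀ a : Finset ℕ, ∃ P : Finset ℕ, OneAvCl W ρ a → (a ⊆ P ∧ P ⊆ W ∧
        (∀ c, OneAvCl W ρ c → c ⊆ P → c ⊆ a) ∧ ∀ b, OneAvCl W ρ b → ¬ b ⊆ W \ P) := by
      intro a
      by_cases ha : OneAvCl W ρ a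
      · obtain ⟨P, hP⟩ := oneav_max h1 ha
        exact ⟨P, fun _ => hP⟩
      · exact ⟨∅, fun h => absurd h ha⟩
    choose f hf using hex
    apply card_le_card_of_injOn f
    · intro a ha
      have ha' := (hmem_cl a).mp ha
      obtain ⟨g1, g2, g3, g4⟩ := hf a ha'
      simp only [hU1, coe_filter, Set.mem_ofPred_eq, mem_powerset]
      refine ⟨g2, ?_, ?_⟩
      · obtain ⟨x, hx⟩ := ha'.2.1
        obtain ⟨B, hB, _, hBP⟩ := ha'.2.2 x hx
        exact ⟨B, hB, hBP.trans g1⟩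
      · rintro ⟨B, hB, hBP⟩
        apply g4 B _ hBP
        exact ⟨(hρ B hB).1, (hρ B hB).2, fun x hx => ⟨B, hB, hx, Subset.refl B⟩⟩
    · intro a ha a' ha' haa
      have k := (hmem_cl a).mp ha
      have k' := (hmem_cl a').mp ha'
      obtain ⟨g1, g2, g3, g4⟩ := hf a k
      obtain ⟨g1', g2', g3', g4'⟩ := hf a' k'
      apply Subset.antisymm
      · exact g3' a k (by rw [← haa]; exact g1)
      · exact g3 a' k' (by rw [haa]; exact g1')
  -- |U1| = |U3|
  have hU13 : U1.card ≤ U3.card := by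
    apply card_le_card_of_injOn (fun P => W \ P)
    · intro P hP
      simp only [hU1, coe_filter, Set.mem_ofPred_eq, mem_powerset] at hP
      simp only [hU3, coe_filter, Set.mem_ofPred_eq, mem_powerset]
      refine ⟨sdiff_subset, hP.2.2, ?_⟩
      rw [Finset.sdiff_sdiff_eq_self hP.1]
      exact hP.2.1
    · intro P hP P' hP' h
      simp only [hU1, coe_filter, Set.mem_ofPred_eq, mem_powerset] at hP hP'
      have h' : W \ P = W \ P' := h
      rw [← Finset.sdiff_sdiff_eq_self hP.1, h', Finset.sdiff_sdiff_eq_self hP'.1]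
  have hd12 : Disjoint U1 U2 := by
    rw [disjoint_left]
    intro P hP hP'
    rw [hU1, mem_filter] at hP
    rw [hU2, mem_filter] at hP'
    exact hP.2.2 hP'.2.2
  have hd123 : Disjoint (U1 ∪ U2) U3 := by
    rw [disjoint_left]
    intro P hP hP'
    rw [hU3, mem_filter] at hP'
    rcases mem_union.mp hP with h | h
    · rw [hU1, mem_filter] at h
      exact hP'.2.1 h.2.1
    · rw [hU2, mem_filter] at h
      exact hP'.2.1 h.2.1
  have hupU : up = U1 ∪ U2 := by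
    ext P
    rw [mem_union, hup, hU1, hU2, mem_filter, mem_filter, mem_filter]
    constructor
    · rintro ⟨hPW, hB⟩
      by_cases h : ∃ B ∈ ρ, B ⊆ W \ P
      · exact Or.inr ⟨hPW, hB, h⟩
      · exact Or.inl ⟨hPW, hB, h⟩
    · rintro (h | h)
      · exact ⟨h.1, h.2.1⟩
      · exact ⟨h.1, h.2.1⟩
  have htot : (U1 ∪ U2 ∪ U3).card ≤ 2 ^ W.card := by
    rw [← card_powerset]
    apply card_le_card
    apply union_subset (union_subset (filter_subset _ _) (filter_subset _ _)) (filter_subset _ _)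
  rw [card_union_of_disjoint hd123, card_union_of_disjoint hd12] at htot
  have hupc : up.card = U1.card + U2.card := by
    rw [hupU, card_union_of_disjoint hd12]
  have hsd : (up \ cl).card + cl.card = up.card := card_sdiff_add_card_eq_card hclup
  omega

open Classical in
theorem one_av {W : Finset ℕ} {α ρ : Finset (Finset ℕ)} (hα : ∀ A ∈ α, A ⊆ W ∧ A.Nonempty)
    (hρ : ∀ B ∈ ρ, B ⊆ W ∧ B.Nonempty) (h1 : ∀ B ∈ ρ, ∀ B' ∈ ρ, (B ∩ B').card ≠ 1)
    (h2 : ∀ A ∈ α, ∀ B ∈ ρ, (A ∩ B).card ≠ 1) :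
    (W.powerset.filter (fun P => (∃ A ∈ α, A ⊆ P) ∧ ∃ B ∈ ρ, B ⊆ W \ P)).card + 4 * ρ.card ≤
      2 * 2 ^ W.card := by
  have hb := oneav_b hρ h1
  set up := W.powerset.filter (fun P => ∃ B ∈ ρ, B ⊆ P) with hup
  set cl := W.powerset.filter (fun P => OneAvCl W ρ P) with hcl
  have hmem_cl : ∀ P, P ∈ cl ↔ OneAvCl W ρ P := by
    intro P
    rw [hcl, mem_filter, mem_powerset]
    exact ⟨fun h => h.2, fun h => ⟨h.1, h⟩⟩
  have hρcl : ρ.card ≤ cl.card := by
    apply card_le_card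
    intro B hB
    rw [hmem_cl]
    exact ⟨(hρ B hB).1, (hρ B hB).2, fun x hx => ⟨B, hB, hx, Subset.refl B⟩⟩
  set X := W.powerset.filter (fun P => (∃ A ∈ α, A ⊆ P) ∧ ∃ B ∈ ρ, B ⊆ W \ P) with hX
  have hXs : (X.filter (fun P => ¬ OneAvCl W ρ (W \ P))).card + (X.filter (fun P => OneAvCl W ρ (W \ P))).card
      = X.card := by
    rw [add_comm]
    exact card_filter_add_card_filter_not _
  have hmX : ∀ P, P ∈ X ↔ P ⊆ W ∧ (∃ A ∈ α, A ⊆ P) ∧ ∃ B ∈ ρ, B ⊆ W \ P := by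
    intro P
    rw [hX, mem_filter, mem_powerset]
  have hX1 : (X.filter (fun P => ¬ OneAvCl W ρ (W \ P))).card ≤ (up \ cl).card := by
    apply card_le_card_of_injOn (fun P => W \ P)
    · intro P hP
      have hP' : P ∈ X.filter (fun P => ¬ OneAvCl W ρ (W \ P)) := hP
      rw [mem_filter, hmX] at hP'
      have hgoal : W \ P ∈ up \ cl := by
        rw [mem_sdiff, hmem_cl, hup, mem_filter, mem_powerset]
        exact ⟨⟨sdiff_subset, hP'.1.2.2⟩, hP'.2⟩
      exact hgoal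
    · intro P hP P' hP' h
      have k : P ∈ X.filter (fun P => ¬ OneAvCl W ρ (W \ P)) := hP
      have k' : P' ∈ X.filter (fun P => ¬ OneAvCl W ρ (W \ P)) := hP'
      rw [mem_filter, hmX] at k k'
      have h' : W \ P = W \ P' := h
      rw [← Finset.sdiff_sdiff_eq_self k.1.1, h', Finset.sdiff_sdiff_eq_self k'.1.1]
  have hX2 : (X.filter (fun P => OneAvCl W ρ (W \ P))).card ≤ (up \ cl).card := by
    have hex : ∀ P : Finset ℕ, ∃ z : ℕ, P ∈ X → ∃ A ∈ α, A ⊆ P ∧ z ∈ A := by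
      intro P
      by_cases hP : P ∈ X
      · have hP' := (hmX P).mp hP
        obtain ⟨A, hA, hAP⟩ := hP'.2.1
        obtain ⟨z, hz⟩ := (hα A hA).2
        exact ⟨z, fun _ => ⟨A, hA, hAP, hz⟩⟩
      · exact ⟨0, fun h => absurd h hP⟩
    choose f hf using hex
    have hnc : ∀ P ∈ X, ¬ OneAvCl W ρ (insert (f P) (W \ P)) := by
      intro P hP hc
      obtain ⟨A, hA, hAP, hz⟩ := hf P hP
      apply oneav_al_cl h2 hA hc
      rw [card_eq_one]
      refine ⟨f P, ?_⟩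
      apply Subset.antisymm
      · intro y hy
        rw [mem_inter] at hy
        rw [mem_singleton]
        rcases mem_insert.mp hy.2 with h | h
        · exact h
        · exact absurd (hAP hy.1) (mem_sdiff.mp h).2
      · intro y hy
        rw [mem_singleton] at hy
        subst hy
        exact mem_inter.mpr ⟨hz, mem_insert_self _ _⟩
    have hfP : ∀ P ∈ X, f P ∈ P := by
      intro P hP
      obtain ⟨A, hA, hAP, hz⟩ := hf P hP
      exact hAP hz
    apply card_le_card_of_injOn (fun P => insert (f P) (W \ P))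
    · intro P hP
      have k : P ∈ X.filter (fun P => OneAvCl W ρ (W \ P)) := hP
      rw [mem_filter] at k
      have kX := (hmX P).mp k.1
      have hgoal : insert (f P) (W \ P) ∈ up \ cl := by
        rw [mem_sdiff, hmem_cl, hup, mem_filter, mem_powerset]
        refine ⟨⟨insert_subset (kX.1 (hfP P k.1)) sdiff_subset, ?_⟩, hnc P k.1⟩
        obtain ⟨B, hB, hBP⟩ := kX.2.2
        exact ⟨B, hB, hBP.trans (subset_insert _ _)⟩
      exact hgoal
    · intro P hP P' hP' h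
      have k : P ∈ X.filter (fun P => OneAvCl W ρ (W \ P)) := hP
      have k' : P' ∈ X.filter (fun P => OneAvCl W ρ (W \ P)) := hP'
      rw [mem_filter] at k k'
      have kX := (hmX P).mp k.1
      have kX' := (hmX P').mp k'.1
      have h' : insert (f P) (W \ P) = insert (f P') (W \ P') := h
      have hz : f P ∉ W \ P := fun hh => (mem_sdiff.mp hh).2 (hfP P k.1)
      have hz' : f P' ∉ W \ P' := fun hh => (mem_sdiff.mp hh).2 (hfP P' k'.1)
      have hcard : (W \ P).card = (W \ P').card := by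
        have e1 := card_insert_of_notMem hz
        have e2 := card_insert_of_notMem hz'
        rw [h'] at e1
        omega
      by_contra hne
      have hQne : W \ P ≠ W \ P' := by
        intro hQ
        apply hne
        rw [← Finset.sdiff_sdiff_eq_self kX.1, hQ, Finset.sdiff_sdiff_eq_self kX'.1]
      have hsub : W \ P ∪ W \ P' ⊆ insert (f P) (W \ P) := by
        apply union_subset (subset_insert _ _)
        rw [h']
        exact subset_insert _ _
      have hcl2 := oneav_union k.2 k'.2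
      have hlt : (W \ P).card < (W \ P ∪ W \ P').card := by
        apply card_lt_card
        rw [Finset.ssubset_iff_subset_ne]
        refine ⟨subset_union_left, ?_⟩
        intro hE
        have hsub2 : W \ P' ⊆ W \ P := by
          rw [hE]
          exact subset_union_right
        exact hQne (eq_of_subset_of_card_le hsub2 hcard.le).symm
      have heq : W \ P ∪ W \ P' = insert (f P) (W \ P) := by
        apply eq_of_subset_of_card_le hsub
        rw [card_insert_of_notMem hz]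
        omega
      rw [heq] at hcl2
      exact hnc P k.1 hcl2
  omega

end Pool.Agent.H26.LT
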