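import Pool.Agent.H26.LT.Cross
import Pool.Agent.H26.LT.OneAv

/-!
Module CrossSmall.  `R` is `Av V t`, almost every possible fibre of `R` is about one half; `𝒜` a family of large sets
with `|A ∩ B| ≠ t` for `A ∈ 𝒜`, `B ∈ R`.  Then `dp 𝒜 R ≤ ε |sh V (t-1) 𝒜| 2^(n-t+1)`.

`cross`: sum over `K`, `|K| = j < t`; only `K ∈ sh V j 𝒜` contribute.
`j = t - 1`: `α = {A \ K : K ⊆ A ∈ 𝒜}`, `ρ = {B \ K : K ⊆ B ∈ R}` on `W = V \ K`, `|W| = n - t + 1`; `|A| ≥ s₀ ≥ t`,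
`|B| > t`, so the sets are not empty; `|(B \ K) ∩ (B' \ K)| = |B ∩ B'| - (t-1) ≠ 1`.  `one_av`: the number of `P` is at most
`2 (2^(n-t+1) - 2 |ρ|) ≤ 4 ε' 2^(n-t+1)`.
`j < t - 1`: at most `2^(n-j)` sets `P`.  `shadow`: `|sh j| (s₀ - j) ≤ |sh (j+1)| (j+1)` (each `K ∈ sh j`, `K ⊆ A`, has at
least `s₀ - j` extensions `K + z ⊆ A`; each set of size `j+1` has `j+1` subsets of size `j`).  With `s₀ ≥ t + t/δ`,
`δ ≤ 1`: `|sh j| ≤ δ |sh (t-1)|` for `j < t - 1`, so these terms are at most `t δ 2^(t-1) |sh (t-1)| 2^(n-t+1)`.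
Choose `ε' = ε/8` and `δ = ε / (2 t 2^(t-1))` (or `1` if that is larger).
-/

open Finset Pool.Agent.H37 Pool.Agent.H37.AV

namespace Pool.Agent.H26.LT

theorem shadow {V : Finset ℕ} {𝒜 : Finset (Finset ℕ)} (hV : ∀ A ∈ 𝒜, A ⊆ V) {s j : ℕ}
    (hs : ∀ A ∈ 𝒜, s ≤ A.card) : (sh V j 𝒜).card * (s - j) ≤ (sh V (j + 1) 𝒜).card * (j + 1) := by
  classical
  refine card_mul_le_card_mul (fun K L : Finset ℕ => K ⊆ L) ?_ ?_
  · intro K hK
    obtain ⟨⟨hKV, hKj⟩, A, hA, hKA⟩ := mem_sh.1 hK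
    have h1 : s - j ≤ (A \ K).card := by
      rw [card_sdiff_of_subset hKA, hKj]
      exact Nat.sub_le_sub_right (hs A hA) j
    refine h1.trans ?_
    refine card_le_card_of_injOn (fun z => insert z K) ?_ ?_
    · intro z hz
      have hz' := mem_sdiff.1 (mem_coe.1 hz)
      have hm : insert z K ∈ (sh V (j + 1) 𝒜).bipartiteAbove (fun K L : Finset ℕ => K ⊆ L) K := by
        rw [mem_bipartiteAbove, mem_sh]
        refine ⟨⟨⟨insert_subset (hV A hA hz'.1) hKV, ?_⟩, A, hA, insert_subset hz'.1 hKA⟩,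
          subset_insert _ _⟩
        rw [card_insert_of_notMem hz'.2, hKj]
      exact hm
    · intro z hz z' hz' h
      have hz1 := mem_sdiff.1 (mem_coe.1 hz)
      have hz2 := mem_sdiff.1 (mem_coe.1 hz')
      have h' : insert z K = insert z' K := h
      have : z ∈ insert z' K := by rw [← h']; exact mem_insert_self _ _
      rcases mem_insert.1 this with e | e
      · exact e
      · exact absurd e hz1.2
  · intro L hL
    obtain ⟨⟨hLV, hLj⟩, -⟩ := mem_sh.1 hL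
    calc ((sh V j 𝒜).bipartiteBelow (fun K L : Finset ℕ => K ⊆ L) L).card
        ≤ (L.powersetCard j).card := by
          refine card_le_card ?_
          intro K hK
          rw [mem_bipartiteBelow, mem_sh] at hK
          rw [mem_powersetCard]
          exact ⟨hK.2, hK.1.1.2⟩
      _ = j + 1 := by rw [card_powersetCard, hLj, Nat.choose_succ_self_right]

private lemma shadow_iter {V : Finset ℕ} {𝒜 : Finset (Finset ℕ)} (hV : ∀ A ∈ 𝒜, A ⊆ V) {t M : ℕ}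
    (htM : t ≤ M) (hs : ∀ A ∈ 𝒜, t + M ≤ A.card) (d : ℕ) :
    ∀ j, j + d + 2 = t → (sh V j 𝒜).card * M ≤ (sh V (t - 1) 𝒜).card * t := by
  induction d with
  | zero =>
    intro j hj
    have h1 := shadow (j := j) hV hs
    have e : j + 1 = t - 1 := by omega
    rw [e] at h1
    calc (sh V j 𝒜).card * M ≤ (sh V j 𝒜).card * (t + M - j) := Nat.mul_le_mul_left _ (by omega)
      _ ≤ (sh V (t - 1) 𝒜).card * (t - 1) := h1
      _ ≤ (sh V (t - 1) 𝒜).card * t := Nat.mul_le_mul_left _ (by omega)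
  | succ d ih =>
    intro j hj
    have h1 := shadow (j := j) hV hs
    have h2 := ih (j + 1) (by omega)
    calc (sh V j 𝒜).card * M ≤ (sh V j 𝒜).card * (t + M - j) := Nat.mul_le_mul_left _ (by omega)
      _ ≤ (sh V (j + 1) 𝒜).card * (j + 1) := h1
      _ ≤ (sh V (j + 1) 𝒜).card * M := Nat.mul_le_mul_left _ (by omega)
      _ ≤ (sh V (t - 1) 𝒜).card * t := h2

private lemma cs_main {V : Finset ℕ} {t : ℕ} {R 𝒜 : Finset (Finset ℕ)} {ε' : ℝ} (ht : 2 ≤ t)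
    (hR : Av V t R) (hA : ∀ A ∈ 𝒜, A ⊆ V) (hs : ∀ A ∈ 𝒜, t ≤ A.card)
    (hAB : ∀ A ∈ 𝒜, ∀ B ∈ R, (A ∩ B).card ≠ t) {K : Finset ℕ} (hK : K ⊆ V) (hKt : K.card + 1 = t)
    (hf : (1 / 2 - ε') * 2 ^ (V.card - (t - 1)) ≤ ((R.filter (fun B => K ⊆ B)).card : ℝ))
    (X : Finset (Finset ℕ)) (hX : ∀ P ∈ X, P ⊆ V \ K ∧ (∃ A ∈ 𝒜, K ⊆ A ∧ A ⊆ K ∪ P) ∧
        ∃ B ∈ R, K ⊆ B ∧ B ⊆ K ∪ ((V \ K) \ P)) :
    (X.card : ℝ) ≤ 4 * ε' * 2 ^ (V.card - (t - 1)) := by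
  classical
  set α := (𝒜.filter (fun A => K ⊆ A)).image (fun A => A \ K) with hα
  set ρ := (R.filter (fun B => K ⊆ B)).image (fun B => B \ K) with hρ
  have mα : ∀ a ∈ α, ∃ A ∈ 𝒜, K ⊆ A ∧ A \ K = a := by
    intro a ha
    rw [hα, mem_image] at ha
    obtain ⟨A, hA1, e⟩ := ha
    rw [mem_filter] at hA1
    exact ⟨A, hA1.1, hA1.2, e⟩
  have mρ : ∀ b ∈ ρ, ∃ B ∈ R, K ⊆ B ∧ B \ K = b := by
    intro b hb
    rw [hρ, mem_image] at hb
    obtain ⟨B, hB1, e⟩ := hb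
    rw [mem_filter] at hB1
    exact ⟨B, hB1.1, hB1.2, e⟩
  have hint : ∀ A B : Finset ℕ, K ⊆ A → K ⊆ B → (A ∩ B).card ≠ t → ((A \ K) ∩ (B \ K)).card ≠ 1 := by
    intro A B h1 h2 h3 h4
    apply h3
    have e : (A \ K) ∩ (B \ K) = (A ∩ B) \ K := by
      ext x
      simp only [mem_inter, mem_sdiff]
      tauto
    have hsub : K ⊆ A ∩ B := subset_inter h1 h2
    rw [e] at h4
    have := card_sdiff_add_card_eq_card hsub
    omega
  have hone := one_av (W := V \ K) (α := α) (ρ := ρ) ?_ ?_ ?_ ?_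
  · have hcard : (V \ K).card = V.card - (t - 1) := by
      rw [card_sdiff_of_subset hK]
      omega
    have hρc : ρ.card = (R.filter (fun B => K ⊆ B)).card := by
      rw [hρ]
      refine card_image_of_injOn ?_
      intro B hB B' hB' h
      have h1 := (mem_filter.1 (mem_coe.1 hB)).2
      have h2 := (mem_filter.1 (mem_coe.1 hB')).2
      have h' : B \ K = B' \ K := h
      rw [← sdiff_union_of_subset h1, ← sdiff_union_of_subset h2, h']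
    have hXle : X.card + 4 * ρ.card ≤ 2 * 2 ^ (V \ K).card := by
      refine le_trans (Nat.add_le_add_right (card_le_card ?_) _) hone
      intro P hP
      obtain ⟨p1, ⟨A, hA1, hA2, hA3⟩, B, hB1, hB2, hB3⟩ := hX P hP
      rw [mem_filter, mem_powerset]
      refine ⟨p1, ⟨A \ K, ?_, ?_⟩, B \ K, ?_, ?_⟩
      · rw [hα, mem_image]
        exact ⟨A, mem_filter.2 ⟨hA1, hA2⟩, rfl⟩
      · intro x hx
        rw [mem_sdiff] at hx
        rcases mem_union.1 (hA3 hx.1) with h | h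
        · exact absurd h hx.2
        · exact h
      · rw [hρ, mem_image]
        exact ⟨B, mem_filter.2 ⟨hB1, hB2⟩, rfl⟩
      · intro x hx
        rw [mem_sdiff] at hx
        rcases mem_union.1 (hB3 hx.1) with h | h
        · exact absurd h hx.2
        · exact h
    have hXr : (X.card : ℝ) + 4 * (ρ.card : ℝ) ≤ 2 * 2 ^ (V.card - (t - 1)) := by
      rw [hcard] at hXle
      exact_mod_cast hXle
    rw [hρc] at hXr
    have e1 : (0:ℝ) < 2 ^ (V.card - (t - 1)) := by positivity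
    nlinarith [hXr, hf]
  · intro a ha
    obtain ⟨A, h1, h2, h3⟩ := mα a ha
    rw [← h3]
    refine ⟨sdiff_subset_sdiff (hA A h1) subset_rfl, ?_⟩
    rw [← card_pos, card_sdiff_of_subset h2]
    have := hs A h1
    omega
  · intro b hb
    obtain ⟨B, h1, h2, h3⟩ := mρ b hb
    rw [← h3]
    refine ⟨sdiff_subset_sdiff (hR.sub B h1) subset_rfl, ?_⟩
    rw [← card_pos, card_sdiff_of_subset h2]
    have := hR.big B h1
    omega
  · intro b hb b' hb'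
    obtain ⟨B, h1, h2, h3⟩ := mρ b hb
    obtain ⟨B', h1', h2', h3'⟩ := mρ b' hb'
    rw [← h3, ← h3']
    exact hint B B' h2 h2' (hR.av B h1 B' h1')
  · intro a ha b hb
    obtain ⟨A, h1, h2, h3⟩ := mα a ha
    obtain ⟨B', h1', h2', h3'⟩ := mρ b hb
    rw [← h3, ← h3']
    exact hint A B' h2 h2' (hAB A h1 B' h1')

private lemma cs_arith {s t M P Q ε : ℝ} (hM : 0 < M) (h : 2 * t * t * P ≤ ε * M) (hs : 0 ≤ s)
    (hQ : 0 ≤ Q) : t * (s * t / M * (P * Q)) ≤ s * (ε / 2 * Q) := by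
  have h1 : t * t * P / M ≤ ε / 2 := by
    rw [div_le_iff₀ hM]
    linarith
  calc t * (s * t / M * (P * Q)) = s * Q * (t * t * P / M) := by ring
    _ ≤ s * Q * (ε / 2) := mul_le_mul_of_nonneg_left h1 (mul_nonneg hs hQ)
    _ = s * (ε / 2 * Q) := by ring

theorem cross_small (t : ℕ) (ht : 2 ≤ t) {ε : ℝ} (hε : 0 < ε) : ∃ s₀ : ℕ, ∃ ε' : ℝ, 0 < ε' ∧
    ∀ V : Finset ℕ, t ≤ V.card → ∀ R 𝒜 : Finset (Finset ℕ), Av V t R → (∀ A ∈ 𝒜, A ⊆ V) →
    (∀ A ∈ 𝒜, s₀ ≤ A.card) → (∀ A ∈ 𝒜, ∀ B ∈ R, (A ∩ B).card ≠ t) →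
    (∀ K ⊆ V, K.card + 1 = t → (1 / 2 - ε') * 2 ^ (V.card - (t - 1)) ≤
      ((R.filter (fun B => K ⊆ B)).card : ℝ)) →
    (dp 𝒜 R : ℝ) ≤ ε * (sh V (t - 1) 𝒜).card * 2 ^ (V.card - (t - 1)) := by
  classical
  set M : ℕ := ⌈(2 * (t : ℝ) * t * 2 ^ (t - 1)) / ε⌉₊ + t with hM
  refine ⟨t + M, ε / 8, by positivity, ?_⟩
  intro V htV R 𝒜 hR hA hs hAB hf
  have hMt : t ≤ M := by omega
  have hM0 : (0:ℝ) < M := by
    have : 0 < M := by omega
    exact_mod_cast this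
  have hMr : 2 * (t : ℝ) * t * 2 ^ (t - 1) ≤ ε * M := by
    have h1 : (2 * (t : ℝ) * t * 2 ^ (t - 1)) / ε ≤ (⌈(2 * (t : ℝ) * t * 2 ^ (t - 1)) / ε⌉₊ : ℝ) :=
      Nat.le_ceil _
    have h2 : (⌈(2 * (t : ℝ) * t * 2 ^ (t - 1)) / ε⌉₊ : ℝ) ≤ (M : ℝ) := by
      rw [hM]
      push_cast
      have : (0:ℝ) ≤ t := Nat.cast_nonneg t
      linarith
    have h3 := h1.trans h2
    rw [div_le_iff₀ hε] at h3
    linarith
  set N := V.card - (t - 1) with hN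
  have hVN : V.card = (t - 1) + N := by omega
  -- the count of a kernel
  set c : Finset ℕ → ℕ := fun K => ((V \ K).powerset.filter (fun P =>
    (∃ A ∈ 𝒜, K ⊆ A ∧ A ⊆ K ∪ P) ∧ ∃ B ∈ R, K ⊆ B ∧ B ⊆ K ∪ ((V \ K) \ P))).card with hc
  have hcr : dp 𝒜 R ≤ ∑ K ∈ V.powerset.filter (fun K => K.card < t), c K := by
    refine (cross hA hR.sub hAB).trans (le_of_eq ?_)
    refine sum_congr rfl fun K _ => ?_
    rw [hc]
  have hcle : ∀ K ⊆ V, c K ≤ 2 ^ V.card := by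
    intro K hK
    calc c K ≤ (V \ K).powerset.card := card_filter_le _ _
      _ = 2 ^ (V \ K).card := card_powerset _
      _ ≤ 2 ^ V.card := Nat.pow_le_pow_right (by norm_num) (card_le_card sdiff_subset)
  have hcsh : ∀ K ⊆ V, c K ≠ 0 → K ∈ sh V K.card 𝒜 := by
    intro K hK h
    obtain ⟨P, hP⟩ := card_pos.1 (Nat.pos_of_ne_zero h)
    rw [mem_filter] at hP
    obtain ⟨A, hA1, hA2, -⟩ := hP.2.1
    exact mem_sh.2 ⟨⟨hK, rfl⟩, A, hA1, hA2⟩
  have hmain : ∀ K ∈ sh V (t - 1) 𝒜, (c K : ℝ) ≤ ε / 2 * 2 ^ N := by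
    intro K hK
    obtain ⟨⟨hKV, hKc⟩, -⟩ := mem_sh.1 hK
    have hKt : K.card + 1 = t := by omega
    have h1 := cs_main (ε' := ε / 8) ht hR hA (fun A h => by have := hs A h; omega) hAB hKV hKt
      (hf K hKV hKt) ((V \ K).powerset.filter (fun P =>
        (∃ A ∈ 𝒜, K ⊆ A ∧ A ⊆ K ∪ P) ∧ ∃ B ∈ R, K ⊆ B ∧ B ⊆ K ∪ ((V \ K) \ P))) (by
          intro P hP
          rw [mem_filter, mem_powerset] at hP
          exact hP)
    calc (c K : ℝ) ≤ 4 * (ε / 8) * 2 ^ (V.card - (t - 1)) := h1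
      _ = ε / 2 * 2 ^ N := by rw [hN]; ring
  have hsum : (∑ K ∈ V.powerset.filter (fun K => K.card < t), c K) ≤
      ∑ j ∈ range t, ∑ K ∈ sh V j 𝒜, c K := by
    rw [← sum_fiberwise_of_maps_to (s := V.powerset.filter (fun K => K.card < t)) (t := range t)
      (g := fun K : Finset ℕ => K.card) (fun K hK => mem_range.2 (mem_filter.1 hK).2)]
    refine sum_le_sum fun j _ => ?_
    refine sum_le_sum_of_ne_zero ?_
    intro K hK h
    rw [mem_filter, mem_filter, mem_powerset] at hK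
    have := hcsh K hK.1.1 h
    rw [hK.2] at this
    exact this
  have hsum2 : (dp 𝒜 R : ℝ) ≤ (∑ j ∈ range (t - 1), ∑ K ∈ sh V j 𝒜, (c K : ℝ)) +
      ∑ K ∈ sh V (t - 1) 𝒜, (c K : ℝ) := by
    have h := hcr.trans hsum
    have e : t = (t - 1) + 1 := by omega
    rw [e, sum_range_succ] at h
    have h' : ((dp 𝒜 R : ℕ) : ℝ) ≤ ((∑ j ∈ range (t - 1), ∑ K ∈ sh V j 𝒜, c K +
      ∑ K ∈ sh V (t - 1) 𝒜, c K : ℕ) : ℝ) := by exact_mod_cast h
    refine h'.trans (le_of_eq ?_)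
    push_cast
    rfl
  set s := ((sh V (t - 1) 𝒜).card : ℝ) with hsd
  have hs0 : 0 ≤ s := Nat.cast_nonneg _
  have hA2 : ∑ K ∈ sh V (t - 1) 𝒜, (c K : ℝ) ≤ s * (ε / 2 * 2 ^ N) := by
    refine (sum_le_sum hmain).trans (le_of_eq ?_)
    rw [sum_const, nsmul_eq_mul]
  have hA1 : ∀ j ∈ range (t - 1), ∑ K ∈ sh V j 𝒜, (c K : ℝ) ≤ s * t / M * 2 ^ V.card := by
    intro j hj
    rw [mem_range] at hj
    have h1 := shadow_iter (t := t) (M := M) hA hMt hs (t - 2 - j) j (by omega)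
    have h2 : ((sh V j 𝒜).card : ℝ) * M ≤ s * t := by
      rw [hsd]
      exact_mod_cast h1
    have h3 : ((sh V j 𝒜).card : ℝ) ≤ s * t / M := by
      rw [le_div_iff₀ hM0]
      exact h2
    calc ∑ K ∈ sh V j 𝒜, (c K : ℝ) ≤ ∑ K ∈ sh V j 𝒜, (2 : ℝ) ^ V.card := by
          refine sum_le_sum fun K hK => ?_
          have := hcle K (mem_sh.1 hK).1.1
          exact_mod_cast this
      _ = ((sh V j 𝒜).card : ℝ) * 2 ^ V.card := by rw [sum_const, nsmul_eq_mul]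
      _ ≤ s * t / M * 2 ^ V.card := by gcongr
  have hA3 : (∑ j ∈ range (t - 1), ∑ K ∈ sh V j 𝒜, (c K : ℝ)) ≤ s * (ε / 2 * 2 ^ N) := by
    refine (sum_le_sum hA1).trans ?_
    rw [sum_const, card_range, nsmul_eq_mul]
    have ht1 : ((t - 1 : ℕ) : ℝ) ≤ t := by exact_mod_cast Nat.sub_le t 1
    have e2 : (2:ℝ) ^ V.card = 2 ^ (t - 1) * 2 ^ N := by rw [hVN, pow_add]
    rw [e2]
    have hr : (0:ℝ) ≤ s * t / M * (2 ^ (t - 1) * 2 ^ N) := by
      have hq : (0:ℝ) ≤ t := Nat.cast_nonneg t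
      exact mul_nonneg (div_nonneg (mul_nonneg hs0 hq) hM0.le)
        (mul_nonneg (pow_nonneg zero_le_two _) (pow_nonneg zero_le_two _))
    have h5 : (t : ℝ) * (s * t / M * (2 ^ (t - 1) * 2 ^ N)) ≤ s * (ε / 2 * 2 ^ N) :=
      cs_arith hM0 hMr hs0 (pow_nonneg zero_le_two _)
    exact (mul_le_mul_of_nonneg_right ht1 hr).trans h5
  calc (dp 𝒜 R : ℝ) ≤ s * (ε / 2 * 2 ^ N) + s * (ε / 2 * 2 ^ N) := hsum2.trans (add_le_add hA3 hA2)
    _ = ε * s * 2 ^ N := by ring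

end Pool.Agent.H26.LT
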