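import Pool.Agent.H37.AV.HalfA

/-!
Literal version of MP_28c1b3_co (distinct members only) for `t ≥ 2`: definitions.

`dp 𝒜 ℬ` is the number of ordered pairs `(A, B)`, `A ∈ 𝒜`, `B ∈ ℬ`, `A ∩ B = ∅`; `gs n t` is the number of
slots on `n` points; `un t n = n^(t-1) 2^n` is the order of magnitude of everything.
-/

open Finset

namespace Pool.Agent.H26.LT

/-- Ordered disjoint pairs. -/
def dp (𝒜 ℬ : Finset (Finset ℕ)) : ℕ := ((𝒜 ×ˢ ℬ).filter (fun p => Disjoint p.1 p.2)).card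

/-- The number of slots. -/
def gs (n t : ℕ) : ℕ := ∑ j ∈ range t, n.choose j * 2 ^ (n - j)

/-- The unit `n^(t-1) 2^n`. -/
noncomputable def un (t n : ℕ) : ℝ := (n : ℝ) ^ (t - 1) * 2 ^ n

/-- The degree of `x` in `H`. -/
def dg (H : Finset (Finset ℕ)) (x : ℕ) : ℕ := (H.filter (fun M => x ∈ M)).card

/-- `H` consists of `t`-element subsets of `V`, none of which lies in a member of `R`. -/
structure Hv (V : Finset ℕ) (t : ℕ) (R H : Finset (Finset ℕ)) : Prop where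
  sub : ∀ M ∈ H, M ⊆ V
  crd : ∀ M ∈ H, M.card = t
  out : ∀ M ∈ H, ∀ A ∈ R, ¬ M ⊆ A

/-- The `j`-element sets contained in a member of `𝒜`. -/
noncomputable def sh (V : Finset ℕ) (j : ℕ) (𝒜 : Finset (Finset ℕ)) : Finset (Finset ℕ) := by
  classical exact (V.powersetCard j).filter (fun K => ∃ A ∈ 𝒜, K ⊆ A)

lemma mem_sh {V : Finset ℕ} {j : ℕ} {𝒜 : Finset (Finset ℕ)} {K : Finset ℕ} :
    K ∈ sh V j 𝒜 ↔ (K ⊆ V ∧ K.card = j) ∧ ∃ A ∈ 𝒜, K ⊆ A := by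
  classical
  simp only [sh, mem_filter, mem_powersetCard]

lemma un_nonneg (t n : ℕ) : 0 ≤ un t n := by unfold un; positivity

lemma dp_mono {𝒜 𝒜' ℬ ℬ' : Finset (Finset ℕ)} (h1 : 𝒜 ⊆ 𝒜') (h2 : ℬ ⊆ ℬ') :
    dp 𝒜 ℬ ≤ dp 𝒜' ℬ' :=
  card_le_card (filter_subset_filter _ (product_subset_product h1 h2))

lemma dp_le_mul (𝒜 ℬ : Finset (Finset ℕ)) : dp 𝒜 ℬ ≤ 𝒜.card * ℬ.card := by
  unfold dp
  exact (card_filter_le _ _).trans (card_product _ _).le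

lemma dp_eq_sum (𝒜 ℬ : Finset (Finset ℕ)) :
    dp 𝒜 ℬ = ∑ A ∈ 𝒜, (ℬ.filter (fun B => Disjoint A B)).card := by
  unfold dp
  rw [card_filter, sum_product]
  refine sum_congr rfl fun A _ => ?_
  rw [card_filter]

lemma dp_eq_sum' (𝒜 ℬ : Finset (Finset ℕ)) :
    dp 𝒜 ℬ = ∑ B ∈ ℬ, (𝒜.filter (fun A => Disjoint A B)).card := by
  unfold dp
  rw [card_filter, sum_product_right]
  refine sum_congr rfl fun A _ => ?_
  rw [card_filter]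

lemma dp_union_left (𝒜 𝒜' ℬ : Finset (Finset ℕ)) (h : Disjoint 𝒜 𝒜') :
    dp (𝒜 ∪ 𝒜') ℬ = dp 𝒜 ℬ + dp 𝒜' ℬ := by
  rw [dp_eq_sum, dp_eq_sum, dp_eq_sum, sum_union h]

lemma dp_union_right (𝒜 ℬ ℬ' : Finset (Finset ℕ)) (h : Disjoint ℬ ℬ') :
    dp 𝒜 (ℬ ∪ ℬ') = dp 𝒜 ℬ + dp 𝒜 ℬ' := by
  rw [dp_eq_sum', dp_eq_sum', dp_eq_sum', sum_union h]

lemma dp_comm (𝒜 ℬ : Finset (Finset ℕ)) : dp 𝒜 ℬ = dp ℬ 𝒜 := by
  rw [dp_eq_sum, dp_eq_sum']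
  exact sum_congr rfl fun A _ => by simp only [disjoint_comm]

lemma dp_union_le (𝒜 𝒜' ℬ : Finset (Finset ℕ)) : dp (𝒜 ∪ 𝒜') ℬ ≤ dp 𝒜 ℬ + dp 𝒜' ℬ := by
  classical
  have h : 𝒜 ∪ 𝒜' = 𝒜 ∪ (𝒜' \ 𝒜) := by simp
  rw [h, dp_union_left _ _ _ disjoint_sdiff]
  exact Nat.add_le_add_left (dp_mono sdiff_subset (Subset.refl _)) _

end Pool.Agent.H26.LT
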