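import Pool.Agent.H26.LT.Main
import Pool.Agent.H26.LT.COne
import Pool.Agent.H26.LT.COdd

/-!
Families avoiding one intersection size and disjoint pairs (MP_28c1b3_co, Q1): the complete answer,
for every `t ≥ 1`, with the condition for distinct members only and with the condition for all members.
-/

open Finset

namespace Pool.Agent.H26.LT.Draft

/-- `IsAvoiding t F`: no two distinct members of `F` meet in exactly `t` elements. -/
def IsAvoiding (t : ℕ) (F : Finset (Finset ℕ)) : Prop :=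
  ∀ A ∈ F, ∀ B ∈ F, A ≠ B → (A ∩ B).card ≠ t

/-- `IsStronglyAvoiding t F`: no two members of `F`, distinct or equal, meet in exactly `t` elements
(so `F` has no member of size `t`). -/
def IsStronglyAvoiding (t : ℕ) (F : Finset (Finset ℕ)) : Prop :=
  ∀ A ∈ F, ∀ B ∈ F, (A ∩ B).card ≠ t

/-- The number `d(F)` of unordered pairs `{A, B}` of distinct members of `F` with `A ∩ B = ∅`:
the number of two-element subfamilies of `F` whose two members are disjoint. -/
def disjPairs (F : Finset (Finset ℕ)) : ℕ :=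
  ((F.powersetCard 2).filter (fun P => ∀ A ∈ P, ∀ B ∈ P, A ≠ B → A ∩ B = ∅)).card

/-- The family `F(n,t)` of subsets of `[n] = {1,…,n}`. -/
def baseFamily (n t : ℕ) : Finset (Finset ℕ) :=
  if Odd (n + t) then (Icc 1 n).powerset.filter (fun A => n + t + 1 ≤ 2 * A.card)
  else (Icc 1 n).powerset.filter (fun A => n + t ≤ 2 * (A ∩ (Icc 1 n \ {1})).card)

/-- The family `F*(n,t) = F(n,t) ∪ [n]^(≤ t-1)`. -/
def starFamily (n t : ℕ) : Finset (Finset ℕ) :=
  baseFamily n t ∪ (Icc 1 n).powerset.filter (fun A => A.card + 1 ≤ t)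

/-- **The complete answer.**  There are numbers `n₀(t)`, with `n₀(1) = 0`, such that:
1. With the condition for all pairs of members, distinct or equal: `d(F) ≤ d(F*(n,t))` for every
   `t ≥ 1` and `n ≥ n₀(t)`.
2. With the condition for distinct members only (members of size `t` are allowed): the same for every
   `t ≥ 2` and `n ≥ n₀(t)`.
3. With the condition for distinct members only and `t = 1`: for `n ≥ 6` the same for even `n`, and
   `d(F) ≤ d(F*(n,1)) + 1` for odd `n`.
4. The last bound is attained for every odd `n`. -/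
theorem result : ∃ n₀ : ℕ → ℕ, n₀ 1 = 0 ∧
    (∀ t ≥ 1, ∀ n ≥ n₀ t, ∀ F : Finset (Finset ℕ), (∀ A ∈ F, A ⊆ Icc 1 n) →
      IsStronglyAvoiding t F → disjPairs F ≤ disjPairs (starFamily n t)) ∧
    (∀ t ≥ 2, ∀ n ≥ n₀ t, ∀ F : Finset (Finset ℕ), (∀ A ∈ F, A ⊆ Icc 1 n) →
      IsAvoiding t F → disjPairs F ≤ disjPairs (starFamily n t)) ∧
    (∀ n ≥ 6, ∀ F : Finset (Finset ℕ), (∀ A ∈ F, A ⊆ Icc 1 n) → IsAvoiding 1 F →
      disjPairs F ≤ disjPairs (starFamily n 1) + (if Odd n then 1 else 0)) ∧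
    (∀ n : ℕ, Odd n → ∃ F : Finset (Finset ℕ), (∀ A ∈ F, A ⊆ Icc 1 n) ∧ IsAvoiding 1 F ∧
      disjPairs F = disjPairs (starFamily n 1) + 1) := by
  classical
  have h2 : ∀ t : ℕ, ∃ n₀ : ℕ, 2 ≤ t → ∀ n ≥ n₀, ∀ F : Finset (Finset ℕ),
      (∀ A ∈ F, A ⊆ Icc 1 n) → IsAvoiding t F → disjPairs F ≤ disjPairs (starFamily n t) := by
    intro t
    by_cases ht : 2 ≤ t
    · obtain ⟨n₀, h0⟩ := literal_bound t ht
      exact ⟨n₀, fun _ => h0⟩
    · exact ⟨0, fun h => absurd h ht⟩
  choose m hm using h2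
  refine ⟨fun t => if t = 1 then 0 else m t, by simp, fun t ht n hn F hV hF => ?_,
    fun t ht n hn F hV hF => ?_, fun n hn F hV hF => COne.case_one.2 n hn F hV hF,
    fun n hn => ?_⟩
  · by_cases h1 : t = 1
    · subst h1
      exact COne.case_one.1 n F hV hF
    · have hn' : m t ≤ n := by simpa [h1] using hn
      exact hm t (by omega) n hn' F hV fun A hA B hB _ => hF A hA B hB
  · have h1 : t ≠ 1 := by omega
    have hn' : m t ≤ n := by simpa [h1] using hn
    exact hm t ht n hn' F hV hF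
  · obtain ⟨F, hF1, hF2, hF3⟩ := COdd.odd_one.1 n hn
    exact ⟨F, fun A hA => mem_powerset.1 (hF1 hA), hF2, hF3⟩

end Pool.Agent.H26.LT.Draft
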