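import Pool.Agent.H26.LT.Defs

/-!
Module Gr.  The recursion.

`𝒜`, `ℬ` families of subsets of `U ∪ Z` with `|A ∩ B| ≠ t` for `A ∈ 𝒜`, `B ∈ ℬ`.  Then the number of disjoint
pairs is at most the sum of `f K P` over the `K ⊆ U`, `|K| < t`, `P ⊆ U \ K`, if `f K P` is at least the number of
disjoint pairs of any two families `X`, `Y` of subsets of `Z` such that
 * every `a ∈ X` is `A ∩ Z` for an `A ∈ 𝒜` with `K ⊆ A ⊆ K ∪ P ∪ Z`,
 * every `b ∈ Y` is `B ∩ Z` for a `B ∈ ℬ` with `K ⊆ B ⊆ K ∪ ((U \ K) \ P) ∪ Z`,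
 * `|a ∩ b| + |K| ≠ t` for `a ∈ X`, `b ∈ Y`.
Proof by induction on `U` (`t`, `f`, `𝒜`, `ℬ` general).  If `t = 0` there is no disjoint pair.  `U = ∅`, `t ≥ 1`: take
`X = 𝒜`, `Y = ℬ`, `K = P = ∅`.  Step `insert x U`: `𝒜₀ = {A ∈ 𝒜 : x ∉ A}`, `𝒜₁ = {A \ x : x ∈ A ∈ 𝒜}`, the same
for `ℬ`.  `dp 𝒜 ℬ = dp 𝒜₀ ℬ₀ + dp 𝒜₁ ℬ₀ + dp 𝒜₀ ℬ₁`
`≤ dp (𝒜₀ ∪ 𝒜₁) ℬ₀ + dp 𝒜₀ (ℬ₀ ∪ ℬ₁) + dp (𝒜₀ ∩ 𝒜₁) (ℬ₀ ∩ ℬ₁)`: the difference of the right and the left side is the
number of disjoint pairs `(a, b) ∈ 𝒜₀ × ℬ₀` with `a ∉ 𝒜₁`, `b ∉ ℬ₁`.  Induction hypothesis: first summand with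
`f K (insert x P)` and `t`; second summand with `f K P` and `t`; third summand with `f (insert x K) P` and
`t - 1` (`a + x ∈ 𝒜`, `b + x ∈ ℬ` for `a ∈ 𝒜₀ ∩ 𝒜₁`, `b ∈ ℬ₀ ∩ ℬ₁`, so `|a ∩ b| + 1 ≠ t`).  The pairs `(K, P)` for `insert x U`
are: `K ⊆ U`, `P` or `insert x P`, `P ⊆ U \ K`; and `insert x K`, `P ⊆ U \ K`, `|K| + 1 < t`.
-/

open Finset

namespace Pool.Agent.H26.LT

private lemma dp_inter_left (𝒜 𝒜' ℬ : Finset (Finset ℕ)) :
    dp (𝒜 ∪ 𝒜') ℬ + dp (𝒜 ∩ 𝒜') ℬ = dp 𝒜 ℬ + dp 𝒜' ℬ := by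
  simp only [dp_eq_sum]
  exact sum_union_inter

private lemma dp_inter_right (𝒜 ℬ ℬ' : Finset (Finset ℕ)) :
    dp 𝒜 (ℬ ∪ ℬ') + dp 𝒜 (ℬ ∩ ℬ') = dp 𝒜 ℬ + dp 𝒜 ℬ' := by
  simp only [dp_eq_sum']
  exact sum_union_inter

private lemma dp_four (𝒜 C ℬ D : Finset (Finset ℕ)) (hC : C ⊆ 𝒜) (hD : D ⊆ ℬ) :
    dp C ℬ + dp 𝒜 D ≤ dp 𝒜 ℬ + dp C D := by
  have h1 : dp 𝒜 ℬ = dp C ℬ + dp (𝒜 \ C) ℬ := by
    rw [← dp_union_left _ _ _ disjoint_sdiff, union_sdiff_of_subset hC]
  have h2 : dp 𝒜 D = dp C D + dp (𝒜 \ C) D := by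
    rw [← dp_union_left _ _ _ disjoint_sdiff, union_sdiff_of_subset hC]
  have h3 : dp (𝒜 \ C) D ≤ dp (𝒜 \ C) ℬ := dp_mono subset_rfl hD
  omega

private lemma dp_erase_left (x : ℕ) (𝒜 ℬ : Finset (Finset ℕ)) (hx : ∀ A ∈ 𝒜, x ∈ A) :
    dp 𝒜 ℬ ≤ dp (𝒜.image (fun A => A.erase x)) ℬ := by
  unfold dp
  refine card_le_card_of_injOn (fun p => (p.1.erase x, p.2)) ?_ ?_
  · intro p hp
    simp only [coe_filter, mem_product, Set.mem_ofPred_eq] at hp
    simp only [coe_filter, mem_product, mem_image, Set.mem_ofPred_eq]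
    exact ⟨⟨⟨p.1, hp.1.1, rfl⟩, hp.1.2⟩, hp.2.mono_left (erase_subset _ _)⟩
  · intro p hp q hq h
    simp only [coe_filter, mem_product, Set.mem_ofPred_eq] at hp hq
    obtain ⟨h1, h2⟩ : p.1.erase x = q.1.erase x ∧ p.2 = q.2 := Prod.mk.inj h
    refine Prod.ext ?_ h2
    rw [← insert_erase (hx _ hp.1.1), ← insert_erase (hx _ hq.1.1), h1]

private lemma dp_erase_right (x : ℕ) (𝒜 ℬ : Finset (Finset ℕ)) (hx : ∀ B ∈ ℬ, x ∈ B) :
    dp 𝒜 ℬ ≤ dp 𝒜 (ℬ.image (fun B => B.erase x)) := by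
  rw [dp_comm, dp_comm 𝒜]
  exact dp_erase_left x ℬ 𝒜 hx

private lemma dp_split (x : ℕ) (𝒜 ℬ : Finset (Finset ℕ)) :
    dp 𝒜 ℬ ≤ dp (𝒜.filter (fun A => x ∉ A)) (ℬ.filter (fun B => x ∉ B)) +
      dp ((𝒜.filter (fun A => x ∈ A)).image (fun A => A.erase x)) (ℬ.filter (fun B => x ∉ B)) +
      dp (𝒜.filter (fun A => x ∉ A)) ((ℬ.filter (fun B => x ∈ B)).image (fun B => B.erase x)) := by
  have hA : 𝒜 = 𝒜.filter (fun A => x ∈ A) ∪ 𝒜.filter (fun A => x ∉ A) :=
    (filter_union_filter_not_eq _ _).symm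
  have hB : ℬ = ℬ.filter (fun A => x ∈ A) ∪ ℬ.filter (fun A => x ∉ A) :=
    (filter_union_filter_not_eq _ _).symm
  have dA : Disjoint (𝒜.filter (fun A => x ∈ A)) (𝒜.filter (fun A => x ∉ A)) :=
    disjoint_filter_filter_not _ _ _
  have dB : Disjoint (ℬ.filter (fun A => x ∈ A)) (ℬ.filter (fun A => x ∉ A)) :=
    disjoint_filter_filter_not _ _ _
  have h0 : dp (𝒜.filter (fun A => x ∈ A)) (ℬ.filter (fun A => x ∈ A)) = 0 := by
    unfold dp
    rw [card_eq_zero, filter_eq_empty_iff]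
    rintro ⟨a, b⟩ hab h
    simp only [mem_product, mem_filter] at hab
    exact disjoint_left.1 h hab.1.2 hab.2.2
  have h1 := dp_erase_left x (𝒜.filter (fun A => x ∈ A)) (ℬ.filter (fun B => x ∉ B))
    (fun A hA => (mem_filter.1 hA).2)
  have h2 := dp_erase_right x (𝒜.filter (fun A => x ∉ A)) (ℬ.filter (fun B => x ∈ B))
    (fun A hA => (mem_filter.1 hA).2)
  have h3 : dp 𝒜 ℬ = (dp (𝒜.filter (fun A => x ∈ A)) (ℬ.filter (fun A => x ∈ A)) +
      dp (𝒜.filter (fun A => x ∈ A)) (ℬ.filter (fun A => x ∉ A))) +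
      (dp (𝒜.filter (fun A => x ∉ A)) (ℬ.filter (fun A => x ∈ A)) +
      dp (𝒜.filter (fun A => x ∉ A)) (ℬ.filter (fun A => x ∉ A))) := by
    rw [← dp_union_right _ _ _ dB, ← dp_union_right _ _ _ dB, ← hB, ← dp_union_left _ _ _ dA, ← hA]
  omega

private lemma sum_step {x : ℕ} {U : Finset ℕ} (hx : x ∉ U) (t : ℕ)
    (f : Finset ℕ → Finset ℕ → ℕ) :
    ∑ K ∈ (insert x U).powerset.filter (fun K => K.card < t + 1),
        ∑ P ∈ ((insert x U) \ K).powerset, f K P =
      (∑ K ∈ U.powerset.filter (fun K => K.card < t + 1), ∑ P ∈ (U \ K).powerset, f K P +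
      ∑ K ∈ U.powerset.filter (fun K => K.card < t + 1), ∑ P ∈ (U \ K).powerset,
        f K (insert x P)) +
      ∑ K ∈ U.powerset.filter (fun K => K.card < t), ∑ P ∈ (U \ K).powerset,
        f (insert x K) P := by
  rw [sum_filter, sum_powerset_insert hx]
  congr 1
  · rw [← sum_add_distrib, sum_filter]
    refine sum_congr rfl fun K hK => ?_
    have hK' : K ⊆ U := mem_powerset.1 hK
    have hxK : x ∉ K := fun h => hx (hK' h)
    split_ifs with h
    · have hxU : x ∉ U \ K := fun h => hx (mem_sdiff.1 h).1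
      rw [insert_sdiff_of_notMem _ hxK, sum_powerset_insert hxU]
    · rfl
  · rw [sum_filter]
    refine sum_congr rfl fun K hK => ?_
    have hK' : K ⊆ U := mem_powerset.1 hK
    have hxK : x ∉ K := fun h => hx (hK' h)
    have e : insert x U \ insert x K = U \ K := by
      rw [insert_sdiff_insert, sdiff_insert_of_notMem hx]
    rw [card_insert_of_notMem hxK, e]
    simp only [Nat.add_lt_add_iff_right]

theorem gr (Z : Finset ℕ) (U : Finset ℕ) : ∀ (t : ℕ) (f : Finset ℕ → Finset ℕ → ℕ)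
    (𝒜 ℬ : Finset (Finset ℕ)), Disjoint U Z → (∀ A ∈ 𝒜, A ⊆ U ∪ Z) → (∀ B ∈ ℬ, B ⊆ U ∪ Z) →
    (∀ A ∈ 𝒜, ∀ B ∈ ℬ, (A ∩ B).card ≠ t) →
    (∀ K ⊆ U, K.card < t → ∀ P ⊆ U \ K, ∀ X Y : Finset (Finset ℕ),
      (∀ a ∈ X, ∃ A ∈ 𝒜, K ⊆ A ∧ A ⊆ K ∪ P ∪ Z ∧ A ∩ Z = a) →
      (∀ b ∈ Y, ∃ B ∈ ℬ, K ⊆ B ∧ B ⊆ K ∪ ((U \ K) \ P) ∪ Z ∧ B ∩ Z = b) →
      (∀ a ∈ X, ∀ b ∈ Y, (a ∩ b).card + K.card ≠ t) → dp X Y ≤ f K P) →
    dp 𝒜 ℬ ≤ ∑ K ∈ U.powerset.filter (fun K => K.card < t), ∑ P ∈ (U \ K).powerset, f K P := by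
  induction U using Finset.induction_on with
  | empty =>
    intro t f 𝒜 ℬ _ hA hB hAB h
    rcases t with _ | t
    · have h0 : dp 𝒜 ℬ = 0 := by
        unfold dp
        rw [card_eq_zero, filter_eq_empty_iff]
        rintro ⟨a, b⟩ hab h
        rw [mem_product] at hab
        exact hAB a hab.1 b hab.2 (by rw [disjoint_iff_inter_eq_empty.1 h, card_empty])
      omega
    · have h1 := h ∅ subset_rfl (by simp) ∅ (by simp) 𝒜 ℬ
        (fun a ha => ⟨a, ha, by simp, by simpa using hA a ha,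
          inter_eq_left.2 (by simpa using hA a ha)⟩)
        (fun b hb => ⟨b, hb, by simp, by simpa using hB b hb,
          inter_eq_left.2 (by simpa using hB b hb)⟩)
        (fun a ha b hb => by simpa using hAB a ha b hb)
      have e1 : (∅ : Finset ℕ).powerset.filter (fun K => K.card < t + 1) = {∅} := by
        rw [powerset_empty]
        refine filter_true_of_mem fun K hK => ?_
        rw [mem_singleton.1 hK]; simp
      rw [e1]
      simpa using h1
  | insert x U hx ih =>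
    intro t f 𝒜 ℬ hUZ hA hB hAB h
    rcases t with _ | t
    · have h0 : dp 𝒜 ℬ = 0 := by
        unfold dp
        rw [card_eq_zero, filter_eq_empty_iff]
        rintro ⟨a, b⟩ hab h
        rw [mem_product] at hab
        exact hAB a hab.1 b hab.2 (by rw [disjoint_iff_inter_eq_empty.1 h, card_empty])
      omega
    have hxZ : x ∉ Z := fun hz => disjoint_left.1 hUZ (mem_insert_self _ _) hz
    have hUZ' : Disjoint U Z := hUZ.mono_left (subset_insert _ _)
    set A0 := 𝒜.filter (fun A => x ∉ A) with hA0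
    set A1 := (𝒜.filter (fun A => x ∈ A)).image (fun A => A.erase x) with hA1
    set B0 := ℬ.filter (fun B => x ∉ B) with hB0
    set B1 := (ℬ.filter (fun B => x ∈ B)).image (fun B => B.erase x) with hB1
    have mA0 : ∀ A ∈ A0, A ∈ 𝒜 ∧ x ∉ A := fun A hA => mem_filter.1 hA
    have mB0 : ∀ B ∈ B0, B ∈ ℬ ∧ x ∉ B := fun A hA => mem_filter.1 hA
    have mA1 : ∀ A ∈ A1, insert x A ∈ 𝒜 ∧ x ∉ A := by
      intro A hA
      obtain ⟨A', hA', rfl⟩ := mem_image.1 hA
      obtain ⟨h1, h2⟩ := mem_filter.1 hA'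
      exact ⟨by rwa [insert_erase h2], notMem_erase _ _⟩
    have mB1 : ∀ B ∈ B1, insert x B ∈ ℬ ∧ x ∉ B := by
      intro A hA
      obtain ⟨A', hA', rfl⟩ := mem_image.1 hA
      obtain ⟨h1, h2⟩ := mem_filter.1 hA'
      exact ⟨by rwa [insert_erase h2], notMem_erase _ _⟩
    have sA0 : ∀ A ∈ A0, A ⊆ U ∪ Z := by
      intro A hA' y hy
      have h1 := hA A (mA0 A hA').1 hy
      have h2 : y ≠ x := fun e => (mA0 A hA').2 (e ▸ hy)
      simp only [mem_union, mem_insert] at h1 ⊢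
      tauto
    have sB0 : ∀ A ∈ B0, A ⊆ U ∪ Z := by
      intro A hA' y hy
      have h1 := hB A (mB0 A hA').1 hy
      have h2 : y ≠ x := fun e => (mB0 A hA').2 (e ▸ hy)
      simp only [mem_union, mem_insert] at h1 ⊢
      tauto
    have sA1 : ∀ A ∈ A1, A ⊆ U ∪ Z := by
      intro A hA' y hy
      have h1 := hA _ (mA1 A hA').1 (mem_insert_of_mem hy)
      have h2 : y ≠ x := fun e => (mA1 A hA').2 (e ▸ hy)
      simp only [mem_union, mem_insert] at h1 ⊢
      tauto
    have sB1 : ∀ A ∈ B1, A ⊆ U ∪ Z := by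
      intro A hA' y hy
      have h1 := hB _ (mB1 A hA').1 (mem_insert_of_mem hy)
      have h2 : y ≠ x := fun e => (mB1 A hA').2 (e ▸ hy)
      simp only [mem_union, mem_insert] at h1 ⊢
      tauto
    -- the three summands
    have i1 : dp (A0 ∪ A1) B0 ≤ ∑ K ∈ U.powerset.filter (fun K => K.card < t + 1),
        ∑ P ∈ (U \ K).powerset, f K (insert x P) := by
      refine ih (t + 1) (fun K P => f K (insert x P)) (A0 ∪ A1) B0 hUZ' ?_ sB0 ?_ ?_
      · intro A hA'
        rcases mem_union.1 hA' with h' | h'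
        · exact sA0 A h'
        · exact sA1 A h'
      · intro A hA' B hB'
        have hxB := (mB0 B hB').2
        rcases mem_union.1 hA' with h' | h'
        · exact hAB A (mA0 A h').1 B (mB0 B hB').1
        · have h1 := hAB _ (mA1 A h').1 B (mB0 B hB').1
          rwa [insert_inter_of_notMem hxB] at h1
      · intro K hK hKt P hP X Y hX hY hXY
        have hxK : x ∉ K := fun h => hx (hK h)
        refine h K (hK.trans (subset_insert _ _)) hKt (insert x P) ?_ X Y ?_ ?_ hXY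
        · rw [insert_sdiff_of_notMem _ hxK]
          exact insert_subset_insert _ hP
        · intro a ha
          obtain ⟨A, hA', hKA, hAP, hAZ⟩ := hX a ha
          rcases mem_union.1 hA' with h' | h'
          · refine ⟨A, (mA0 A h').1, hKA, hAP.trans ?_, hAZ⟩
            exact union_subset_union_left (union_subset_union_right (subset_insert _ _))
          · refine ⟨insert x A, (mA1 A h').1, hKA.trans (subset_insert _ _), ?_, ?_⟩
            · intro y hy
              rcases mem_insert.1 hy with e | hy'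
              · simp [e]
              · have := hAP hy'
                simp only [mem_union, mem_insert] at this ⊢
                tauto
            · rw [insert_inter_of_notMem hxZ, hAZ]
        · intro b hb
          obtain ⟨B, hB', hKB, hBP, hBZ⟩ := hY b hb
          refine ⟨B, (mB0 B hB').1, hKB, fun y hy => ?_, hBZ⟩
          have h2 : y ≠ x := fun e => (mB0 B hB').2 (e ▸ hy)
          have := hBP hy
          simp only [mem_union, mem_insert, mem_sdiff] at this ⊢
          tauto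
    have i2 : dp A0 (B0 ∪ B1) ≤ ∑ K ∈ U.powerset.filter (fun K => K.card < t + 1),
        ∑ P ∈ (U \ K).powerset, f K P := by
      refine ih (t + 1) f A0 (B0 ∪ B1) hUZ' sA0 ?_ ?_ ?_
      · intro A hA'
        rcases mem_union.1 hA' with h' | h'
        · exact sB0 A h'
        · exact sB1 A h'
      · intro A hA' B hB'
        have hxA := (mA0 A hA').2
        rcases mem_union.1 hB' with h' | h'
        · exact hAB A (mA0 A hA').1 B (mB0 B h').1
        · have h1 := hAB _ (mA0 A hA').1 _ (mB1 B h').1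
          rwa [inter_insert_of_notMem hxA] at h1
      · intro K hK hKt P hP X Y hX hY hXY
        have hxK : x ∉ K := fun h => hx (hK h)
        have hxP : x ∉ P := fun h => hx (mem_sdiff.1 (hP h)).1
        refine h K (hK.trans (subset_insert _ _)) hKt P ?_ X Y ?_ ?_ hXY
        · rw [insert_sdiff_of_notMem _ hxK]
          exact hP.trans (subset_insert _ _)
        · intro a ha
          obtain ⟨A, hA', hKA, hAP, hAZ⟩ := hX a ha
          exact ⟨A, (mA0 A hA').1, hKA, hAP, hAZ⟩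
        · intro b hb
          obtain ⟨B, hB', hKB, hBP, hBZ⟩ := hY b hb
          rcases mem_union.1 hB' with h' | h'
          · refine ⟨B, (mB0 B h').1, hKB, fun y hy => ?_, hBZ⟩
            have := hBP hy
            simp only [mem_union, mem_insert, mem_sdiff] at this ⊢
            tauto
          · refine ⟨insert x B, (mB1 B h').1, hKB.trans (subset_insert _ _), fun y hy => ?_, ?_⟩
            · rcases mem_insert.1 hy with e | hy'
              · subst e
                simp [hxK, hxP]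
              · have := hBP hy'
                simp only [mem_union, mem_insert, mem_sdiff] at this ⊢
                tauto
            · rw [insert_inter_of_notMem hxZ, hBZ]
    have i3 : dp (A0 ∩ A1) (B0 ∩ B1) ≤ ∑ K ∈ U.powerset.filter (fun K => K.card < t),
        ∑ P ∈ (U \ K).powerset, f (insert x K) P := by
      refine ih t (fun K P => f (insert x K) P) (A0 ∩ A1) (B0 ∩ B1) hUZ' ?_ ?_ ?_ ?_
      · exact fun A hA' => sA0 A (mem_inter.1 hA').1
      · exact fun A hA' => sB0 A (mem_inter.1 hA').1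
      · intro A hA' B hB' hc
        obtain ⟨h1, hxA⟩ := mA1 A (mem_inter.1 hA').2
        obtain ⟨h2, hxB⟩ := mB1 B (mem_inter.1 hB').2
        refine hAB _ h1 _ h2 ?_
        rw [← insert_inter_distrib, card_insert_of_notMem (fun h' => hxA (mem_inter.1 h').1), hc]
      · intro K hK hKt P hP X Y hX hY hXY
        have hxK : x ∉ K := fun h => hx (hK h)
        have e : insert x U \ insert x K = U \ K := by
          rw [insert_sdiff_insert, sdiff_insert_of_notMem hx]
        refine h (insert x K) (insert_subset_insert _ hK) ?_ P ?_ X Y ?_ ?_ ?_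
        · rw [card_insert_of_notMem hxK]; omega
        · rw [e]; exact hP
        · intro a ha
          obtain ⟨A, hA', hKA, hAP, hAZ⟩ := hX a ha
          obtain ⟨h1, hxA⟩ := mA1 A (mem_inter.1 hA').2
          refine ⟨insert x A, h1, insert_subset_insert _ hKA, fun y hy => ?_, ?_⟩
          · rcases mem_insert.1 hy with e' | hy'
            · simp [e']
            · have := hAP hy'
              simp only [mem_union, mem_insert] at this ⊢
              tauto
          · rw [insert_inter_of_notMem hxZ, hAZ]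
        · intro b hb
          obtain ⟨B, hB', hKB, hBP, hBZ⟩ := hY b hb
          obtain ⟨h1, hxB⟩ := mB1 B (mem_inter.1 hB').2
          refine ⟨insert x B, h1, insert_subset_insert _ hKB, fun y hy => ?_, ?_⟩
          · rw [e]
            rcases mem_insert.1 hy with e' | hy'
            · simp [e']
            · have := hBP hy'
              simp only [mem_union, mem_insert] at this ⊢
              tauto
          · rw [insert_inter_of_notMem hxZ, hBZ]
        · intro a ha b hb hc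
          rw [card_insert_of_notMem hxK] at hc
          exact hXY a ha b hb (by omega)
    have j1 := dp_split x 𝒜 ℬ
    have j2 := dp_inter_left A0 A1 B0
    have j3 := dp_inter_right A0 B0 B1
    have j4 := dp_four A0 (A0 ∩ A1) B0 (B0 ∩ B1) inter_subset_left inter_subset_left
    rw [sum_step hx t f]
    rw [← hA0, ← hA1, ← hB0, ← hB1] at j1
    omega

end Pool.Agent.H26.LT
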