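import Pool.Agent.H26.LT.Defs

/-!
Module HalfV.  Half A for an arbitrary ground set, and the number of rows.

`half_v`: let `n = |V|`; the map `x ↦ #{y ∈ V : y ≤ x}` is injective on `V` with image `Icc 1 n`;
`R' = R.image (image f)` is `Av (Icc 1 n) t`, the map `(A, B) ↦ (f A, f B)` is injective from
`rows V t R` to `rows (Icc 1 n) t R'`; `half_a` (H37/AV/HalfA).
`rows_card_v`: as `rows_card` in H37/AV/RowsCard, for arbitrary `V`.
`two_disjPairs`: for a family without the empty set `2 disjPairs R = dp R R`.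
-/

open Finset Pool.Agent.H37 Pool.Agent.H37.AV

namespace Pool.Agent.H26.LT

private lemma HalfV_map (V : Finset ℕ) : ∃ f : ℕ → ℕ, Set.InjOn f (V : Set ℕ) ∧
    V.image f = Icc 1 V.card := by
  classical
  have hinj : Set.InjOn (fun x => (V.filter (fun y => y ≤ x)).card) (V : Set ℕ) := by
    have key : ∀ x ∈ V, ∀ y ∈ V, x < y →
        (V.filter (fun z => z ≤ x)).card < (V.filter (fun z => z ≤ y)).card := by
      intro x _ y hy hxy
      apply card_lt_card
      rw [ssubset_iff_of_subset]
      · exact ⟨y, mem_filter.2 ⟨hy, le_refl y⟩, fun h => absurd (mem_filter.1 h).2 (by omega)⟩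
      · intro z hz
        have := mem_filter.1 hz
        exact mem_filter.2 ⟨this.1, by omega⟩
    intro x hx y hy hxy
    simp only at hxy
    rcases lt_trichotomy x y with h | h | h
    · have := key x (mem_coe.1 hx) y (mem_coe.1 hy) h
      omega
    · exact h
    · have := key y (mem_coe.1 hy) x (mem_coe.1 hx) h
      omega
  refine ⟨fun x => (V.filter (fun y => y ≤ x)).card, hinj, ?_⟩
  apply eq_of_subset_of_card_le
  · intro k hk
    obtain ⟨x, hx, rfl⟩ := mem_image.1 hk
    rw [mem_Icc]
    refine ⟨card_pos.2 ⟨x, mem_filter.2 ⟨hx, le_refl x⟩⟩, card_filter_le _ _⟩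
  · rw [card_image_of_injOn hinj]
    simp

theorem half_v (t : ℕ) (ht : 2 ≤ t) : ∃ n₀ : ℕ, ∀ V : Finset ℕ, n₀ ≤ V.card →
    ∀ R : Finset (Finset ℕ), Av V t R →
    (rows V t R).card ≤ 2 * WK.W V.card t (WK.base V.card t) := by
  classical
  obtain ⟨n₀, h0⟩ := half_a t ht
  refine ⟨n₀, fun V hV R hR => ?_⟩
  obtain ⟨f, hf, him⟩ := HalfV_map V
  have hsub : ∀ A : Finset ℕ, A ⊆ V → Set.InjOn f (A : Set ℕ) := fun A hA =>
    hf.mono (coe_subset.2 hA)
  have hinter : ∀ A B : Finset ℕ, A ⊆ V → B ⊆ V → A.image f ∩ B.image f = (A ∩ B).image f := by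
    intro A B hA hB
    rw [image_inter_of_injOn]
    apply hf.mono
    intro x hx
    rcases hx with hx | hx
    · exact hA hx
    · exact hB hx
  have hAv : Av (Icc 1 V.card) t (R.image (fun A => A.image f)) := by
    constructor
    · intro A hA
      obtain ⟨A', hA', rfl⟩ := mem_image.1 hA
      rw [← him]
      exact image_subset_image (hR.sub A' hA')
    · intro A hA
      obtain ⟨A', hA', rfl⟩ := mem_image.1 hA
      rw [card_image_of_injOn (hsub A' (hR.sub A' hA'))]
      exact hR.big A' hA'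
    · intro A hA B hB
      obtain ⟨A', hA', rfl⟩ := mem_image.1 hA
      obtain ⟨B', hB', rfl⟩ := mem_image.1 hB
      rw [hinter A' B' (hR.sub A' hA') (hR.sub B' hB'),
        card_image_of_injOn (hsub _ (inter_subset_left.trans (hR.sub A' hA')))]
      exact hR.av A' hA' B' hB'
  have hle : (rows V t R).card ≤
      (rows (Icc 1 V.card) t (R.image (fun A => A.image f))).card := by
    apply card_le_card_of_injOn (fun r => (r.1.image f, r.2.image f))
    · intro r hr
      obtain ⟨h1, h2, h3, h4, h5, h6⟩ := mem_rows.1 (mem_coe.1 hr)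
      refine mem_coe.2 (mem_rows.2 ⟨?_, ?_, ?_, ?_, ?_, ?_⟩)
      · rw [← him]; exact image_subset_image h1
      · rw [← him]; exact image_subset_image h2
      · rw [disjoint_iff_inter_eq_empty]
        change r.1.image f ∩ r.2.image f = ∅
        rw [hinter _ _ h1 h2, disjoint_iff_inter_eq_empty.1 h3, image_empty]
      · rcases h4 with h4 | h4
        · exact Or.inl (mem_image_of_mem _ h4)
        · exact Or.inr (lt_of_le_of_lt card_image_le h4)
      · rcases h5 with h5 | h5
        · exact Or.inl (mem_image_of_mem _ h5)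
        · exact Or.inr (lt_of_le_of_lt card_image_le h5)
      · rcases h6 with h6 | h6
        · exact Or.inl (mem_image_of_mem _ h6)
        · exact Or.inr (mem_image_of_mem _ h6)
    · have himg : ∀ A B : Finset ℕ, A ⊆ V → B ⊆ V → A.image f = B.image f → A ⊆ B := by
        intro A B hA hB hAB x hx
        have h1 : f x ∈ B.image f := by rw [← hAB]; exact mem_image_of_mem _ hx
        obtain ⟨y, hy, hyx⟩ := mem_image.1 h1
        rw [← hf (mem_coe.2 (hB hy)) (mem_coe.2 (hA hx)) hyx]
        exact hy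
      intro r hr s hs hrs
      obtain ⟨h1, h2, -⟩ := mem_rows.1 (mem_coe.1 hr)
      obtain ⟨k1, k2, -⟩ := mem_rows.1 (mem_coe.1 hs)
      have e1 : r.1.image f = s.1.image f := congrArg Prod.fst hrs
      have e2 : r.2.image f = s.2.image f := congrArg Prod.snd hrs
      exact Prod.ext (Subset.antisymm (himg _ _ h1 k1 e1) (himg _ _ k1 h1 e1.symm))
        (Subset.antisymm (himg _ _ h2 k2 e2) (himg _ _ k2 h2 e2.symm))
  exact hle.trans (h0 V.card hV _ hAv)

private lemma HalfV_pairs {V : Finset ℕ} {t : ℕ} {R : Finset (Finset ℕ)} (h : Av V t R) :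
    ((rows V t R).filter (fun r => r.1 ∈ R ∧ r.2 ∈ R)).card = dp R R := by
  unfold dp
  congr 1
  ext r
  rw [mem_filter, mem_rows, mem_filter, mem_product]
  constructor
  · rintro ⟨⟨-, -, h3, -⟩, h4, h5⟩
    exact ⟨⟨h4, h5⟩, h3⟩
  · rintro ⟨⟨h4, h5⟩, h3⟩
    exact ⟨⟨h.sub _ h4, h.sub _ h5, h3, Or.inl h4, Or.inl h5, Or.inl h4⟩, h4, h5⟩

theorem rows_card_v {V : Finset ℕ} {t : ℕ} {R : Finset (Finset ℕ)} (ht : 1 ≤ t) (h : Av V t R) :
    (rows V t R).card = 2 * WK.W V.card t R + dp R R := by
  have h1 := small_rows_card h (Subset.refl R)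
  have h2 : ((rows V t R).filter (fun r => r.2 ∈ R ∧ r.1.card < t)).card =
      WK.W V.card t R := by
    rw [← h1]
    refine card_bij' (i := fun r _ => r.swap) (j := fun r _ => r.swap) ?_ ?_ ?_ ?_
    · intro r hr
      rw [mem_filter, mem_rows] at hr ⊢
      obtain ⟨⟨a1, a2, a3, a4, a5, a6⟩, a7, a8⟩ := hr
      exact ⟨⟨a2, a1, a3.symm, a5, a4, a6.symm⟩, a7, a8⟩
    · intro r hr
      rw [mem_filter, mem_rows] at hr ⊢
      obtain ⟨⟨a1, a2, a3, a4, a5, a6⟩, a7, a8⟩ := hr
      exact ⟨⟨a2, a1, a3.symm, a5, a4, a6.symm⟩, a7, a8⟩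
    · intro r _
      exact Prod.swap_swap r
    · intro r _
      exact Prod.swap_swap r
  have h3 := HalfV_pairs h
  have hsmall : ∀ A ∈ R, ¬ A.card < t := fun A hA => by
    have := h.big A hA
    omega
  have key : rows V t R =
      ((rows V t R).filter (fun r => r.1 ∈ R ∧ r.2.card < t) ∪
        (rows V t R).filter (fun r => r.2 ∈ R ∧ r.1.card < t)) ∪
        (rows V t R).filter (fun r => r.1 ∈ R ∧ r.2 ∈ R) := by
    ext r
    rw [mem_union, mem_union, mem_filter, mem_filter, mem_filter]
    constructor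
    · intro hr
      obtain ⟨a1, a2, a3, a4, a5, a6⟩ := mem_rows.1 hr
      rcases a6 with a6 | a6
      · rcases a5 with a5 | a5
        · exact Or.inr ⟨hr, a6, a5⟩
        · exact Or.inl (Or.inl ⟨hr, a6, a5⟩)
      · rcases a4 with a4 | a4
        · exact Or.inr ⟨hr, a4, a6⟩
        · exact Or.inl (Or.inr ⟨hr, a6, a4⟩)
    · rintro ((h | h) | h) <;> exact h.1
  have hc := congrArg Finset.card key
  rw [card_union_of_disjoint, card_union_of_disjoint, h1, h2, h3] at hc
  · omega
  · rw [disjoint_left]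
    intro r hr hr2
    rw [mem_filter] at hr hr2
    exact hsmall _ hr.2.1 hr2.2.2
  · rw [disjoint_left]
    intro r hr hr2
    rw [mem_union, mem_filter, mem_filter] at hr
    rw [mem_filter] at hr2
    rcases hr with hr | hr
    · exact hsmall _ hr2.2.2 hr.2.2
    · exact hsmall _ hr2.2.1 hr.2.2

theorem two_disjPairs {R : Finset (Finset ℕ)} (h : ∅ ∉ R) : 2 * WK.disjPairs R = dp R R := by
  symm
  unfold dp WK.disjPairs
  rw [card_eq_sum_card_fiberwise (f := fun r : Finset ℕ × Finset ℕ =>
      ({r.1, r.2} : Finset (Finset ℕ)))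
    (t := (R.powersetCard 2).filter (fun P => ∀ A ∈ P, ∀ B ∈ P, A ≠ B → A ∩ B = ∅))]
  · rw [sum_const_nat (m := 2), mul_comm]
    intro P hP
    rw [mem_filter, mem_powersetCard] at hP
    obtain ⟨⟨h1, h2⟩, h3⟩ := hP
    obtain ⟨A, B, hAB, rfl⟩ := card_eq_two.1 h2
    have hA : A ∈ R := h1 (by simp)
    have hB : B ∈ R := h1 (by simp)
    have hd : Disjoint A B := disjoint_iff_inter_eq_empty.2 (h3 A (by simp) B (by simp) hAB)
    have he : (((R ×ˢ R).filter (fun p => Disjoint p.1 p.2)).filter
        (fun r : Finset ℕ × Finset ℕ => ({r.1, r.2} : Finset (Finset ℕ)) = {A, B})) =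
        {(A, B), (B, A)} := by
      ext r
      rw [mem_filter, mem_filter, mem_product, mem_insert, mem_singleton]
      constructor
      · rintro ⟨⟨-, -⟩, h5⟩
        have e1 : r.1 ∈ ({A, B} : Finset (Finset ℕ)) := by rw [← h5]; simp
        have e2 : r.2 ∈ ({A, B} : Finset (Finset ℕ)) := by rw [← h5]; simp
        have e3 : A ∈ ({r.1, r.2} : Finset (Finset ℕ)) := by rw [h5]; simp
        have e4 : B ∈ ({r.1, r.2} : Finset (Finset ℕ)) := by rw [h5]; simp
        rw [mem_insert, mem_singleton] at e1 e2 e3 e4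
        rcases e1 with e1 | e1
        · left
          rcases e2 with e2 | e2
          · exfalso
            rw [e1, e2] at e4
            rcases e4 with e4 | e4 <;> exact hAB e4.symm
          · exact Prod.ext e1 e2
        · right
          rcases e2 with e2 | e2
          · exact Prod.ext e1 e2
          · exfalso
            rw [e1, e2] at e3
            rcases e3 with e3 | e3 <;> exact hAB e3
      · rintro (rfl | rfl)
        · exact ⟨⟨⟨hA, hB⟩, hd⟩, rfl⟩
        · exact ⟨⟨⟨hB, hA⟩, hd.symm⟩, pair_comm _ _⟩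
    rw [he]
    rw [card_pair]
    intro hh
    exact hAB (congrArg Prod.fst hh)
  · intro r hr
    obtain ⟨h1, h2⟩ := mem_filter.1 (mem_coe.1 hr)
    obtain ⟨h3, h4⟩ := mem_product.1 h1
    have hne : r.1 ≠ r.2 := by
      intro he
      rw [he] at h2
      have h5 := disjoint_self.1 h2
      apply h
      have h6 : r.2 = ∅ := by simpa using h5
      rw [← h6]
      exact h4
    refine mem_coe.2 (mem_filter.2 ⟨mem_powersetCard.2 ⟨?_, card_pair hne⟩, ?_⟩)
    · intro x hx
      rw [mem_insert, mem_singleton] at hx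
      rcases hx with rfl | rfl
      · exact h3
      · exact h4
    · intro A hA B hB hAB
      rw [mem_insert, mem_singleton] at hA hB
      rcases hA with rfl | rfl <;> rcases hB with rfl | rfl
      · exact absurd rfl hAB
      · exact disjoint_iff_inter_eq_empty.1 h2
      · exact disjoint_iff_inter_eq_empty.1 h2.symm
      · exact absurd rfl hAB

end Pool.Agent.H26.LT
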