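import Pool.Agent.H26.LT.LemL
import Pool.Agent.H26.LT.Sparse

/-!
Module Zero.  `gapL`: `H ≠ ∅` and `dp H R` small: a gap by `lemL` with `s₀ = t`, `A₀ = M ∈ H` (no member of `R`
contains `M`, `|M| = t`, so `|B ∩ M| ≠ t`): `rows ≤ (1-c) gs`, `gs ≥ κ un`: take `β = γ = c κ / 4`:
`rows + 2 β un ≤ gs - c κ un + 2 β un ≤ gs - γ un`.
`zero`: all degrees are at most `τ₀ n^(t-1)`: `sparse` gives `dp H R ≤ t 2^t τ₀ un ≤ β un` for `τ₀ = β / (t 2^t)`.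
-/

open Finset Pool.Agent.H37 Pool.Agent.H37.AV

namespace Pool.Agent.H26.LT

theorem gapL (t : ℕ) (ht : 2 ≤ t) : ∃ β γ : ℝ, 0 < β ∧ 0 < γ ∧ ∃ n₀ : ℕ, ∀ V : Finset ℕ,
    n₀ ≤ V.card → ∀ R H : Finset (Finset ℕ), Av V t R → Hv V t R H → H.Nonempty →
    (dp H R : ℝ) ≤ β * un t V.card →
    ((rows V t R).card : ℝ) + 2 * dp H R ≤ gs V.card t - γ * un t V.card := by
  obtain ⟨c, hc, n1, hn1⟩ := lemL t t ht
  obtain ⟨κ, hκ, hκ'⟩ := gs_ge_un t (by omega)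
  refine ⟨c * κ / 4, c * κ / 4, by positivity, by positivity, max n1 (2 * t),
    fun V hV R H hR hH hne hdp => ?_⟩
  obtain ⟨M, hM⟩ := hne
  have h1 : ∀ B ∈ R, (B ∩ M).card ≠ t := by
    intro B hB h2
    have h3 : B ∩ M = M := eq_of_subset_of_card_le inter_subset_right (by rw [h2, hH.crd M hM])
    exact hH.out M hM B hB (inter_eq_right.1 h3)
  have h2 := hn1 V ((le_max_left _ _).trans hV) R hR M (hH.sub M hM) (hH.crd M hM).ge
    (hH.crd M hM).le h1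
  have h3 := hκ' V.card ((le_max_right _ _).trans hV)
  have h4 := un_nonneg t V.card
  have h5 : c * (κ * un t V.card) ≤ c * gs V.card t := mul_le_mul_of_nonneg_left h3 hc.le
  have h6 : 0 ≤ c * κ * un t V.card := by positivity
  nlinarith

theorem zero (t : ℕ) (ht : 2 ≤ t) : ∃ τ γ : ℝ, 0 < τ ∧ 0 < γ ∧ ∃ n₀ : ℕ, ∀ V : Finset ℕ,
    n₀ ≤ V.card → ∀ R H : Finset (Finset ℕ), Av V t R → Hv V t R H → H.Nonempty →
    (∀ x ∈ V, (dg H x : ℝ) ≤ τ * (V.card : ℝ) ^ (t - 1)) →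
    ((rows V t R).card : ℝ) + 2 * dp H R ≤ gs V.card t - γ * un t V.card := by
  obtain ⟨β, γ, hβ, hγ, n₀, hn⟩ := gapL t ht
  have ht0 : (0 : ℝ) < t := by exact_mod_cast (by omega : 0 < t)
  refine ⟨β / (t * 2 ^ t), γ, by positivity, hγ, n₀, fun V hV R H hR hH hne hdg => ?_⟩
  refine hn V hV R H hR hH hne ?_
  have h1 := sparse (by omega : 1 ≤ t) hR.sub hH
    (by positivity : (0 : ℝ) ≤ β / (t * 2 ^ t) * (V.card : ℝ) ^ (t - 1)) hdg
  refine h1.trans (le_of_eq ?_)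
  unfold un
  field_simp

end Pool.Agent.H26.LT
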