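import Pool.Agent.H26.LT.Avoid
import Pool.Agent.H26.LT.Zero

/-!
Module Many.  Many dense centres.  `m = |D| ≥ m₀`.

`avoid`; the pairs `(M, A)`, `M ∩ D ≠ ∅`, `A ∩ D = ∅`: at most `m n^(t-1)` sets `M` (choose `z ∈ M ∩ D`, `M \ z`) and
`2^(n-m)` sets `A`, so `dp ≤ m 2^(-m) un ≤ (β/4) un` for `m ≥ m₀` (`m 2^(-m)` tends to `0`; note `m ≤ n`).  With
`t 2^t τ ≤ β/4`, `η ≤ β/4` this is `gapL`.
-/

open Finset Pool.Agent.H37 Pool.Agent.H37.AV

namespace Pool.Agent.H26.LT

lemma many_dg {V : Finset ℕ} {t : ℕ} {R H : Finset (Finset ℕ)} (hH : Hv V t R H) (z : ℕ) :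
    dg H z ≤ V.card ^ (t - 1) := by
  have h1 : dg H z = ((H.filter (fun M => z ∈ M)).image (fun M => M.erase z)).card := by
    unfold dg
    symm
    apply card_image_of_injOn
    intro M hM M' hM' hMM
    rw [mem_coe, mem_filter] at hM hM'
    have h5 : insert z (M.erase z) = insert z (M'.erase z) := by
      simp only at hMM
      rw [hMM]
    rwa [insert_erase hM.2, insert_erase hM'.2] at h5
  have h2 : (H.filter (fun M => z ∈ M)).image (fun M => M.erase z) ⊆ V.powersetCard (t - 1) := by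
    intro K hK
    rw [mem_image] at hK
    obtain ⟨M, hM, rfl⟩ := hK
    rw [mem_filter] at hM
    rw [mem_powersetCard]
    refine ⟨(erase_subset _ _).trans (hH.sub M hM.1), ?_⟩
    rw [card_erase_of_mem hM.2, hH.crd M hM.1]
  rw [h1]
  have h3 := card_le_card h2
  rw [card_powersetCard] at h3
  exact h3.trans (Nat.choose_le_pow _ _)

lemma many_pairs {V : Finset ℕ} {t : ℕ} {R H : Finset (Finset ℕ)} (hR : ∀ A ∈ R, A ⊆ V)
    (hH : Hv V t R H) (D : Finset ℕ) (hD : D ⊆ V) :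
    (dp (H.filter (fun M => ¬ Disjoint M D)) (R.filter (fun A => Disjoint A D)) : ℝ) * 2 ^ D.card
      ≤ D.card * un t V.card := by
  have h1 : (H.filter (fun M => ¬ Disjoint M D)).card ≤ D.card * V.card ^ (t - 1) := by
    have s1 : H.filter (fun M => ¬ Disjoint M D) ⊆ D.biUnion (fun z => H.filter (fun M => z ∈ M)) := by
      intro M hM
      rw [mem_filter, not_disjoint_iff] at hM
      obtain ⟨hMH, z, hzM, hzD⟩ := hM
      rw [mem_biUnion]
      exact ⟨z, hzD, mem_filter.2 ⟨hMH, hzM⟩⟩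
    refine (card_le_card s1).trans ?_
    refine card_biUnion_le_card_mul _ _ _ ?_
    intro z _
    exact many_dg hH z
  have h2 : (R.filter (fun A => Disjoint A D)).card * 2 ^ D.card ≤ 2 ^ V.card := by
    have s1 : R.filter (fun A => Disjoint A D) ⊆ (V \ D).powerset := by
      intro A hA
      rw [mem_filter] at hA
      rw [mem_powerset]
      exact subset_sdiff.2 ⟨hR A hA.1, hA.2⟩
    have s2 := card_le_card s1
    rw [card_powerset, card_sdiff_of_subset hD] at s2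
    have s3 : 2 ^ (V.card - D.card) * 2 ^ D.card = 2 ^ V.card := by
      rw [← pow_add, Nat.sub_add_cancel (card_le_card hD)]
    rw [← s3]
    exact Nat.mul_le_mul_right _ s2
  have h3 : dp (H.filter (fun M => ¬ Disjoint M D)) (R.filter (fun A => Disjoint A D)) * 2 ^ D.card
      ≤ D.card * (V.card ^ (t - 1) * 2 ^ V.card) := by
    calc _ ≤ ((H.filter (fun M => ¬ Disjoint M D)).card * (R.filter (fun A => Disjoint A D)).card)
          * 2 ^ D.card := Nat.mul_le_mul_right _ (dp_le_mul _ _)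
      _ = (H.filter (fun M => ¬ Disjoint M D)).card
          * ((R.filter (fun A => Disjoint A D)).card * 2 ^ D.card) := by ring
      _ ≤ (D.card * V.card ^ (t - 1)) * 2 ^ V.card := Nat.mul_le_mul h1 h2
      _ = _ := by ring
  unfold un
  exact_mod_cast h3

theorem many (t : ℕ) (ht : 2 ≤ t) : ∃ τ₀ γ : ℝ, 0 < τ₀ ∧ 0 < γ ∧ ∃ m₀ : ℕ, ∀ τ : ℝ, 0 < τ →
    τ ≤ τ₀ → ∃ n₀ : ℕ, ∀ V : Finset ℕ, n₀ ≤ V.card → ∀ R H : Finset (Finset ℕ), Av V t R →
    Hv V t R H → H.Nonempty → m₀ ≤ (Dc V t τ H).card →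
    ((rows V t R).card : ℝ) + 2 * dp H R ≤ gs V.card t - γ * un t V.card := by
  obtain ⟨β, γ, hβ, hγ, n1, hgap⟩ := gapL t ht
  have hc : (0 : ℝ) < t * 2 ^ t := by
    have : (0 : ℝ) < t := by
      have : 0 < t := by omega
      exact_mod_cast this
    positivity
  obtain ⟨m₀, hm₀⟩ : ∃ m₀ : ℕ, ∀ m ≥ m₀, (m : ℝ) / 2 ^ m ≤ β / 4 := by
    have h := tendsto_pow_const_div_const_pow_of_one_lt 1 (by norm_num : (1 : ℝ) < 2)
    have h2 := h.eventually_le_const (by positivity : (0 : ℝ) < β / 4)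
    obtain ⟨m₀, hm⟩ := Filter.eventually_atTop.1 h2
    refine ⟨m₀, fun m hm' => ?_⟩
    have := hm m hm'
    simpa using this
  refine ⟨β / 4 / (t * 2 ^ t), γ, by positivity, hγ, m₀, fun τ hτ hτ₀ => ?_⟩
  obtain ⟨n2, hav⟩ := avoid t ht hτ (by positivity : (0 : ℝ) < β / 4)
  refine ⟨max n1 n2, fun V hV R H hR hH hHne hm => ?_⟩
  have h1 := hav V ((le_max_right _ _).trans hV) R H hR hH
  refine hgap V ((le_max_left _ _).trans hV) R H hR hH hHne ?_
  have hDV : Dc V t τ H ⊆ V := by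
    unfold Dc
    exact filter_subset _ _
  have h2 := many_pairs hR.sub hH (Dc V t τ H) hDV
  have h3 := hm₀ _ hm
  have hun := un_nonneg t V.card
  obtain ⟨x, hx⟩ : ∃ x : ℝ, x = (dp (H.filter (fun M => ¬ Disjoint M (Dc V t τ H)))
      (R.filter (fun A => Disjoint A (Dc V t τ H))) : ℝ) := ⟨_, rfl⟩
  rw [← hx] at h1 h2
  obtain ⟨m, hmm⟩ : ∃ m : ℕ, m = (Dc V t τ H).card := ⟨_, rfl⟩
  rw [← hmm] at h2 h3
  have hp : (0 : ℝ) < 2 ^ m := by positivity
  have h4 : x ≤ β / 4 * un t V.card := by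
    have h5 : x ≤ (m : ℝ) / 2 ^ m * un t V.card := by
      rw [div_mul_eq_mul_div, le_div_iff₀ hp]
      exact h2
    exact h5.trans (mul_le_mul_of_nonneg_right h3 hun)
  have h6 : t * 2 ^ t * τ ≤ β / 4 := by
    rw [le_div_iff₀ hc] at hτ₀
    linarith
  have h7 : (t * 2 ^ t * τ + β / 4) * un t V.card ≤ (β / 4 + β / 4) * un t V.card :=
    mul_le_mul_of_nonneg_right (by linarith) hun
  have h8 : (0 : ℝ) ≤ β / 4 * un t V.card := by positivity
  calc (dp H R : ℝ) ≤ x + (t * 2 ^ t * τ + β / 4) * un t V.card := h1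
    _ ≤ β / 4 * un t V.card + (β / 4 + β / 4) * un t V.card := add_le_add h4 h7
    _ ≤ β * un t V.card := by nlinarith

end Pool.Agent.H26.LT
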