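import Pool.Agent.H26.LT.Defs
import Pool.Agent.H37.WK.Final

/-!
Module Par.  `2 W_(n-1)(F(n-1,t)) + (n+1)^k ≤ W_n(F(n,t))` for `t ≥ 2` and large `n`.

`S(m) = sb t m`, `S(m+1) - S(m) = sb (t-1) m ≥ 1` (as `t ≥ 2`).
`n + t` even: the members of `F(n,t)` are `B` and `B ∪ {1}`, `B ⊆ [2,n]`, `2|B| ≥ n + t`; `F(n-1,t)` consists of the
subsets `B` of an `(n-1)`-set with `2|B| ≥ n + t`.  `W_n = ∑_B (S(n-b) + S(n-1-b)) = 2 W_(n-1) + ∑_B sb (t-1) (n-1-b)`, so
the difference is at least `#{B ⊆ [n-1] : 2|B| ≥ n + t} ≥ 2^(n-1-⌈(n+t)/2⌉)` (supersets of a fixed set).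
`n + t` odd: `k₀ = (n+t-1)/2`.  `F(n-1,t)`: `C`, `C ∪ {1}` with `C` in an `(n-2)`-set, `|C| ≥ k₀`:
`W_(n-1) = ∑_{|C| ≥ k₀} (S(n-1-c) + S(n-2-c))`.  `F(n,t)`: the sets of size `≥ k₀ + 1`, traces `C` on the `(n-2)`-set:
`W_n = ∑_{|C| ≥ k₀+1} (S(n-c) + 2 S(n-1-c) + S(n-2-c)) + ∑_{|C| = k₀} (2 S(n-k₀-1) + S(n-k₀-2)) + ∑_{|C| = k₀-1} S(n-k₀-1)`.
`W_n - 2 W_(n-1) = ∑_{|C| ≥ k₀+1} (S(n-c) - S(n-2-c)) - C(n-2,k₀) S(n-k₀-2) + C(n-2,k₀-1) S(n-k₀-1)`, and
`C(n-2,k₀-1) ≥ C(n-2,k₀)` as `2 k₀ ≥ n - 1`.  So the difference is at least `#{C : |C| ≥ k₀ + 1} ≥ 2^(n-2-(k₀+1))`.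
Both are larger than `(n+1)^k` for large `n`.
-/

open Finset Pool.Agent.H37

namespace Pool.Agent.H26.LT

/-- `∑ g(|A|)` over the subsets of an `m`-set. -/
private def G (m : ℕ) (g : ℕ → ℕ) : ℕ := ∑ A ∈ (range m).powerset, g A.card

private lemma G_eq (m : ℕ) (g : ℕ → ℕ) : G m g = ∑ a ∈ range (m + 1), m.choose a * g a := by
  unfold G
  rw [Finset.sum_powerset_apply_card, card_range]
  simp only [smul_eq_mul]

private lemma G_of (X : Finset ℕ) (g : ℕ → ℕ) : ∑ A ∈ X.powerset, g A.card = G X.card g := by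
  unfold G
  rw [Finset.sum_powerset_apply_card, Finset.sum_powerset_apply_card, card_range]

private lemma G_succ (m : ℕ) (g : ℕ → ℕ) : G (m + 1) g = G m g + G m (fun a => g (a + 1)) := by
  classical
  unfold G
  rw [Finset.range_add_one, Finset.sum_powerset_insert (by simp)]
  congr 1
  refine sum_congr rfl fun A hA => ?_
  rw [card_insert_of_notMem]
  intro h
  have := mem_powerset.1 hA h
  simp at this

private lemma W_odd (n t : ℕ) (h : Odd (n + t)) : WK.W n t (WK.base n t) =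
    G n (fun a => if n + t + 1 ≤ 2 * a then WK.sb t (n - a) else 0) := by
  unfold WK.W WK.base
  rw [if_pos h, sum_filter]
  have := G_of (Icc 1 n) (fun a => if n + t + 1 ≤ 2 * a then WK.sb t (n - a) else 0)
  rw [this, Nat.card_Icc, Nat.add_sub_cancel]

private lemma W_even (n t : ℕ) (h : ¬ Odd (n + 1 + t)) : WK.W (n + 1) t (WK.base (n + 1) t) =
    G n (fun a => if n + 1 + t ≤ 2 * a then WK.sb t (n + 1 - a) + WK.sb t (n - a) else 0) := by
  classical
  unfold WK.W WK.base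
  rw [if_neg h, sum_filter]
  have e1 : Icc 1 (n + 1) = insert 1 (Icc 2 (n + 1)) := by
    ext x; simp only [mem_insert, mem_Icc]; omega
  have e2 : (1 : ℕ) ∉ Icc 2 (n + 1) := by simp
  have e3 : Icc 1 (n + 1) \ {1} = Icc 2 (n + 1) := by
    ext x; simp only [mem_sdiff, mem_singleton, mem_Icc]; omega
  rw [e3]
  rw [e1, Finset.sum_powerset_insert e2, ← sum_add_distrib]
  have h4 : (Icc 2 (n + 1)).card = n := by rw [Nat.card_Icc]; omega
  have := G_of (Icc 2 (n + 1))
    (fun a => if n + 1 + t ≤ 2 * a then WK.sb t (n + 1 - a) + WK.sb t (n - a) else 0)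
  rw [h4] at this
  rw [← this]
  refine sum_congr rfl fun A hA => ?_
  have hA' := mem_powerset.1 hA
  have h1 : (1 : ℕ) ∉ A := fun h => e2 (hA' h)
  have h5 : A ∩ Icc 2 (n + 1) = A := inter_eq_left.2 hA'
  have h6 : insert 1 A ∩ Icc 2 (n + 1) = A := by
    rw [insert_inter_of_notMem e2, h5]
  rw [h5, h6, card_insert_of_notMem h1]
  have h7 : n + 1 - (A.card + 1) = n - A.card := by omega
  rw [h7]
  split_ifs <;> rfl

private lemma sb_two {t : ℕ} (ht : 2 ≤ t) (b : ℕ) : WK.sb t b + 1 ≤ WK.sb t (b + 1) := by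
  rw [WK.sb_succ (by omega)]
  have := WK.sb_pos (t := t - 1) (by omega) b
  omega

private lemma big (k : ℕ) : ∃ n₀ : ℕ, ∀ n ≥ n₀, (n + 1) ^ k ≤ (n - 2).choose (k + 1) := by
  refine ⟨2 ^ (k + 1) * (k + 1).factorial + 2 * k + 10, fun n hn => ?_⟩
  have h1 := Nat.pow_le_choose (α := ℚ) (k + 1) (n - 2)
  have h2 : (n - 2 + 1 - (k + 1)) ^ (k + 1) ≤ (k + 1).factorial * (n - 2).choose (k + 1) := by
    have h3 : (((n - 2 + 1 - (k + 1) : ℕ) : ℚ) ^ (k + 1)) / ((k + 1).factorial : ℚ) ≤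
      ((n - 2).choose (k + 1) : ℚ) := h1
    have h4 : (0 : ℚ) < ((k + 1).factorial : ℚ) := by exact_mod_cast Nat.factorial_pos _
    rw [div_le_iff₀ h4] at h3
    have : (((n - 2 + 1 - (k + 1)) ^ (k + 1) : ℕ) : ℚ) ≤
      (((k + 1).factorial * (n - 2).choose (k + 1) : ℕ) : ℚ) := by
      rw [Nat.cast_pow, Nat.cast_mul, mul_comm]
      exact h3
    exact_mod_cast this
  have h5 : n + 1 ≤ 2 * (n - 2 + 1 - (k + 1)) := by
    have := Nat.zero_le (2 ^ (k + 1) * (k + 1).factorial)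
    omega
  have h6 : (n + 1) ^ (k + 1) ≤ 2 ^ (k + 1) * (n - 2 + 1 - (k + 1)) ^ (k + 1) := by
    rw [← mul_pow]
    exact Nat.pow_le_pow_left h5 _
  have h7 : 2 ^ (k + 1) * (k + 1).factorial * (n + 1) ^ k ≤ (n + 1) ^ (k + 1) := by
    rw [pow_succ' (n + 1)]
    exact Nat.mul_le_mul_right _ (by omega)
  have h8 : 2 ^ (k + 1) * (k + 1).factorial * (n + 1) ^ k ≤
      2 ^ (k + 1) * (k + 1).factorial * (n - 2).choose (k + 1) := by
    calc _ ≤ (n + 1) ^ (k + 1) := h7
      _ ≤ 2 ^ (k + 1) * (n - 2 + 1 - (k + 1)) ^ (k + 1) := h6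
      _ ≤ 2 ^ (k + 1) * ((k + 1).factorial * (n - 2).choose (k + 1)) := Nat.mul_le_mul_left _ h2
      _ = _ := by ring
  exact Nat.le_of_mul_le_mul_left h8 (by positivity)

private lemma case_e {t k n : ℕ} (ht : 2 ≤ t) (hn : t + 2 * k + 10 ≤ n) (h : ¬ Odd (n + 1 + t)) :
    2 * WK.W n t (WK.base n t) + n.choose (k + 1) ≤ WK.W (n + 1) t (WK.base (n + 1) t) := by
  have hodd : Odd (n + t) := by
    rw [Nat.not_odd_iff_even] at h
    rcases Nat.even_or_odd (n + t) with h1 | h1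
    · exfalso
      obtain ⟨a, ha⟩ := h
      obtain ⟨b, hb⟩ := h1
      omega
    · exact h1
  rw [W_even n t h, W_odd n t hodd, G_eq, G_eq]
  have h1 : ∑ a ∈ range (n + 1), (if a = n - (k + 1) then n.choose a else 0) =
      n.choose (k + 1) := by
    rw [sum_ite_eq']
    rw [if_pos (by rw [mem_range]; omega), Nat.choose_symm (by omega)]
  rw [← h1, mul_sum, ← sum_add_distrib]
  refine sum_le_sum fun a ha => ?_
  have ha' : a ≤ n := by have := mem_range.1 ha; omega
  by_cases h2 : n + 1 + t ≤ 2 * a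
  · have h3 : n + t + 1 ≤ 2 * a := by omega
    rw [if_pos h2, if_pos h3]
    have h4 := sb_two ht (n - a)
    have h5 : n - a + 1 = n + 1 - a := by omega
    rw [h5] at h4
    have h6 : (if a = n - (k + 1) then n.choose a else 0) ≤ n.choose a := by
      split_ifs <;> simp
    nlinarith [Nat.mul_le_mul_left (n.choose a) h4]
  · have h3 : ¬ (n + t + 1 ≤ 2 * a) := by omega
    rw [if_neg h2, if_neg h3, if_neg (by omega)]
    simp

private lemma case_o {t k n : ℕ} (ht : 2 ≤ t) (hn : t + 2 * k + 10 ≤ n) (h : Odd (n + 2 + t)) :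
    2 * WK.W (n + 1) t (WK.base (n + 1) t) + n.choose (k + 1) ≤
      WK.W (n + 2) t (WK.base (n + 2) t) := by
  have hev : ¬ Odd (n + 1 + t) := by
    intro h1
    obtain ⟨a, ha⟩ := h
    obtain ⟨b, hb⟩ := h1
    omega
  obtain ⟨p, hp⟩ : ∃ p, n + 2 + t = 2 * p + 1 := id h
  rw [W_even n t hev, W_odd (n + 2) t h, G_succ, G_succ, G_succ, G_eq, G_eq, G_eq, G_eq]
  have h1 : ∑ a ∈ range (n + 1), (if a = n - (k + 1) then n.choose a else 0) =
      n.choose (k + 1) := by
    rw [sum_ite_eq']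
    rw [if_pos (by rw [mem_range]; omega), Nat.choose_symm (by omega)]
  have h2 : ∑ a ∈ range (n + 1), (if a = p then n.choose a * WK.sb t (n - p) else 0) =
      n.choose p * WK.sb t (n - p) := by
    rw [sum_ite_eq']
    rw [if_pos (by rw [mem_range]; omega)]
  have h3 : ∑ a ∈ range (n + 1), (if a = p - 1 then n.choose a * WK.sb t (n - p + 1) else 0) =
      n.choose (p - 1) * WK.sb t (n - p + 1) := by
    rw [sum_ite_eq']
    rw [if_pos (by rw [mem_range]; omega)]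
  have h4 : n.choose p * WK.sb t (n - p) ≤ n.choose (p - 1) * WK.sb t (n - p + 1) := by
    refine Nat.mul_le_mul ?_ (WK.sb_mono (by omega))
    have h5 : n.choose (n - p) ≤ n.choose (n - p + 1) :=
      Nat.choose_le_succ_of_lt_half_left (by omega)
    rw [Nat.choose_symm (by omega)] at h5
    have h6 : n - p + 1 = n - (p - 1) := by omega
    rw [h6, Nat.choose_symm (by omega)] at h5
    exact h5
  have key : ∑ a ∈ range (n + 1), (2 * (n.choose a * (if n + 1 + t ≤ 2 * a then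
        WK.sb t (n + 1 - a) + WK.sb t (n - a) else 0)) +
        (if a = n - (k + 1) then n.choose a else 0) +
        (if a = p - 1 then n.choose a * WK.sb t (n - p + 1) else 0)) ≤
      ∑ a ∈ range (n + 1), (n.choose a * (if n + 2 + t + 1 ≤ 2 * a then WK.sb t (n + 2 - a) else 0) +
        n.choose a * (if n + 2 + t + 1 ≤ 2 * (a + 1) then WK.sb t (n + 2 - (a + 1)) else 0) +
        (n.choose a * (if n + 2 + t + 1 ≤ 2 * (a + 1) then WK.sb t (n + 2 - (a + 1)) else 0) +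
        n.choose a * (if n + 2 + t + 1 ≤ 2 * (a + 1 + 1) then
          WK.sb t (n + 2 - (a + 1 + 1)) else 0)) +
        (if a = p then n.choose a * WK.sb t (n - p) else 0)) := by
    refine sum_le_sum fun a ha => ?_
    have ha' : a ≤ n := by have := mem_range.1 ha; omega
    have e1 : n + 2 - a = n - a + 1 + 1 := by omega
    have e2 : n + 2 - (a + 1) = n - a + 1 := by omega
    have e3 : n + 2 - (a + 1 + 1) = n - a := by omega
    have e4 : n + 1 - a = n - a + 1 := by omega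
    rw [e1, e2, e3, e4]
    have s1 := sb_two ht (n - a)
    have s2 := sb_two ht (n - a + 1)
    have h6 : (if a = n - (k + 1) then n.choose a else 0) ≤ n.choose a := by
      split_ifs <;> simp
    rcases lt_trichotomy a p with hap | hap | hap
    · have c1 : ¬ (n + 1 + t ≤ 2 * a) := by omega
      have c2 : ¬ (n + 2 + t + 1 ≤ 2 * a) := by omega
      have c3 : ¬ (n + 2 + t + 1 ≤ 2 * (a + 1)) := by omega
      have c4 : a ≠ p := by omega
      have c5 : a ≠ n - (k + 1) := by omega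
      rw [if_neg c1, if_neg c2, if_neg c3, if_neg c4, if_neg c5]
      by_cases c6 : a = p - 1
      · have c7 : n + 2 + t + 1 ≤ 2 * (a + 1 + 1) := by omega
        rw [if_pos c6, if_pos c7]
        have : n - p + 1 = n - a := by omega
        rw [this]
        simp
      · rw [if_neg c6]
        simp
    · have c1 : n + 1 + t ≤ 2 * a := by omega
      have c2 : ¬ (n + 2 + t + 1 ≤ 2 * a) := by omega
      have c3 : n + 2 + t + 1 ≤ 2 * (a + 1) := by omega
      have c5 : a ≠ n - (k + 1) := by omega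
      have c6 : a ≠ p - 1 := by omega
      have c7 : n + 2 + t + 1 ≤ 2 * (a + 1 + 1) := by omega
      rw [if_pos c1, if_neg c2, if_pos c3, if_pos hap, if_neg c5, if_neg c6, if_pos c7, hap]
      apply le_of_eq
      ring
    · have c1 : n + 1 + t ≤ 2 * a := by omega
      have c2 : n + 2 + t + 1 ≤ 2 * a := by omega
      have c3 : n + 2 + t + 1 ≤ 2 * (a + 1) := by omega
      have c4 : a ≠ p := by omega
      have c6 : a ≠ p - 1 := by omega
      have c7 : n + 2 + t + 1 ≤ 2 * (a + 1 + 1) := by omega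
      rw [if_pos c1, if_pos c2, if_pos c3, if_neg c4, if_neg c6, if_pos c7]
      nlinarith [Nat.mul_le_mul_left (n.choose a) s1, Nat.mul_le_mul_left (n.choose a) s2]
  simp only [sum_add_distrib] at key
  rw [h1, h2, h3, ← mul_sum] at key
  omega

theorem par (t k : ℕ) (ht : 2 ≤ t) : ∃ n₀ : ℕ, ∀ n ≥ n₀,
    2 * WK.W (n - 1) t (WK.base (n - 1) t) + (n + 1) ^ k ≤ WK.W n t (WK.base n t) := by
  obtain ⟨n₀, hn₀⟩ := big k
  refine ⟨n₀ + t + 2 * k + 20, fun n hn => ?_⟩
  obtain ⟨m, rfl⟩ : ∃ m, n = m + 2 := ⟨n - 2, by omega⟩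
  have h1 := hn₀ (m + 2) (by omega)
  have e1 : m + 2 - 2 = m := by omega
  have e2 : m + 2 - 1 = m + 1 := by omega
  rw [e1] at h1
  rw [e2]
  by_cases h : Odd (m + 2 + t)
  · have := case_o (k := k) ht (by omega) h
    omega
  · have h2 := case_e (n := m + 1) (k := k) ht (by omega) (by
      have : m + 1 + 1 + t = m + 2 + t := by ring
      rw [this]; exact h)
    have h3 : m.choose (k + 1) ≤ (m + 1).choose (k + 1) := Nat.choose_le_choose _ (by omega)
    have e3 : m + 1 + 1 = m + 2 := by ring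
    rw [e3] at h2
    omega

end Pool.Agent.H26.LT
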