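import Pool.Agent.H26.LT.Sm
import Pool.Agent.H26.LT.Slots

/-!
Module RowsGe.  A lower bound for the number of rows and the measure of strongly avoiding families.

`rows_ge`: the pairs `(A, K)`, `(K, A)` with `A ∈ R`, `|K| = t - 1`, `K ∩ A = ∅` are rows: `2 dp N R ≤ rows`,
`N = V.powersetCard (t-1)`; `sm` with `k = t - 1`: `dp N R ≥ |R| C(n,t-1) / 2^(t-1) - η un`; `gs_le_top`:
`C(n,t-1) / 2^(t-1) ≥ (gs n t - η un) / 2^n` (use `|R| ≤ 2^n`).
`mass`: apply `rows_ge` with `t = s` to `R' = {A ∈ R : |A| > s}` (`Av V s R'`); `rows ≤ slots = gs n s` (`acc_all` in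
H37/AV/Acc, the term with `NR` is nonnegative), so `(2 |R'|/2^n - 1) gs n s ≤ η un s n`, with `gs ≥ κ un` (`gs_ge_un`):
`|R'| ≤ (1/2 + η/(2κ)) 2^n`.  `R` has no member of size `s` (`|A ∩ A| ≠ s`) and at most `(n+1)^s` members of size
`< s`.
-/

open Finset Pool.Agent.H37 Pool.Agent.H37.AV

namespace Pool.Agent.H26.LT

/-- The pairs of a member and a disjoint `(t-1)`-set are rows, in both orders. -/
private lemma rg_two {V : Finset ℕ} {t : ℕ} (ht : 1 ≤ t) {R : Finset (Finset ℕ)} (h : Av V t R) :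
    2 * dp (V.powersetCard (t - 1)) R ≤ (rows V t R).card := by
  classical
  set N := V.powersetCard (t - 1) with hN
  have h1 : ((N ×ˢ R).filter (fun p => Disjoint p.1 p.2)) ∪
      ((R ×ˢ N).filter (fun p => Disjoint p.1 p.2)) ⊆ rows V t R := by
    intro p hp
    rw [mem_union, mem_filter, mem_filter, mem_product, mem_product] at hp
    rw [mem_rows]
    rcases hp with ⟨⟨a, b⟩, c⟩ | ⟨⟨a, b⟩, c⟩
    · rw [hN, mem_powersetCard] at a
      exact ⟨a.1, h.sub _ b, c, Or.inr (by omega), Or.inl b, Or.inr b⟩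
    · rw [hN, mem_powersetCard] at b
      exact ⟨h.sub _ a, b.1, c, Or.inl a, Or.inr (by omega), Or.inl a⟩
  have h2 : Disjoint ((N ×ˢ R).filter (fun p => Disjoint p.1 p.2))
      ((R ×ˢ N).filter (fun p => Disjoint p.1 p.2)) := by
    rw [Finset.disjoint_left]
    intro p hp hq
    rw [mem_filter, mem_product] at hp hq
    have e1 : p.1.card = t - 1 := (mem_powersetCard.1 hp.1.1).2
    have e2 : t < p.1.card := h.big _ hq.1.1
    omega
  have h3 := card_le_card h1
  rw [card_union_of_disjoint h2] at h3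
  have h4 : ((N ×ˢ R).filter (fun p => Disjoint p.1 p.2)).card = dp N R := rfl
  have h5 : ((R ×ˢ N).filter (fun p => Disjoint p.1 p.2)).card = dp R N := rfl
  rw [h4, h5, dp_comm R N] at h3
  omega

theorem rows_ge (t : ℕ) (ht : 1 ≤ t) {η : ℝ} (hη : 0 < η) : ∃ n₀ : ℕ, ∀ V : Finset ℕ,
    n₀ ≤ V.card → ∀ R : Finset (Finset ℕ), Av V t R →
    2 * ((R.card : ℝ) / 2 ^ V.card) * gs V.card t ≤ (rows V t R).card + η * un t V.card := by
  classical
  obtain ⟨n₁, h₁⟩ := sm (t - 1) (η := η / 4) (by positivity)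
  obtain ⟨n₂, h₂⟩ := gs_le_top t ht (η := η / 4) (by positivity)
  refine ⟨max (max n₁ n₂) t, fun V hV R hR => ?_⟩
  have hv1 : n₁ ≤ V.card := le_trans (le_trans (le_max_left _ _) (le_max_left _ _)) hV
  have hv2 : n₂ ≤ V.card := le_trans (le_trans (le_max_right _ _) (le_max_left _ _)) hV
  have hv3 : t ≤ V.card := le_trans (le_max_right _ _) hV
  have a1 := h₁ V hv1 R (V.powersetCard (t - 1)) hR.sub (fun K hK => mem_powersetCard.1 hK)
  have a2 := h₂ V.card hv2
  have a3 := rg_two ht hR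
  have a3' : (2 : ℝ) * (dp (V.powersetCard (t - 1)) R : ℝ) ≤ (rows V t R).card := by
    exact_mod_cast a3
  rw [card_powersetCard] at a1
  have a4 := (abs_le.1 a1).1
  have hRc : (R.card : ℝ) ≤ 2 ^ V.card := by
    have h5 := card_le_card (fun A hA => mem_powerset.2 (hR.sub A hA) : R ⊆ V.powerset)
    rw [card_powerset] at h5
    exact_mod_cast h5
  have hp : (0 : ℝ) < 2 ^ V.card := by positivity
  set q : ℝ := (R.card : ℝ) / 2 ^ V.card with hq
  have hq0 : 0 ≤ q := by positivity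
  have hq1 : q ≤ 1 := by
    rw [hq, div_le_one hp]
    exact hRc
  have hu : un t V.card = (V.card : ℝ) ^ (t - 1) * 2 ^ V.card := rfl
  have hu0 := un_nonneg t V.card
  have a5 : 2 * q * (gs V.card t : ℝ) ≤
      2 * q * ((V.card.choose (t - 1) : ℝ) * 2 ^ (V.card - (t - 1)) + η / 4 * un t V.card) :=
    mul_le_mul_of_nonneg_left a2 (by positivity)
  have a6 : q * ((V.card.choose (t - 1) : ℝ) * 2 ^ (V.card - (t - 1))) =
      (R.card : ℝ) * (V.card.choose (t - 1) : ℝ) / 2 ^ (t - 1) := by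
    have e1 : (2 : ℝ) ^ (V.card - (t - 1)) = 2 ^ V.card / 2 ^ (t - 1) := by
      rw [pow_sub₀ _ (by norm_num) (by omega)]
      rfl
    rw [e1, hq]
    field_simp
  have a7 : q * (η / 4 * un t V.card) ≤ η / 4 * un t V.card := by
    have : 0 ≤ η / 4 * un t V.card := by positivity
    nlinarith
  have a8 : (η / 4 : ℝ) * (V.card : ℝ) ^ (t - 1) * 2 ^ V.card = η / 4 * un t V.card := by
    rw [hu]
    ring
  rw [a8] at a4
  nlinarith

/-- At most `(s+1) (n+1)^s` subsets of `V` have at most `s` elements. -/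
private lemma rg_small (s : ℕ) (V : Finset ℕ) (R : Finset (Finset ℕ)) (hR : ∀ A ∈ R, A ⊆ V) :
    (R.filter (fun A => A.card ≤ s)).card ≤ (s + 1) * (V.card + 1) ^ s := by
  classical
  have h1 : R.filter (fun A => A.card ≤ s) ⊆ (range (s + 1)).biUnion fun j => V.powersetCard j := by
    intro A hA
    obtain ⟨h2, h3⟩ := mem_filter.1 hA
    exact mem_biUnion.2 ⟨A.card, mem_range.2 (by omega), mem_powersetCard.2 ⟨hR A h2, rfl⟩⟩
  refine (card_le_card h1).trans (card_biUnion_le.trans ?_)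
  refine (sum_le_card_nsmul (range (s + 1)) _ ((V.card + 1) ^ s) fun j hj => ?_).trans ?_
  · rw [card_powersetCard]
    refine (Nat.choose_le_pow _ _).trans ?_
    refine (Nat.pow_le_pow_left (Nat.le_succ V.card) j).trans ?_
    exact Nat.pow_le_pow_right (Nat.succ_pos _) (by have := mem_range.1 hj; omega)
  · rw [card_range, smul_eq_mul]

theorem mass (s : ℕ) (hs : 1 ≤ s) {η : ℝ} (hη : 0 < η) : ∃ n₀ : ℕ, ∀ V : Finset ℕ,
    n₀ ≤ V.card → ∀ R : Finset (Finset ℕ), (∀ A ∈ R, A ⊆ V) →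
    (∀ A ∈ R, ∀ B ∈ R, (A ∩ B).card ≠ s) → (R.card : ℝ) ≤ (1 / 2 + η) * 2 ^ V.card := by
  classical
  obtain ⟨κ, hκ, hg⟩ := gs_ge_un s hs
  obtain ⟨n₁, h₁⟩ := rows_ge s hs (η := η * κ) (by positivity)
  obtain ⟨n₂, h₂⟩ := poly_small 1 s (η := η / (2 * (s + 1))) (by positivity)
  refine ⟨max (max n₁ n₂) (2 * s), fun V hV R hsub hav => ?_⟩
  have hv1 : n₁ ≤ V.card := le_trans (le_trans (le_max_left _ _) (le_max_left _ _)) hV
  have hv2 : n₂ ≤ V.card := le_trans (le_trans (le_max_right _ _) (le_max_left _ _)) hV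
  have hv3 : 2 * s ≤ V.card := le_trans (le_max_right _ _) hV
  set R' := R.filter (fun A => s < A.card) with hR'
  have hA : Av V s R' := by
    refine ⟨fun A hA => ?_, fun A hA => ?_, fun A hA B hB => ?_⟩
    · exact hsub A (mem_filter.1 hA).1
    · exact (mem_filter.1 hA).2
    · exact hav A (mem_filter.1 hA).1 B (mem_filter.1 hB).1
  have b1 := h₁ V hv1 R' hA
  have b2 := acc_all hA
  rw [slots_card] at b2
  have b3 : (0 : ℝ) ≤ ((slots V s).filter (NR V s R')).card / Bd s := by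
    have := Bd_pos s
    positivity
  have b4 := hg V.card hv3
  have hp : (0 : ℝ) < 2 ^ V.card := by positivity
  have hun : 0 < un s V.card := by
    unfold un
    have : (0 : ℝ) < V.card := by
      have : 0 < V.card := by omega
      exact_mod_cast this
    positivity
  have hgs : (0 : ℝ) < gs V.card s := lt_of_lt_of_le (by positivity) b4
  have b5 : 2 * ((R'.card : ℝ) / 2 ^ V.card) * gs V.card s ≤ (1 + η) * gs V.card s := by
    nlinarith
  have b6 : 2 * ((R'.card : ℝ) / 2 ^ V.card) ≤ 1 + η := le_of_mul_le_mul_right b5 hgs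
  have b7 : (R'.card : ℝ) ≤ (1 / 2 + η / 2) * 2 ^ V.card := by
    have : (R'.card : ℝ) / 2 ^ V.card ≤ 1 / 2 + η / 2 := by linarith
    rwa [div_le_iff₀ hp] at this
  have c1 := rg_small s V R hsub
  have c2 := h₂ V.card hv2
  have c3 : un 1 V.card = 2 ^ V.card := by simp [un]
  rw [c3] at c2
  have c4 : ((R.filter (fun A => A.card ≤ s)).card : ℝ) ≤ η / 2 * 2 ^ V.card := by
    have d1 : ((R.filter (fun A => A.card ≤ s)).card : ℝ) ≤ ((s : ℝ) + 1) * ((V.card : ℝ) + 1) ^ s := by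
      exact_mod_cast c1
    have d2 : ((s : ℝ) + 1) * ((V.card : ℝ) + 1) ^ s ≤
        ((s : ℝ) + 1) * (η / (2 * (s + 1)) * 2 ^ V.card) := mul_le_mul_of_nonneg_left c2 (by positivity)
    have d3 : ((s : ℝ) + 1) * (η / (2 * (s + 1)) * 2 ^ V.card) = η / 2 * 2 ^ V.card := by
      field_simp
    linarith
  have c5 : R.card = R'.card + (R.filter (fun A => A.card ≤ s)).card := by
    rw [hR', ← card_filter_add_card_filter_not (s := R) (fun A => s < A.card)]
    congr 2
    refine filter_congr fun A _ => ?_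
    exact not_lt
  have c6 : (R.card : ℝ) = (R'.card : ℝ) + ((R.filter (fun A => A.card ≤ s)).card : ℝ) := by
    exact_mod_cast c5
  rw [c6]
  nlinarith

end Pool.Agent.H26.LT
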