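import Pool.Agent.H26.LT.Avoid
import Pool.Agent.H26.LT.RowsTwo
import Pool.Agent.H26.LT.RowsGe

/-!
Module TwoC.  At least two and at most `m₀` dense centres, one of them of degree `≥ ρ n^(t-1)`.

`D = Dc V t τ H`, `m = |D|`, `2 ≤ m ≤ m₀`.  `x ∈ D` of maximal degree `d₁ ≥ ρ n^(t-1)`, `y ∈ D \ x` of maximal degree
`d₂ ≤ d₁` among `D \ x`; all other degrees of points of `D` are `≤ d₂`.
Rows: `X = {M \ x : x ∈ M ∈ H, y ∉ M}`, `Y = {M \ y : y ∈ M ∈ H, x ∉ M}`, `|X| ≥ d₁ - n^(t-2)`, `|Y| ≥ d₂ - n^(t-2)`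
(at most `n^(t-2)` sets `M` contain `x` and `y`), `2 |X ∪ Y| + |X ∩ Y| = 2|X| + 2|Y| - |X ∩ Y| ≥ 2 |X| + |Y|`.  `rows_two`:
`rows ≤ gs - 2^(n-t-1) (2 d₁ + d₂ - 3 n^(t-2))`.
Pairs: `avoid`, and for `M ∩ D ≠ ∅`: the sets `M` with `|M ∩ D| ≥ 2` are at most `m₀² n^(t-2)`, at most `2^n` sets `A` each;
if `M ∩ D = {z}` then the `A ∈ R` with `A ∩ (M ∪ D) = ∅` are a strongly `t`-avoiding family on `V \ (M ∪ D)`,
`n - (t-1) - m` points: at most `(1/2 + η) 2^(n-t+1-m)` by `mass` (`s = t`).  So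
`dp ≤ (1/2 + η) 2^(n-t+1-m) (d₁ + (m-1) d₂) + m₀² n^(t-2) 2^n`.  As `2^(2-m) ≤ 1`, `(m-1) 2^(2-m) ≤ 1` for `m ≥ 2`:
`2 dp ≤ (1/2 + η) 2^(n-t) (d₁ + d₂) + 2 m₀² n^(t-2) 2^n`.
Together `rows + 2 dp H R ≤ gs - 2^(n-t) (d₁ + d₂/2 - (1/2 + η)(d₁ + d₂)) + err ≤ gs - 2^(n-t) d₁ (1/2 - 2 η) + err` (`d₂ ≤ d₁`),
`η = 1/8`: `≤ gs - 2^(-t) (ρ/4) un + (2 t 2^t τ + η') un`, where `η'` is arbitrarily small; `τ₀ = ρ / (32 t 4^t)`,
`γ = ρ 2^(-t) / 8`.
-/

open Finset Pool.Agent.H37 Pool.Agent.H37.AV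

namespace Pool.Agent.H26.LT

/-- Few members of `H` contain two given points. -/
private lemma twoC_pair {V : Finset ℕ} {t : ℕ} {R H : Finset (Finset ℕ)} (hH : Hv V t R H)
    {x y : ℕ} (hxy : x ≠ y) : (H.filter (fun M => x ∈ M ∧ y ∈ M)).card ≤ V.card ^ (t - 2) := by
  classical
  have h1 : (H.filter (fun M => x ∈ M ∧ y ∈ M)).card ≤ (V.powersetCard (t - 2)).card := by
    refine card_le_card_of_injOn (fun M => (M.erase x).erase y) ?_ ?_
    · intro M hM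
      simp only [mem_coe, mem_filter] at hM
      obtain ⟨hMH, hx, hy⟩ := hM
      simp only [mem_coe, mem_powersetCard]
      refine ⟨(erase_subset _ _).trans ((erase_subset _ _).trans (hH.sub M hMH)), ?_⟩
      rw [card_erase_of_mem (mem_erase.2 ⟨hxy.symm, hy⟩), card_erase_of_mem hx, hH.crd M hMH]
      omega
    · intro M hM M' hM' hE
      simp only [mem_coe, mem_filter] at hM hM'
      have hE' : (M.erase x).erase y = (M'.erase x).erase y := hE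
      have h2 : M.erase x = M'.erase x := by
        rw [← insert_erase (mem_erase.2 ⟨hxy.symm, hM.2.2⟩), hE',
          insert_erase (mem_erase.2 ⟨hxy.symm, hM'.2.2⟩)]
      rw [← insert_erase hM.2.1, h2, insert_erase hM'.2.1]
  rw [card_powersetCard] at h1
  exact h1.trans (Nat.choose_le_pow _ _)

/-- The sets `M \ x` for `x ∈ M ∈ H`, `y ∉ M`. -/
private lemma twoC_X {V : Finset ℕ} {t : ℕ} {R H : Finset (Finset ℕ)} (hH : Hv V t R H)
    {x y : ℕ} (hxy : x ≠ y) : ∃ X : Finset (Finset ℕ),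
      (∀ K ∈ X, K ⊆ V \ {x, y} ∧ K.card + 1 = t) ∧ (∀ K ∈ X, ∀ A ∈ R, ¬ insert x K ⊆ A) ∧
      dg H x ≤ X.card + V.card ^ (t - 2) := by
  classical
  refine ⟨(H.filter (fun M => x ∈ M ∧ y ∉ M)).image (fun M => M.erase x), ?_, ?_, ?_⟩
  · intro K hK
    obtain ⟨M, hM, rfl⟩ := mem_image.1 hK
    obtain ⟨hMH, hx, hy⟩ := mem_filter.1 hM
    refine ⟨fun z hz => ?_, ?_⟩
    · obtain ⟨h1, h2⟩ := mem_erase.1 hz
      refine mem_sdiff.2 ⟨hH.sub M hMH h2, fun h3 => ?_⟩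
      rcases mem_insert.1 h3 with h4 | h4
      · exact h1 h4
      · exact hy (by rw [← mem_singleton.1 h4]; exact h2)
    · rw [card_erase_of_mem hx, hH.crd M hMH]
      have : 0 < M.card := card_pos.2 ⟨x, hx⟩
      rw [hH.crd M hMH] at this
      omega
  · intro K hK A hA h1
    obtain ⟨M, hM, rfl⟩ := mem_image.1 hK
    obtain ⟨hMH, hx, hy⟩ := mem_filter.1 hM
    rw [insert_erase hx] at h1
    exact hH.out M hMH A hA h1
  · have h1 : ((H.filter (fun M => x ∈ M ∧ y ∉ M)).image (fun M => M.erase x)).card =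
        (H.filter (fun M => x ∈ M ∧ y ∉ M)).card := by
      refine card_image_of_injOn fun M hM M' hM' hE => ?_
      simp only [mem_coe, mem_filter] at hM hM'
      have hE' : M.erase x = M'.erase x := hE
      rw [← insert_erase hM.2.1, hE', insert_erase hM'.2.1]
    have h2 : dg H x ≤ (H.filter (fun M => x ∈ M ∧ y ∉ M)).card +
        (H.filter (fun M => x ∈ M ∧ y ∈ M)).card := by
      unfold dg
      refine le_trans (card_le_card fun M hM => ?_) (card_union_le _ _)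
      obtain ⟨h3, h4⟩ := mem_filter.1 hM
      by_cases h5 : y ∈ M
      · exact mem_union_right _ (mem_filter.2 ⟨h3, h4, h5⟩)
      · exact mem_union_left _ (mem_filter.2 ⟨h3, h4, h5⟩)
    rw [h1]
    exact h2.trans (Nat.add_le_add_left (twoC_pair hH hxy) _)

/-- The rows. -/
private lemma twoC_rows {V : Finset ℕ} {t : ℕ} {R H : Finset (Finset ℕ)} (ht : 2 ≤ t)
    (hn : t + 1 ≤ V.card) (hR : Av V t R) (hH : Hv V t R H)
    {x y : ℕ} (hx : x ∈ V) (hy : y ∈ V) (hxy : x ≠ y) :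
    ((rows V t R).card : ℝ) + 2 ^ V.card / 2 ^ (t + 1) * (2 * dg H x + dg H y) ≤
      gs V.card t + 2 ^ V.card / 2 ^ (t + 1) * (3 * (V.card : ℝ) ^ (t - 2)) := by
  classical
  obtain ⟨X, hX1, hX2, hX3⟩ := twoC_X hH hxy
  obtain ⟨Y, hY1, hY2, hY3⟩ := twoC_X hH hxy.symm
  have h1 := rows_two (by omega : 1 ≤ t) hR hx hy hxy hX1
    (fun K hK => by rw [pair_comm x y]; exact hY1 K hK) hX2 hY2
  have h2 : (X ∪ Y).card + (X ∩ Y).card = X.card + Y.card := card_union_add_card_inter X Y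
  have h3 : (X ∩ Y).card ≤ Y.card := card_le_card inter_subset_right
  have h4 : 2 * dg H x + dg H y ≤ 2 * (X ∪ Y).card + (X ∩ Y).card + 3 * V.card ^ (t - 2) := by
    omega
  have h5 : ((2 ^ (V.card - t - 1) : ℕ) : ℝ) = 2 ^ V.card / 2 ^ (t + 1) := by
    rw [show V.card - t - 1 = V.card - (t + 1) by omega]
    push_cast
    rw [pow_sub₀ _ (by norm_num) hn]
    rfl
  have h6 : ((rows V t R).card : ℝ) + 2 ^ V.card / 2 ^ (t + 1) *
      (2 * (X ∪ Y).card + (X ∩ Y).card : ℝ) ≤ gs V.card t := by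
    rw [← h5]
    exact_mod_cast h1
  have h7 : (2 * dg H x + dg H y : ℝ) ≤
      (2 * (X ∪ Y).card + (X ∩ Y).card : ℝ) + 3 * (V.card : ℝ) ^ (t - 2) := by
    exact_mod_cast h4
  have h8 : (0 : ℝ) ≤ 2 ^ V.card / 2 ^ (t + 1) := by positivity
  have h9 := mul_le_mul_of_nonneg_left h7 h8
  rw [mul_add] at h9
  linarith

/-- The pairs. -/
private lemma twoC_pairs {V D : Finset ℕ} {t : ℕ} {R H : Finset (Finset ℕ)}
    (hR : Av V t R) (hH : Hv V t R H) {c : ℝ} (hc : 0 ≤ c)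
    (h : ∀ M ∈ H, (M ∩ D).card = 1 →
      (((R.filter (fun A => Disjoint A D)).filter (fun A => Disjoint M A)).card : ℝ) ≤ c) :
    (dp (H.filter (fun M => ¬ Disjoint M D)) (R.filter (fun A => Disjoint A D)) : ℝ) ≤
      c * (∑ z ∈ D, dg H z : ℕ) + 2 ^ V.card * ((D.card : ℝ) * D.card * (V.card : ℝ) ^ (t - 2)) := by
  classical
  have hR1 : ((R.filter (fun A => Disjoint A D)).card : ℝ) ≤ 2 ^ V.card := by
    have h1 : (R.filter (fun A => Disjoint A D)).card ≤ V.powerset.card :=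
      card_le_card ((filter_subset _ _).trans fun A hA => mem_powerset.2 (hR.sub A hA))
    rw [card_powerset] at h1
    exact_mod_cast h1
  have hf : ∀ M ∈ H.filter (fun M => ¬ Disjoint M D),
      (((R.filter (fun A => Disjoint A D)).filter (fun A => Disjoint M A)).card : ℝ) ≤
        c * (M ∩ D).card + (if 2 ≤ (M ∩ D).card then 2 ^ V.card else 0) := by
    intro M hM
    obtain ⟨hMH, hMD⟩ := mem_filter.1 hM
    have h1 : 0 < (M ∩ D).card := by
      rw [card_pos]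
      exact not_disjoint_iff_nonempty_inter.1 hMD
    by_cases h2 : 2 ≤ (M ∩ D).card
    · rw [if_pos h2]
      have h3 : (((R.filter (fun A => Disjoint A D)).filter (fun A => Disjoint M A)).card : ℝ) ≤
          (R.filter (fun A => Disjoint A D)).card := by
        exact_mod_cast card_filter_le _ _
      have h4 : 0 ≤ c * (M ∩ D).card := by positivity
      linarith
    · rw [if_neg h2]
      have h3 : (M ∩ D).card = 1 := by omega
      rw [h3, add_zero, Nat.cast_one, mul_one]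
      exact h M hMH h3
  rw [dp_eq_sum]
  push_cast
  refine (sum_le_sum hf).trans ?_
  rw [sum_add_distrib, ← mul_sum]
  refine add_le_add ?_ ?_
  · refine mul_le_mul_of_nonneg_left ?_ hc
    have h1 : ∑ M ∈ H.filter (fun M => ¬ Disjoint M D), ((M ∩ D).card : ℝ) ≤
        ∑ M ∈ H, ((M ∩ D).card : ℝ) :=
      sum_le_sum_of_subset_of_nonneg (filter_subset _ _) fun _ _ _ => Nat.cast_nonneg _
    refine h1.trans (le_of_eq ?_)
    have h2 : ∑ M ∈ H, (M ∩ D).card = ∑ z ∈ D, dg H z := by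
      have h3 : ∀ M ∈ H, (M ∩ D).card = ∑ z ∈ D, if z ∈ M then 1 else 0 := by
        intro M _
        rw [← card_filter]
        congr 1
        ext z
        simp only [mem_inter, mem_filter]
        tauto
      rw [sum_congr rfl h3, sum_comm]
      refine sum_congr rfl fun z _ => ?_
      unfold dg
      rw [card_filter]
    exact_mod_cast h2
  · rw [← sum_filter, sum_const, nsmul_eq_mul, mul_comm]
    refine mul_le_mul_of_nonneg_left ?_ (by positivity)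
    have h1 : ((H.filter (fun M => ¬ Disjoint M D)).filter (fun M => 2 ≤ (M ∩ D).card)).card ≤
        (D.offDiag.biUnion fun p => H.filter (fun M => p.1 ∈ M ∧ p.2 ∈ M)).card := by
      refine card_le_card fun M hM => ?_
      obtain ⟨h2, h3⟩ := mem_filter.1 hM
      obtain ⟨a, ha, b, hb, hab⟩ := one_lt_card.1 (by omega : 1 < (M ∩ D).card)
      refine mem_biUnion.2 ⟨(a, b), mem_offDiag.2 ⟨(mem_inter.1 ha).2, (mem_inter.1 hb).2, hab⟩, ?_⟩
      exact mem_filter.2 ⟨(mem_filter.1 h2).1, (mem_inter.1 ha).1, (mem_inter.1 hb).1⟩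
    have h4 : (D.offDiag.biUnion fun p => H.filter (fun M => p.1 ∈ M ∧ p.2 ∈ M)).card ≤
        D.offDiag.card * V.card ^ (t - 2) := by
      refine card_biUnion_le.trans ?_
      refine (sum_le_card_nsmul _ _ (V.card ^ (t - 2)) fun p hp => ?_).trans (by rw [smul_eq_mul])
      exact twoC_pair hH (mem_offDiag.1 hp).2.2
    have h5 : D.offDiag.card ≤ D.card * D.card := by
      rw [offDiag_card]
      exact Nat.sub_le _ _
    have h6 : ((H.filter (fun M => ¬ Disjoint M D)).filter (fun M => 2 ≤ (M ∩ D).card)).card ≤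
        D.card * D.card * V.card ^ (t - 2) :=
      h1.trans (h4.trans (Nat.mul_le_mul_right _ h5))
    exact_mod_cast h6

/-- One class of pairs. -/
private lemma twoC_one {V D M : Finset ℕ} {t n₁ : ℕ} {R H : Finset (Finset ℕ)} {η : ℝ}
    (hmass : ∀ V : Finset ℕ, n₁ ≤ V.card → ∀ R : Finset (Finset ℕ), (∀ A ∈ R, A ⊆ V) →
      (∀ A ∈ R, ∀ B ∈ R, (A ∩ B).card ≠ t) → (R.card : ℝ) ≤ (1 / 2 + η) * 2 ^ V.card)
    (hR : Av V t R) (hH : Hv V t R H) (hD : D ⊆ V) (hD2 : 1 ≤ D.card)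
    (hn : n₁ + t + D.card ≤ V.card) (hM : M ∈ H) (hMD : (M ∩ D).card = 1) :
    (((R.filter (fun A => Disjoint A D)).filter (fun A => Disjoint M A)).card : ℝ) ≤
      (1 / 2 + η) * (2 ^ V.card / (2 ^ t * 2 ^ (D.card - 1))) := by
  classical
  have h1 : (M ∪ D).card + 1 = t + D.card := by
    have := card_union_add_card_inter M D
    rw [hMD, hH.crd M hM] at this
    exact this
  have h2 : M ∪ D ⊆ V := union_subset (hH.sub M hM) hD
  have h3 : (V \ (M ∪ D)).card = V.card - (M ∪ D).card := card_sdiff_of_subset h2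
  have h4 := hmass (V \ (M ∪ D)) (by omega)
    ((R.filter (fun A => Disjoint A D)).filter (fun A => Disjoint M A)) ?_ ?_
  · refine h4.trans (le_of_eq ?_)
    congr 1
    rw [h3, pow_sub₀ _ (by norm_num) (by omega), ← pow_add, div_eq_mul_inv,
      show (M ∪ D).card = t + (D.card - 1) by omega]
  · intro A hA z hz
    obtain ⟨h5, h6⟩ := mem_filter.1 hA
    obtain ⟨h7, h8⟩ := mem_filter.1 h5
    refine mem_sdiff.2 ⟨hR.sub A h7 hz, fun h9 => ?_⟩
    rcases mem_union.1 h9 with h10 | h10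
    · exact disjoint_left.1 h6 h10 hz
    · exact disjoint_left.1 h8 hz h10
  · intro A hA B hB
    exact hR.av A (mem_filter.1 (mem_filter.1 hA).1).1 B (mem_filter.1 (mem_filter.1 hB).1).1

private lemma twoC_two (m : ℕ) : (m + 1 : ℝ) ≤ 2 ^ m := by
  have h : m + 1 ≤ 2 ^ m := Nat.lt_two_pow_self
  exact_mod_cast h

theorem two_c (t : ℕ) (ht : 2 ≤ t) {ρ : ℝ} (hρ : 0 < ρ) : ∃ τ₀ γ : ℝ, 0 < τ₀ ∧ 0 < γ ∧
    ∀ τ : ℝ, 0 < τ → τ ≤ τ₀ → ∀ m₀ : ℕ, ∃ n₀ : ℕ, ∀ V : Finset ℕ, n₀ ≤ V.card →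
    ∀ R H : Finset (Finset ℕ), Av V t R → Hv V t R H →
    (∃ x ∈ V, ρ * (V.card : ℝ) ^ (t - 1) ≤ dg H x) → 2 ≤ (Dc V t τ H).card →
    (Dc V t τ H).card ≤ m₀ →
    ((rows V t R).card : ℝ) + 2 * dp H R ≤ gs V.card t - γ * un t V.card := by
  classical
  have ht1 : (1 : ℝ) ≤ t := by exact_mod_cast (by omega : 1 ≤ t)
  have ht0 : (0 : ℝ) < t := by linarith
  refine ⟨ρ / (32 * t * 4 ^ t), ρ / (8 * 2 ^ t), by positivity, by positivity,
    fun τ hτ hτ0 m₀ => ?_⟩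
  obtain ⟨n₁, hn₁⟩ := mass t (by omega) (η := 1 / 8) (by norm_num)
  obtain ⟨n₂, hn₂⟩ := avoid t ht (τ := τ) (η := ρ / (64 * 2 ^ t)) hτ (by positivity)
  obtain ⟨n₃, hn₃⟩ := low_small t ht (3 + 2 * (m₀ : ℝ) ^ 2) (η := ρ / (32 * 2 ^ t)) (by positivity)
  refine ⟨max (n₁ + t + m₀ + 1) (max n₂ n₃), fun V hV R H hR hH hx0 hD2 hDm => ?_⟩
  have hV1 : n₁ + t + m₀ + 1 ≤ V.card := (le_max_left _ _).trans hV
  have hV2 : n₂ ≤ V.card := (le_max_left _ _).trans ((le_max_right _ _).trans hV)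
  have hV3 : n₃ ≤ V.card := (le_max_right _ _).trans ((le_max_right _ _).trans hV)
  have hav := hn₂ V hV2 R H hR hH
  have hlow := hn₃ V.card hV3
  obtain ⟨D, hDdef⟩ : ∃ D, D = Dc V t τ H := ⟨_, rfl⟩
  rw [← hDdef] at hD2 hDm hav
  have hDV : D ⊆ V := by
    rw [hDdef]
    unfold Dc
    exact filter_subset _ _
  obtain ⟨x₀, hx₀V, hx₀⟩ := hx0
  have hτρ : τ ≤ ρ := by
    refine hτ0.trans (div_le_self hρ.le ?_)
    have h4 : (1 : ℝ) ≤ 4 ^ t := one_le_pow₀ (by norm_num)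
    nlinarith
  have hx₀D : x₀ ∈ D := by
    rw [hDdef]
    unfold Dc
    refine mem_filter.2 ⟨hx₀V, ?_⟩
    exact (mul_le_mul_of_nonneg_right hτρ (by positivity)).trans hx₀
  obtain ⟨x, hxD, hxmax⟩ := exists_max_image D (dg H) ⟨x₀, hx₀D⟩
  have hne : (D.erase x).Nonempty := by
    rw [← card_pos, card_erase_of_mem hxD]
    omega
  obtain ⟨y, hyD', hymax⟩ := exists_max_image (D.erase x) (dg H) hne
  obtain ⟨hyx, hyD⟩ := mem_erase.1 hyD'
  have hd1 : ρ * (V.card : ℝ) ^ (t - 1) ≤ dg H x := by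
    refine hx₀.trans ?_
    exact_mod_cast hxmax x₀ hx₀D
  have hd2 : (dg H y : ℝ) ≤ dg H x := by exact_mod_cast hxmax y hyD
  have hrows := twoC_rows ht (by omega) hR hH (hDV hxD) (hDV hyD) (Ne.symm hyx)
  obtain ⟨m, hm⟩ : ∃ m, D.card = m + 2 := ⟨D.card - 2, by omega⟩
  have hp := twoC_pairs (D := D) hR hH
    (c := (1 / 2 + 1 / 8) * (2 ^ V.card / (2 ^ t * 2 ^ (D.card - 1)))) (by positivity)
    (fun M hM hMD => twoC_one hn₁ hR hH hDV (by omega) (by omega) hM hMD)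
  have hsum : (∑ z ∈ D, dg H z) ≤ dg H x + (m + 1) * dg H y := by
    rw [← add_sum_erase D _ hxD]
    refine Nat.add_le_add_left ?_ _
    refine (sum_le_card_nsmul _ _ _ hymax).trans (le_of_eq ?_)
    rw [card_erase_of_mem hxD, hm, smul_eq_mul]
    rfl
  have hsum' : ((∑ z ∈ D, dg H z : ℕ) : ℝ) ≤ 2 ^ m * (dg H x + dg H y) := by
    have h1 : ((∑ z ∈ D, dg H z : ℕ) : ℝ) ≤ dg H x + (m + 1) * dg H y := by exact_mod_cast hsum
    have h2 := twoC_two m
    have h3 : (1 : ℝ) ≤ 2 ^ m := one_le_pow₀ (by norm_num)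
    have h4 : (0 : ℝ) ≤ dg H x := Nat.cast_nonneg _
    have h5 : (0 : ℝ) ≤ dg H y := Nat.cast_nonneg _
    nlinarith
  obtain ⟨P, hP⟩ : ∃ P : ℝ, P = 2 ^ V.card / 2 ^ t := ⟨_, rfl⟩
  have hP0 : 0 ≤ P := by rw [hP]; positivity
  have hc : (1 / 2 + 1 / 8) * ((2 : ℝ) ^ V.card / (2 ^ t * 2 ^ (D.card - 1))) =
      5 / 16 * P / 2 ^ m := by
    rw [hP, hm, show m + 2 - 1 = m + 1 by omega, pow_succ]
    field_simp
    norm_num
  have hcS : (1 / 2 + 1 / 8) * ((2 : ℝ) ^ V.card / (2 ^ t * 2 ^ (D.card - 1))) *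
      (∑ z ∈ D, dg H z : ℕ) ≤ 5 / 16 * P * (dg H x + dg H y) := by
    rw [hc]
    refine (mul_le_mul_of_nonneg_left hsum' (by positivity)).trans (le_of_eq ?_)
    field_simp
  have hP2 : (2 : ℝ) ^ V.card / 2 ^ (t + 1) = P / 2 := by
    rw [hP, pow_succ]
    field_simp
  rw [hP2] at hrows
  have hPn : P ≤ 2 ^ V.card := by
    rw [hP]
    exact div_le_self (by positivity) (one_le_pow₀ (by norm_num))
  obtain ⟨L, hL⟩ : ∃ L : ℝ, L = (V.card : ℝ) ^ (t - 2) * 2 ^ V.card := ⟨_, rfl⟩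
  have hL0 : 0 ≤ L := by rw [hL]; positivity
  have hlow' : (3 + 2 * (m₀ : ℝ) ^ 2) * L ≤ ρ / (32 * 2 ^ t) * un t V.card := by
    rw [hL, ← mul_assoc]
    exact hlow
  have e1 : P / 2 * (3 * (V.card : ℝ) ^ (t - 2)) ≤ 3 * L := by
    rw [hL]
    have h1 : (0 : ℝ) ≤ (V.card : ℝ) ^ (t - 2) := by positivity
    nlinarith
  have e2 : (2 : ℝ) ^ V.card * ((D.card : ℝ) * D.card * (V.card : ℝ) ^ (t - 2)) ≤
      (m₀ : ℝ) ^ 2 * L := by
    have h1 : (D.card : ℝ) ≤ m₀ := by exact_mod_cast hDm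
    have h2 : (D.card : ℝ) * D.card ≤ (m₀ : ℝ) ^ 2 := by
      rw [pow_two]
      exact mul_le_mul h1 h1 (Nat.cast_nonneg _) (Nat.cast_nonneg _)
    calc (2 : ℝ) ^ V.card * ((D.card : ℝ) * D.card * (V.card : ℝ) ^ (t - 2))
        = (D.card : ℝ) * D.card * L := by rw [hL]; ring
      _ ≤ _ := mul_le_mul_of_nonneg_right h2 hL0
  have hU := un_nonneg t V.card
  have e3 : (t * 2 ^ t * τ + ρ / (64 * 2 ^ t)) * un t V.card ≤
      3 * (ρ / (64 * 2 ^ t)) * un t V.card := by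
    refine mul_le_mul_of_nonneg_right ?_ hU
    have h1 : t * 2 ^ t * τ ≤ t * 2 ^ t * (ρ / (32 * t * 4 ^ t)) :=
      mul_le_mul_of_nonneg_left hτ0 (by positivity)
    have h2 : (t : ℝ) * 2 ^ t * (ρ / (32 * t * 4 ^ t)) = 2 * (ρ / (64 * 2 ^ t)) := by
      have h3 : (4 : ℝ) ^ t = 2 ^ t * 2 ^ t := by
        rw [← mul_pow]
        norm_num
      rw [h3]
      field_simp
      norm_num
    linarith
  have e4 : ρ / 2 ^ t * un t V.card ≤ P * dg H x := by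
    have h1 : ρ / 2 ^ t * un t V.card = P * (ρ * (V.card : ℝ) ^ (t - 1)) := by
      rw [hP]
      unfold un
      field_simp
    rw [h1]
    exact mul_le_mul_of_nonneg_left hd1 hP0
  have e5 : P * dg H y ≤ P * dg H x := mul_le_mul_of_nonneg_left hd2 hP0
  have r1 : ρ / (32 * 2 ^ t) = ρ / 2 ^ t / 32 := by field_simp
  have r2 : ρ / (64 * 2 ^ t) = ρ / 2 ^ t / 64 := by field_simp
  have r3 : ρ / (8 * 2 ^ t) = ρ / 2 ^ t / 8 := by field_simp
  rw [r1] at hlow'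
  rw [r2] at hav e3
  rw [r3]
  obtain ⟨Z, hZ⟩ : ∃ Z : ℝ, Z = ρ / 2 ^ t * un t V.card := ⟨_, rfl⟩
  have f1 : ρ / 2 ^ t / 32 * un t V.card = Z / 32 := by rw [hZ]; ring
  have f2 : 3 * (ρ / 2 ^ t / 64) * un t V.card = 3 * Z / 64 := by rw [hZ]; ring
  have f3 : ρ / 2 ^ t / 8 * un t V.card = Z / 8 := by rw [hZ]; ring
  rw [f1] at hlow'
  rw [f2] at e3
  rw [f3]
  rw [← hZ] at e4
  nlinarith

end Pool.Agent.H26.LT
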