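import Pool.Agent.H26.LT.Beta
import Pool.Agent.H26.LT.Alpha
import Pool.Agent.H26.LT.Many
import Pool.Agent.H26.LT.TwoC
import Pool.Agent.H26.LT.Par

/-!
Module Key.  Assembly of the cases; `H ≠ ∅`.

`ρ = τ` of `zero`.  If all degrees are `≤ ρ n^(t-1)`: `zero`.  Otherwise there is `x` with `dg H x ≥ ρ n^(t-1)`.  `ε₂` from
`beta`; `τ = min` of the `τ` of `alpha` (`ε₂`, `ρ`), of `two_c` (`ρ`), of `many`, and `ρ`; `D = Dc V t τ H ∋ x`.
`|D| ≥ m₀`: `many`; `2 ≤ |D| < m₀`: `two_c`; `|D| = 1`: `D = {x}`, all `z ≠ x` have degree `< τ n^(t-1)`; `alpha` or `beta`.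
In all cases but `beta`: `rows + 2 dp H R ≤ gs - γ un`; `base_lower` (H37/AV/BaseLower) with `δ = γ / (2t)` and
`gs ≤ t un`: `2 W(base) ≥ gs - (γ/2) un`; `poly_small`.  `beta`: `par` with `k = 2 t`.
-/

open Finset Pool.Agent.H37 Pool.Agent.H37.AV

namespace Pool.Agent.H26.LT

theorem key (t : ℕ) (ht : 2 ≤ t) : ∃ n₀ : ℕ, ∀ n ≥ n₀, ∀ R H : Finset (Finset ℕ),
    Av (Icc 1 n) t R → Hv (Icc 1 n) t R H → H.Nonempty →
    (rows (Icc 1 n) t R).card + 2 * dp H R + 2 * (n + 1) ^ (2 * t) ≤
      2 * WK.W n t (WK.base n t) := by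
  classical
  obtain ⟨ε₂, hε₂, hbeta⟩ := beta t ht
  obtain ⟨ρ, γ0, hρ, hγ0, n0, hzero⟩ := zero t ht
  obtain ⟨nβ, hbeta'⟩ := hbeta ρ hρ
  obtain ⟨τα, γα, hτα, hγα, nα, halpha⟩ := alpha t ht hε₂ hρ
  obtain ⟨τ2, γ2, hτ2, hγ2, htwo⟩ := two_c t ht hρ
  obtain ⟨τm, γm, hτm, hγm, m₀, hmany⟩ := many t ht
  obtain ⟨τ, hτd⟩ : ∃ τ : ℝ, τ = min (min τα τ2) (min τm ρ) := ⟨_, rfl⟩
  have hτ : 0 < τ := by
    rw [hτd]; exact lt_min (lt_min hτα hτ2) (lt_min hτm hρ)
  have hττα : τ ≤ τα := by rw [hτd]; exact (min_le_left _ _).trans (min_le_left _ _)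
  have hττ2 : τ ≤ τ2 := by rw [hτd]; exact (min_le_left _ _).trans (min_le_right _ _)
  have hττm : τ ≤ τm := by rw [hτd]; exact (min_le_right _ _).trans (min_le_left _ _)
  have hτρ : τ ≤ ρ := by rw [hτd]; exact (min_le_right _ _).trans (min_le_right _ _)
  obtain ⟨n2, htwo'⟩ := htwo τ hτ hττ2 m₀
  obtain ⟨nm, hmany'⟩ := hmany τ hτ hττm
  obtain ⟨γ, hγd⟩ : ∃ γ : ℝ, γ = min (min γ0 γα) (min γ2 γm) := ⟨_, rfl⟩
  have hγ : 0 < γ := by
    rw [hγd]; exact lt_min (lt_min hγ0 hγα) (lt_min hγ2 hγm)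
  have hγ0' : γ ≤ γ0 := by rw [hγd]; exact (min_le_left _ _).trans (min_le_left _ _)
  have hγα' : γ ≤ γα := by rw [hγd]; exact (min_le_left _ _).trans (min_le_right _ _)
  have hγ2' : γ ≤ γ2 := by rw [hγd]; exact (min_le_right _ _).trans (min_le_left _ _)
  have hγm' : γ ≤ γm := by rw [hγd]; exact (min_le_right _ _).trans (min_le_right _ _)
  have htpos : (0 : ℝ) < t := by
    have : 0 < t := by omega
    exact_mod_cast this
  obtain ⟨nb, hbase⟩ := base_lower t (by omega) (δ := γ / (2 * t)) (by positivity)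
  obtain ⟨np, hpoly⟩ := poly_small t (2 * t) (η := γ / 4) (by positivity)
  obtain ⟨npar, hpar⟩ := par t (2 * t) ht
  refine ⟨n0 + nβ + nα + n2 + nm + nb + np + npar + 1, fun n hn R H hR hH hne => ?_⟩
  have hV : (Icc 1 n).card = n := by rw [Nat.card_Icc, Nat.add_sub_cancel]
  have hn1 : 1 ≤ n := by omega
  -- a gap is enough
  have hgap : ((rows (Icc 1 n) t R).card : ℝ) + 2 * dp H R ≤ gs n t - γ * un t n →
      (rows (Icc 1 n) t R).card + 2 * dp H R + 2 * (n + 1) ^ (2 * t) ≤
        2 * WK.W n t (WK.base n t) := by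
    intro hg
    have h1 := hbase n (by omega)
    rw [slots_card, hV] at h1
    have h2 := hpoly n (by omega)
    have h3 : (gs n t : ℝ) ≤ t * un t n := gs_le_un (by omega) hn1
    have h4 : (gs n t : ℝ) * (γ / (2 * t)) ≤ γ / 2 * un t n := by
      have h5 : (gs n t : ℝ) * (γ / (2 * t)) ≤ (t * un t n) * (γ / (2 * t)) :=
        mul_le_mul_of_nonneg_right h3 (by positivity)
      have h6 : ((t : ℝ) * un t n) * (γ / (2 * t)) = γ / 2 * un t n := by
        field_simp
      linarith
    have h7 : ((rows (Icc 1 n) t R).card : ℝ) + 2 * dp H R + 2 * ((n : ℝ) + 1) ^ (2 * t) ≤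
        2 * (WK.W n t (WK.base n t) : ℝ) := by
      have h8 : (gs n t : ℝ) * (1 - γ / (2 * t)) = gs n t - gs n t * (γ / (2 * t)) := by ring
      rw [h8] at h1
      linarith
    exact_mod_cast h7
  -- degrees
  by_cases hall : ∀ x ∈ Icc 1 n, (dg H x : ℝ) ≤ ρ * (((Icc 1 n).card : ℕ) : ℝ) ^ (t - 1)
  · have h1 := hzero (Icc 1 n) (by rw [hV]; omega) R H hR hH hne hall
    rw [hV] at h1
    refine hgap (h1.trans ?_)
    have := mul_le_mul_of_nonneg_right hγ0' (un_nonneg t n)
    linarith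
  · push Not at hall
    obtain ⟨x, hx, hxd⟩ := hall
    by_cases hm : m₀ ≤ (Dc (Icc 1 n) t τ H).card
    · have h1 := hmany' (Icc 1 n) (by rw [hV]; omega) R H hR hH hne hm
      rw [hV] at h1
      refine hgap (h1.trans ?_)
      have := mul_le_mul_of_nonneg_right hγm' (un_nonneg t n)
      linarith
    · by_cases h2 : 2 ≤ (Dc (Icc 1 n) t τ H).card
      · have h1 := htwo' (Icc 1 n) (by rw [hV]; omega) R H hR hH ⟨x, hx, hxd.le⟩ h2 (by omega)
        rw [hV] at h1
        refine hgap (h1.trans ?_)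
        have := mul_le_mul_of_nonneg_right hγ2' (un_nonneg t n)
        linarith
      · -- one dense centre
        have hpw : (0 : ℝ) ≤ (((Icc 1 n).card : ℕ) : ℝ) ^ (t - 1) := by positivity
        have hxD : x ∈ Dc (Icc 1 n) t τ H := by
          unfold Dc
          rw [mem_filter]
          exact ⟨hx, (mul_le_mul_of_nonneg_right hτρ hpw).trans hxd.le⟩
        have hD1 : (Dc (Icc 1 n) t τ H).card ≤ 1 := by omega
        have hz : ∀ z ∈ Icc 1 n, z ≠ x →
            (dg H z : ℝ) ≤ τ * (((Icc 1 n).card : ℕ) : ℝ) ^ (t - 1) := by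
          intro z hz hzx
          by_contra hcon
          push Not at hcon
          have hzD : z ∈ Dc (Icc 1 n) t τ H := by
            unfold Dc
            rw [mem_filter]
            exact ⟨hz, hcon.le⟩
          exact hzx (card_le_one.1 hD1 z hzD x hxD)
        by_cases hhalf : ((R.filter (fun A => x ∉ A)).card : ℝ) ≤
            (1 / 2 - ε₂) * 2 ^ ((Icc 1 n).card - 1)
        · have h1 := halpha (Icc 1 n) (by rw [hV]; omega) R H hR hH x hx hxd.le hhalf (by
            intro z hz'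
            by_cases hzx : z = x
            · subst hzx
              have h0 : dg (H.filter (fun M => z ∉ M)) z = 0 := by
                unfold dg
                rw [card_eq_zero, filter_filter, filter_eq_empty_iff]
                intro M _ hM
                exact hM.1 hM.2
              rw [h0]
              push_cast
              positivity
            · have h3 : dg (H.filter (fun M => x ∉ M)) z ≤ dg H z := by
                unfold dg
                exact card_le_card (filter_subset_filter _ (filter_subset _ _))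
              have h4 : (dg (H.filter (fun M => x ∉ M)) z : ℝ) ≤ dg H z := by exact_mod_cast h3
              exact h4.trans ((hz z hz' hzx).trans (mul_le_mul_of_nonneg_right hττα hpw)))
          rw [hV] at h1
          refine hgap (h1.trans ?_)
          have := mul_le_mul_of_nonneg_right hγα' (un_nonneg t n)
          linarith
        · push Not at hhalf
          have h1 := hbeta' (Icc 1 n) (by rw [hV]; omega) R H hR hH x hx hxd.le hhalf.le
          rw [hV] at h1
          have h3 := hpar n (by omega)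
          omega

end Pool.Agent.H26.LT
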