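import Pool.Agent.H26.LT.Defs

/-!
Module Match.  Sets containing no member of a `k`-uniform family of maximal degree `≤ Δ`.

Let `𝓜 ⊆ ℋ` be a maximal subfamily of pairwise disjoint sets, `m = |𝓜|`, `T = ⋃ 𝓜`, `|T| = k m`.  Every member
of `ℋ` meets `T` (otherwise it could be added; a member is not empty as `1 ≤ k`), so `|ℋ| ≤ k m Δ`.
`#{A ⊆ V : no M ∈ 𝓜 is contained in A} 2^(k m) ≤ 2^|V| (2^k - 1)^m`: induction over the pairwise disjoint family
(`A ↦ (A \ M, A ∩ M)` with `A ∩ M ≠ M`).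
`match_exp`: `((2^k - 1)/2^k)^m ≤ exp (- m / 2^k)`.
-/

open Finset

namespace Pool.Agent.H26.LT

open Classical in
private theorem cnt {k : ℕ} (𝓜 : Finset (Finset ℕ)) : ∀ V : Finset ℕ, (∀ M ∈ 𝓜, M ⊆ V) →
    (∀ M ∈ 𝓜, M.card = k) → (∀ M ∈ 𝓜, ∀ N ∈ 𝓜, M ≠ N → Disjoint M N) →
    (V.powerset.filter (fun A => ∀ M ∈ 𝓜, ¬ M ⊆ A)).card * 2 ^ (k * 𝓜.card) ≤
      2 ^ V.card * (2 ^ k - 1) ^ 𝓜.card := by
  induction 𝓜 using Finset.induction_on with
  | empty =>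
    intro V _ _ _
    simp
  | insert M 𝓜 hM ih =>
    intro V hV hc hd
    have hMV : M ⊆ V := hV M (mem_insert_self _ _)
    have hMc : M.card = k := hc M (mem_insert_self _ _)
    have hdis : ∀ N ∈ 𝓜, Disjoint N M := fun N hN =>
      hd N (mem_insert_of_mem hN) M (mem_insert_self _ _) (fun h => hM (h ▸ hN))
    have h1 := ih (V \ M) (fun N hN => by
        intro x hx
        exact mem_sdiff.mpr ⟨hV N (mem_insert_of_mem hN) hx,
          fun hxM => (Finset.disjoint_left.mp (hdis N hN)) hx hxM⟩)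
      (fun N hN => hc N (mem_insert_of_mem hN))
      (fun N hN P hP => hd N (mem_insert_of_mem hN) P (mem_insert_of_mem hP))
    have hcard : (V \ M).card + k = V.card := by
      rw [← hMc, card_sdiff_add_card_eq_card hMV]
    have hinj : (V.powerset.filter (fun A => ∀ N ∈ insert M 𝓜, ¬ N ⊆ A)).card ≤
        (((V \ M).powerset.filter (fun A => ∀ N ∈ 𝓜, ¬ N ⊆ A)) ×ˢ (M.powerset.erase M)).card := by
      apply card_le_card_of_injOn (fun A => (A \ M, A ∩ M))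
      · intro A hA
        obtain ⟨hAV, hA'⟩ := mem_filter.mp (mem_coe.mp hA)
        rw [mem_powerset] at hAV
        rw [mem_coe, mem_product]
        refine ⟨mem_filter.mpr ⟨mem_powerset.mpr (sdiff_subset_sdiff hAV (Subset.refl M)), ?_⟩,
          mem_erase.mpr ⟨?_, mem_powerset.mpr inter_subset_right⟩⟩
        · intro N hN hNA
          exact hA' N (mem_insert_of_mem hN) (hNA.trans sdiff_subset)
        · intro h
          exact hA' M (mem_insert_self _ _) (inter_eq_right.mp h)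
      · intro A _ B _ hAB
        simp only [Prod.mk.injEq] at hAB
        rw [← sdiff_union_inter A M, ← sdiff_union_inter B M, hAB.1, hAB.2]
    have he : (M.powerset.erase M).card = 2 ^ k - 1 := by
      rw [card_erase_of_mem (mem_powerset_self M), card_powerset, hMc]
    rw [card_product, he] at hinj
    rw [card_insert_of_notMem hM]
    have hpow : 2 ^ V.card = 2 ^ (V \ M).card * 2 ^ k := by
      rw [← pow_add, hcard]
    calc (V.powerset.filter (fun A => ∀ N ∈ insert M 𝓜, ¬ N ⊆ A)).card * 2 ^ (k * (𝓜.card + 1))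
        ≤ (((V \ M).powerset.filter (fun A => ∀ N ∈ 𝓜, ¬ N ⊆ A)).card * (2 ^ k - 1)) *
          2 ^ (k * (𝓜.card + 1)) := Nat.mul_le_mul_right _ hinj
      _ = (((V \ M).powerset.filter (fun A => ∀ N ∈ 𝓜, ¬ N ⊆ A)).card * 2 ^ (k * 𝓜.card)) *
          (2 ^ k * (2 ^ k - 1)) := by
          rw [Nat.mul_add, pow_add, mul_one]
          ring
      _ ≤ (2 ^ (V \ M).card * (2 ^ k - 1) ^ 𝓜.card) * (2 ^ k * (2 ^ k - 1)) :=
          Nat.mul_le_mul_right _ h1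
      _ = 2 ^ V.card * (2 ^ k - 1) ^ (𝓜.card + 1) := by
          rw [hpow, pow_succ]
          ring

open Classical in
theorem match_count {V : Finset ℕ} {k : ℕ} (hk : 1 ≤ k) {ℋ : Finset (Finset ℕ)}
    (hV : ∀ M ∈ ℋ, M ⊆ V) (hc : ∀ M ∈ ℋ, M.card = k) {Δ : ℕ}
    (hΔ : ∀ x ∈ V, (ℋ.filter (fun M => x ∈ M)).card ≤ Δ) :
    ∃ m : ℕ, ℋ.card ≤ k * m * Δ ∧
      (V.powerset.filter (fun A => ∀ M ∈ ℋ, ¬ M ⊆ A)).card * 2 ^ (k * m) ≤
        2 ^ V.card * (2 ^ k - 1) ^ m := by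
  let P : Finset (Finset (Finset ℕ)) :=
    ℋ.powerset.filter (fun 𝓜 => ∀ M ∈ 𝓜, ∀ N ∈ 𝓜, M ≠ N → Disjoint M N)
  have hP : P.Nonempty := ⟨∅, mem_filter.mpr ⟨mem_powerset.mpr (empty_subset _), by simp⟩⟩
  obtain ⟨𝓜, h𝓜, hmax⟩ := exists_max_image P card hP
  obtain ⟨hsub, hdis⟩ := mem_filter.mp h𝓜
  rw [mem_powerset] at hsub
  have hmeet : ∀ H ∈ ℋ, ∃ x ∈ H, x ∈ 𝓜.biUnion id := by
    intro H hH
    by_contra hcon
    push Not at hcon
    have hne : H.Nonempty := by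
      rw [← card_pos, hc H hH]
      exact hk
    have hnot : H ∉ 𝓜 := by
      intro h
      obtain ⟨x, hx⟩ := hne
      exact hcon x hx (mem_biUnion.mpr ⟨H, h, hx⟩)
    have hd' : ∀ N ∈ 𝓜, Disjoint H N := by
      intro N hN
      rw [Finset.disjoint_left]
      intro x hx hxN
      exact hcon x hx (mem_biUnion.mpr ⟨N, hN, hxN⟩)
    have hin : insert H 𝓜 ∈ P := by
      refine mem_filter.mpr ⟨mem_powerset.mpr (insert_subset hH hsub), ?_⟩
      intro M hM N hN hMN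
      rcases mem_insert.mp hM with eM | hM'
      · rcases mem_insert.mp hN with eN | hN'
        · exact absurd (eM.trans eN.symm) hMN
        · rw [eM]
          exact hd' N hN'
      · rcases mem_insert.mp hN with eN | hN'
        · rw [eN]
          exact (hd' M hM').symm
        · exact hdis M hM' N hN' hMN
    have := hmax _ hin
    rw [card_insert_of_notMem hnot] at this
    omega
  refine ⟨𝓜.card, ?_, ?_⟩
  · have hT : (𝓜.biUnion id).card ≤ 𝓜.card * k :=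
      card_biUnion_le_card_mul _ _ k (fun M hM => (hc M (hsub hM)).le)
    have hTV : ∀ x ∈ 𝓜.biUnion id, x ∈ V := by
      intro x hx
      obtain ⟨M, hM, hxM⟩ := mem_biUnion.mp hx
      exact hV M (hsub hM) hxM
    have hcov : ℋ ⊆ (𝓜.biUnion id).biUnion (fun x => ℋ.filter (fun M => x ∈ M)) := by
      intro H hH
      obtain ⟨x, hx, hxT⟩ := hmeet H hH
      exact mem_biUnion.mpr ⟨x, hxT, mem_filter.mpr ⟨hH, hx⟩⟩
    calc ℋ.card ≤ _ := card_le_card hcov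
      _ ≤ (𝓜.biUnion id).card * Δ := card_biUnion_le_card_mul _ _ Δ (fun x hx => hΔ x (hTV x hx))
      _ ≤ (𝓜.card * k) * Δ := Nat.mul_le_mul_right _ hT
      _ = k * 𝓜.card * Δ := by ring
  · refine le_trans (Nat.mul_le_mul_right _ (card_le_card ?_))
      (cnt 𝓜 V (fun M hM => hV M (hsub hM)) (fun M hM => hc M (hsub hM)) hdis)
    intro A hA
    obtain ⟨h1, h2⟩ := mem_filter.mp hA
    exact mem_filter.mpr ⟨h1, fun M hM => h2 M (hsub hM)⟩

open Classical in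
theorem match_exp {V : Finset ℕ} {k : ℕ} (hk : 1 ≤ k) {ℋ : Finset (Finset ℕ)}
    (hV : ∀ M ∈ ℋ, M ⊆ V) (hc : ∀ M ∈ ℋ, M.card = k) {Δ : ℕ}
    (hΔ : ∀ x ∈ V, (ℋ.filter (fun M => x ∈ M)).card ≤ Δ) :
    ∃ m : ℕ, ℋ.card ≤ k * m * Δ ∧
      ((V.powerset.filter (fun A => ∀ M ∈ ℋ, ¬ M ⊆ A)).card : ℝ) ≤
        2 ^ V.card * Real.exp (-(m : ℝ) / 2 ^ k) := by
  obtain ⟨m, h1, h2⟩ := match_count hk hV hc hΔ
  refine ⟨m, h1, ?_⟩
  have h3 : ((V.powerset.filter (fun A => ∀ M ∈ ℋ, ¬ M ⊆ A)).card : ℝ) * 2 ^ (k * m) ≤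
      2 ^ V.card * (2 ^ k - 1) ^ m := by
    have h4 : 1 ≤ 2 ^ k := Nat.one_le_two_pow
    have := (Nat.cast_le (α := ℝ)).mpr h2
    push_cast [Nat.cast_sub h4] at this
    exact this
  have hp : (0 : ℝ) < 2 ^ k := by positivity
  have hexp : (2 : ℝ) ^ k - 1 ≤ 2 ^ k * Real.exp (-1 / 2 ^ k) := by
    have h5 := Real.add_one_le_exp (-1 / (2 : ℝ) ^ k)
    calc (2 : ℝ) ^ k - 1 = 2 ^ k * (-1 / 2 ^ k + 1) := by
          field_simp
          ring
      _ ≤ _ := mul_le_mul_of_nonneg_left h5 hp.le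
  have h0 : (0 : ℝ) ≤ 2 ^ k - 1 := by
    have : (1 : ℝ) ≤ 2 ^ k := one_le_pow₀ (by norm_num)
    linarith
  have h6 : ((2 : ℝ) ^ k - 1) ^ m ≤ 2 ^ (k * m) * Real.exp (-(m : ℝ) / 2 ^ k) := by
    calc ((2 : ℝ) ^ k - 1) ^ m ≤ (2 ^ k * Real.exp (-1 / 2 ^ k)) ^ m := pow_le_pow_left₀ h0 hexp m
      _ = 2 ^ (k * m) * Real.exp (-(m : ℝ) / 2 ^ k) := by
          rw [mul_pow, ← pow_mul, ← Real.exp_nat_mul]
          congr 2
          ring
  have h7 : ((V.powerset.filter (fun A => ∀ M ∈ ℋ, ¬ M ⊆ A)).card : ℝ) * 2 ^ (k * m) ≤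
      (2 ^ V.card * Real.exp (-(m : ℝ) / 2 ^ k)) * 2 ^ (k * m) := by
    refine h3.trans ?_
    calc (2 : ℝ) ^ V.card * (2 ^ k - 1) ^ m ≤
        2 ^ V.card * (2 ^ (k * m) * Real.exp (-(m : ℝ) / 2 ^ k)) :=
          mul_le_mul_of_nonneg_left h6 (by positivity)
      _ = _ := by ring
  exact le_of_mul_le_mul_right h7 (by positivity)

end Pool.Agent.H26.LT
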