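import Pool.Agent.H37.AV.SmallCount

/-!
Module NrM.  The variants of `nr_three`, `small_fiber`, `small_count` (H37/AV/TypeThree, SmallFiber,
SmallCount) for a set `C ⊆ V` with `t` elements which is contained in no member of `R`.

`nr_threeM`: as `nr_three`, with `E` in the second side, `|E| = t`, every `b ∈ E` captured by the first side.  The
only place where the member `B` was used is the trace `(E, K)` (`S = E`): a row `r` with `r.1 ∩ N = E` has `E ⊆ r.1`,
`|r.1| ≥ t`, so `r.1 ∈ R` contains `E`: against `hno`.  (Copy the proof; the private lemma `kap3` has to be copied or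
made public.)
`small_fiberM`: as `small_fiber`; in `h2` use `nr_threeM` in the place of `few`.
`small_countM`: as `small_count`.
-/

open Finset

namespace Pool.Agent.H26.LT

open Pool.Agent.H37.AV

private noncomputable def NrM_ix3 (K E : Finset ℕ) (S : Finset ℕ) : Slot := (S, K ∪ (E \ S))

private noncomputable def NrM_co3 (E : Finset ℕ) (S : Finset ℕ) : ℝ := (-1) ^ (E \ S).card

private lemma NrM_kap3 {K E : Finset ℕ} (hKE : Disjoint K E) (L₁ L₂ : Finset ℕ) :
    kap E.powerset (NrM_ix3 K E) (NrM_co3 E) L₁ L₂ =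
      if L₂ ⊆ K ∪ E ∧ L₁ ⊆ E \ L₂ ∧ (E \ L₂) \ L₁ = ∅ then (-1) ^ (K.card + L₂.card) else 0 := by
  unfold kap
  rw [← Finset.sum_filter]
  by_cases hL2 : L₂ ⊆ K ∪ E
  · by_cases hL1 : L₁ ⊆ E \ L₂
    · have hkey : ∑ S ∈ E.powerset.filter (fun S => L₁ ⊆ (NrM_ix3 K E S).1 ∧ L₂ ⊆ (NrM_ix3 K E S).2),
          NrM_co3 E S * (-1) ^ (((NrM_ix3 K E S).1 \ L₁).card + ((NrM_ix3 K E S).2 \ L₂).card) =
          ∑ U ∈ ((E \ L₂) \ L₁).powerset, (-1) ^ (K.card + L₂.card) * (-1 : ℝ) ^ U.card := by
        refine Finset.sum_nbij' (fun S => S \ L₁) (fun U => L₁ ∪ U) ?_ ?_ ?_ ?_ ?_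
        · intro S hS
          rw [mem_filter, mem_powerset] at hS
          simp only [NrM_ix3] at hS
          obtain ⟨hSE, hLS, hLS2⟩ := hS
          rw [mem_powerset]
          intro z hz
          rw [mem_sdiff] at hz
          rw [mem_sdiff, mem_sdiff]
          refine ⟨⟨hSE hz.1, fun hzL => ?_⟩, hz.2⟩
          rcases mem_union.1 (hLS2 hzL) with h1 | h1
          · exact disjoint_left.1 hKE h1 (hSE hz.1)
          · exact (mem_sdiff.1 h1).2 hz.1
        · intro U hU
          rw [mem_powerset] at hU
          rw [mem_filter, mem_powerset]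
          simp only [NrM_ix3]
          refine ⟨union_subset (hL1.trans sdiff_subset)
            (hU.trans (sdiff_subset.trans sdiff_subset)), subset_union_left, ?_⟩
          intro z hz
          rcases mem_union.1 (hL2 hz) with h1 | h1
          · exact mem_union_left _ h1
          · refine mem_union_right _ (mem_sdiff.2 ⟨h1, fun h2 => ?_⟩)
            rcases mem_union.1 h2 with h3 | h3
            · exact (mem_sdiff.1 (hL1 h3)).2 hz
            · exact (mem_sdiff.1 (mem_sdiff.1 (hU h3)).1).2 hz
        · intro S hS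
          rw [mem_filter, mem_powerset] at hS
          simp only [NrM_ix3] at hS
          exact union_sdiff_of_subset hS.2.1
        · intro U hU
          rw [mem_powerset] at hU
          ext z
          simp only [mem_sdiff, mem_union]
          constructor
          · rintro ⟨h1 | h1, h2⟩
            · exact absurd h1 h2
            · exact h1
          · intro h1
            exact ⟨Or.inr h1, (mem_sdiff.1 (hU h1)).2⟩
        · intro S hS
          rw [mem_filter, mem_powerset] at hS
          simp only [NrM_ix3] at hS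
          obtain ⟨hSE, hLS, hLS2⟩ := hS
          simp only [NrM_ix3, NrM_co3]
          have c1 : (K ∪ E \ S).card = K.card + (E \ S).card :=
            card_union_of_disjoint (hKE.mono_right sdiff_subset)
          have c2 : ((K ∪ E \ S) \ L₂).card + L₂.card = K.card + (E \ S).card := by
            rw [← c1]
            exact card_sdiff_add_card_eq_card hLS2
          have hsq : ∀ n : ℕ, ((-1 : ℝ) ^ n) * (-1) ^ n = 1 := by
            intro n
            rw [← mul_pow]
            simp
          have e1 : (-1 : ℝ) ^ ((K ∪ E \ S) \ L₂).card * (-1) ^ L₂.card =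
              (-1) ^ K.card * (-1) ^ (E \ S).card := by
            rw [← pow_add, ← pow_add, c2]
          rw [pow_add, pow_add]
          calc (-1 : ℝ) ^ (E \ S).card * ((-1) ^ (S \ L₁).card * (-1) ^ ((K ∪ E \ S) \ L₂).card)
              = (-1 : ℝ) ^ (E \ S).card * ((-1) ^ (S \ L₁).card *
                ((-1) ^ ((K ∪ E \ S) \ L₂).card * (-1) ^ L₂.card)) * (-1) ^ L₂.card := by
                linear_combination (-((-1 : ℝ) ^ (E \ S).card * ((-1) ^ (S \ L₁).card *
                  (-1) ^ ((K ∪ E \ S) \ L₂).card))) * hsq L₂.card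
            _ = _ := by
                rw [e1]
                linear_combination ((-1 : ℝ) ^ K.card * (-1) ^ L₂.card *
                  (-1) ^ (S \ L₁).card) * hsq (E \ S).card
      rw [hkey, ← Finset.mul_sum]
      have hz : ∑ U ∈ ((E \ L₂) \ L₁).powerset, (-1 : ℝ) ^ U.card =
          if (E \ L₂) \ L₁ = ∅ then 1 else 0 := by
        have := Finset.sum_powerset_neg_one_pow_card (x := (E \ L₂) \ L₁)
        have h2 := congrArg (fun z : ℤ => (z : ℝ)) this
        push_cast at h2
        exact h2
      rw [hz]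
      by_cases hF : (E \ L₂) \ L₁ = ∅
      · rw [if_pos hF, if_pos ⟨hL2, hL1, hF⟩, mul_one]
      · rw [if_neg hF, if_neg (fun h => hF h.2.2), mul_zero]
    · rw [if_neg (fun h => hL1 h.2.1)]
      refine Finset.sum_eq_zero fun S hS => ?_
      exfalso
      rw [mem_filter, mem_powerset] at hS
      simp only [NrM_ix3] at hS
      obtain ⟨hSE, hLS, hLS2⟩ := hS
      apply hL1
      intro z hz
      rw [mem_sdiff]
      refine ⟨hSE (hLS hz), fun hz2 => ?_⟩
      rcases mem_union.1 (hLS2 hz2) with h1 | h1
      · exact disjoint_left.1 hKE h1 (hSE (hLS hz))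
      · exact (mem_sdiff.1 h1).2 (hLS hz)
  · rw [if_neg (fun h => hL2 h.1)]
    refine Finset.sum_eq_zero fun S hS => ?_
    exfalso
    rw [mem_filter, mem_powerset] at hS
    simp only [NrM_ix3] at hS
    exact hL2 (hS.2.2.trans (union_subset_union_right sdiff_subset))

theorem nr_threeM {V : Finset ℕ} {t : ℕ} {R : Finset (Finset ℕ)} (ht : 1 ≤ t) (h : Av V t R)
    {s : Slot} (hs : s ∈ mains V t) {E : Finset ℕ} (hE : E ⊆ s.2) (hEt : E.card = t)
    (hno : ∀ A ∈ R, ¬ E ⊆ A) (hcap : ∀ b ∈ E, Cap R (ker V s) s.1 b) : NR V t R s := by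
  obtain ⟨hs1, hs2, hd, hk⟩ := mem_mains.1 hs
  have hmk : ∀ z, z ∈ ker V s ↔ z ∈ V ∧ z ∉ s.1 ∧ z ∉ s.2 := by
    intro z
    simp only [ker, mem_sdiff, mem_union, not_or]
  have hdd : ∀ z, z ∈ s.1 → z ∉ s.2 := fun z h1 h2 => (disjoint_left.1 hd) h1 h2
  have hEs : E ⊆ s.2 := hE
  have hKE : Disjoint (ker V s) E := by
    rw [disjoint_left]
    intro z hz hz2
    exact ((hmk z).1 hz).2.2 (hEs hz2)
  have hres : NR V t R (s.1 ∪ ∅, s.2 \ E ∪ E) := by
    refine loc (N := ker V s ∪ E) (T := s.1) (T' := s.2 \ E) ?_ ?_ ?_ ?_ ?_ E.powerset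
      (NrM_ix3 (ker V s) E) (NrM_co3 E) ?_ ?_ ?_ ?_ (empty_subset _) subset_union_right
      (disjoint_empty_left _) ?_
    · rw [disjoint_left]
      intro z hz hz2
      rcases mem_union.1 hz with hz | hz
      · exact ((hmk z).1 hz).2.1 hz2
      · exact hdd z hz2 (hEs hz)
    · rw [disjoint_left]
      intro z hz hz2
      rw [mem_sdiff] at hz2
      rcases mem_union.1 hz with hz | hz
      · exact ((hmk z).1 hz).2.2 hz2.1
      · exact hz2.2 hz
    · exact hd.mono_right sdiff_subset
    · ext z
      simp only [mem_union, mem_sdiff, hmk]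
      constructor
      · rintro ((hz | hz) | hz | hz)
        · exact hz.1
        · exact hs2 (hEs hz)
        · exact hs1 hz
        · exact hs2 hz.1
      · intro hz
        by_cases h1 : z ∈ E <;> by_cases h2 : z ∈ s.1 <;> by_cases h3 : z ∈ s.2 <;> tauto
    · rw [card_union_of_disjoint hKE, hEt]
      omega
    · intro S hS
      rw [mem_powerset] at hS
      refine ⟨hS.trans subset_union_right, union_subset_union_right sdiff_subset, ?_⟩
      rw [disjoint_left]
      intro z hz hz2
      rcases mem_union.1 hz2 with h1 | h1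
      · exact disjoint_left.1 hKE h1 (hS hz)
      · exact (mem_sdiff.1 h1).2 hz
    · intro S hS r hr hr1 hr2 hr3 hr4
      rw [mem_powerset] at hS
      obtain ⟨-, -, -, hr5, hr6, -⟩ := mem_rows.1 hr
      simp only [NrM_ix3] at hr3 hr4
      by_cases hSE : E ⊆ S
      · have hSE' : S = E := Subset.antisymm hS hSE
        subst hSE'
        have hsub : S ⊆ r.1 := by
          rw [← hr3]
          exact inter_subset_left
        have hR : r.1 ∈ R := by
          rcases hr5 with h | h
          · exact h
          · have := card_le_card hsub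
            omega
        exact hno r.1 hR hsub
      · obtain ⟨b, hbE, hbS⟩ := not_subset.1 hSE
        obtain ⟨A, hAR, hA1, hA2⟩ := hcap b hbE
        have hbk : b ∉ ker V s := fun hh => disjoint_left.1 hKE hh hbE
        have hcard : (insert b (ker V s)).card = t := by rw [card_insert_of_notMem hbk, hk]
        have hsub : insert b (ker V s) ⊆ r.2 := by
          intro z hz
          have : z ∈ r.2 ∩ (ker V s ∪ E) := by
            rw [hr4]
            rcases mem_insert.1 hz with rfl | hz
            · exact mem_union_right _ (mem_sdiff.2 ⟨hbE, hbS⟩)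
            · exact mem_union_left _ hz
          exact (mem_inter.1 this).1
        have hR : r.2 ∈ R := by
          rcases hr6 with h | h
          · exact h
          · have := card_le_card hsub
            omega
        refine h.av A hAR r.2 hR ?_
        have : A ∩ r.2 = insert b (ker V s) := by
          ext z
          rw [mem_inter]
          constructor
          · rintro ⟨h1, h2⟩
            rcases mem_insert.1 (hA2 h1) with rfl | h3
            · exact mem_insert_self _ _
            · rcases mem_union.1 h3 with h4 | h4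
              · exact mem_insert_of_mem h4
              · exfalso
                rcases mem_union.1 (hr2 h2) with h5 | h5
                · rcases mem_union.1 h5 with h6 | h6
                  · exact ((hmk z).1 h6).2.1 h4
                  · exact hdd z h4 (hEs h6)
                · exact hdd z h4 (mem_sdiff.1 h5).1
          · intro hz
            exact ⟨hA1 hz, hsub hz⟩
        rw [this, hcard]
    · intro M₁ M₂ hM1 hM2 hM hc
      rw [NrM_kap3 hKE, if_neg]
      rintro ⟨h1, h2, h3⟩
      have hsub : (ker V s ∪ E) \ (M₁ ∪ M₂) ⊆ ker V s := by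
        intro z hz
        rw [mem_sdiff, mem_union, mem_union] at hz
        rcases hz.1 with h4 | h4
        · exact h4
        · exfalso
          have h5 : z ∉ (E \ M₂) \ M₁ := by rw [h3]; exact notMem_empty _
          rw [mem_sdiff, mem_sdiff] at h5
          tauto
      have := card_le_card hsub
      omega
    · intro M₁ M₂
      rw [NrM_kap3 hKE]
      have ht0 : (0 : ℝ) ≤ t := Nat.cast_nonneg t
      split_ifs
      · rw [abs_pow, abs_neg, abs_one, one_pow]
        linarith
      · rw [abs_zero]
        linarith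
    · rw [NrM_kap3 hKE, if_pos]
      · rw [abs_pow, abs_neg, abs_one, one_pow]
      · exact ⟨subset_union_right, empty_subset _, by rw [sdiff_self]; rfl⟩
  rw [union_empty, sdiff_union_of_subset hEs] at hres
  exact hres

/-- The slot with sides `P' ∪ D` and the rest. -/
private def NrM_SF_sl (W C P D : Finset ℕ) : Slot := (P ∪ D, (W \ P) ∪ (C \ D))

private theorem NrM_SF_ker {V C K P D : Finset ℕ} (_hC : C ⊆ V) (hK : K ⊆ V \ C)
    (hP : P ⊆ (V \ K) \ C) (hD : D ⊆ C) :
    ker V (NrM_SF_sl ((V \ K) \ C) C P D) = K := by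
  ext x
  simp only [ker, NrM_SF_sl, mem_sdiff, mem_union]
  constructor
  · rintro ⟨hx, hn⟩
    by_contra hk
    apply hn
    by_cases hxC : x ∈ C
    · by_cases hxD : x ∈ D
      · exact Or.inl (Or.inr hxD)
      · exact Or.inr (Or.inr ⟨hxC, hxD⟩)
    · by_cases hxP : x ∈ P
      · exact Or.inl (Or.inl hxP)
      · exact Or.inr (Or.inl ⟨⟨⟨hx, hk⟩, hxC⟩, hxP⟩)
  · intro hx
    have h1 := mem_sdiff.mp (hK hx)
    refine ⟨h1.1, ?_⟩
    rintro ((h | h) | (h | h))
    · exact (mem_sdiff.mp (mem_sdiff.mp (hP h)).1).2 hx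
    · exact h1.2 (hD h)
    · exact h.1.1.2 hx
    · exact h1.2 h.1

private theorem NrM_SF_main {V C K P D : Finset ℕ} {t : ℕ} (hC : C ⊆ V) (hK : K ⊆ V \ C)
    (hKt : K.card + 1 = t) (hP : P ⊆ (V \ K) \ C) (hD : D ⊆ C) :
    NrM_SF_sl ((V \ K) \ C) C P D ∈ mains V t := by
  rw [mem_mains]
  refine ⟨?_, ?_, ?_, ?_⟩
  · refine union_subset (fun x hx => ?_) (hD.trans hC)
    exact (mem_sdiff.mp (mem_sdiff.mp (hP hx)).1).1
  · refine union_subset (fun x hx => ?_) (sdiff_subset.trans hC)
    exact (mem_sdiff.mp (mem_sdiff.mp (mem_sdiff.mp hx).1).1).1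
  · rw [Finset.disjoint_left]
    intro x h1 h2
    simp only [NrM_SF_sl, mem_sdiff, mem_union] at h1 h2
    rcases h1 with h1 | h1
    · rcases h2 with h2 | h2
      · exact h2.2 h1
      · exact (mem_sdiff.mp (hP h1)).2 h2.1
    · rcases h2 with h2 | h2
      · exact h2.1.2 (hD h1)
      · exact h2.2 h1
  · rw [NrM_SF_ker hC hK hP hD]
    exact hKt

private theorem NrM_SF_const {V C K P : Finset ℕ} {t : ℕ} {R : Finset (Finset ℕ)}
    (ht : 2 ≤ t) (h : Av V t R) (hC : C ⊆ V) (hK : K ⊆ V \ C)
    (hKt : K.card + 1 = t) (hP : P ⊆ (V \ K) \ C)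
    (hgood : ∀ D ⊆ C, ¬ NR V t R (NrM_SF_sl ((V \ K) \ C) C P D)) (D : Finset ℕ) :
    D ⊆ C → Gs V R (NrM_SF_sl ((V \ K) \ C) C P D) =
      Gs V R (NrM_SF_sl ((V \ K) \ C) C P ∅) := by
  induction D using Finset.induction_on with
  | empty => intro _; rfl
  | insert y D hy ih =>
    intro hD
    have hyC : y ∈ C := hD (mem_insert_self y D)
    have hDC : D ⊆ C := (subset_insert y D).trans hD
    rw [← ih hDC]
    have hyP : y ∉ P := fun hh => (mem_sdiff.mp (hP hh)).2 hyC
    have e1 : (P ∪ insert y D).erase y = P ∪ D := by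
      ext x
      simp only [mem_erase, mem_union, mem_insert]
      constructor
      · rintro ⟨h1, h2 | h2 | h2⟩
        · exact Or.inl h2
        · exact absurd h2 h1
        · exact Or.inr h2
      · intro hx
        refine ⟨?_, ?_⟩
        · rintro rfl
          rcases hx with hx | hx
          · exact hyP hx
          · exact hy hx
        · rcases hx with hx | hx
          · exact Or.inl hx
          · exact Or.inr (Or.inr hx)
    have e2 : insert y (((V \ K) \ C) \ P ∪ (C \ insert y D)) =
        ((V \ K) \ C) \ P ∪ (C \ D) := by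
      ext x
      simp only [mem_insert, mem_union, mem_sdiff, not_or]
      constructor
      · rintro (rfl | h1 | h1)
        · exact Or.inr ⟨hyC, hy⟩
        · exact Or.inl h1
        · exact Or.inr ⟨h1.1, h1.2.2⟩
      · rintro (h1 | h1)
        · exact Or.inr (Or.inl h1)
        · by_cases hxy : x = y
          · exact Or.inl hxy
          · exact Or.inr (Or.inr ⟨h1.1, hxy, h1.2⟩)
    have hm := NrM_SF_main (t := t) hC hK hKt hP hD
    have hg1 := hgood _ hD
    have hg2 := hgood _ hDC
    have hfl := flip_const (P := P ∪ insert y D)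
      (Q := ((V \ K) \ C) \ P ∪ (C \ insert y D)) (y := y) ht h
      (mem_union_right _ (mem_insert_self y D)) hm hg1 (by rw [e1, e2]; exact hg2)
    rw [e1, e2] at hfl
    exact hfl.symm

private theorem NrM_SF_mono {R : Finset (Finset ℕ)} {K P P' : Finset ℕ} {x : ℕ}
    (hPP : P ⊆ P') (hc : Cap R K P x) : Cap R K P' x := by
  obtain ⟨A, hA, h1, h2⟩ := hc
  exact ⟨A, hA, h1, h2.trans (insert_subset_insert x (union_subset_union_right hPP))⟩

theorem small_fiberM {V : Finset ℕ} {t : ℕ} {R : Finset (Finset ℕ)} (ht : 2 ≤ t) (h : Av V t R)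
    {C K : Finset ℕ} (hCV : C ⊆ V) (hCt : C.card = t) (hno : ∀ A ∈ R, ¬ C ⊆ A) (hK : K ⊆ V \ C)
    (hKt : K.card + 1 = t) :
    2 ^ (V \ K).card ≤
      8 ^ C.card * ((mains V t).filter (fun s => ker V s = K ∧ NR V t R s)).card := by
  classical
  set W := (V \ K) \ C with hW
  set good : Finset ℕ → Prop := fun P => ∀ D ⊆ C, ¬ NR V t R (NrM_SF_sl W C P D) with hgd
  have h1 : ∀ P ⊆ W, good P → ∀ x ∈ C, (Cap R K P x ↔ ¬ Cap R K (W \ P) x) := by
    intro P hP hg x hx
    have hcon := NrM_SF_const ht h hCV hK hKt hP hg C (Subset.refl C)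
    rw [← hW] at hcon
    have hm := NrM_SF_main (t := t) hCV hK hKt hP (Subset.refl C)
    rw [← hW] at hm
    have k0 : ker V (NrM_SF_sl W C P ∅) = K := NrM_SF_ker hCV hK hP (empty_subset C)
    have kC : ker V (NrM_SF_sl W C P C) = K := NrM_SF_ker hCV hK hP (Subset.refl C)
    have m1 : x ∈ Gs V R (NrM_SF_sl W C P ∅) ↔ Cap R K P x := by
      rw [mem_Gs, k0]
      simp only [NrM_SF_sl, union_empty, sdiff_empty, mem_union]
      constructor
      · exact fun hh => hh.2
      · exact fun hh => ⟨Or.inr (Or.inr hx), hh⟩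
    have m2 : x ∈ Gs V R (NrM_SF_sl W C P C).swap ↔ Cap R K (W \ P) x := by
      rw [mem_Gs, ker_swap, kC]
      have hCC : C \ C = ∅ := by simp
      simp only [NrM_SF_sl, Prod.swap, hCC, union_empty, mem_union]
      constructor
      · exact fun hh => hh.2
      · exact fun hh => ⟨Or.inr (Or.inr hx), hh⟩
    have hun := gs_union (by omega) h hm (hg C (Subset.refl C))
    have hdi := gs_disj h hm
    have hxm : x ∈ Gs V R (NrM_SF_sl W C P C) ∪ Gs V R (NrM_SF_sl W C P C).swap := by
      rw [hun]
      exact mem_union_left _ (mem_union_right _ hx)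
    rw [← m1, ← m2, ← hcon]
    rw [mem_union] at hxm
    constructor
    · intro h3 h4
      exact Finset.disjoint_left.mp hdi h3 h4
    · intro h3
      rcases hxm with h4 | h4
      · exact h4
      · exact absurd h4 h3
  have h2 : ∀ P ⊆ W, good P → ∃ x ∈ C, ¬ Cap R K P x := by
    intro P hP hg
    have k0 : ker V (NrM_SF_sl W C P ∅) = K := NrM_SF_ker hCV hK hP (empty_subset C)
    have hm := NrM_SF_main (t := t) hCV hK hKt hP (empty_subset C)
    rw [← hW] at hm
    by_contra hcon
    push Not at hcon
    refine hg ∅ (empty_subset C) (nr_threeM (by omega) h hm (E := C) ?_ hCt hno ?_)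
    · simp only [NrM_SF_sl, sdiff_empty]
      exact subset_union_right
    · intro b hb
      rw [k0]
      simp only [NrM_SF_sl, union_empty]
      exact hcon b hb
  have hfkg := fkg_bad W C (fun x P => Cap R K P x)
    (fun x _ P P' hPP _ hc => NrM_SF_mono hPP hc) good h1 h2
  have hbad : (W.powerset.filter (fun P => ¬ good P)).card ≤
      ((mains V t).filter (fun s => ker V s = K ∧ NR V t R s)).card := by
    refine (card_le_card (?_ : _ ⊆ ((mains V t).filter
      (fun s => ker V s = K ∧ NR V t R s)).image (fun s => s.1 \ C))).trans card_image_le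
    intro P hP
    rw [mem_filter, mem_powerset] at hP
    obtain ⟨hPW, hng⟩ := hP
    simp only [hgd, not_forall, not_not] at hng
    obtain ⟨D, hD, hnr⟩ := hng
    rw [mem_image]
    refine ⟨NrM_SF_sl W C P D, ?_, ?_⟩
    · rw [mem_filter]
      exact ⟨NrM_SF_main hCV hK hKt hPW hD, NrM_SF_ker hCV hK hPW hD, hnr⟩
    · ext x
      simp only [NrM_SF_sl, mem_sdiff, mem_union]
      constructor
      · rintro ⟨h3 | h3, h4⟩
        · exact h3
        · exact absurd (hD h3) h4
      · intro h3
        exact ⟨Or.inl h3, (mem_sdiff.mp (hPW h3)).2⟩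
  have hcard : (V \ K).card = W.card + C.card := by
    have hCs : C ⊆ V \ K := fun x hx =>
      mem_sdiff.mpr ⟨hCV hx, fun hk => (mem_sdiff.mp (hK hk)).2 hx⟩
    have h5 := card_sdiff_add_card_eq_card hCs
    rw [← hW] at h5
    exact h5.symm
  rw [hcard, pow_add]
  calc 2 ^ W.card * 2 ^ C.card
      ≤ (4 ^ C.card * (W.powerset.filter (fun P => ¬ good P)).card) * 2 ^ C.card :=
        Nat.mul_le_mul_right _ hfkg
    _ = 8 ^ C.card * (W.powerset.filter (fun P => ¬ good P)).card := by
        have : (8 : ℕ) ^ C.card = 4 ^ C.card * 2 ^ C.card := by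
          rw [← mul_pow]
          norm_num
        rw [this]
        ring
    _ ≤ _ := Nat.mul_le_mul_left _ hbad

theorem small_countM {V : Finset ℕ} {t : ℕ} {R : Finset (Finset ℕ)} (ht : 2 ≤ t) (h : Av V t R)
    {C : Finset ℕ} (hCV : C ⊆ V) (hCt : C.card = t) (hno : ∀ A ∈ R, ¬ C ⊆ A) :
    (V.card - C.card).choose (t - 1) * 2 ^ (V.card - (t - 1)) ≤
      8 ^ C.card * ((slots V t).filter (NR V t R)).card := by
  classical
  have hcard : (V \ C).card = V.card - C.card := card_sdiff_of_subset hCV
  have h1 : ∀ K ∈ (V \ C).powersetCard (t - 1), 2 ^ (V.card - (t - 1)) ≤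
      8 ^ C.card * ((mains V t).filter (fun s => ker V s = K ∧ NR V t R s)).card := by
    intro K hK
    rw [mem_powersetCard] at hK
    have h2 := small_fiberM ht h hCV hCt hno hK.1 (by omega)
    have h3 : (V \ K).card = V.card - (t - 1) := by
      rw [card_sdiff_of_subset (hK.1.trans sdiff_subset), hK.2]
    rwa [h3] at h2
  have h4 := sum_le_sum h1
  rw [sum_const, card_powersetCard, hcard, smul_eq_mul, ← mul_sum] at h4
  refine h4.trans (Nat.mul_le_mul_left _ ?_)
  rw [← card_biUnion]
  · refine card_le_card ?_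
    intro s hs
    simp only [mem_biUnion, mem_filter] at hs ⊢
    obtain ⟨K, -, hs1, -, hs3⟩ := hs
    exact ⟨mains_sub hs1, hs3⟩
  · intro K _ K' _ hKK'
    refine disjoint_left.2 fun s hs hs' => hKK' ?_
    simp only [mem_filter] at hs hs'
    exact hs.2.1.symm.trans hs'.2.1

end Pool.Agent.H26.LT
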