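import Pool.Agent.H26.LT.Defs

/-!
Module Sm.  Second moment.

`R` a family of subsets of `V`, `N` a family of `k`-subsets of `V`, `n = |V|`.  `d_B = #{K ∈ N : K ∩ B = ∅}` for `B ⊆ V`.
`∑_B d_B = |N| 2^(n-k)`, `∑_B d_B² = ∑_{K,K' ∈ N} 2^(n - |K ∪ K'|)`, so
`∑_{B ⊆ V} (d_B - |N|/2^k)² = ∑_{K,K'} (2^(n-|K ∪ K'|) - 2^(n-2k)) ≤ 2^n #{(K,K') ∈ N² : K ∩ K' ≠ ∅}
≤ 2^n |N| k n^(k-1) ≤ 2^n k n^(2k-1)` (`k ≥ 1`; it is `0` for `k = 0`), and by Cauchy-Schwarz
`|dp N R - |R| |N| / 2^k| = |∑_{B ∈ R} (d_B - |N|/2^k)| ≤ √(|R| 2^n k n^(2k-1)) ≤ 2^n n^k √(k/n)`.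
-/

open Finset

namespace Pool.Agent.H26.LT

/-- Number of subsets of `V` disjoint from `W ⊆ V`. -/
private lemma sm_count {V W : Finset ℕ} (hW : W ⊆ V) :
    (V.powerset.filter (fun B => Disjoint W B)).card = 2 ^ (V.card - W.card) := by
  classical
  have h : V.powerset.filter (fun B => Disjoint W B) = (V \ W).powerset := by
    ext B
    simp only [mem_filter, mem_powerset]
    constructor
    · rintro ⟨h1, h2⟩ x hx
      exact mem_sdiff.2 ⟨h1 hx, fun hxW => (Finset.disjoint_left.1 h2) hxW hx⟩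
    · intro h1
      refine ⟨h1.trans sdiff_subset, Finset.disjoint_left.2 fun x hxW hxB => ?_⟩
      exact (mem_sdiff.1 (h1 hxB)).2 hxW
  rw [h, card_powerset, card_sdiff_of_subset hW]

/-- `2^(m - w)` as a real. -/
private lemma sm_pow {m w : ℕ} (h : w ≤ m) : (((2 : ℕ) ^ (m - w) : ℕ) : ℝ) = 2 ^ m / 2 ^ w := by
  push_cast
  rw [pow_sub₀ _ (by norm_num) h]
  rfl

private lemma sm_star (k : ℕ) (V : Finset ℕ) (N : Finset (Finset ℕ)) (hN : ∀ K ∈ N, K ⊆ V ∧ K.card = k)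
    (x : ℕ) : (N.filter (fun K => x ∈ K)).card ≤ V.card ^ (k - 1) := by
  classical
  have h1 : (N.filter (fun K => x ∈ K)).card ≤ (V.powersetCard (k - 1)).card := by
    refine card_le_card_of_injOn (fun K => K.erase x) ?_ ?_
    · intro K hK
      simp only [mem_coe, mem_filter] at hK
      obtain ⟨hKN, hxK⟩ := hK
      simp only [mem_coe, mem_powersetCard]
      exact ⟨(erase_subset _ _).trans (hN K hKN).1, by rw [card_erase_of_mem hxK, (hN K hKN).2]⟩
    · intro K hK K' hK' hE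
      simp only [mem_coe, mem_filter] at hK hK'
      have := congrArg (insert x) hE
      simpa [insert_erase hK.2, insert_erase hK'.2] using this
  rw [card_powersetCard] at h1
  exact h1.trans (Nat.choose_le_pow _ _)

private lemma sm_bad (k : ℕ) (V : Finset ℕ) (N : Finset (Finset ℕ)) (hN : ∀ K ∈ N, K ⊆ V ∧ K.card = k) :
    ((N ×ˢ N).filter (fun p => ¬ Disjoint p.1 p.2)).card ≤ V.card ^ k * (k * V.card ^ (k - 1)) := by
  classical
  have h1 : N.card ≤ V.card ^ k := by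
    have : N ⊆ V.powersetCard k := fun K hK => mem_powersetCard.2 (hN K hK)
    have := card_le_card this
    rw [card_powersetCard] at this
    exact this.trans (Nat.choose_le_pow _ _)
  have h2 : ((N ×ˢ N).filter (fun p => ¬ Disjoint p.1 p.2)).card =
      ∑ K ∈ N, (N.filter (fun K' => ¬ Disjoint K K')).card := by
    rw [card_filter, sum_product]
    refine sum_congr rfl fun K _ => ?_
    rw [card_filter]
  rw [h2]
  have h3 : ∀ K ∈ N, (N.filter (fun K' => ¬ Disjoint K K')).card ≤ k * V.card ^ (k - 1) := by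
    intro K hK
    have hsub : N.filter (fun K' => ¬ Disjoint K K') ⊆ K.biUnion fun x => N.filter (fun K' => x ∈ K') := by
      intro K' hK'
      obtain ⟨h4, h5⟩ := mem_filter.1 hK'
      rw [Finset.not_disjoint_iff] at h5
      obtain ⟨x, hx1, hx2⟩ := h5
      exact mem_biUnion.2 ⟨x, hx1, mem_filter.2 ⟨h4, hx2⟩⟩
    refine (card_le_card hsub).trans (card_biUnion_le.trans ?_)
    refine (sum_le_card_nsmul K _ (V.card ^ (k - 1)) fun x _ => sm_star k V N hN x).trans ?_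
    rw [(hN K hK).2, smul_eq_mul]
  refine (sum_le_card_nsmul N _ _ h3).trans ?_
  rw [smul_eq_mul]
  exact Nat.mul_le_mul_right _ h1

private lemma sm_first (k : ℕ) (V : Finset ℕ) (N : Finset (Finset ℕ)) (hN : ∀ K ∈ N, K ⊆ V ∧ K.card = k) :
    ∑ B ∈ V.powerset, ((N.filter (fun K => Disjoint K B)).card : ℝ) = 2 ^ V.card * (N.card / 2 ^ k) := by
  classical
  have h1 : ∑ B ∈ V.powerset, ((N.filter (fun K => Disjoint K B)).card : ℝ) =
      ∑ K ∈ N, ((V.powerset.filter (fun B => Disjoint K B)).card : ℝ) := by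
    simp only [card_filter, Nat.cast_sum]
    exact sum_comm
  rw [h1]
  have h2 : ∀ K ∈ N, ((V.powerset.filter (fun B => Disjoint K B)).card : ℝ) = 2 ^ V.card / 2 ^ k := by
    intro K hK
    rw [sm_count (hN K hK).1, sm_pow (card_le_card (hN K hK).1), (hN K hK).2]
  rw [sum_congr rfl h2, sum_const, nsmul_eq_mul]
  ring

private lemma sm_second (k : ℕ) (V : Finset ℕ) (N : Finset (Finset ℕ)) (hN : ∀ K ∈ N, K ⊆ V ∧ K.card = k) :
    ∑ B ∈ V.powerset, ((N.filter (fun K => Disjoint K B)).card : ℝ) ^ 2 ≤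
      2 ^ V.card * (N.card / 2 ^ k) ^ 2 +
        2 ^ V.card * ((N ×ˢ N).filter (fun p => ¬ Disjoint p.1 p.2)).card := by
  classical
  have h1 : ∑ B ∈ V.powerset, ((N.filter (fun K => Disjoint K B)).card : ℝ) ^ 2 =
      ∑ p ∈ N ×ˢ N, ((V.powerset.filter (fun B => Disjoint (p.1 ∪ p.2) B)).card : ℝ) := by
    have h2 : ∀ B ∈ V.powerset, ((N.filter (fun K => Disjoint K B)).card : ℝ) ^ 2 =
        ∑ p ∈ N ×ˢ N, if Disjoint (p.1 ∪ p.2) B then (1 : ℝ) else 0 := by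
      intro B _
      rw [card_filter, Nat.cast_sum, sq, sum_mul_sum, sum_product]
      refine sum_congr rfl fun K _ => sum_congr rfl fun K' _ => ?_
      by_cases h3 : Disjoint K B <;> by_cases h4 : Disjoint K' B <;> simp [h3, h4]
    rw [sum_congr rfl h2, sum_comm]
    refine sum_congr rfl fun p _ => ?_
    rw [card_filter, Nat.cast_sum]
    refine sum_congr rfl fun B _ => ?_
    split_ifs <;> simp
  rw [h1]
  have h5 : ∀ p ∈ N ×ˢ N, ((V.powerset.filter (fun B => Disjoint (p.1 ∪ p.2) B)).card : ℝ) ≤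
      2 ^ V.card / 2 ^ (2 * k) + 2 ^ V.card * (if ¬ Disjoint p.1 p.2 then (1 : ℝ) else 0) := by
    intro p hp
    obtain ⟨hp1, hp2⟩ := mem_product.1 hp
    have hs : p.1 ∪ p.2 ⊆ V := union_subset (hN _ hp1).1 (hN _ hp2).1
    rw [sm_count hs, sm_pow (card_le_card hs)]
    by_cases hd : Disjoint p.1 p.2
    · rw [card_union_of_disjoint hd, (hN _ hp1).2, (hN _ hp2).2, ← two_mul]
      simp [hd]
    · simp only [hd, not_false_eq_true, if_true, mul_one]
      have e1 : (2 : ℝ) ^ V.card / 2 ^ (p.1 ∪ p.2).card ≤ 2 ^ V.card :=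
        div_le_self (by positivity) (one_le_pow₀ (by norm_num))
      have e2 : (0 : ℝ) ≤ 2 ^ V.card / 2 ^ (2 * k) := by positivity
      linarith
  refine (sum_le_sum h5).trans (le_of_eq ?_)
  rw [sum_add_distrib, sum_const, card_product, nsmul_eq_mul, ← mul_sum, card_filter, Nat.cast_sum]
  congr 1
  · push_cast
    rw [two_mul, pow_add]
    field_simp
  · congr 1
    refine sum_congr rfl fun p _ => ?_
    split_ifs <;> simp

theorem sm (k : ℕ) {η : ℝ} (hη : 0 < η) : ∃ n₀ : ℕ, ∀ V : Finset ℕ, n₀ ≤ V.card →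
    ∀ R N : Finset (Finset ℕ), (∀ A ∈ R, A ⊆ V) → (∀ K ∈ N, K ⊆ V ∧ K.card = k) →
    |(dp N R : ℝ) - R.card * N.card / 2 ^ k| ≤ η * (V.card : ℝ) ^ k * 2 ^ V.card := by
  classical
  refine ⟨⌈(k : ℝ) / η ^ 2⌉₊ + 1, fun V hV R N hR hN => ?_⟩
  set m : ℕ := V.card with hm
  have hm1 : (1 : ℝ) ≤ m := by
    have : 1 ≤ m := by omega
    exact_mod_cast this
  have hk : (k : ℝ) ≤ η ^ 2 * m := by
    have h1 : (k : ℝ) / η ^ 2 ≤ m := by
      have h2 : (k : ℝ) / η ^ 2 ≤ ⌈(k : ℝ) / η ^ 2⌉₊ := Nat.le_ceil _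
      have h3 : ((⌈(k : ℝ) / η ^ 2⌉₊ : ℕ) : ℝ) ≤ m := by
        have : ⌈(k : ℝ) / η ^ 2⌉₊ ≤ m := by omega
        exact_mod_cast this
      linarith
    rw [div_le_iff₀ (by positivity)] at h1
    linarith
  set c : ℝ := N.card / 2 ^ k with hc
  set f : Finset ℕ → ℝ := fun B => ((N.filter (fun K => Disjoint K B)).card : ℝ) with hf
  have e1 : (dp N R : ℝ) - R.card * N.card / 2 ^ k = ∑ B ∈ R, (f B - c) := by
    rw [dp_eq_sum', sum_sub_distrib, sum_const, nsmul_eq_mul, Nat.cast_sum, hc]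
    ring
  have hRV : R ⊆ V.powerset := fun A hA => mem_powerset.2 (hR A hA)
  have hRc : (R.card : ℝ) ≤ 2 ^ m := by
    have := card_le_card hRV
    rw [card_powerset] at this
    exact_mod_cast this
  have e2 : (∑ B ∈ R, (f B - c)) ^ 2 ≤ 2 ^ m * ∑ B ∈ V.powerset, (f B - c) ^ 2 := by
    refine (sq_sum_le_card_mul_sum_sq).trans ?_
    have h1 : ∑ B ∈ R, (f B - c) ^ 2 ≤ ∑ B ∈ V.powerset, (f B - c) ^ 2 :=
      sum_le_sum_of_subset_of_nonneg hRV fun _ _ _ => sq_nonneg _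
    exact mul_le_mul hRc h1 (sum_nonneg fun _ _ => sq_nonneg _) (by positivity)
  have e3 : ∑ B ∈ V.powerset, (f B - c) ^ 2 ≤
      2 ^ m * ((N ×ˢ N).filter (fun p => ¬ Disjoint p.1 p.2)).card := by
    have h1 : ∑ B ∈ V.powerset, (f B - c) ^ 2 =
        ∑ B ∈ V.powerset, f B ^ 2 - 2 * c * ∑ B ∈ V.powerset, f B + 2 ^ m * c ^ 2 := by
      have : ∀ B ∈ V.powerset, (f B - c) ^ 2 = f B ^ 2 - 2 * c * f B + c ^ 2 := fun B _ => by ring
      rw [sum_congr rfl this, sum_add_distrib, sum_sub_distrib, ← mul_sum, sum_const, card_powerset,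
        nsmul_eq_mul]
      push_cast
      ring
    have h2 := sm_second k V N hN
    have h3 := sm_first k V N hN
    rw [← hm, ← hc] at h2 h3
    rw [h1]
    have h3' : ∑ B ∈ V.powerset, f B = 2 ^ m * c := h3
    have h2' : ∑ B ∈ V.powerset, f B ^ 2 ≤
        2 ^ m * c ^ 2 + 2 ^ m * ((N ×ˢ N).filter (fun p => ¬ Disjoint p.1 p.2)).card := h2
    rw [h3']
    nlinarith
  have e4 : (((N ×ˢ N).filter (fun p => ¬ Disjoint p.1 p.2)).card : ℝ) ≤ (m : ℝ) ^ k * (k * (m : ℝ) ^ (k - 1)) := by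
    exact_mod_cast sm_bad k V N hN
  have e5 : (k : ℝ) * (m : ℝ) ^ (k - 1) ≤ η ^ 2 * (m : ℝ) ^ k := by
    rcases Nat.eq_zero_or_pos k with h0 | h0
    · subst h0
      simp only [Nat.cast_zero, zero_mul]
      positivity
    · calc (k : ℝ) * (m : ℝ) ^ (k - 1) ≤ (η ^ 2 * m) * (m : ℝ) ^ (k - 1) :=
            mul_le_mul_of_nonneg_right hk (by positivity)
        _ = η ^ 2 * ((m : ℝ) ^ (k - 1) * m) := by ring
        _ = η ^ 2 * (m : ℝ) ^ k := by rw [← pow_succ, Nat.sub_add_cancel h0]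
  rw [e1]
  refine abs_le_of_sq_le_sq ?_ (by positivity)
  calc (∑ B ∈ R, (f B - c)) ^ 2 ≤ 2 ^ m * ∑ B ∈ V.powerset, (f B - c) ^ 2 := e2
    _ ≤ 2 ^ m * (2 ^ m * ((N ×ˢ N).filter (fun p => ¬ Disjoint p.1 p.2)).card) :=
        mul_le_mul_of_nonneg_left e3 (by positivity)
    _ ≤ 2 ^ m * (2 ^ m * ((m : ℝ) ^ k * (η ^ 2 * (m : ℝ) ^ k))) := by
        refine mul_le_mul_of_nonneg_left (mul_le_mul_of_nonneg_left ?_ (by positivity)) (by positivity)
        exact e4.trans (mul_le_mul_of_nonneg_left e5 (by positivity))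
    _ = (η * (m : ℝ) ^ k * 2 ^ m) ^ 2 := by ring

end Pool.Agent.H26.LT
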